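import Pool.Agent.H83Pav.FinalII

/-!
MP_039b14_co: the equivalence.
-/

namespace H83Pav

open Finset Filter Topology H38Pav

variable {n : ℕ}

/-- a matroid which is not paving has an `M(G)`-minor -/
theorem hasMG_of_not_paving (M : Matroid (Fin n)) (h : ¬ Paving M) : HasMG M := by
  unfold Paving at h
  push Not at h
  obtain ⟨C, hC, hlt⟩ := h
  obtain ⟨a, haC⟩ := hC.nonempty
  have hI : M.Indep (C \ {a}) := hC.sdiff_singleton_indep haC
  obtain ⟨B, hB, hIB⟩ := hI.exists_isBase_superset
  have haB : a ∉ B := by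
    intro h
    apply hC.dep.not_indep
    refine hB.indep.subset ?_
    intro x hx
    by_cases hxa : x = a
    · rw [hxa]; exact h
    · exact hIB ⟨hx, hxa⟩
  -- two more elements of the base
  have hcard : 2 ≤ (B \ (C \ {a})).ncard := by
    have h1 : B.encard = M.eRank := hB.encard_eq_eRank
    have h2 : (C \ {a}).encard + 1 = C.encard := Set.encard_sdiff_singleton_add_one haC
    have h3 : (B \ (C \ {a})).encard + (C \ {a}).encard = B.encard :=
      Set.encard_sdiff_add_encard_of_subset hIB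
    rw [← h1, ← h3, ← h2] at hlt
    have f1 : (C \ {a}).encard = ((C \ {a}).ncard : ℕ∞) := (Set.toFinite _).cast_ncard_eq.symm
    have f2 : (B \ (C \ {a})).encard = ((B \ (C \ {a})).ncard : ℕ∞) :=
      (Set.toFinite _).cast_ncard_eq.symm
    rw [f1, f2] at hlt
    have : (C \ {a}).ncard + 1 < (B \ (C \ {a})).ncard + (C \ {a}).ncard := by
      exact_mod_cast hlt
    omega
  obtain ⟨b, hb, c, hc, hbc⟩ := (Set.one_lt_ncard (Set.toFinite _)).mp
    (show 1 < (B \ (C \ {a})).ncard by omega)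
  have haE : a ∈ M.E := hC.subset_ground haC
  have hbE : b ∈ M.E := hB.subset_ground hb.1
  have hcE : c ∈ M.E := hB.subset_ground hc.1
  set J : Set (Fin n) := B \ {b, c} with hJ
  have hJi : M.Indep J := hB.indep.subset Set.sdiff_subset
  have hab : a ≠ b := by rintro rfl; exact haB hb.1
  have hac : a ≠ c := by rintro rfl; exact haB hc.1
  have hCJ : C ⊆ insert a J := by
    intro x hx
    by_cases hxa : x = a
    · rw [hxa]; exact Set.mem_insert _ _
    · right
      have hxI : x ∈ C \ {a} := ⟨hx, hxa⟩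
      refine ⟨hIB hxI, ?_⟩
      rintro (h | h)
      · rw [h] at hxI; exact hb.2 hxI
      · rw [Set.mem_singleton_iff.mp h] at hxI; exact hc.2 hxI
  have hsubE : ({a, b, c} : Set (Fin n)) ⊆ (M.contract J).E := by
    rw [Matroid.contract_ground]
    intro x hx
    simp only [Set.mem_insert_iff, Set.mem_singleton_iff] at hx
    rcases hx with rfl | rfl | rfl
    · exact ⟨haE, fun h => haB h.1⟩
    · exact ⟨hbE, fun h => h.2 (Or.inl rfl)⟩
    · exact ⟨hcE, fun h => h.2 (Or.inr rfl)⟩
  let N : Matroid (Fin n) := (M.contract J).restrict {a, b, c}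
  have hNindep : ∀ X, N.Indep X ↔ X ⊆ ({b, c} : Set (Fin n)) := by
    intro X
    show ((M.contract J).restrict {a, b, c}).Indep X ↔ _
    rw [Matroid.restrict_indep_iff, hJi.contract_indep_iff]
    constructor
    · rintro ⟨⟨h1, h2⟩, h3⟩
      have haX : a ∉ X := by
        intro h
        apply hC.dep.not_indep
        refine h2.subset (hCJ.trans ?_)
        rintro x (hx | hx)
        · left; rw [hx]; exact h
        · right; exact hx
      intro x hx
      rcases h3 hx with h | h
      · rw [h] at hx; exact absurd hx haX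
      · exact h
    · intro h
      have hXB : X ∪ J ⊆ B := by
        rintro x (hx | hx)
        · rcases h hx with h1 | h1
          · rw [h1]; exact hb.1
          · rw [Set.mem_singleton_iff.mp h1]; exact hc.1
        · exact hx.1
      refine ⟨⟨?_, hB.indep.subset hXB⟩, h.trans (Set.subset_insert _ _)⟩
      rw [Set.disjoint_left]
      intro x hx hxJ
      exact hxJ.2 (h hx)
  refine ⟨N, ?_, a, b, c, hab, hac, hbc, rfl, ?_⟩
  · show (M.contract J).restrict {a, b, c} ≤m M
    rw [← Matroid.delete_compl hsubE]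
    exact Matroid.contract_delete_isMinor _ _ _
  · intro B'
    constructor
    · intro hB'
      have h1 := (hNindep B').mp hB'.indep
      exact hB'.eq_of_subset_indep ((hNindep _).mpr subset_rfl) h1
    · rintro rfl
      obtain ⟨B'', hB'', hs⟩ := ((hNindep {b, c}).mpr subset_rfl).exists_isBase_superset
      have h1 := (hNindep B'').mp hB''.indep
      rw [Set.Subset.antisymm hs h1]
      exact hB''

theorem isom_dual {M N : Mat n} (h : Isom M.1 N.1) : Isom (dual M).1 (dual N).1 := by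
  obtain ⟨σ, hσ⟩ := h
  refine ⟨σ, fun B => ?_⟩
  show (M.1✶).IsBase B ↔ (N.1✶).IsBase (σ '' B)
  rw [Matroid.dual_isBase_iff (subE M _), Matroid.dual_isBase_iff (subE N _), M.2, N.2, hσ,
    ← Set.compl_eq_univ_sdiff, ← Set.compl_eq_univ_sdiff, Set.image_compl_eq σ.bijective]

/-- the class of the dual matroids -/
noncomputable def dcls (c : Cls n) : Cls n := cls (dual (rep c))

theorem dcls_cls (M : Mat n) : dcls (cls M) = cls (dual M) := by
  unfold dcls
  rw [cls_eq]
  exact isom_dual (cls_eq.mp (cls_rep _))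

theorem dcls_dcls (c : Cls n) : dcls (dcls c) = c := by
  conv_lhs => rw [← cls_rep c]
  rw [dcls_cls, dcls_cls, dual_dual, cls_rep]

/-- `M` has a circuit with exactly `r(M) - 1` elements which is disjoint from a cocircuit with at
least `r(M✶) - 1` elements (so the circuit lies in a hyperplane with at most `r(M) + 1` elements) -/
def Crit (M : Matroid (Fin n)) : Prop :=
  ∃ C D, M.IsCircuit C ∧ M✶.IsCircuit D ∧ Disjoint C D ∧ C.encard + 1 = M.eRank ∧
    M✶.eRank ≤ D.encard + 1

/-- some member `M` of the class satisfies `Crit M` or has a circuit with fewer than `g` elements -/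
def Shallow (g : ℕ) (c : Cls n) : Prop :=
  ∃ M : Mat n, cls M = c ∧ (Crit M.1 ∨ ∃ C, M.1.IsCircuit C ∧ C.encard < g)

/-- some member `M` of the class has an `M(G)`-minor, all circuits and cocircuits of `M` have at
least `g` elements, and neither `Crit M` nor `Crit M✶` holds -/
def CleanMG (g : ℕ) (c : Cls n) : Prop :=
  ∃ M : Mat n, cls M = c ∧ HasMG M.1 ∧ (∀ C, M.1.IsCircuit C → (g : ℕ∞) ≤ C.encard) ∧
    (∀ C, M.1✶.IsCircuit C → (g : ℕ∞) ≤ C.encard) ∧ ¬ Crit M.1 ∧ ¬ Crit M.1✶

theorem noShallow_of {M : Mat n} (h1 : ¬ Crit M.1) (h2 : ¬ Crit M.1✶) : NoShallow 2 M := by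
  intro X hX
  -- a nonbasis which is not deep is a circuit
  have key : ∀ N : Mat n, ¬ Crit N.1 → ∀ Y ∈ NB N, Y ∉ Low 2 N → Yᶜ ∉ Low 2 (dual N) →
      Circ N Y := by
    intro N hN Y hY hlow hlow'
    have hY1 := mem_NB.mp hY
    have hni : ¬ N.1.Indep (Y : Set (Fin n)) := fun hi => hY1.2 (indep_isBase hi hY1.1)
    obtain ⟨C, hCY, hC⟩ := exists_circ hni
    have h5 := Finset.card_le_card hCY
    have h6 : ¬ C.card + 2 ≤ rk N := fun h => hlow (mem_Low.mpr ⟨hY1.1, C, hCY, hC, h⟩)
    by_cases h7 : C.card + 1 = rk N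
    · exfalso
      have hYd : Yᶜ ∈ NB (dual N) := mem_NB_dual.mpr hY
      have hYd1 := mem_NB.mp hYd
      have hnd : ¬ (dual N).1.Indep ((Yᶜ : Finset (Fin n)) : Set (Fin n)) :=
        fun hi => hYd1.2 (indep_isBase hi hYd1.1)
      obtain ⟨D, hDY, hD⟩ := exists_circ hnd
      have h8 : ¬ D.card + 2 ≤ rk (dual N) :=
        fun h => hlow' (mem_Low.mpr ⟨hYd1.1, D, hDY, hD, h⟩)
      apply hN
      refine ⟨(C : Set (Fin n)), (D : Set (Fin n)), hC, hD, ?_, ?_, ?_⟩
      · rw [Finset.disjoint_coe, Finset.disjoint_left]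
        intro z hz hz'
        exact Finset.mem_compl.mp (hDY hz') (hCY hz)
      · rw [← cast_rk, Set.encard_coe_eq_coe_finsetCard]
        exact_mod_cast h7
      · show (dual N).1.eRank ≤ _
        rw [← cast_rk, Set.encard_coe_eq_coe_finsetCard]
        have : rk (dual N) ≤ D.card + 1 := by omega
        exact_mod_cast this
    · have h8 : C = Y := Finset.eq_of_subset_of_card_le hCY (by omega)
      rwa [h8] at hC
  by_cases hK : X ∈ KK 2 M
  · exact Or.inl hK
  · right
    have hl1 : X ∉ Low 2 M := fun h => hK (mem_KK.mpr (Or.inl h))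
    have hl2 : Xᶜ ∉ Low 2 (dual M) := fun h => hK (mem_KK.mpr (Or.inr h))
    refine ⟨key M h1 X hX hl1 hl2, key (dual M) h2 Xᶜ (mem_NB_dual.mpr hX) hl2 ?_⟩
    rw [compl_compl, dual_dual]; exact hl1

theorem wide_of {g : ℕ} {M : Mat n}
    (h1 : ∀ C, M.1.IsCircuit C → (g : ℕ∞) ≤ C.encard)
    (h2 : ∀ C, M.1✶.IsCircuit C → (g : ℕ∞) ≤ C.encard) : Wide g M := by
  intro C hC
  have : (g : ℕ∞) ≤ (C : Set (Fin n)).encard := by
    rcases hC with h | h
    · exact h1 _ h
    · exact h2 _ h
  rw [Set.encard_coe_eq_coe_finsetCard] at this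
  exact_mod_cast this

theorem PPd_of_CleanMG {g : ℕ} {c : Cls n} (h : CleanMG g c) : PPd 2 n g c := by
  obtain ⟨M, h1, h2, h3, h4, h5, h6⟩ := h
  exact ⟨M, h1, not_paving_of_hasMG M.1 h2, wide_of h3 h4, noShallow_of h5 h6⟩

theorem cntP_dcls (P : Cls n → Prop) : cntP n (fun c => P (dcls c)) = cntP n P := by
  rw [cntP_eq, cntP_eq]
  refine Nat.card_congr ⟨fun c => ⟨dcls c.1, c.2⟩, fun c => ⟨dcls c.1, ?_⟩, fun c => ?_, fun c => ?_⟩
  · show P (dcls (dcls c.1))
    rw [dcls_dcls]; exact c.2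
  · exact Subtype.ext (dcls_dcls c.1)
  · exact Subtype.ext (dcls_dcls c.1)

theorem cntP_or_le (P Q : Cls n → Prop) :
    cntP n (fun c => P c ∨ Q c) ≤ cntP n P + cntP n Q := by
  classical
  rw [cntP_eq', cntP_eq', cntP_eq']
  refine (Finset.card_le_card ?_).trans (Finset.card_union_le _ _)
  intro c hc
  rcases (Finset.mem_filter.mp hc).2 with h | h
  · exact Finset.mem_union_left _ (Finset.mem_filter.mpr ⟨Finset.mem_univ _, h⟩)
  · exact Finset.mem_union_right _ (Finset.mem_filter.mpr ⟨Finset.mem_univ _, h⟩)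

theorem hasMG_cases (g : ℕ) (c : Cls n) (h : c.HasMG) :
    PPd 2 n g c ∨ (Shallow g c ∨ Shallow g (dcls c)) := by
  obtain ⟨M, hM, hMG⟩ := h
  by_cases h1 : Crit M.1 ∨ ∃ C, M.1.IsCircuit C ∧ C.encard < g
  · exact Or.inr (Or.inl ⟨M, hM, h1⟩)
  by_cases h2 : Crit M.1✶ ∨ ∃ C, M.1✶.IsCircuit C ∧ C.encard < g
  · refine Or.inr (Or.inr ⟨dual M, ?_, h2⟩)
    rw [← hM, dcls_cls]
  · push Not at h1 h2
    exact Or.inl (PPd_of_CleanMG ⟨M, hM, hMG, h1.2, h2.2, h1.1, h2.1⟩)

theorem cntP_hasMG_le (g : ℕ) : cntP n Cls.HasMG ≤ cntP n (PPd 2 n g) + 2 * cntP n (Shallow g) := by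
  have h1 : cntP n Cls.HasMG ≤
      cntP n (fun c => PPd 2 n g c ∨ (Shallow g c ∨ Shallow g (dcls c))) :=
    cntP_mono (hasMG_cases g)
  have h2 := cntP_or_le (n := n) (PPd 2 n g) (fun c => Shallow g c ∨ Shallow g (dcls c))
  have h3 := cntP_or_le (n := n) (Shallow g) (fun c => Shallow g (dcls c))
  rw [cntP_dcls] at h3
  omega

/-- shallow classes are not paving or have small rank -/
theorem shallow_cases (g : ℕ) (c : Cls n) (h : Shallow g c) : c.HasMG ∨ c.rk < g := by
  obtain ⟨M, hM, h⟩ := h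
  have key : ∀ C, M.1.IsCircuit C → C.encard < M.1.eRank → c.HasMG := by
    intro C hC hlt
    refine ⟨M, hM, hasMG_of_not_paving M.1 (fun hp => ?_)⟩
    exact absurd (hp C hC) (not_le.mpr hlt)
  rcases h with ⟨C, _, hC, _, _, h1, _⟩ | ⟨C, hC, h1⟩
  · left
    refine key C hC ?_
    rw [← h1]
    have hf : C.encard = (C.ncard : ℕ∞) := (Set.toFinite _).cast_ncard_eq.symm
    rw [hf]
    have : C.ncard < C.ncard + 1 := Nat.lt_succ_self _
    exact_mod_cast this
  · by_cases h2 : C.encard < M.1.eRank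
    · exact Or.inl (key C hC h2)
    · right
      have h3 : M.1.eRank < g := (not_lt.mp h2).trans_lt h1
      rw [← cast_rk] at h3
      have h4 : rk M < g := by exact_mod_cast h3
      rw [← hM, rk_cls]; exact h4

/-- ranks at most `n / 4` are rare -/
theorem eventually_low_rank (g : ℕ → ℕ) (hg4 : ∀ᶠ n : ℕ in atTop, 4 * g n ≤ n) :
    ∀ᶠ n : ℕ in atTop, (cntP n (fun c => c.rk < g n) : ℝ) ≤
      ((n.factorial : ℝ) * (((n : ℝ) + 1) / 2 ^ (n * n))) * cntP n (fun _ => True) := by
  filter_upwards [eventually_far, eventually_room, hg4, eventually_ge_atTop 1]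
    with n h1 h2 h3 hn
  obtain ⟨_, hroom⟩ := h2
  have hsum : (cntP n (fun c => c.rk < g n) : ℝ) =
      ∑ r ∈ Finset.range (n + 1), (cntP n (fun c => c.rk = r ∧ c.rk < g n) : ℝ) := by
    rw [cntP_le_sum]; push_cast; rfl
  rw [hsum]
  set R : ℝ := (n.factorial : ℝ) * cntP n (fun _ => True) / 2 ^ (n * n) with hR
  have hR0 : 0 ≤ R := by rw [hR]; positivity
  calc ∑ r ∈ Finset.range (n + 1), (cntP n (fun c => c.rk = r ∧ c.rk < g n) : ℝ)
      ≤ ∑ _r ∈ Finset.range (n + 1), R := by
        refine Finset.sum_le_sum (fun r hr => ?_)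
        have hr' : r ≤ n := by have := Finset.mem_range.mp hr; omega
        by_cases hrg : r < g n
        · exact (cntP_rank_le (n := n) r (fun c => c.rk < g n)).trans
            (hroom _ (h1 r hr' (by omega)))
        · have : cntP n (fun c => c.rk = r ∧ c.rk < g n) = 0 := by
            rw [cntP_eq]
            have : IsEmpty {c : Cls n // c.rk = r ∧ c.rk < g n} :=
              ⟨fun c => hrg (by have := c.2.1; have := c.2.2; omega)⟩
            exact Nat.card_of_isEmpty
          rw [this]; push_cast; exact hR0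
    _ = _ := by
        rw [Finset.sum_const, Finset.card_range, nsmul_eq_mul, hR]
        push_cast; ring

/-- **the equivalence** -/
theorem iff_of_main (g : ℕ → ℕ) (hg4 : ∀ᶠ n : ℕ in atTop, 4 * g n ≤ n)
    (hmain : Tendsto (fun n : ℕ => (cntP n (PPd 2 n (g n)) : ℝ) / cntP n (fun _ => True))
      atTop (𝓝 0)) :
    Tendsto (fun n : ℕ => (cntP n Cls.HasMG : ℝ) / cntP n (fun _ => True)) atTop (𝓝 0) ↔
    Tendsto (fun n : ℕ => (cntP n (Shallow (g n)) : ℝ) / cntP n (fun _ => True)) atTop (𝓝 0) := by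
  constructor
  · intro h
    have hs := h.add tendsto_aux2
    rw [add_zero] at hs
    refine tendsto_of_tendsto_of_tendsto_of_le_of_le' tendsto_const_nhds hs
      (Eventually.of_forall (fun n => by positivity)) ?_
    filter_upwards [eventually_low_rank g hg4, eventually_room] with n h1 h2
    have hm0 : (0 : ℝ) < cntP n (fun _ => True) := by exact_mod_cast h2.1
    have h3 : cntP n (Shallow (g n)) ≤ cntP n Cls.HasMG + cntP n (fun c => c.rk < g n) :=
      (cntP_mono (shallow_cases (g n))).trans (cntP_or_le _ _)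
    have h4 : (cntP n (Shallow (g n)) : ℝ) ≤
        cntP n Cls.HasMG + cntP n (fun c => c.rk < g n) := by exact_mod_cast h3
    rw [div_le_iff₀ hm0, add_mul, div_mul_cancel₀ _ hm0.ne']
    linarith
  · intro h
    have hs := hmain.add (h.const_mul 2)
    rw [mul_zero, add_zero] at hs
    refine tendsto_of_tendsto_of_tendsto_of_le_of_le' tendsto_const_nhds hs
      (Eventually.of_forall (fun n => by positivity)) (Eventually.of_forall (fun n => ?_))
    have h1 : (cntP n Cls.HasMG : ℝ) ≤ cntP n (PPd 2 n (g n)) + 2 * cntP n (Shallow (g n)) := by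
      exact_mod_cast cntP_hasMG_le (g n)
    show (cntP n Cls.HasMG : ℝ) / cntP n (fun _ => True) ≤
      (cntP n (PPd 2 n (g n)) : ℝ) / cntP n (fun _ => True) +
        2 * ((cntP n (Shallow (g n)) : ℝ) / cntP n (fun _ => True))
    calc (cntP n Cls.HasMG : ℝ) / cntP n (fun _ => True) ≤
          (cntP n (PPd 2 n (g n)) + 2 * cntP n (Shallow (g n))) / cntP n (fun _ => True) :=
          div_le_div_of_nonneg_right h1 (by positivity)
      _ = _ := by ring

end H83Pav
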