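import Pool.Agent.H83Pav.Count

/-!
MP_039b14_co: automorphisms.
-/

namespace H83Pav

open Finset H38Pav

variable {n : ℕ}

theorem act_mul (σ τ : Equiv.Perm (Fin n)) (M : Mat n) : act (σ * τ) M = act σ (act τ M) := by
  apply Subtype.ext
  refine Matroid.ext_isBase (by rw [(act (σ * τ) M).2, (act σ (act τ M)).2]) (fun B _ => ?_)
  have hB : (σ * τ) '' ((σ * τ).symm '' B) = B := Equiv.image_symm_image (σ * τ) B
  have h2 : (σ * τ) '' ((σ * τ).symm '' B) = σ '' (τ '' ((σ * τ).symm '' B)) := by
    conv_rhs => rw [← Set.image_comp]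
    rfl
  have h3 := act_isBase (σ * τ) M ((σ * τ).symm '' B)
  have h4 := act_isBase σ (act τ M) (τ '' ((σ * τ).symm '' B))
  have h5 := act_isBase τ M ((σ * τ).symm '' B)
  rw [hB] at h3
  rw [← h2, hB] at h4
  rw [h3, h4, h5]

theorem act_one (M : Mat n) : act 1 M = M := by
  apply Subtype.ext
  refine Matroid.ext_isBase (by rw [(act 1 M).2, M.2]) (fun B _ => ?_)
  have h := act_isBase 1 M B
  have h2 : (1 : Equiv.Perm (Fin n)) '' B = B := by simp
  rwa [h2] at h

theorem act_inv {σ : Equiv.Perm (Fin n)} {M N : Mat n} (h : M = act σ N) : act σ⁻¹ M = N := by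
  rw [h, ← act_mul, inv_mul_cancel, act_one]

open Classical in
/-- the automorphisms of a matroid -/
noncomputable def autF (M : Mat n) : Finset (Equiv.Perm (Fin n)) :=
  univ.filter (fun s => act s M = M)

theorem mem_autF {M : Mat n} {s : Equiv.Perm (Fin n)} : s ∈ autF M ↔ act s M = M := by
  simp [autF]

open Classical in
/-- orbit counting -/
theorem factorial_mul_image_le (T : Finset (Mat n)) (hT : ∀ M ∈ T, ∀ s, act s M ∈ T) :
    n.factorial * (T.image cls).card ≤ ∑ M ∈ T, (autF M).card := by
  have h2 : n.factorial = (univ : Finset (Equiv.Perm (Fin n))).card := by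
    rw [Finset.card_univ, Fintype.card_perm, Fintype.card_fin]
  rw [h2, mul_comm, ← Finset.card_product, ← Finset.card_sigma]
  have hrep : ∀ c : Cls n, ∃ M : Mat n, c ∈ T.image cls → M ∈ T ∧ cls M = c := by
    intro c
    by_cases hc : c ∈ T.image cls
    · obtain ⟨M, hM, h⟩ := Finset.mem_image.mp hc
      exact ⟨M, fun _ => ⟨hM, h⟩⟩
    · exact ⟨rep c, fun h => absurd h hc⟩
  choose f hf using hrep
  have hex : ∀ M : Mat n, ∃ τ : Equiv.Perm (Fin n), cls M ∈ T.image cls →
      M = act τ (f (cls M)) := by
    intro M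
    by_cases hc : cls M ∈ T.image cls
    · obtain ⟨τ, hτ⟩ := act_of_isom (cls_eq.mp (hf (cls M) hc).2)
      exact ⟨τ, fun _ => hτ⟩
    · exact ⟨1, fun h => absurd h hc⟩
  choose t ht using hex
  refine Finset.card_le_card_of_injOn
    (fun p => (⟨act p.2 (f p.1), p.2 * (t (act p.2 (f p.1)))⁻¹⟩ :
      (_ : Mat n) × Equiv.Perm (Fin n))) (fun p hp => ?_) ?_
  · obtain ⟨hp1, _⟩ := Finset.mem_product.mp (Finset.mem_coe.mp hp)
    obtain ⟨h3, h4⟩ := hf p.1 hp1
    have h5 : cls (act p.2 (f p.1)) = p.1 := by rw [cls_act, h4]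
    have h6 := ht (act p.2 (f p.1)) (by rw [h5]; exact hp1)
    rw [h5] at h6
    refine Finset.mem_coe.mpr (Finset.mem_sigma.mpr ⟨hT _ h3 _, ?_⟩)
    rw [mem_autF]
    show act (p.2 * (t (act p.2 (f p.1)))⁻¹) (act p.2 (f p.1)) = act p.2 (f p.1)
    rw [act_mul, act_inv h6]
  · intro p hp q hq h
    obtain ⟨hp1, _⟩ := Finset.mem_product.mp (Finset.mem_coe.mp hp)
    obtain ⟨hq1, _⟩ := Finset.mem_product.mp (Finset.mem_coe.mp hq)
    obtain ⟨_, h4⟩ := hf p.1 hp1
    obtain ⟨_, h4'⟩ := hf q.1 hq1
    have h5 : cls (act p.2 (f p.1)) = p.1 := by rw [cls_act, h4]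
    have h5' : cls (act q.2 (f q.1)) = q.1 := by rw [cls_act, h4']
    have h6 : act p.2 (f p.1) = act q.2 (f q.1) := congrArg Sigma.fst h
    have h7 : p.2 * (t (act p.2 (f p.1)))⁻¹ = q.2 * (t (act q.2 (f q.1)))⁻¹ :=
      congrArg Sigma.snd h
    have h8 : p.1 = q.1 := by rw [← h5, ← h5', h6]
    rw [h6] at h7
    exact Prod.ext h8 (mul_right_cancel h7)

/-- a group with more than `n ^ m` elements contains a permutation which moves more than `m`
points -/
theorem exists_large_support (hn : 0 < n) {m : ℕ} {M : Mat n} (h : n ^ m < (autF M).card) :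
    ∃ s ∈ autF M, m < s.support.card := by
  classical
  by_contra hcon
  push Not at hcon
  refine absurd h (not_lt.mpr ?_)
  rcases le_or_gt m n with hmn | hmn
  · have hex : ∀ s : Equiv.Perm (Fin n), ∃ g : Fin m → Fin n, s.support.card ≤ m →
        ∃ S : Finset (Fin n), s.support ⊆ S ∧ ∃ hS : S.card = m,
          g = fun i => s (S.orderEmbOfFin hS i) := by
      intro s
      by_cases hs : s.support.card ≤ m
      · obtain ⟨S, h1, h2⟩ := Finset.exists_superset_card_eq hs (by simpa using hmn)
        exact ⟨_, fun _ => ⟨S, h1, h2, rfl⟩⟩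
      · exact ⟨fun _ => ⟨0, hn⟩, fun h => absurd h hs⟩
    choose g hg using hex
    have hcard : (univ : Finset (Fin m → Fin n)).card = n ^ m := by
      rw [Finset.card_univ, Fintype.card_fun, Fintype.card_fin, Fintype.card_fin]
    rw [← hcard]
    refine Finset.card_le_card_of_injOn g (fun _ _ => Finset.mem_coe.mpr (Finset.mem_univ _)) ?_
    intro s hs s' hs' hss
    obtain ⟨S, h1, h2, h3⟩ := hg s (hcon s (Finset.mem_coe.mp hs))
    obtain ⟨S', h1', h2', h3'⟩ := hg s' (hcon s' (Finset.mem_coe.mp hs'))
    have himg : ∀ (u : Equiv.Perm (Fin n)) (U : Finset (Fin n)) (hU : U.card = m),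
        u.support ⊆ U → Finset.univ.image (fun i => u (U.orderEmbOfFin hU i)) = U := by
      intro u U hU hsub
      have e1 : Finset.univ.image (fun i => u (U.orderEmbOfFin hU i)) = U.image u := by
        ext y
        simp only [Finset.mem_image, Finset.mem_univ, true_and]
        constructor
        · rintro ⟨i, rfl⟩
          exact ⟨_, Finset.orderEmbOfFin_mem U hU i, rfl⟩
        · rintro ⟨x, hx, rfl⟩
          have hx' : x ∈ Set.range (U.orderEmbOfFin hU) := by
            rw [Finset.range_orderEmbOfFin]; exact hx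
          obtain ⟨i, rfl⟩ := hx'
          exact ⟨i, rfl⟩
      rw [e1]
      refine Finset.eq_of_subset_of_card_le (fun y hy => ?_) ?_
      · obtain ⟨x, hx, rfl⟩ := Finset.mem_image.mp hy
        by_cases hxs : x ∈ u.support
        · exact hsub (Equiv.Perm.apply_mem_support.mpr hxs)
        · rw [Equiv.Perm.notMem_support.mp hxs]; exact hx
      · rw [Finset.card_image_of_injective _ u.injective]
    have hSS : S = S' := by
      rw [← himg s S h2 h1, ← himg s' S' h2' h1', ← h3, ← h3', hss]
    subst hSS
    ext x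
    congr 1
    by_cases hx : x ∈ S
    · have hx' : x ∈ Set.range (S.orderEmbOfFin h2) := by
        rw [Finset.range_orderEmbOfFin]; exact hx
      obtain ⟨i, rfl⟩ := hx'
      have := congrFun (h3.symm.trans (hss.trans h3')) i
      exact this
    · rw [Equiv.Perm.notMem_support.mp (fun h => hx (h1 h)),
        Equiv.Perm.notMem_support.mp (fun h => hx (h1' h))]
  · calc (autF M).card ≤ (univ : Finset (Equiv.Perm (Fin n))).card :=
          Finset.card_le_card (Finset.subset_univ _)
      _ = n.factorial := by rw [Finset.card_univ, Fintype.card_perm, Fintype.card_fin]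
      _ ≤ n ^ n := Nat.factorial_le_pow n
      _ ≤ n ^ m := Nat.pow_le_pow_right hn hmn.le

/-- a permutation without fixed points in `S` has a displaced third of `S` -/
theorem exists_displaced {α : Type*} (f : Equiv.Perm α) (S : Finset α)
    (hS : ∀ x ∈ S, f x ≠ x) :
    ∃ P ⊆ S, (∀ x ∈ P, f x ∉ P) ∧ S.card ≤ 3 * P.card := by
  classical
  obtain ⟨P, hP, hmax⟩ := Finset.exists_max_image
    (S.powerset.filter (fun P => ∀ x ∈ P, f x ∉ P)) Finset.card
    ⟨∅, by simp⟩
  simp only [Finset.mem_filter, Finset.mem_powerset] at hP hmax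
  obtain ⟨hPS, hP2⟩ := hP
  refine ⟨P, hPS, hP2, ?_⟩
  have hsub : S ⊆ P ∪ P.image f ∪ P.image f.symm := by
    intro x hx
    by_contra hcon
    simp only [Finset.mem_union, not_or] at hcon
    obtain ⟨⟨h1, h2⟩, h3⟩ := hcon
    have h4 : insert x P ⊆ S ∧ ∀ y ∈ insert x P, f y ∉ insert x P := by
      refine ⟨Finset.insert_subset hx hPS, ?_⟩
      intro y hy hfy
      rcases Finset.mem_insert.mp hy with rfl | hy
      · rcases Finset.mem_insert.mp hfy with h | h
        · exact hS _ hx h
        · exact h3 (Finset.mem_image.mpr ⟨_, h, by simp⟩)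
      · rcases Finset.mem_insert.mp hfy with h | h
        · exact h2 (Finset.mem_image.mpr ⟨y, hy, h⟩)
        · exact hP2 y hy h
    have h5 := hmax _ h4
    rw [Finset.card_insert_of_notMem h1] at h5
    omega
  calc S.card ≤ (P ∪ P.image f ∪ P.image f.symm).card := Finset.card_le_card hsub
    _ ≤ (P ∪ P.image f).card + (P.image f.symm).card := Finset.card_union_le _ _
    _ ≤ P.card + (P.image f).card + (P.image f.symm).card := by
        have := Finset.card_union_le P (P.image f)
        omega
    _ = 3 * P.card := by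
        rw [Finset.card_image_of_injective _ f.injective,
          Finset.card_image_of_injective _ f.symm.injective]
        ring

/-! invariance of the deep nonbases -/

theorem act_indep (σ : Equiv.Perm (Fin n)) (M : Mat n) (I : Set (Fin n)) :
    (act σ M).1.Indep (σ '' I) ↔ M.1.Indep I := by
  show (M.1.mapEquiv σ).Indep (σ '' I) ↔ M.1.Indep I
  rw [Matroid.mapEquiv_indep_iff, ← Set.image_comp]
  simp

theorem act_dep (σ : Equiv.Perm (Fin n)) (M : Mat n) (I : Set (Fin n)) :
    (act σ M).1.Dep (σ '' I) ↔ M.1.Dep I := by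
  rw [Matroid.dep_iff, Matroid.dep_iff, act_indep, (act σ M).2, M.2]
  simp

theorem act_circuit (σ : Equiv.Perm (Fin n)) (M : Mat n) (C : Set (Fin n)) :
    (act σ M).1.IsCircuit (σ '' C) ↔ M.1.IsCircuit C := by
  rw [Matroid.isCircuit_iff, Matroid.isCircuit_iff, act_dep]
  refine and_congr_right (fun _ => ?_)
  constructor
  · intro h D hD hDC
    have h1 := h ((act_dep σ M D).mpr hD) (Set.image_mono hDC)
    exact σ.injective.image_injective h1
  · intro h D hD hDC
    have hB : σ '' (σ.symm '' D) = D := Equiv.image_symm_image σ D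
    rw [← hB] at hD hDC ⊢
    have h2 : σ.symm '' D ⊆ C := (Set.image_subset_image_iff σ.injective).mp hDC
    rw [h ((act_dep σ M _).mp hD) h2]

theorem Circ_act (σ : Equiv.Perm (Fin n)) (M : Mat n) (C : Finset (Fin n)) :
    Circ (act σ M) (C.image σ) ↔ Circ M C := by
  unfold Circ
  rw [Finset.coe_image, act_circuit]

theorem dual_act (σ : Equiv.Perm (Fin n)) (M : Mat n) : dual (act σ M) = act σ (dual M) := by
  apply Subtype.ext
  refine Matroid.ext_isBase (by rw [(dual (act σ M)).2, (act σ (dual M)).2]) (fun B _ => ?_)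
  have hB : σ '' (σ.symm '' B) = B := Equiv.image_symm_image σ B
  rw [← hB, act_isBase]
  generalize σ.symm '' B = D
  show (act σ M).1✶.IsBase (σ '' D) ↔ M.1✶.IsBase D
  rw [Matroid.dual_isBase_iff (by rw [(act σ M).2]; exact Set.subset_univ _),
    Matroid.dual_isBase_iff (by rw [M.2]; exact Set.subset_univ _), (act σ M).2, M.2,
    ← act_isBase σ M]
  have h1 : (Set.univ : Set (Fin n)) \ (σ '' D) = σ '' (Set.univ \ D) := by
    rw [Set.image_sdiff σ.injective, Set.image_univ, σ.surjective.range_eq]
  rw [h1]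

theorem mem_Low_act (σ : Equiv.Perm (Fin n)) (d : ℕ) (M : Mat n) (X : Finset (Fin n)) :
    X.image σ ∈ Low d (act σ M) ↔ X ∈ Low d M := by
  rw [mem_Low, mem_Low, rk_act, Finset.card_image_of_injective _ σ.injective]
  refine and_congr_right (fun _ => ?_)
  constructor
  · rintro ⟨C, h1, h2, h3⟩
    obtain ⟨D, rfl⟩ := exists_image σ C
    rw [Finset.card_image_of_injective _ σ.injective] at h3
    exact ⟨D, (Finset.image_subset_image_iff σ.injective).mp h1, (Circ_act σ M D).mp h2, h3⟩
  · rintro ⟨D, h1, h2, h3⟩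
    refine ⟨D.image σ, Finset.image_subset_image h1, (Circ_act σ M D).mpr h2, ?_⟩
    rwa [Finset.card_image_of_injective _ σ.injective]

theorem compl_image (σ : Equiv.Perm (Fin n)) (X : Finset (Fin n)) :
    (X.image σ)ᶜ = Xᶜ.image σ := by
  ext y
  obtain ⟨x, rfl⟩ := σ.surjective y
  simp

theorem mem_KK_act (σ : Equiv.Perm (Fin n)) (d : ℕ) (M : Mat n) (X : Finset (Fin n)) :
    X.image σ ∈ KK d (act σ M) ↔ X ∈ KK d M := by
  rw [mem_KK, mem_KK, mem_Low_act, compl_image, dual_act, mem_Low_act]

theorem mem_NB_act (σ : Equiv.Perm (Fin n)) (M : Mat n) (X : Finset (Fin n)) :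
    X.image σ ∈ NB (act σ M) ↔ X ∈ NB M := by
  rw [NB_act, mem_sh]

/-! counting lemmas -/

/-- the number of small subsets -/
theorem card_small_subsets {α : Type*} [DecidableEq α] [Fintype α] (k : ℕ)
    (F : Finset (Finset α)) (hF : ∀ X ∈ F, X.card ≤ k) :
    F.card ≤ (Fintype.card α + 1) ^ k := by
  classical
  have hex : ∀ X : Finset α, ∃ g : Fin k → Option α, X ∈ F → ∀ x, x ∈ X ↔ ∃ i, g i = some x := by
    intro X
    by_cases hX : X ∈ F
    · have h1 := hF X hX
      let e := X.equivFin
      refine ⟨fun i => if h : (i : ℕ) < X.card then some (e.symm ⟨i, h⟩ : α) else none,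
        fun _ x => ⟨fun hx => ?_, ?_⟩⟩
      · refine ⟨⟨e ⟨x, hx⟩, lt_of_lt_of_le (e ⟨x, hx⟩).2 h1⟩, ?_⟩
        simp
      · rintro ⟨i, hi⟩
        beta_reduce at hi
        by_cases h : (i : ℕ) < X.card
        · rw [dif_pos h] at hi
          have := Option.some.inj hi
          rw [← this]
          exact (e.symm ⟨i, h⟩).2
        · rw [dif_neg h] at hi
          exact absurd hi (by simp)
    · exact ⟨fun _ => none, fun h => absurd h hX⟩
  choose g hg using hex
  have hcard : (univ : Finset (Fin k → Option α)).card = (Fintype.card α + 1) ^ k := by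
    rw [Finset.card_univ, Fintype.card_fun, Fintype.card_fin, Fintype.card_option]
  rw [← hcard]
  refine Finset.card_le_card_of_injOn g (fun _ _ => Finset.mem_coe.mpr (Finset.mem_univ _)) ?_
  intro X hX Y hY h
  ext x
  rw [hg X (Finset.mem_coe.mp hX), hg Y (Finset.mem_coe.mp hY), h]

open Classical in
/-- the invariant subsets -/
noncomputable def fixF (s : Equiv.Perm (Fin n)) : Finset (Finset (Fin n)) :=
  univ.filter (fun X => X.image s = X)

theorem mem_fixF {s : Equiv.Perm (Fin n)} {X : Finset (Fin n)} :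
    X ∈ fixF s ↔ X.image s = X := by simp [fixF]

theorem card_fixF_le {m : ℕ} (s : Equiv.Perm (Fin n)) (hm : m ≤ s.support.card) :
    (fixF s).card ≤ 2 ^ (n - m / 3) := by
  classical
  obtain ⟨P, hP, hP2, hP3⟩ := exists_displaced s s.support
    (fun x hx => Equiv.Perm.mem_support.mp hx)
  have hPm : m / 3 ≤ P.card := by omega
  have hcP : (P.image s).card = P.card := Finset.card_image_of_injective _ s.injective
  calc (fixF s).card ≤ ((P.image s)ᶜ).powerset.card := by
        refine Finset.card_le_card_of_injOn (fun X => X ∩ (P.image s)ᶜ) (fun X _ => ?_) ?_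
        · exact Finset.mem_coe.mpr (Finset.mem_powerset.mpr Finset.inter_subset_right)
        · intro X hX Y hY h
          have hX' := mem_fixF.mp (Finset.mem_coe.mp hX)
          have hY' := mem_fixF.mp (Finset.mem_coe.mp hY)
          have key : ∀ x, x ∉ P.image s → (x ∈ X ↔ x ∈ Y) := by
            intro x hx
            have h1 : x ∈ X ∩ (P.image s)ᶜ ↔ x ∈ Y ∩ (P.image s)ᶜ := by
              have h' : X ∩ (P.image s)ᶜ = Y ∩ (P.image s)ᶜ := h
              rw [h']
            simpa [hx] using h1
          have hinv : ∀ (Z : Finset (Fin n)), Z.image s = Z → ∀ x, s x ∈ Z ↔ x ∈ Z := by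
            intro Z hZ x
            constructor
            · intro h2
              rw [← hZ] at h2
              obtain ⟨y, hy, hyx⟩ := Finset.mem_image.mp h2
              rwa [← s.injective hyx]
            · intro h2
              rw [← hZ]
              exact Finset.mem_image_of_mem _ h2
          ext y
          by_cases hy : y ∈ P.image s
          · obtain ⟨x, hx, rfl⟩ := Finset.mem_image.mp hy
            rw [hinv X hX', hinv Y hY']
            refine key x (fun hx2 => ?_)
            obtain ⟨z, hz, hzx⟩ := Finset.mem_image.mp hx2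
            exact hP2 z hz (by rw [hzx]; exact hx)
          · exact key y hy
    _ = 2 ^ (n - P.card) := by
        rw [Finset.card_powerset, Finset.card_compl, hcP, Fintype.card_fin]
    _ ≤ 2 ^ (n - m / 3) := Nat.pow_le_pow_right (by norm_num) (by omega)

/-- the permutation induced on the subsets -/
def shP (s : Equiv.Perm (Fin n)) : Equiv.Perm (Finset (Fin n)) where
  toFun X := X.image s
  invFun X := X.image s.symm
  left_inv X := by beta_reduce; rw [Finset.image_image]; simp
  right_inv X := by beta_reduce; rw [Finset.image_image]; simp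

theorem shP_apply (s : Equiv.Perm (Fin n)) (X : Finset (Fin n)) : shP s X = X.image s := rfl

/-- matroids with a given automorphism and given deep nonbases are few -/
theorem card_invariant_le {d r m L : ℕ} (K : Finset (Finset (Fin n))) (s : Equiv.Perm (Fin n))
    (hm : m ≤ s.support.card) (T : Finset (Mat n))
    (hT : ∀ M ∈ T, rk M = r ∧ NoShallow d M ∧ KK d M = K ∧ act s M = M) :
    T.card * 2 ^ L ≤ (matR n r).card +
      2 ^ L * (2 ^ (2 ^ (n - m / 3)) * (2 ^ (n + 1)) ^ (3 * L)) := by
  classical
  let S : Mat n → Finset (Finset (Fin n)) := fun M => NB M \ K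
  let mv : Mat n → Finset (Finset (Fin n)) := fun M => (S M).filter (fun X => X.image s ≠ X)
  have hSinv : ∀ M ∈ T, ∀ X, X.image s ∈ S M ↔ X ∈ S M := by
    intro M hM X
    obtain ⟨_, _, h3, h4⟩ := hT M hM
    have h5 := mem_NB_act s M X
    have h6 := mem_KK_act s d M X
    rw [h4] at h5 h6
    rw [h3] at h6
    simp only [S, Finset.mem_sdiff, h5, h6]
  have hKNB : ∀ M ∈ T, K ⊆ NB M := by
    intro M hM
    obtain ⟨_, _, h3, _⟩ := hT M hM
    rw [← h3]; exact KK_subset _ _
  have hdet : ∀ M ∈ T, ∀ N ∈ T, S M = S N → M = N := by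
    intro M hM N hN h
    obtain ⟨h1, _, _, _⟩ := hT M hM
    obtain ⟨h1', _, _, _⟩ := hT N hN
    refine mat_ext (h1.trans h1'.symm) ?_
    have e : ∀ M ∈ T, NB M = S M ∪ K := by
      intro M hM
      exact (Finset.sdiff_union_of_subset (hKNB M hM)).symm
    rw [e M hM, e N hN, h]
  let Ta : Finset (Mat n) := T.filter (fun M => 3 * L ≤ (mv M).card)
  let Tb : Finset (Mat n) := T.filter (fun M => ¬ 3 * L ≤ (mv M).card)
  have hsplit : T.card = Ta.card + Tb.card :=
    (Finset.card_filter_add_card_filter_not (s := T) (fun M => 3 * L ≤ (mv M).card)).symm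
  -- the first part
  have hA : Ta.card * 2 ^ L ≤ (matR n r).card := by
    have hex : ∀ M : Mat n, ∃ P : Finset (Finset (Fin n)), M ∈ Ta →
        P ⊆ mv M ∧ (∀ X ∈ P, X.image s ∉ P) ∧ P.card = L := by
      intro M
      by_cases hM : M ∈ Ta
      · obtain ⟨P, h1, h2, h3⟩ := exists_displaced (shP s) (mv M) (fun X hX =>
          (Finset.mem_filter.mp hX).2)
        have h4 : 3 * L ≤ (mv M).card := (Finset.mem_filter.mp hM).2
        obtain ⟨Q, hQ, hQL⟩ := Finset.exists_subset_card_eq (show L ≤ P.card by omega)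
        exact ⟨Q, fun _ => ⟨hQ.trans h1, fun X hX h => h2 X (hQ hX) (hQ h), hQL⟩⟩
      · exact ⟨∅, fun h => absurd h hM⟩
    choose P hP using hex
    have hex2 : ∀ p : (_ : Mat n) × Finset (Finset (Fin n)), ∃ M' : Mat n,
        p.1 ∈ T → rk M' = r ∧ NB M' = S p.1 \ p.2 := by
      rintro ⟨M, Q⟩
      by_cases hM : M ∈ T
      · obtain ⟨h1, h2, h3, _⟩ := hT M hM
        have hcirc : ∀ X ∈ S M, Circ M X ∧ Circ (dual M) Xᶜ := by
          intro X hX
          obtain ⟨hX1, hX2⟩ := Finset.mem_sdiff.mp hX
          rcases h2 X hX1 with h | h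
          · rw [h3] at h; exact absurd h hX2
          · exact h
        obtain ⟨B, hB⟩ := M.1.exists_isBase
        have hBf : ((Set.toFinite B).toFinset : Set (Fin n)) = B := Set.Finite.coe_toFinset _
        rw [← hBf, isBase_iff] at hB
        have hSr : ∀ X ∈ S M, X.card = r := by
          intro X hX
          rw [← h1]
          exact (mem_NB.mp (Finset.mem_sdiff.mp hX).1).1
        obtain ⟨M', h6, h7⟩ := exists_SP r (S M \ Q)
          (fun X hX => hSr X (Finset.mem_sdiff.mp hX).1)
          (fun X hX Y hY h => by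
            have hX' := (Finset.mem_sdiff.mp hX).1
            have hY' := (Finset.mem_sdiff.mp hY).1
            obtain ⟨c1, c2⟩ := hcirc X hX'
            exact isBase_of_adj c1 c2 ((hSr X hX').trans h1.symm) ((hSr Y hY').trans h1.symm)
              (by rw [h1]; exact h) (Finset.mem_sdiff.mp hY').1)
          _ (hB.1.trans h1) (fun h => hB.2 (Finset.mem_sdiff.mp (Finset.mem_sdiff.mp h).1).1)
        exact ⟨M', fun _ => ⟨h6, h7⟩⟩
      · exact ⟨M, fun h => absurd h hM⟩
    choose e he using hex2
    have hTa : ∀ M ∈ Ta, M ∈ T := fun M hM => (Finset.mem_filter.mp hM).1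
    calc Ta.card * 2 ^ L = ∑ M ∈ Ta, (P M).powerset.card := by
          rw [Finset.sum_congr rfl (fun M hM => by
            rw [Finset.card_powerset, (hP M hM).2.2]), Finset.sum_const, smul_eq_mul]
      _ = (Ta.sigma (fun M => (P M).powerset)).card := (Finset.card_sigma _ _).symm
      _ ≤ (matR n r).card := by
          refine Finset.card_le_card_of_injOn e (fun p hp => ?_) ?_
          · obtain ⟨h1, _⟩ := Finset.mem_sigma.mp (Finset.mem_coe.mp hp)
            exact Finset.mem_coe.mpr (mem_matR.mpr (he p (hTa _ h1)).1)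
          · have hrec : ∀ p : (_ : Mat n) × Finset (Finset (Fin n)),
                p ∈ Ta.sigma (fun M => (P M).powerset) →
                (∀ X, X ∈ S p.1 ↔ X ∈ S p.1 \ p.2 ∨ X.image s ∈ S p.1 \ p.2) ∧
                p.2 = S p.1 \ (S p.1 \ p.2) := by
              rintro ⟨M, Q⟩ hp
              obtain ⟨h1, h2⟩ := Finset.mem_sigma.mp hp
              have h1' : M ∈ Ta := h1
              have h2' : Q ⊆ P M := Finset.mem_powerset.mp h2
              obtain ⟨h3, h4, _⟩ := hP M h1'
              have hQS : Q ⊆ S M := h2'.trans (h3.trans (Finset.filter_subset _ _))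
              refine ⟨fun X => ⟨fun hX => ?_, ?_⟩, ?_⟩
              · by_cases hXQ : X ∈ Q
                · right
                  exact Finset.mem_sdiff.mpr ⟨(hSinv M (hTa M h1') X).mpr hX,
                    fun h => h4 X (h2' hXQ) (h2' h)⟩
                · left
                  exact Finset.mem_sdiff.mpr ⟨hX, hXQ⟩
              · rintro (h | h)
                · exact (Finset.mem_sdiff.mp h).1
                · exact (hSinv M (hTa M h1') X).mp (Finset.mem_sdiff.mp h).1
              · show Q = S M \ (S M \ Q)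
                rw [Finset.sdiff_sdiff_eq_self hQS]
            intro p hp q hq h
            have hp' := Finset.mem_coe.mp hp
            have hq' := Finset.mem_coe.mp hq
            have hpT := hTa _ (Finset.mem_sigma.mp hp').1
            have hqT := hTa _ (Finset.mem_sigma.mp hq').1
            have h1 : S p.1 \ p.2 = S q.1 \ q.2 := by
              rw [← (he p hpT).2, ← (he q hqT).2, h]
            have h2 : S p.1 = S q.1 := by
              ext X
              rw [(hrec p hp').1 X, (hrec q hq').1 X, h1]
            have h3 : p.1 = q.1 := hdet _ hpT _ hqT h2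
            have h4 : p.2 = q.2 := by
              rw [(hrec p hp').2, (hrec q hq').2, h1, h2]
            exact Sigma.ext h3 (heq_of_eq h4)
  -- the second part
  have hB : Tb.card ≤ 2 ^ (2 ^ (n - m / 3)) * (2 ^ (n + 1)) ^ (3 * L) := by
    have h1 : Tb.card ≤ ((fixF s).powerset ×ˢ
        (univ.filter (fun F : Finset (Finset (Fin n)) => F.card ≤ 3 * L))).card := by
      refine Finset.card_le_card_of_injOn
        (fun M => ((S M).filter (fun X => X.image s = X), mv M)) (fun M hM => ?_) ?_
      · have hM' := (Finset.mem_filter.mp (Finset.mem_coe.mp hM)).2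
        refine Finset.mem_coe.mpr (Finset.mem_product.mpr ⟨Finset.mem_powerset.mpr ?_,
          Finset.mem_filter.mpr ⟨Finset.mem_univ _, ?_⟩⟩)
        · intro X hX
          exact mem_fixF.mpr (Finset.mem_filter.mp hX).2
        · show (mv M).card ≤ 3 * L
          omega
      · intro M hM N hN h
        have hMT := (Finset.mem_filter.mp (Finset.mem_coe.mp hM)).1
        have hNT := (Finset.mem_filter.mp (Finset.mem_coe.mp hN)).1
        have e1 : (S M).filter (fun X => X.image s = X) = (S N).filter (fun X => X.image s = X) :=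
          congrArg Prod.fst h
        have e2 : mv M = mv N := congrArg Prod.snd h
        refine hdet M hMT N hNT ?_
        rw [← Finset.filter_union_filter_not_eq (fun X => X.image s = X) (S M),
          ← Finset.filter_union_filter_not_eq (fun X => X.image s = X) (S N), e1]
        congr 1
    rw [Finset.card_product, Finset.card_powerset] at h1
    have h2 := card_small_subsets (α := Finset (Fin n)) (3 * L)
      (univ.filter (fun F : Finset (Finset (Fin n)) => F.card ≤ 3 * L))
      (fun X hX => (Finset.mem_filter.mp hX).2)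
    have h3 : Fintype.card (Finset (Fin n)) + 1 ≤ 2 ^ (n + 1) := by
      rw [Fintype.card_finset, Fintype.card_fin, pow_succ]
      have : 1 ≤ 2 ^ n := Nat.one_le_two_pow
      omega
    calc Tb.card ≤ _ := h1
      _ ≤ 2 ^ (2 ^ (n - m / 3)) * (2 ^ (n + 1)) ^ (3 * L) := by
          refine Nat.mul_le_mul (Nat.pow_le_pow_right (by norm_num) (card_fixF_le s hm)) ?_
          exact h2.trans (Nat.pow_le_pow_left h3 _)
  calc T.card * 2 ^ L = Ta.card * 2 ^ L + 2 ^ L * Tb.card := by rw [hsplit]; ring
    _ ≤ _ := Nat.add_le_add hA (Nat.mul_le_mul_left _ hB)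

end H83Pav
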