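import Pool.Agent.H83Pav.Struct

/-!
MP_039b14_co: every closure of a small circuit has many private deep nonbases.
-/

namespace H83Pav

open Finset H38Pav

variable {n : ℕ}

theorem subE (M : Mat n) (X : Set (Fin n)) : X ⊆ M.1.E := by rw [M.2]; exact Set.subset_univ _

/-- the complement of the closure of a nonspanning set is large -/
theorem card_compl_clo {M : Mat n} {g : ℕ} (hg : ∀ D, Circ (dual M) D → g ≤ D.card)
    {Z : Finset (Fin n)} (hZ : Z.card < rk M) : g ≤ ((clo M Z)ᶜ).card := by
  obtain ⟨J, hJ⟩ := M.1.exists_isBasis (Z : Set (Fin n)) (subE M _)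
  obtain ⟨B, hB, hJB⟩ := hJ.indep.exists_isBase_superset
  have hne : J ≠ B := by
    rintro rfl
    have h1 := ncard_base hB
    have h2 := Set.ncard_le_ncard hJ.subset (Set.toFinite _)
    rw [Set.ncard_coe_finset] at h2
    omega
  obtain ⟨e, heB, heJ⟩ := Set.exists_of_ssubset (hJB.ssubset_of_ne hne)
  have hcc := hB.compl_closure_sdiff_singleton_isCocircuit heB
  have hfin : ((Set.toFinite (M.1.E \ M.1.closure (B \ {e}))).toFinset : Set (Fin n)) =
      M.1.E \ M.1.closure (B \ {e}) := Set.Finite.coe_toFinset _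
  have h1 := hg ((Set.toFinite (M.1.E \ M.1.closure (B \ {e}))).toFinset) (by
    show (M.1✶).IsCircuit _
    rw [hfin]; exact hcc)
  refine h1.trans (Finset.card_le_card ?_)
  intro z hz
  rw [Finset.mem_compl, mem_clo]
  intro h2
  have h3 : z ∈ M.1.E \ M.1.closure (B \ {e}) := by rw [← hfin]; exact_mod_cast hz
  apply h3.2
  rw [← hJ.closure_eq_closure] at h2
  exact M.1.closure_subset_closure (Set.subset_sdiff_singleton hJB heJ) h2

theorem circ_card_pos {M : Mat n} {C : Finset (Fin n)} (hC : Circ M C) : 0 < C.card := by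
  have h := hC.nonempty
  rw [Finset.coe_nonempty] at h
  exact Finset.card_pos.mpr h

/-- the choice of a base adapted to a small circuit -/
theorem exists_setup {M : Mat n} {C : Finset (Fin n)} (hC : C ∈ small 3 M) :
    ∃ (c0 : Fin n) (B : Finset (Fin n)) (D : Fin n → Finset (Fin n)),
      c0 ∈ C ∧ c0 ∉ B ∧ C.erase c0 ⊆ B ∧ B.card = rk M ∧ M.1.Indep (B : Set (Fin n)) ∧
      ∀ x, x ∉ insert c0 B → D x ⊆ B \ C.erase c0 ∧ (D x).card + C.card + 3 = rk M ∧
        (x ∈ clo M C ∨
          M.1.Indep ((insert x (C.erase c0 ∪ D x) : Finset (Fin n)) : Set (Fin n))) := by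
  classical
  obtain ⟨hC, hc⟩ := mem_small.mp hC
  obtain ⟨c0, hc0⟩ := Finset.card_pos.mp (circ_card_pos hC)
  have hI : M.1.Indep ((C.erase c0 : Finset (Fin n)) : Set (Fin n)) := by
    rw [Finset.coe_erase]
    exact hC.sdiff_singleton_indep (by exact_mod_cast hc0)
  obtain ⟨B', hB', hIB'⟩ := hI.exists_isBase_superset
  have hfin : ((Set.toFinite B').toFinset : Set (Fin n)) = B' := Set.Finite.coe_toFinset _
  set B : Finset (Fin n) := (Set.toFinite B').toFinset with hBdef
  rw [← hfin] at hB' hIB'
  rw [Finset.coe_subset] at hIB'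
  have hBc : B.card = rk M := (isBase_iff.mp hB').1
  have hc0B : c0 ∉ B := by
    intro h
    have : C ⊆ B := by
      intro z hz
      by_cases hz0 : z = c0
      · rw [hz0]; exact h
      · exact hIB' (Finset.mem_erase.mpr ⟨hz0, hz⟩)
    exact not_indep_of_circ hC this hB'.indep
  have hIc : (C.erase c0).card = C.card - 1 := Finset.card_erase_of_mem hc0
  have hCpos := circ_card_pos hC
  have hB0 : (B \ C.erase c0).card = rk M - (C.card - 1) := by
    rw [Finset.card_sdiff_of_subset hIB', hBc, hIc]
  have hclI : M.1.closure ((C.erase c0 : Finset (Fin n)) : Set (Fin n)) =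
      M.1.closure (C : Set (Fin n)) := by
    rw [Finset.coe_erase]; exact hC.closure_sdiff_singleton_eq c0
  -- the element to be removed
  have hb : ∀ x, x ∉ insert c0 B → ∃ b ∈ B \ C.erase c0, x ∈ clo M C ∨
      M.1.Indep ((insert x (B.erase b) : Finset (Fin n)) : Set (Fin n)) := by
    intro x hx
    by_cases hxC : x ∈ clo M C
    · obtain ⟨b, hb⟩ := Finset.card_pos.mp (show 0 < (B \ C.erase c0).card by omega)
      exact ⟨b, hb, Or.inl hxC⟩
    · have hxB : x ∉ (B : Set (Fin n)) := by
        intro h; exact hx (Finset.mem_insert_of_mem (by exact_mod_cast h))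
      have hxcl : x ∈ M.1.closure (B : Set (Fin n)) := by
        rw [hB'.closure_eq, M.2]; exact Set.mem_univ _
      have hfc := hB'.indep.fundCircuit_isCircuit hxcl hxB
      have hsub := M.1.fundCircuit_subset_insert x (B : Set (Fin n))
      have hmem := M.1.mem_fundCircuit x (B : Set (Fin n))
      have : ∃ b ∈ M.1.fundCircuit x (B : Set (Fin n)), b ∈ B \ C.erase c0 := by
        by_contra hcon
        push Not at hcon
        apply hxC
        rw [mem_clo, ← hclI]
        refine M.1.closure_subset_closure ?_ (hfc.mem_closure_sdiff_singleton_of_mem hmem)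
        rintro z ⟨hz, hzx⟩
        rcases hsub hz with h | h
        · exact absurd h hzx
        · have h1 := hcon z hz
          by_contra h2
          exact h1 (Finset.mem_sdiff.mpr ⟨by exact_mod_cast h, fun h3 => h2 (by exact_mod_cast h3)⟩)
      obtain ⟨b, hb1, hb2⟩ := this
      refine ⟨b, hb2, Or.inr ?_⟩
      have h1 := (hB'.indep.mem_fundCircuit_iff hxcl hxB).mp hb1
      have hbx : b ≠ x := by
        rintro rfl
        exact hxB (by exact_mod_cast (Finset.mem_sdiff.mp hb2).1)
      have h2 : ((insert x (B.erase b) : Finset (Fin n)) : Set (Fin n)) =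
          insert x (B : Set (Fin n)) \ {b} := by
        rw [Finset.coe_insert, Finset.coe_erase, Set.insert_sdiff_of_notMem _ (by simpa using hbx.symm)]
      rw [h2]; exact h1
  have hD : ∀ x, ∃ Dx : Finset (Fin n), x ∉ insert c0 B → Dx ⊆ B \ C.erase c0 ∧
      Dx.card + C.card + 3 = rk M ∧ (x ∈ clo M C ∨
        M.1.Indep ((insert x (C.erase c0 ∪ Dx) : Finset (Fin n)) : Set (Fin n))) := by
    intro x
    by_cases hx : x ∉ insert c0 B
    · obtain ⟨b, hb1, hb2⟩ := hb x hx
      obtain ⟨Dx, hDx1, hDx2⟩ := Finset.exists_subset_card_eq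
        (s := (B \ C.erase c0).erase b) (n := rk M - C.card - 3)
        (by rw [Finset.card_erase_of_mem hb1, hB0]; omega)
      refine ⟨Dx, fun _ => ⟨hDx1.trans (Finset.erase_subset _ _), by omega, ?_⟩⟩
      rcases hb2 with h | h
      · exact Or.inl h
      · refine Or.inr (h.subset ?_)
        rw [Finset.coe_subset]
        refine Finset.insert_subset_insert _ ?_
        intro z hz
        rcases Finset.mem_union.mp hz with h1 | h1
        · refine Finset.mem_erase.mpr ⟨?_, hIB' h1⟩
          rintro rfl
          exact (Finset.mem_sdiff.mp hb1).2 h1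
        · have h2 := hDx1 h1
          obtain ⟨h3, h4⟩ := Finset.mem_erase.mp h2
          exact Finset.mem_erase.mpr ⟨h3, (Finset.mem_sdiff.mp h4).1⟩
    · exact ⟨∅, fun h => absurd h hx⟩
  choose D hD using hD
  exact ⟨c0, B, D, hc0, hc0B, hIB', hBc, hB'.indep, hD⟩

open Classical in
/-- the private sets of a circuit -/
noncomputable def priv (M : Mat n) (C : Finset (Fin n)) : Finset (Finset (Fin n)) :=
  univ.filter (fun X => X.card = rk M ∧ C ⊆ X ∧ ∀ C' ⊆ X, Circ M C' → C' ⊆ clo M C)

theorem mem_priv {M : Mat n} {C X : Finset (Fin n)} : X ∈ priv M C ↔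
    X.card = rk M ∧ C ⊆ X ∧ ∀ C' ⊆ X, Circ M C' → C' ⊆ clo M C := by
  simp [priv]

/-- the basic construction of private sets -/
theorem mem_priv_of {M : Mat n} {C : Finset (Fin n)} (hC : Circ M C) {c0 : Fin n}
    (hc0 : c0 ∈ C) {B D : Finset (Fin n)} {x y z : Fin n} (hc0B : c0 ∉ B)
    (hIB : C.erase c0 ⊆ B) (hB : M.1.Indep (B : Set (Fin n))) (hx : x ∉ insert c0 B)
    (hD : D ⊆ B \ C.erase c0) (hDc : D.card + C.card + 3 = rk M)
    (hxC : x ∈ clo M C ∨
      M.1.Indep ((insert x (C.erase c0 ∪ D) : Finset (Fin n)) : Set (Fin n)))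
    (hy : y ∉ clo M (insert x (C.erase c0 ∪ D)))
    (hz : z ∉ clo M (insert y (insert x (C.erase c0 ∪ D)))) :
    insert z (insert y (insert x (C ∪ D))) ∈ priv M C := by
  classical
  set I := C.erase c0 with hI
  have hclI : M.1.closure ((I : Finset (Fin n)) : Set (Fin n)) =
      M.1.closure (C : Set (Fin n)) := by
    rw [hI, Finset.coe_erase]; exact hC.closure_sdiff_singleton_eq c0
  have hCcl : ∀ A : Finset (Fin n), I ⊆ A → ∀ w ∈ C, w ∈ M.1.closure (A : Set (Fin n)) := by
    intro A hA w hw
    have h1 : w ∈ M.1.closure ((I : Finset (Fin n)) : Set (Fin n)) := by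
      rw [hclI]; exact M.1.mem_closure_of_mem (by exact_mod_cast hw) (subE M _)
    exact M.1.closure_subset_closure (by rw [Finset.coe_subset]; exact hA) h1
  have hDC : Disjoint C D := by
    rw [Finset.disjoint_left]
    intro w hw hwD
    obtain ⟨h1, h2⟩ := Finset.mem_sdiff.mp (hD hwD)
    apply h2
    rw [hI]
    refine Finset.mem_erase.mpr ⟨?_, hw⟩
    rintro rfl
    exact hc0B h1
  have hxCD : x ∉ C ∪ D := by
    intro h
    apply hx
    rcases Finset.mem_union.mp h with h1 | h1
    · by_cases h2 : x = c0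
      · rw [h2]; exact Finset.mem_insert_self _ _
      · exact Finset.mem_insert_of_mem (hIB (Finset.mem_erase.mpr ⟨h2, h1⟩))
    · exact Finset.mem_insert_of_mem (Finset.mem_sdiff.mp (hD h1)).1
  have hI1 : I ⊆ insert x (I ∪ D) :=
    Finset.subset_union_left.trans (Finset.subset_insert _ _)
  have hI2 : I ⊆ insert y (insert x (I ∪ D)) := hI1.trans (Finset.subset_insert _ _)
  have hyX : y ∉ insert x (C ∪ D) := by
    intro h
    apply hy
    rcases Finset.mem_insert.mp h with h1 | h1
    · exact subset_clo M _ (by rw [h1]; exact Finset.mem_insert_self _ _)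
    · rcases Finset.mem_union.mp h1 with h2 | h2
      · rw [mem_clo]; exact hCcl _ hI1 y h2
      · exact subset_clo M _ (Finset.mem_insert_of_mem (Finset.mem_union_right _ h2))
  have hzX : z ∉ insert y (insert x (C ∪ D)) := by
    intro h
    apply hz
    rcases Finset.mem_insert.mp h with h0 | h0
    · exact subset_clo M _ (by rw [h0]; exact Finset.mem_insert_self _ _)
    · rcases Finset.mem_insert.mp h0 with h1 | h1
      · exact subset_clo M _ (by
          rw [h1]; exact Finset.mem_insert_of_mem (Finset.mem_insert_self _ _))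
      · rcases Finset.mem_union.mp h1 with h2 | h2
        · rw [mem_clo]; exact hCcl _ hI2 z h2
        · exact subset_clo M _ (Finset.mem_insert_of_mem (Finset.mem_insert_of_mem
            (Finset.mem_union_right _ h2)))
  -- an independent set
  obtain ⟨W, hW, hIW, hDW, hxW, hWs, hWcl⟩ : ∃ W : Finset (Fin n), M.1.Indep (W : Set (Fin n)) ∧
      I ⊆ W ∧ D ⊆ W ∧ (x ∈ clo M C ∨ x ∈ W) ∧ W ⊆ insert x (I ∪ D) ∧
      M.1.closure ((insert x (I ∪ D) : Finset (Fin n)) : Set (Fin n)) =
        M.1.closure (W : Set (Fin n)) := by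
    rcases hxC with h | h
    · refine ⟨I ∪ D, hB.subset ?_, Finset.subset_union_left, Finset.subset_union_right,
        Or.inl h, Finset.subset_insert _ _, ?_⟩
      · rw [Finset.coe_subset]
        exact Finset.union_subset hIB (hD.trans Finset.sdiff_subset)
      · rw [Finset.coe_insert]
        refine Matroid.closure_insert_eq_of_mem_closure ?_
        rw [mem_clo, ← hclI] at h
        exact M.1.closure_subset_closure (by rw [Finset.coe_subset]; exact Finset.subset_union_left) h
    · exact ⟨insert x (I ∪ D), h, hI1, Finset.subset_union_right.trans (Finset.subset_insert _ _),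
        Or.inr (Finset.mem_insert_self _ _), subset_rfl, rfl⟩
  have hyW : y ∉ M.1.closure (W : Set (Fin n)) := by
    rw [← hWcl]; rw [mem_clo] at hy; exact hy
  have hW1 : M.1.Indep ((insert y W : Finset (Fin n)) : Set (Fin n)) := by
    rw [Finset.coe_insert]
    exact ((hW.notMem_closure_iff (subE M _ (Set.mem_univ _))).mp hyW).1
  have hcl1 : M.1.closure ((insert y (insert x (I ∪ D)) : Finset (Fin n)) : Set (Fin n)) =
      M.1.closure ((insert y W : Finset (Fin n)) : Set (Fin n)) := by
    rw [Finset.coe_insert, Finset.coe_insert (s := W)]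
    exact Matroid.closure_insert_congr_right hWcl
  have hzW : z ∉ M.1.closure ((insert y W : Finset (Fin n)) : Set (Fin n)) := by
    rw [← hcl1]; rw [mem_clo] at hz; exact hz
  have hW2 : M.1.Indep ((insert z (insert y W) : Finset (Fin n)) : Set (Fin n)) := by
    rw [Finset.coe_insert]
    exact ((hW1.notMem_closure_iff (subE M _ (Set.mem_univ _))).mp hzW).1
  refine mem_priv.mpr ⟨?_, ?_, ?_⟩
  · rw [Finset.card_insert_of_notMem hzX, Finset.card_insert_of_notMem hyX,
      Finset.card_insert_of_notMem hxCD, Finset.card_union_of_disjoint hDC]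
    omega
  · exact Finset.subset_union_left.trans ((Finset.subset_insert _ _).trans
      ((Finset.subset_insert _ _).trans (Finset.subset_insert _ _)))
  · intro C' hC'X hC' e he
    by_contra heC
    have heC2 : e ∉ M.1.closure (C : Set (Fin n)) := by rw [mem_clo] at heC; exact heC
    have heI : e ∉ I := fun h => heC2 (by
      rw [← hclI]; exact M.1.mem_closure_of_mem (by exact_mod_cast h) (subE M _))
    -- elements of `X` outside the closure lie in `V`
    have key : ∀ w ∈ insert z (insert y (insert x (C ∪ D))),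
        w ∈ clo M C ∨ w ∈ insert z (insert y W) := by
      intro w hw
      rcases Finset.mem_insert.mp hw with h | h
      · right; rw [h]; exact Finset.mem_insert_self _ _
      · rcases Finset.mem_insert.mp h with h | h
        · right; rw [h]; exact Finset.mem_insert_of_mem (Finset.mem_insert_self _ _)
        · rcases Finset.mem_insert.mp h with h | h
          · rcases hxW with h1 | h1
            · left; rw [h]; exact h1
            · right; rw [h]; exact Finset.mem_insert_of_mem (Finset.mem_insert_of_mem h1)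
          · rcases Finset.mem_union.mp h with h | h
            · left; exact subset_clo M C h
            · right; exact Finset.mem_insert_of_mem (Finset.mem_insert_of_mem (hDW h))
    have heV : e ∈ insert z (insert y W) := by
      rcases key e (hC'X he) with h | h
      · exact absurd h heC
      · exact h
    have h1 := hW2.notMem_closure_sdiff_of_mem (e := e) (by exact_mod_cast heV)
    apply h1
    have h2 := hC'.mem_closure_sdiff_singleton_of_mem (e := e) (by exact_mod_cast he)
    have h3 : ((C' : Set (Fin n)) \ {e}) ⊆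
        M.1.closure (((insert z (insert y W) : Finset (Fin n)) : Set (Fin n)) \ {e}) := by
      rintro w ⟨hw, hwe⟩
      rcases key w (hC'X (by exact_mod_cast hw)) with h | h
      · rw [mem_clo, ← hclI] at h
        refine M.1.closure_subset_closure ?_ h
        intro u hu
        refine ⟨?_, ?_⟩
        · have : u ∈ insert z (insert y W) :=
            Finset.mem_insert_of_mem (Finset.mem_insert_of_mem (hIW (by exact_mod_cast hu)))
          exact_mod_cast this
        · rintro rfl
          exact heI (by exact_mod_cast hu)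
      · exact M.1.mem_closure_of_mem ⟨by exact_mod_cast h, hwe⟩ (subE M _)
    exact M.1.closure_subset_closure_of_subset_closure h3 h2

/-- a lower bound for the number of private sets -/
theorem card_priv_ge {M : Mat n} {g : ℕ} (hg : ∀ D, Circ (dual M) D → g ≤ D.card)
    {C : Finset (Fin n)} (hC : C ∈ small 3 M) :
    (n - rk M - 1) * (g * g) ≤ 12 * (priv M C).card := by
  classical
  obtain ⟨hCc, hc⟩ := mem_small.mp hC
  obtain ⟨c0, B, D, hc0, hc0B, hIB, hBc, hB, hD⟩ := exists_setup hC
  set I := C.erase c0 with hI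
  have hIc : I.card = C.card - 1 := Finset.card_erase_of_mem hc0
  have hCpos := circ_card_pos hCc
  let Z : Fin n → Finset (Fin n) := fun x => insert x (I ∪ D x)
  have hZ : ∀ x, x ∉ insert c0 B → (Z x).card + 3 ≤ rk M := by
    intro x hx
    have h1 := (hD x hx).2.1
    have h2 : (Z x).card ≤ (I ∪ D x).card + 1 := Finset.card_insert_le _ _
    have h3 := Finset.card_union_le I (D x)
    omega
  let P : Finset (Σ _ : Fin n, Σ _ : Fin n, Fin n) :=
    ((insert c0 B)ᶜ).sigma (fun x => ((clo M (Z x))ᶜ).sigma (fun y => (clo M (insert y (Z x)))ᶜ))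
  have hP : (n - rk M - 1) * (g * g) ≤ P.card := by
    rw [Finset.card_sigma]
    have h1 : ∀ x ∈ (insert c0 B)ᶜ, g * g ≤
        (((clo M (Z x))ᶜ).sigma (fun y => (clo M (insert y (Z x)))ᶜ)).card := by
      intro x hx
      have hx' : x ∉ insert c0 B := Finset.mem_compl.mp hx
      have hZx := hZ x hx'
      rw [Finset.card_sigma]
      have h2 : g ≤ ((clo M (Z x))ᶜ).card := card_compl_clo hg (by omega)
      have h3 : ∀ y ∈ (clo M (Z x))ᶜ, g ≤ ((clo M (insert y (Z x)))ᶜ).card := by
        intro y _
        refine card_compl_clo hg ?_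
        have := Finset.card_insert_le y (Z x)
        omega
      calc g * g ≤ ((clo M (Z x))ᶜ).card * g := Nat.mul_le_mul_right _ h2
        _ ≤ _ := by
            rw [← smul_eq_mul]
            exact Finset.card_nsmul_le_sum _ _ _ h3
    have h4 : ((insert c0 B)ᶜ).card = n - rk M - 1 := by
      rw [Finset.card_compl, Finset.card_insert_of_notMem hc0B, hBc, Fintype.card_fin]
      omega
    calc (n - rk M - 1) * (g * g) = ((insert c0 B)ᶜ).card * (g * g) := by rw [h4]
      _ ≤ _ := by
          rw [← smul_eq_mul]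
          exact Finset.card_nsmul_le_sum _ _ _ h1
  let f : (Σ _ : Fin n, Σ _ : Fin n, Fin n) → Finset (Fin n) :=
    fun t => insert t.2.2 (insert t.2.1 (insert t.1 (C ∪ D t.1)))
  have hmemP : ∀ t ∈ P, t.1 ∉ insert c0 B ∧ t.2.1 ∉ clo M (Z t.1) ∧
      t.2.2 ∉ clo M (insert t.2.1 (Z t.1)) := by
    intro t ht
    obtain ⟨h1, h2⟩ := Finset.mem_sigma.mp ht
    obtain ⟨h3, h4⟩ := Finset.mem_sigma.mp h2
    exact ⟨Finset.mem_compl.mp h1, Finset.mem_compl.mp h3, Finset.mem_compl.mp h4⟩
  have himg : P.image f ⊆ priv M C := by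
    intro X hX
    obtain ⟨t, ht, rfl⟩ := Finset.mem_image.mp hX
    obtain ⟨h1, h2, h3⟩ := hmemP t ht
    obtain ⟨h4, h5, h6⟩ := hD t.1 h1
    exact mem_priv_of hCc hc0 hc0B hIB hB h1 h4 h5 h6 h2 h3
  have hfib : ∀ X ∈ P.image f, (P.filter (fun t => f t = X)).card ≤ 12 := by
    intro X hX
    have hXc : X.card = rk M := (mem_priv.mp (himg hX)).1
    obtain ⟨t0, ht0, ht0X⟩ := Finset.mem_image.mp hX
    let A : Finset (Fin n) := (X \ insert c0 B).filter (fun x => insert x (C ∪ D x) ⊆ X)
    let V : Fin n → Finset (Fin n) := fun x => X \ insert x (C ∪ D x)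
    have hsub : P.filter (fun t => f t = X) ⊆ A.sigma (fun x => (V x).sigma (fun _ => V x)) := by
      intro t ht
      obtain ⟨htP, htX⟩ := Finset.mem_filter.mp ht
      obtain ⟨h1, h2, h3⟩ := hmemP t htP
      obtain ⟨h4, h5, h6⟩ := hD t.1 h1
      have hsubX : insert t.1 (C ∪ D t.1) ⊆ X := by
        rw [← htX]
        exact (Finset.subset_insert _ _).trans (Finset.subset_insert _ _)
      have hyX : t.2.1 ∈ X := by
        rw [← htX]; exact Finset.mem_insert_of_mem (Finset.mem_insert_self _ _)
      have hzX : t.2.2 ∈ X := by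
        rw [← htX]; exact Finset.mem_insert_self _ _
      -- cardinalities force distinctness
      have hc1 : (insert t.1 (C ∪ D t.1)).card ≤ rk M - 2 := by
        have e1 := Finset.card_insert_le t.1 (C ∪ D t.1)
        have e2 := Finset.card_union_le C (D t.1)
        omega
      have hfc : (f t).card = rk M := by rw [htX]; exact hXc
      have hy' : t.2.1 ∉ insert t.1 (C ∪ D t.1) := by
        intro h
        have e1 : f t = insert t.2.2 (insert t.1 (C ∪ D t.1)) := by
          show insert t.2.2 (insert t.2.1 (insert t.1 (C ∪ D t.1))) = _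
          rw [Finset.insert_eq_of_mem h]
        rw [e1] at hfc
        have e2 := Finset.card_insert_le t.2.2 (insert t.1 (C ∪ D t.1))
        omega
      have hz' : t.2.2 ∉ insert t.1 (C ∪ D t.1) := by
        intro h
        have e1 : f t = insert t.2.1 (insert t.1 (C ∪ D t.1)) := by
          show insert t.2.2 (insert t.2.1 (insert t.1 (C ∪ D t.1))) = _
          rw [Finset.insert_eq_of_mem (Finset.mem_insert_of_mem h)]
        rw [e1] at hfc
        have e2 := Finset.card_insert_le t.2.1 (insert t.1 (C ∪ D t.1))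
        omega
      refine Finset.mem_sigma.mpr ⟨Finset.mem_filter.mpr ⟨Finset.mem_sdiff.mpr
        ⟨hsubX (Finset.mem_insert_self _ _), h1⟩, hsubX⟩, Finset.mem_sigma.mpr
        ⟨Finset.mem_sdiff.mpr ⟨hyX, hy'⟩, Finset.mem_sdiff.mpr ⟨hzX, hz'⟩⟩⟩
    have hA : A.card ≤ 3 := by
      obtain ⟨h1, h2, h3⟩ := hmemP t0 ht0
      obtain ⟨h4, h5, h6⟩ := hD t0.1 h1
      have hCD : C ∪ D t0.1 ⊆ insert c0 B := by
        intro w hw
        rcases Finset.mem_union.mp hw with h | h
        · by_cases hw0 : w = c0
          · rw [hw0]; exact Finset.mem_insert_self _ _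
          · exact Finset.mem_insert_of_mem (hIB (Finset.mem_erase.mpr ⟨hw0, h⟩))
        · exact Finset.mem_insert_of_mem (Finset.mem_sdiff.mp (h4 h)).1
      have h7 : A ⊆ {t0.1, t0.2.1, t0.2.2} := by
        intro w hw
        obtain ⟨h8, _⟩ := Finset.mem_filter.mp hw
        obtain ⟨h9, h10⟩ := Finset.mem_sdiff.mp h8
        rw [← ht0X] at h9
        simp only [f, Finset.mem_insert] at h9
        rcases h9 with h | h | h | h
        · simp [h]
        · simp [h]
        · simp [h]
        · exact absurd (hCD h) h10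
      exact (Finset.card_le_card h7).trans Finset.card_le_three
    have hV : ∀ x ∈ A, (V x).card = 2 := by
      intro x hx
      obtain ⟨h8, h9⟩ := Finset.mem_filter.mp hx
      obtain ⟨h10, h11⟩ := Finset.mem_sdiff.mp h8
      obtain ⟨h4, h5, h6⟩ := hD x h11
      have hDC : Disjoint C (D x) := by
        rw [Finset.disjoint_left]
        intro w hw hwD
        obtain ⟨e1, e2⟩ := Finset.mem_sdiff.mp (h4 hwD)
        apply e2
        refine Finset.mem_erase.mpr ⟨?_, hw⟩
        rintro rfl
        exact hc0B e1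
      have hxCD : x ∉ C ∪ D x := by
        intro h
        apply h11
        rcases Finset.mem_union.mp h with e1 | e1
        · by_cases e2 : x = c0
          · rw [e2]; exact Finset.mem_insert_self _ _
          · exact Finset.mem_insert_of_mem (hIB (Finset.mem_erase.mpr ⟨e2, e1⟩))
        · exact Finset.mem_insert_of_mem (Finset.mem_sdiff.mp (h4 e1)).1
      show (X \ insert x (C ∪ D x)).card = 2
      rw [Finset.card_sdiff_of_subset h9, hXc, Finset.card_insert_of_notMem hxCD,
        Finset.card_union_of_disjoint hDC]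
      omega
    calc (P.filter (fun t => f t = X)).card
        ≤ (A.sigma (fun x => (V x).sigma (fun _ => V x))).card := Finset.card_le_card hsub
      _ = ∑ x ∈ A, ((V x).sigma (fun _ => V x)).card := Finset.card_sigma _ _
      _ = ∑ x ∈ A, 4 := by
          refine Finset.sum_congr rfl (fun x hx => ?_)
          rw [Finset.card_sigma, Finset.sum_const, hV x hx]
          rfl
      _ = A.card * 4 := by rw [Finset.sum_const, smul_eq_mul]
      _ ≤ 3 * 4 := Nat.mul_le_mul_right _ hA
      _ = 12 := by norm_num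
  calc (n - rk M - 1) * (g * g) ≤ P.card := hP
    _ ≤ 12 * (P.image f).card := Finset.card_le_mul_card_image _ _ hfib
    _ ≤ 12 * (priv M C).card := Nat.mul_le_mul_left _ (Finset.card_le_card himg)

theorem priv_subset {M : Mat n} {C : Finset (Fin n)} (hC : C ∈ small 3 M) :
    priv M C ⊆ Low 3 M := by
  obtain ⟨hCc, hc⟩ := mem_small.mp hC
  intro X hX
  obtain ⟨h1, h2, _⟩ := mem_priv.mp hX
  exact mem_Low.mpr ⟨h1, C, h2, hCc, hc⟩

/-- **the number of stored closures** is small compared with the number of deep nonbases -/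
theorem card_FF_le {M : Mat n} {g : ℕ} (hg : ∀ D, Circ (dual M) D → g ≤ D.card) :
    (FF 3 M).card * ((n - rk M - 1) * (g * g)) ≤ 12 * (Low 3 M).card := by
  classical
  have hch : ∀ p : Finset (Fin n) × ℕ, ∃ C, p ∈ FF 3 M → C ∈ small 3 M ∧ (clo M C, C.card) = p := by
    intro p
    by_cases hp : p ∈ FF 3 M
    · obtain ⟨C, h1, h2⟩ := mem_FF.mp hp
      exact ⟨C, fun _ => ⟨h1, h2⟩⟩
    · exact ⟨∅, fun h => absurd h hp⟩
  choose c hc using hch
  have hdisj : ∀ p ∈ FF 3 M, ∀ q ∈ FF 3 M, p ≠ q → Disjoint (priv M (c p)) (priv M (c q)) := by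
    intro p hp q hq hpq
    rw [Finset.disjoint_left]
    intro X hXp hXq
    apply hpq
    obtain ⟨hp1, hp2⟩ := hc p hp
    obtain ⟨hq1, hq2⟩ := hc q hq
    obtain ⟨_, h2, h3⟩ := mem_priv.mp hXp
    obtain ⟨_, h5, h6⟩ := mem_priv.mp hXq
    have e1 : c p ⊆ clo M (c q) := h6 _ h2 (mem_small.mp hp1).1
    have e2 : c q ⊆ clo M (c p) := h3 _ h5 (mem_small.mp hq1).1
    have hcl : M.1.closure ((c p : Finset (Fin n)) : Set (Fin n)) =
        M.1.closure ((c q : Finset (Fin n)) : Set (Fin n)) := by
      refine Set.Subset.antisymm ?_ ?_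
      · refine M.1.closure_subset_closure_of_subset_closure ?_
        rw [← coe_clo, Finset.coe_subset]; exact e1
      · refine M.1.closure_subset_closure_of_subset_closure ?_
        rw [← coe_clo, Finset.coe_subset]; exact e2
    have hcard : (c p).card = (c q).card := by
      have a1 := eRk_eq_of_circ (mem_small.mp hp1).1
      have a2 := eRk_eq_of_circ (mem_small.mp hq1).1
      rw [← Matroid.eRk_closure_eq, hcl, Matroid.eRk_closure_eq, a2] at a1
      exact_mod_cast a1.symm
    rw [← hp2, ← hq2, hcard]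
    congr 1
    apply Finset.coe_injective
    rw [coe_clo, coe_clo, hcl]
  calc (FF 3 M).card * ((n - rk M - 1) * (g * g))
      = ∑ _p ∈ FF 3 M, (n - rk M - 1) * (g * g) := by rw [Finset.sum_const, smul_eq_mul]
    _ ≤ ∑ p ∈ FF 3 M, 12 * (priv M (c p)).card :=
        Finset.sum_le_sum (fun p hp => card_priv_ge hg (hc p hp).1)
    _ = 12 * ∑ p ∈ FF 3 M, (priv M (c p)).card := by rw [Finset.mul_sum]
    _ = 12 * ((FF 3 M).biUnion (fun p => priv M (c p))).card := by
        rw [Finset.card_biUnion hdisj]
    _ ≤ 12 * (Low 3 M).card := by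
        refine Nat.mul_le_mul_left _ (Finset.card_le_card ?_)
        intro X hX
        obtain ⟨p, hp, hXp⟩ := Finset.mem_biUnion.mp hX
        exact priv_subset (hc p hp).1 hXp

end H83Pav
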