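import Pool.Agent.H83Pav.Struct

/-!
MP_039b14_co: replacing the deep nonbases by a stable family.
-/

namespace H83Pav

open Finset H38Pav

variable {n : ℕ}

noncomputable instance (n : ℕ) : Fintype (Mat n) := Fintype.ofFinite _

open Classical in
noncomputable instance (n : ℕ) : DecidableEq (Mat n) := Classical.decEq _

/-- every family of `r`-sets contains a stable subfamily of proportion at least `1 / n` -/
theorem exists_stable_sub {r : ℕ} (hn : 0 < n) (K : Finset (Finset (Fin n)))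
    (hK : ∀ X ∈ K, X.card = r) :
    ∃ S ⊆ K, (∀ X ∈ S, ∀ Y ∈ S, (X ∩ Y).card + 1 ≠ r) ∧ K.card ≤ n * S.card := by
  classical
  let f : Finset (Fin n) → ℕ := fun X => (∑ x ∈ X, (x : ℕ)) % n
  have hmaps : ∀ X ∈ K, f X ∈ Finset.range n := by
    intro X _
    exact Finset.mem_range.mpr (Nat.mod_lt _ hn)
  obtain ⟨c, _, hc⟩ : ∃ c ∈ Finset.range n, K.card ≤ n * (K.filter (fun X => f X = c)).card := by
    by_contra hcon
    push Not at hcon
    have h1 := Finset.card_eq_sum_card_fiberwise hmaps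
    have h2 : n * ∑ b ∈ Finset.range n, (K.filter (fun X => f X = b)).card <
        ∑ b ∈ Finset.range n, K.card := by
      rw [Finset.mul_sum]
      exact Finset.sum_lt_sum_of_nonempty ⟨0, Finset.mem_range.mpr hn⟩ hcon
    rw [← h1, Finset.sum_const, Finset.card_range, smul_eq_mul] at h2
    exact lt_irrefl _ h2
  refine ⟨K.filter (fun X => f X = c), Finset.filter_subset _ _, ?_, hc⟩
  intro X hX Y hY hadj
  obtain ⟨hX1, hX2⟩ := Finset.mem_filter.mp hX
  obtain ⟨hY1, hY2⟩ := Finset.mem_filter.mp hY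
  obtain ⟨x, y, hx, hy, hxy, e1, e2, _⟩ := adj_cases (hK X hX1) (hK Y hY1) hadj
  have h1 : f X = ((x : ℕ) + ∑ z ∈ X ∩ Y, (z : ℕ)) % n := by
    simp only [f]; conv_lhs => rw [← e1]
    rw [Finset.sum_insert hx]
  have h2 : f Y = ((y : ℕ) + ∑ z ∈ X ∩ Y, (z : ℕ)) % n := by
    simp only [f]; conv_lhs => rw [← e2]
    rw [Finset.sum_insert hy]
  have h3 : ((x : ℕ) + ∑ z ∈ X ∩ Y, (z : ℕ)) ≡ ((y : ℕ) + ∑ z ∈ X ∩ Y, (z : ℕ)) [MOD n] := by
    show _ % n = _ % n
    rw [← h1, ← h2, hX2, hY2]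
  have h4 := Nat.ModEq.add_right_cancel' _ h3
  have h5 : (x : ℕ) = y := Nat.ModEq.eq_of_lt_of_lt h4 x.2 y.2
  exact hxy (Fin.ext h5)

open Classical in
/-- all matroids of rank `r` -/
noncomputable def matR (n r : ℕ) : Finset (Mat n) := univ.filter (fun M => rk M = r)

theorem mem_matR {r : ℕ} {M : Mat n} : M ∈ matR n r ↔ rk M = r := by simp [matR]

/-- the surgery -/
theorem exists_surgery {d : ℕ} {M : Mat n} (hM : NoShallow d M) (R : Finset (Finset (Fin n)))
    (hR : R ⊆ KK d M) (hst : ∀ X ∈ R, ∀ Y ∈ R, (X ∩ Y).card + 1 ≠ rk M) :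
    ∃ M' : Mat n, rk M' = rk M ∧ NB M' = (NB M \ KK d M) ∪ R := by
  classical
  obtain ⟨B, hB⟩ := M.1.exists_isBase
  have hBf : ((Set.toFinite B).toFinset : Set (Fin n)) = B := Set.Finite.coe_toFinset _
  rw [← hBf, isBase_iff] at hB
  have hiso : ∀ X ∈ NB M \ KK d M, ∀ Y ∈ NB M, (X ∩ Y).card + 1 ≠ rk M := by
    intro X hX Y hY h
    obtain ⟨hX1, hX2⟩ := Finset.mem_sdiff.mp hX
    rcases hM X hX1 with h1 | ⟨h1, h2⟩
    · exact hX2 h1
    · exact isBase_of_adj h1 h2 (mem_NB.mp hX1).1 (mem_NB.mp hY).1 h hY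
  have hRN : R ⊆ NB M := hR.trans (KK_subset d M)
  refine exists_SP (rk M) ((NB M \ KK d M) ∪ R) ?_ ?_ _ hB.1 ?_
  · intro X hX
    rcases Finset.mem_union.mp hX with h | h
    · exact (mem_NB.mp (Finset.mem_sdiff.mp h).1).1
    · exact (mem_NB.mp (hRN h)).1
  · intro X hX Y hY
    rcases Finset.mem_union.mp hX with h | h
    · rcases Finset.mem_union.mp hY with h' | h'
      · exact hiso X h Y (Finset.mem_sdiff.mp h').1
      · exact hiso X h Y (hRN h')
    · rcases Finset.mem_union.mp hY with h' | h'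
      · rw [Finset.inter_comm]
        exact hiso Y h' X (hRN h)
      · exact hst X h Y h'
  · intro h
    rcases Finset.mem_union.mp h with h' | h'
    · exact hB.2 (Finset.mem_sdiff.mp h').1
    · exact hB.2 (hRN h')

/-- matroids with the same deep nonbases are few -/
theorem card_fiber_mul_le {d r : ℕ} (K : Finset (Finset (Fin n)))
    (T : Finset (Mat n)) (hT : ∀ M ∈ T, rk M = r ∧ NoShallow d M ∧ KK d M = K)
    (SS : Finset (Finset (Finset (Fin n))))
    (hSS : ∀ R ∈ SS, R ⊆ K ∧ ∀ X ∈ R, ∀ Y ∈ R, (X ∩ Y).card + 1 ≠ r) :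
    T.card * SS.card ≤ (matR n r).card := by
  classical
  rcases T.eq_empty_or_nonempty with rfl | ⟨M0, hM0⟩
  · simp
  have hex : ∀ p : Mat n × Finset (Finset (Fin n)), ∃ M' : Mat n,
      p ∈ T ×ˢ SS → rk M' = r ∧ NB M' = (NB p.1 \ K) ∪ p.2 := by
    intro p
    by_cases hp : p ∈ T ×ˢ SS
    · obtain ⟨h1, h2⟩ := Finset.mem_product.mp hp
      obtain ⟨h3, h4, h5⟩ := hT p.1 h1
      obtain ⟨h2a, h2b⟩ := hSS p.2 h2
      obtain ⟨M', h6, h7⟩ := exists_surgery h4 p.2 (by rw [h5]; exact h2a)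
        (fun X hX Y hY => by rw [h3]; exact h2b X hX Y hY)
      exact ⟨M', fun _ => ⟨h6.trans h3, by rw [h7, h5]⟩⟩
    · exact ⟨M0, fun h => absurd h hp⟩
  choose e he using hex
  calc T.card * SS.card = (T ×ˢ SS).card := by rw [Finset.card_product]
    _ ≤ (matR n r).card := by
        refine Finset.card_le_card_of_injOn e (fun p hp => ?_) ?_
        · exact mem_matR.mpr (he p (Finset.mem_coe.mp hp)).1
        · intro p hp q hq hpq
          have hp' := Finset.mem_coe.mp hp
          have hq' := Finset.mem_coe.mp hq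
          obtain ⟨_, h2⟩ := he p hp'
          obtain ⟨_, h4⟩ := he q hq'
          obtain ⟨hp1, hp2⟩ := Finset.mem_product.mp hp'
          obtain ⟨hq1, hq2⟩ := Finset.mem_product.mp hq'
          obtain ⟨a1, _, a3⟩ := hT p.1 hp1
          obtain ⟨b1, _, b3⟩ := hT q.1 hq1
          have hpR := (hSS p.2 hp2).1
          have hqR := (hSS q.2 hq2).1
          rw [hpq, h4] at h2
          have hpK : K ⊆ NB p.1 := by rw [← a3]; exact KK_subset _ _
          have hqK : K ⊆ NB q.1 := by rw [← b3]; exact KK_subset _ _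
          have hnb : NB p.1 = NB q.1 := by
            ext X
            by_cases hX : X ∈ K
            · exact ⟨fun _ => hqK hX, fun _ => hpK hX⟩
            · have h5 : X ∈ NB q.1 \ K ∪ q.2 ↔ X ∈ NB p.1 \ K ∪ p.2 := by rw [h2]
              simp only [Finset.mem_union, Finset.mem_sdiff] at h5
              have h6 : X ∉ q.2 := fun h => hX (hqR h)
              have h7 : X ∉ p.2 := fun h => hX (hpR h)
              tauto
          have hR : p.2 = q.2 := by
            ext X
            by_cases hX : X ∈ K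
            · have h5 : X ∈ NB q.1 \ K ∪ q.2 ↔ X ∈ NB p.1 \ K ∪ p.2 := by rw [h2]
              simp only [Finset.mem_union, Finset.mem_sdiff] at h5
              tauto
            · exact ⟨fun h => absurd (hpR h) hX, fun h => absurd (hqR h) hX⟩
          exact Prod.ext (mat_ext (a1.trans b1.symm) hnb) hR

/-- matroids with the same deep nonbases are few: the colouring bound -/
theorem card_fiber_le {d r : ℕ} (hn : 0 < n) (K : Finset (Finset (Fin n)))
    (T : Finset (Mat n)) (hT : ∀ M ∈ T, rk M = r ∧ NoShallow d M ∧ KK d M = K) :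
    ∃ a, K.card ≤ n * a ∧ T.card * 2 ^ a ≤ (matR n r).card := by
  classical
  rcases T.eq_empty_or_nonempty with rfl | ⟨M0, hM0⟩
  · exact ⟨K.card, Nat.le_mul_of_pos_left _ hn, by simp⟩
  have hKr : ∀ X ∈ K, X.card = r := by
    intro X hX
    obtain ⟨h1, _, h3⟩ := hT M0 hM0
    rw [← h3] at hX
    rw [← h1]
    exact (mem_NB.mp (KK_subset _ _ hX)).1
  obtain ⟨S, hSK, hst, hS⟩ := exists_stable_sub hn K hKr
  refine ⟨S.card, hS, ?_⟩
  have h1 := card_fiber_mul_le K T hT S.powerset (fun R hR => by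
    have hR' := Finset.mem_powerset.mp hR
    exact ⟨hR'.trans hSK, fun X hX Y hY => hst X (hR' hX) Y (hR' hY)⟩)
  rwa [Finset.card_powerset] at h1

/-- labelled and unlabelled matroids -/
theorem card_matR_le (r : ℕ) :
    (matR n r).card ≤ n.factorial * Nat.card {c : Cls n // c.rk = r} := by
  classical
  have h1 : Nat.card {c : Cls n // c.rk = r} = (univ.filter (fun c : Cls n => c.rk = r)).card := by
    rw [Nat.card_eq_fintype_card, Fintype.card_subtype]
  have h2 : n.factorial = (univ : Finset (Equiv.Perm (Fin n))).card := by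
    rw [Finset.card_univ, Fintype.card_perm, Fintype.card_fin]
  rw [h1, h2, ← Finset.card_product]
  have hex : ∀ M : Mat n, ∃ σ : Equiv.Perm (Fin n), M = act σ (rep (cls M)) := fun M =>
    act_of_isom (cls_eq.mp (cls_rep (cls M)))
  choose s hs using hex
  refine Finset.card_le_card_of_injOn (fun M => (s M, cls M)) (fun M hM => ?_) ?_
  · refine Finset.mem_coe.mpr (Finset.mem_product.mpr ⟨Finset.mem_univ _,
      Finset.mem_filter.mpr ⟨Finset.mem_univ _, ?_⟩⟩)
    rw [rk_cls]; exact mem_matR.mp (Finset.mem_coe.mp hM)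
  · intro M _ N _ h
    have h3 : s M = s N := congrArg Prod.fst h
    have h4 : cls M = cls N := congrArg Prod.snd h
    rw [hs M, hs N, h3, h4]

end H83Pav
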