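import Pool.Agent.H38Pav.Main

/-!
MP_039b14_co: definitions for the surgery on deep nonbases.
-/

namespace H83Pav

open Finset H38Pav

variable {n : ℕ}

/-- the dual matroid -/
def dual (M : Mat n) : Mat n := ⟨M.1✶, by rw [Matroid.dual_ground]; exact M.2⟩

/-- circuits, as finsets -/
def Circ (M : Mat n) (C : Finset (Fin n)) : Prop := M.1.IsCircuit (C : Set (Fin n))

open Classical in
/-- the sets of size `r(M)` which contain a circuit of size at most `r(M) - d` -/
noncomputable def Low (d : ℕ) (M : Mat n) : Finset (Finset (Fin n)) :=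
  univ.filter (fun X => X.card = rk M ∧ ∃ C ⊆ X, Circ M C ∧ C.card + d ≤ rk M)

open Classical in
/-- the deep nonbases: `X` is in `Low d M` or its complement is in `Low d` of the dual matroid -/
noncomputable def KK (d : ℕ) (M : Mat n) : Finset (Finset (Fin n)) :=
  univ.filter (fun X => X ∈ Low d M ∨ Xᶜ ∈ Low d (dual M))

/-- every nonbasis is deep or is a circuit-hyperplane -/
def NoShallow (d : ℕ) (M : Mat n) : Prop :=
  ∀ X ∈ NB M, X ∈ KK d M ∨ (Circ M X ∧ Circ (dual M) Xᶜ)

/-- every circuit and every cocircuit has at least `g` elements -/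
def Wide (g : ℕ) (M : Mat n) : Prop := ∀ C, Circ M C ∨ Circ (dual M) C → g ≤ C.card

open Classical in
/-- the closure, as a finset -/
noncomputable def clo (M : Mat n) (C : Finset (Fin n)) : Finset (Fin n) :=
  univ.filter (fun x => x ∈ M.1.closure (C : Set (Fin n)))

open Classical in
/-- the circuits of size at most `r(M) - d` -/
noncomputable def small (d : ℕ) (M : Mat n) : Finset (Finset (Fin n)) :=
  univ.filter (fun C => Circ M C ∧ C.card + d ≤ rk M)

/-- the closures of the circuits of size at most `r(M) - d`, together with this size -/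
noncomputable def FF (d : ℕ) (M : Mat n) : Finset (Finset (Fin n) × ℕ) :=
  (small d M).image (fun C => (clo M C, C.card))

open Classical in
/-- the `r`-sets described by a family of pairs -/
noncomputable def bunch (r : ℕ) (T : Finset (Finset (Fin n) × ℕ)) : Finset (Finset (Fin n)) :=
  univ.filter (fun X => X.card = r ∧ ∃ p ∈ T, p.2 ≤ (X ∩ p.1).card)

theorem mem_Low {d : ℕ} {M : Mat n} {X : Finset (Fin n)} :
    X ∈ Low d M ↔ X.card = rk M ∧ ∃ C ⊆ X, Circ M C ∧ C.card + d ≤ rk M := by
  simp [Low]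

theorem mem_KK {d : ℕ} {M : Mat n} {X : Finset (Fin n)} :
    X ∈ KK d M ↔ X ∈ Low d M ∨ Xᶜ ∈ Low d (dual M) := by
  simp [KK]

theorem mem_clo {M : Mat n} {C : Finset (Fin n)} {x : Fin n} :
    x ∈ clo M C ↔ x ∈ M.1.closure (C : Set (Fin n)) := by
  simp [clo]

theorem coe_clo (M : Mat n) (C : Finset (Fin n)) :
    ((clo M C : Finset (Fin n)) : Set (Fin n)) = M.1.closure (C : Set (Fin n)) := by
  ext x; simp [clo]

theorem mem_small {d : ℕ} {M : Mat n} {C : Finset (Fin n)} :
    C ∈ small d M ↔ Circ M C ∧ C.card + d ≤ rk M := by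
  simp [small]

theorem mem_FF {d : ℕ} {M : Mat n} {p : Finset (Fin n) × ℕ} :
    p ∈ FF d M ↔ ∃ C ∈ small d M, (clo M C, C.card) = p := by
  simp [FF]

theorem mem_bunch {r : ℕ} {T : Finset (Finset (Fin n) × ℕ)} {X : Finset (Fin n)} :
    X ∈ bunch r T ↔ X.card = r ∧ ∃ p ∈ T, p.2 ≤ (X ∩ p.1).card := by
  simp [bunch]

theorem dual_dual (M : Mat n) : dual (dual M) = M := by
  apply Subtype.ext
  exact Matroid.dual_dual M.1

theorem rk_dual (M : Mat n) : rk (dual M) = n - rk M := by
  obtain ⟨B, hB⟩ := M.1.exists_isBase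
  have h1 : (dual M).1.IsBase (Bᶜ) := by
    show (M.1✶).IsBase (Bᶜ)
    have := hB.compl_isBase_dual
    rwa [M.2, ← Set.compl_eq_univ_sdiff] at this
  have h2 := ncard_base hB
  have h3 := ncard_base (M := dual M) h1
  have h4 := Set.ncard_add_ncard_compl B
  rw [Nat.card_fin] at h4
  omega

theorem rk_add_rk_dual (M : Mat n) : rk M + rk (dual M) = n := by
  have := rk_le M
  rw [rk_dual]; omega

end H83Pav
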