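import Mathlib

/-!
MP_039b14_co: definitions for the counting lemma on lean families (no matroids).
-/

namespace H83E

open Finset

variable {n : ℕ}

open Classical in
/-- the lean sets -/
noncomputable def leanU (k : ℕ) (TT : Finset (Finset (Fin n))) : Finset (Finset (Fin n)) :=
  univ.filter (fun C => C.card = k ∧ ∃ T ∈ TT, Disjoint C T ∧ ∀ T' ∈ TT, T' ≠ T → 2 ≤ (C ∩ T').card)

open Classical in
/-- the `r`-sets meeting a member of `TT` in at most one element -/
noncomputable def KT (r : ℕ) (TT : Finset (Finset (Fin n))) : Finset (Finset (Fin n)) :=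
  univ.filter (fun X => X.card = r ∧ ∃ T ∈ TT, (X ∩ T).card ≤ 1)

/-- the neighbours of `v` in the family `E` -/
def nbr (v : Finset (Fin n)) (E : Finset (Finset (Fin n))) : Finset (Finset (Fin n)) :=
  E.filter (fun C => (C ∩ v).card + 1 = v.card)

theorem mem_leanU {k : ℕ} {TT : Finset (Finset (Fin n))} {C : Finset (Fin n)} :
    C ∈ leanU k TT ↔ C.card = k ∧
      ∃ T ∈ TT, Disjoint C T ∧ ∀ T' ∈ TT, T' ≠ T → 2 ≤ (C ∩ T').card := by
  simp [leanU]

theorem mem_KT {r : ℕ} {TT : Finset (Finset (Fin n))} {X : Finset (Fin n)} :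
    X ∈ KT r TT ↔ X.card = r ∧ ∃ T ∈ TT, (X ∩ T).card ≤ 1 := by
  simp [KT]

theorem mem_nbr {v C : Finset (Fin n)} {E : Finset (Finset (Fin n))} :
    C ∈ nbr v E ↔ C ∈ E ∧ (C ∩ v).card + 1 = v.card := by
  simp [nbr]

end H83E
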