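import Pool.Agent.H83Pav.EDefs

/-!
MP_039b14_co: the counting lemma for families of lean sets (Kleitman-Winston type argument).
-/

namespace H83E

open Finset

variable {n : ℕ}

/-! ## E4: traces -/

/-- the traces of the members of `EE` on `A` -/
def tr (EE : Finset (Finset (Finset (Fin n)))) (A : Finset (Finset (Fin n))) : Finset (Finset (Finset (Fin n))) :=
  EE.image (fun E => E ∩ A)

theorem tr_card_le_pow (EE : Finset (Finset (Finset (Fin n)))) (A : Finset (Finset (Fin n))) :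
    (tr EE A).card ≤ 2 ^ A.card := by
  rw [← card_powerset A]
  refine card_le_card ?_
  intro x hx
  obtain ⟨E, _, rfl⟩ := mem_image.1 hx
  exact mem_powerset.2 inter_subset_right

theorem not_mem_nbr_self (v : Finset (Fin n)) (A : Finset (Finset (Fin n))) : v ∉ nbr v A := by
  intro h
  have := (mem_nbr.1 h).2
  rw [inter_self] at this
  omega

theorem tr_step (EE : Finset (Finset (Finset (Fin n)))) (A : Finset (Finset (Fin n))) (v : Finset (Fin n)) (hv : v ∈ A) :
    (tr EE A).card ≤ (tr EE (A.erase v)).card +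
      ((EE.filter (fun E => v ∈ E)).image (nbr v)).card * (tr EE (A.erase v \ nbr v A)).card := by
  classical
  have hsub : tr EE A ⊆ tr EE (A.erase v) ∪
      ((((EE.filter (fun E => v ∈ E)).image (nbr v)) ×ˢ (tr EE (A.erase v \ nbr v A))).image
        (fun p => insert v ((p.1 ∩ A) ∪ p.2))) := by
    intro x hx
    obtain ⟨E, hE, rfl⟩ := mem_image.1 hx
    by_cases hvE : v ∈ E
    · refine mem_union_right _ (mem_image.2 ⟨(nbr v E, E ∩ (A.erase v \ nbr v A)), mem_product.2 ⟨?_, ?_⟩, ?_⟩)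
      · exact mem_image.2 ⟨E, mem_filter.2 ⟨hE, hvE⟩, rfl⟩
      · exact mem_image.2 ⟨E, hE, rfl⟩
      · ext C
        simp only [mem_insert, mem_union, mem_inter, mem_nbr, mem_sdiff, mem_erase]
        constructor
        · rintro (rfl | h | h)
          · exact ⟨hvE, hv⟩
          · exact ⟨h.1.1, h.2⟩
          · exact ⟨h.1, h.2.1.2⟩
        · rintro ⟨h1, h2⟩
          by_cases h3 : C = v
          · exact Or.inl h3
          · by_cases h4 : (C ∩ v).card + 1 = v.card
            · exact Or.inr (Or.inl ⟨⟨h1, h4⟩, h2⟩)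
            · exact Or.inr (Or.inr ⟨h1, ⟨h3, h2⟩, fun h => h4 h.2⟩)
    · refine mem_union_left _ (mem_image.2 ⟨E, hE, ?_⟩)
      ext C
      simp only [mem_inter, mem_erase]
      constructor
      · rintro ⟨h1, _, h3⟩
        exact ⟨h1, h3⟩
      · rintro ⟨h1, h2⟩
        exact ⟨h1, fun h => hvE (h ▸ h1), h2⟩
  refine (card_le_card hsub).trans ((card_union_le _ _).trans ?_)
  refine Nat.add_le_add_left (card_image_le.trans ?_) _
  rw [card_product]

theorem tr_bound (EE : Finset (Finset (Finset (Fin n)))) (V : Finset (Finset (Fin n))) (L M β : ℝ) (m : ℕ)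
    (hL1 : 1 ≤ L) (hM : 1 ≤ M) 
    (hL : ∀ v, (((EE.filter (fun E => v ∈ E)).image (nbr v)).card : ℝ) ≤ L)
    (hdeg : ∀ A ⊆ V, m < A.card → ∃ v ∈ A, β * A.card ≤ ((nbr v A).card : ℝ)) :
    ∀ a : ℕ, ∀ A ⊆ V, A.card = a → ∀ q : ℕ, (A.card : ℝ) * Real.exp (-(β * q)) ≤ m →
      ((tr EE A).card : ℝ) ≤ 2 ^ m * (L * M) ^ q * (1 + 1 / M) ^ A.card := by
  have hM0 : 0 < M := by linarith
  have hLM : 1 ≤ L * M := by nlinarith
  have h1M : 1 ≤ 1 + 1 / M := by
    have : 0 < 1 / M := by positivity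
    linarith
  intro a
  induction a using Nat.strong_induction_on with
  | _ a ih =>
    intro A hA hAa q hq
    by_cases hm : A.card ≤ m
    · have h1 : ((tr EE A).card : ℝ) ≤ 2 ^ A.card := by exact_mod_cast tr_card_le_pow EE A
      have h2 : (2 : ℝ) ^ A.card ≤ 2 ^ m := pow_le_pow_right₀ (by norm_num) hm
      have h3 : (1 : ℝ) ≤ (L * M) ^ q := one_le_pow₀ hLM
      have h4 : (1 : ℝ) ≤ (1 + 1 / M) ^ A.card := one_le_pow₀ h1M
      have h5 : (2 : ℝ) ^ m * 1 * 1 ≤ 2 ^ m * (L * M) ^ q * (1 + 1 / M) ^ A.card := by gcongr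
      linarith
    · push Not at hm
      obtain ⟨v, hvA, hv⟩ := hdeg A hA hm
      obtain ⟨q, rfl⟩ : ∃ q', q = q' + 1 := by
        refine ⟨q - 1, ?_⟩
        have : q ≠ 0 := by
          rintro rfl
          simp only [CharP.cast_eq_zero, mul_zero, neg_zero, Real.exp_zero, mul_one, Nat.cast_le] at hq
          omega
        omega
      have hstep := tr_step EE A v hvA
      have hc1 : (A.erase v).card + 1 = A.card := by
        rw [card_erase_of_mem hvA]; have := card_pos.2 ⟨v, hvA⟩; omega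
      have hsubn : nbr v A ⊆ A.erase v := by
        intro C hC
        refine mem_erase.2 ⟨?_, (mem_nbr.1 hC).1⟩
        rintro rfl
        exact not_mem_nbr_self _ _ hC
      have hc2 : (A.erase v \ nbr v A).card + (nbr v A).card + 1 = A.card := by
        rw [card_sdiff_of_subset hsubn]; have := card_le_card hsubn; omega
      have e1 := ih (A.erase v).card (by omega) (A.erase v) ((erase_subset _ _).trans hA) rfl (q + 1) (by
        refine le_trans ?_ hq
        refine mul_le_mul_of_nonneg_right ?_ (Real.exp_pos _).le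
        exact_mod_cast (by omega : (A.erase v).card ≤ A.card))
      have e2 := ih (A.erase v \ nbr v A).card (by omega) (A.erase v \ nbr v A)
        ((sdiff_subset.trans (erase_subset _ _)).trans hA) rfl q (by
          have h1 : ((A.erase v \ nbr v A).card : ℝ) ≤ (1 - β) * A.card := by
            have : (((A.erase v \ nbr v A).card + (nbr v A).card + 1 : ℕ) : ℝ) = A.card := by
              exact_mod_cast hc2
            push_cast at this
            nlinarith
          have h2 : (1 - β) ≤ Real.exp (-β) := by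
            have := Real.add_one_le_exp (-β); linarith
          have h3 : ((A.erase v \ nbr v A).card : ℝ) ≤ Real.exp (-β) * A.card :=
            h1.trans (mul_le_mul_of_nonneg_right h2 (Nat.cast_nonneg _))
          calc ((A.erase v \ nbr v A).card : ℝ) * Real.exp (-(β * q))
              ≤ (Real.exp (-β) * A.card) * Real.exp (-(β * q)) :=
                mul_le_mul_of_nonneg_right h3 (Real.exp_pos _).le
            _ = A.card * Real.exp (-(β * ((q + 1 : ℕ) : ℝ))) := by
                have : Real.exp (-(β * ((q + 1 : ℕ) : ℝ))) = Real.exp (-β) * Real.exp (-(β * q)) := by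
                  rw [← Real.exp_add]; congr 1; push_cast; ring
                rw [this]; ring
            _ ≤ m := hq)
      have e2' : ((tr EE (A.erase v \ nbr v A)).card : ℝ) ≤ 2 ^ m * (L * M) ^ q * (1 + 1 / M) ^ (A.erase v).card := by
        refine e2.trans ?_
        have : (1 + 1 / M) ^ (A.erase v \ nbr v A).card ≤ (1 + 1 / M) ^ (A.erase v).card :=
          pow_le_pow_right₀ h1M (by omega)
        gcongr
      have hstep' : ((tr EE A).card : ℝ) ≤ (tr EE (A.erase v)).card +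
          (((EE.filter (fun E => v ∈ E)).image (nbr v)).card : ℝ) * (tr EE (A.erase v \ nbr v A)).card := by
        exact_mod_cast hstep
      have hX : (((EE.filter (fun E => v ∈ E)).image (nbr v)).card : ℝ) * (tr EE (A.erase v \ nbr v A)).card
          ≤ L * (2 ^ m * (L * M) ^ q * (1 + 1 / M) ^ (A.erase v).card) := by
        refine mul_le_mul (hL v) e2' (Nat.cast_nonneg _) (by linarith)
      have hfin : 2 ^ m * (L * M) ^ (q + 1) * (1 + 1 / M) ^ (A.erase v).card
          + L * (2 ^ m * (L * M) ^ q * (1 + 1 / M) ^ (A.erase v).card)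
          = 2 ^ m * (L * M) ^ (q + 1) * (1 + 1 / M) ^ A.card := by
        rw [← hc1, pow_succ (1 + 1 / M)]
        field_simp
        ring
      linarith

/-! ## witnesses -/

theorem lean_wit {k : ℕ} {TT : Finset (Finset (Fin n))} {C T : Finset (Fin n)} (hC : C ∈ leanU k TT) (_hT : T ∈ TT)
    (hd : Disjoint C T) : ∀ T' ∈ TT, T' ≠ T → 2 ≤ (C ∩ T').card := by
  obtain ⟨_, T₀, hT₀, hd₀, h₀⟩ := mem_leanU.1 hC
  intro T' hT' hne
  by_cases h : T' = T₀
  · by_cases h2 : T = T₀
    · exact absurd (h.trans h2.symm) hne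
    · have := h₀ T _hT h2
      rw [disjoint_iff_inter_eq_empty.1 hd] at this
      simp at this
  · exact h₀ T' hT' h

/-- a set outside has many elements -/
theorem compl_card {k s w : ℕ} (h : w + k + s ≤ n) {C T : Finset (Fin n)} (hC : C.card ≤ k) (hT : T.card ≤ s) :
    w ≤ ((C ∪ T)ᶜ).card := by
  rw [card_compl, Fintype.card_fin]
  have := card_union_le C T
  omega

/-! ## E1 -/

theorem card_lean_le {r g s w : ℕ} (hr : 2 ≤ r) {TT : Finset (Finset (Fin n))} (hw : w + (r - 2) + s ≤ n)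
    (hTT : ∀ T ∈ TT, g ≤ T.card ∧ T.card ≤ s) :
    (leanU (r - 2) TT).card * (g * w) ≤ (KT r TT).card * r := by
  classical
  refine card_mul_le_card_mul (fun C X => C ⊆ X ∧ ∃ T ∈ TT, Disjoint C T ∧ (X ∩ T).card = 1) ?_ ?_
  · intro C hC
    obtain ⟨hCk, T, hT, hd, _⟩ := mem_leanU.1 hC
    have hsub : (T ×ˢ (C ∪ T)ᶜ).image (fun p => insert p.1 (insert p.2 C)) ⊆
        bipartiteAbove (fun C X => C ⊆ X ∧ ∃ T ∈ TT, Disjoint C T ∧ (X ∩ T).card = 1) (KT r TT) C := by
      intro X hX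
      obtain ⟨⟨z, x⟩, hzx, rfl⟩ := mem_image.1 hX
      obtain ⟨hz, hx⟩ := mem_product.1 hzx
      simp only [mem_compl, mem_union, not_or] at hx hz
      have hzC : z ∉ C := fun h => (disjoint_left.1 hd h) hz
      have hzx' : z ≠ x := fun h => hx.2 (h ▸ hz)
      have hcard : (insert z (insert x C)).card = r := by
        rw [card_insert_of_notMem, card_insert_of_notMem hx.1, hCk]
        · omega
        · simp only [mem_insert, not_or]; exact ⟨hzx', hzC⟩
      have hint : (insert z (insert x C)) ∩ T = {z} := by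
        ext y
        simp only [mem_inter, mem_insert, mem_singleton]
        constructor
        · rintro ⟨rfl | rfl | h, h2⟩
          · rfl
          · exact absurd h2 hx.2
          · exact absurd h2 (disjoint_left.1 hd h)
        · rintro rfl
          exact ⟨Or.inl rfl, hz⟩
      refine (mem_bipartiteAbove _).2 ⟨mem_KT.2 ⟨hcard, T, hT, ?_⟩, ?_, T, hT, hd, ?_⟩
      · rw [hint]; simp
      · intro y hy; simp [hy]
      · rw [hint]; simp
    refine le_trans ?_ (card_le_card hsub)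
    rw [card_image_of_injOn, card_product]
    · exact Nat.mul_le_mul (hTT T hT).1 (compl_card hw hCk.le (hTT T hT).2)
    · rintro ⟨z, x⟩ h ⟨z', x'⟩ h' heq
      simp only [coe_product, Set.mem_prod, mem_coe, mem_compl, mem_union, not_or] at h h'
      have hzC : z ∉ C := fun q => (disjoint_left.1 hd q) h.1
      have hzC' : z' ∉ C := fun q => (disjoint_left.1 hd q) h'.1
      simp only at heq
      have hz : z = z' := by
        have : z ∈ insert z' (insert x' C) := heq ▸ mem_insert_self _ _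
        simp only [mem_insert] at this
        rcases this with q | q | q
        · exact q
        · exact absurd h.1 (q ▸ h'.2.2)
        · exact absurd q hzC
      have hx : x = x' := by
        have : x ∈ insert z' (insert x' C) := heq ▸ mem_insert_of_mem (mem_insert_self _ _)
        simp only [mem_insert] at this
        rcases this with q | q | q
        · exact absurd h'.1 (q ▸ h.2.2)
        · exact q
        · exact absurd q h.2.1
      rw [hz, hx]
  · intro X hX
    by_cases hne : (bipartiteBelow (fun C X => C ⊆ X ∧ ∃ T ∈ TT, Disjoint C T ∧ (X ∩ T).card = 1)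
        (leanU (r - 2) TT) X).Nonempty
    · obtain ⟨C₁, hC₁⟩ := hne
      obtain ⟨hC₁U, hC₁X, T₁, hT₁, hd₁, hc₁⟩ := (mem_bipartiteBelow _).1 hC₁
      obtain ⟨z, hz⟩ := card_eq_one.1 hc₁
      have hXr : X.card = r := (mem_KT.1 hX).1
      have hsub : bipartiteBelow (fun C X => C ⊆ X ∧ ∃ T ∈ TT, Disjoint C T ∧ (X ∩ T).card = 1)
          (leanU (r - 2) TT) X ⊆ X.image (fun x => (X.erase z).erase x) := by
        intro C hC
        obtain ⟨hCU, hCX, T, hT, hd, hc⟩ := (mem_bipartiteBelow _).1 hC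
        have hTT1 : T = T₁ := by
          by_contra hne
          have h2 := lean_wit hC₁U hT₁ hd₁ T hT hne
          have : (C₁ ∩ T).card ≤ (X ∩ T).card := card_le_card (inter_subset_inter_right hC₁X)
          omega
        subst hTT1
        have hzC : z ∉ C := by
          intro h
          have : z ∈ X ∩ T := by rw [hz]; simp
          exact disjoint_left.1 hd h (mem_inter.1 this).2
        have hzX : z ∈ X := by
          have : z ∈ X ∩ T := by rw [hz]; simp
          exact (mem_inter.1 this).1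
        have hCk := (mem_leanU.1 hCU).1
        have hsub2 : C ⊆ X.erase z := fun y hy => mem_erase.2 ⟨fun h => hzC (h ▸ hy), hCX hy⟩
        have hc1 : ((X.erase z) \ C).card = 1 := by
          rw [card_sdiff_of_subset hsub2, card_erase_of_mem hzX]; omega
        obtain ⟨x, hx⟩ := card_eq_one.1 hc1
        have hxX : x ∈ X.erase z \ C := by rw [hx]; simp
        refine mem_image.2 ⟨x, mem_of_mem_erase (mem_sdiff.1 hxX).1, ?_⟩
        ext y
        constructor
        · intro hy
          obtain ⟨h1, h2⟩ := mem_erase.1 hy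
          by_contra h3
          have : y ∈ X.erase z \ C := mem_sdiff.2 ⟨h2, h3⟩
          rw [hx, mem_singleton] at this
          exact h1 this
        · intro hy
          refine mem_erase.2 ⟨?_, hsub2 hy⟩
          rintro rfl
          exact (mem_sdiff.1 hxX).2 hy
      exact (card_le_card hsub).trans (card_image_le.trans hXr.le)
    · rw [not_nonempty_iff_eq_empty] at hne
      rw [hne]; simp

/-! ## E2: tight sets -/

open Classical in
/-- the critical elements of `C` -/
noncomputable def Pc (TT : Finset (Finset (Fin n))) (C : Finset (Fin n)) : Finset (Fin n) :=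
  C.filter (fun c => ∃ T ∈ TT, c ∈ T ∧ (C ∩ T).card = 2)

theorem mem_Pc {TT : Finset (Finset (Fin n))} {C : Finset (Fin n)} {c : Fin n} :
    c ∈ Pc TT C ↔ c ∈ C ∧ ∃ T ∈ TT, c ∈ T ∧ (C ∩ T).card = 2 := by
  simp [Pc]

theorem swap_mem {k : ℕ} {TT : Finset (Finset (Fin n))} {C T : Finset (Fin n)} {c x : Fin n} (hC : C ∈ leanU k TT)
    (hT : T ∈ TT) (hd : Disjoint C T) (hc : c ∈ C) (hcP : c ∉ Pc TT C) (hx : x ∉ C) (hxT : x ∉ T) :
    insert x (C.erase c) ∈ leanU k TT := by
  classical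
  have hk := (mem_leanU.1 hC).1
  refine mem_leanU.2 ⟨?_, T, hT, ?_, ?_⟩
  · rw [card_insert_of_notMem (fun h => hx (mem_of_mem_erase h)), card_erase_of_mem hc]
    have := card_pos.2 ⟨c, hc⟩
    omega
  · rw [disjoint_insert_left]
    exact ⟨hxT, hd.mono_left (erase_subset _ _)⟩
  · intro T' hT' hne
    have h2 := lean_wit hC hT hd T' hT' hne
    by_cases hcT : c ∈ T'
    · have h3 : (C ∩ T').card ≠ 2 := fun h => hcP (mem_Pc.2 ⟨hc, T', hT', hcT, h⟩)
      have h4 : (C ∩ T').erase c ⊆ insert x (C.erase c) ∩ T' := by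
        intro y hy
        simp only [mem_erase, mem_inter, mem_insert] at hy ⊢
        exact ⟨Or.inr ⟨hy.1, hy.2.1⟩, hy.2.2⟩
      have h5 := card_le_card h4
      rw [card_erase_of_mem (mem_inter.2 ⟨hc, hcT⟩)] at h5
      omega
    · refine h2.trans (card_le_card ?_)
      intro y hy
      simp only [mem_erase, mem_inter, mem_insert] at hy ⊢
      exact ⟨Or.inr ⟨fun h => hcT (h ▸ hy.2), hy.1⟩, hy.2⟩

/-- the relation between tight sets and sets with two elements less -/
def relB (TT : Finset (Finset (Fin n))) (C B : Finset (Fin n)) : Prop :=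
  B ⊆ C ∧ (C \ B).card = 2 ∧ ∀ e ∈ C \ B, ∃ T ∈ TT, (C \ B) ∩ T = {e} ∧ (B ∩ T).card = 1

theorem relB_card_le {k s : ℕ} {TT : Finset (Finset (Fin n))} (hTT : ∀ T ∈ TT, T.card ≤ s) (B : Finset (Fin n))
    (S : Finset (Finset (Fin n))) (hS : ∀ C ∈ S, C ∈ leanU k TT ∧ relB TT C B) : S.card ≤ s * s := by
  classical
  -- if `B` meets a member of `TT` in one element then the rest of every member of `S` meets it
  have key : ∀ C ∈ S, ∀ T ∈ TT, (B ∩ T).card = 1 → ((C \ B) ∩ T).Nonempty := by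
    intro C hC T hT hBT
    obtain ⟨hCU, hBC, _, _⟩ := hS C hC
    obtain ⟨_, T₀, hT₀, hd, hw⟩ := mem_leanU.1 hCU
    have hne : T ≠ T₀ := by
      rintro rfl
      have : B ∩ T = ∅ := disjoint_iff_inter_eq_empty.1 (hd.mono_left hBC)
      rw [this] at hBT; simp at hBT
    have h2 := hw T hT hne
    by_contra h
    rw [not_nonempty_iff_eq_empty] at h
    have : C ∩ T ⊆ B ∩ T := by
      intro y hy
      obtain ⟨h1, h3⟩ := mem_inter.1 hy
      refine mem_inter.2 ⟨?_, h3⟩
      by_contra h4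
      have : y ∈ (C \ B) ∩ T := mem_inter.2 ⟨mem_sdiff.2 ⟨h1, h4⟩, h3⟩
      rw [h] at this; simp at this
    have := card_le_card this
    omega
  rcases S.eq_empty_or_nonempty with rfl | ⟨C₀, hC₀⟩
  · simp
  · obtain ⟨_, hB₀, hc₀, hr₀⟩ := hS C₀ hC₀
    obtain ⟨e, he⟩ : (C₀ \ B).Nonempty := card_pos.1 (by omega)
    obtain ⟨T₁, hT₁, _, hBT₁⟩ := hr₀ e he
    have hsub : S ⊆ T₁.biUnion (fun d => S.filter (fun C => d ∈ C \ B)) := by
      intro C hC
      obtain ⟨d, hd⟩ := key C hC T₁ hT₁ hBT₁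
      obtain ⟨h1, h2⟩ := mem_inter.1 hd
      exact mem_biUnion.2 ⟨d, h2, mem_filter.2 ⟨hC, h1⟩⟩
    have hle : ∀ d ∈ T₁, (S.filter (fun C => d ∈ C \ B)).card ≤ s := by
      intro d _
      rcases (S.filter (fun C => d ∈ C \ B)).eq_empty_or_nonempty with h | ⟨C₁, hC₁⟩
      · rw [h]; simp
      · obtain ⟨hC₁S, hd₁⟩ := mem_filter.1 hC₁
        obtain ⟨_, hB₁, hc₁, hr₁⟩ := hS C₁ hC₁S
        obtain ⟨e₀, he₀⟩ : ((C₁ \ B).erase d).Nonempty := card_pos.1 (by rw [card_erase_of_mem hd₁]; omega)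
        obtain ⟨hne, he₀'⟩ := mem_erase.1 he₀
        obtain ⟨T, hT, hTe, hBT⟩ := hr₁ e₀ he₀'
        have hdT : d ∉ T := by
          intro h
          have : d ∈ (C₁ \ B) ∩ T := mem_inter.2 ⟨hd₁, h⟩
          rw [hTe, mem_singleton] at this
          exact hne this.symm
        have hsub2 : S.filter (fun C => d ∈ C \ B) ⊆ T.image (fun e => insert d (insert e B)) := by
          intro C hC
          obtain ⟨hCS, hdC⟩ := mem_filter.1 hC
          obtain ⟨_, hBC, hc, _⟩ := hS C hCS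
          obtain ⟨e', he'⟩ := key C hCS T hT hBT
          obtain ⟨h1, h2⟩ := mem_inter.1 he'
          refine mem_image.2 ⟨e', h2, ?_⟩
          have hde : d ≠ e' := fun h => hdT (h ▸ h2)
          have hCB : C \ B = {d, e'} := by
            symm
            apply eq_of_subset_of_card_le
            · intro y hy
              simp only [mem_insert, mem_singleton] at hy
              rcases hy with rfl | rfl
              · exact hdC
              · exact h1
            · rw [card_pair hde, hc]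
          rw [← sdiff_union_of_subset hBC, hCB]
          ext y
          simp only [mem_insert, mem_union, mem_singleton]
          tauto
        exact (card_le_card hsub2).trans (card_image_le.trans (hTT T hT))
    calc S.card ≤ _ := card_le_card hsub
      _ ≤ T₁.card * s := card_biUnion_le_card_mul _ _ _ hle
      _ ≤ s * s := Nat.mul_le_mul_right _ (hTT T₁ hT₁)

open Classical in
/-- number of `B` below a set with many critical elements -/
theorem relB_many {TT : Finset (Finset (Fin n))} {C : Finset (Fin n)} :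
    (Pc TT C).card * (Pc TT C).card ≤ 2 * ((univ : Finset (Finset (Fin n))).filter (fun B => relB TT C B)).card +
      4 * (Pc TT C).card := by
  set P := Pc TT C with hP
  have hex : ∀ c : Fin n, ∃ T : Finset (Fin n), c ∈ P → (T ∈ TT ∧ c ∈ T ∧ (C ∩ T).card = 2) := by
    intro c
    by_cases h : c ∈ P
    · obtain ⟨_, T, h1, h2, h3⟩ := mem_Pc.1 h
      exact ⟨T, fun _ => ⟨h1, h2, h3⟩⟩
    · exact ⟨∅, fun h' => absurd h' h⟩
  choose W hW using hex
  have hPC : ∀ c ∈ P, c ∈ C := fun c hc => (mem_Pc.1 hc).1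
  -- ordered good pairs
  set Q := (P ×ˢ P).filter (fun p => p.2 ∉ W p.1 ∧ p.1 ∉ W p.2) with hQ
  set Q1 := (P ×ˢ P).filter (fun p => p.2 ∈ W p.1) with hQ1
  set Q2 := (P ×ˢ P).filter (fun p => p.1 ∈ W p.2) with hQ2
  have hcov : P ×ˢ P ⊆ Q ∪ (Q1 ∪ Q2) := by
    intro p hp
    simp only [hQ, hQ1, hQ2, mem_union, mem_filter]
    by_cases h1 : p.2 ∈ W p.1
    · exact Or.inr (Or.inl ⟨hp, h1⟩)
    · by_cases h2 : p.1 ∈ W p.2
      · exact Or.inr (Or.inr ⟨hp, h2⟩)
      · exact Or.inl ⟨hp, h1, h2⟩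
  have hQ1c : Q1.card ≤ P.card * 2 := by
    have : Q1 ⊆ P.biUnion (fun c => (C ∩ W c).image (fun d => (c, d))) := by
      rintro ⟨c, d⟩ h
      simp only [hQ1, mem_filter, mem_product] at h
      exact mem_biUnion.2 ⟨c, h.1.1, mem_image.2 ⟨d, mem_inter.2 ⟨hPC d h.1.2, h.2⟩, rfl⟩⟩
    refine (card_le_card this).trans (card_biUnion_le_card_mul _ _ _ ?_)
    intro c hc
    exact card_image_le.trans (hW c hc).2.2.le
  have hQ2c : Q2.card ≤ P.card * 2 := by
    have : Q2 ⊆ P.biUnion (fun c => (C ∩ W c).image (fun d => (d, c))) := by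
      rintro ⟨c, d⟩ h
      simp only [hQ2, mem_filter, mem_product] at h
      exact mem_biUnion.2 ⟨d, h.1.2, mem_image.2 ⟨c, mem_inter.2 ⟨hPC c h.1.1, h.2⟩, rfl⟩⟩
    refine (card_le_card this).trans (card_biUnion_le_card_mul _ _ _ ?_)
    intro c hc
    exact card_image_le.trans (hW c hc).2.2.le
  have hQc : Q.card ≤ 2 * (Q.image (fun p => C \ {p.1, p.2})).card := by
    refine card_le_mul_card_image _ _ ?_
    intro B hB
    have hD : (C \ B).offDiag.card ≤ 2 := by
      obtain ⟨p, hp, rfl⟩ := mem_image.1 hB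
      have hsub : ({p.1, p.2} : Finset (Fin n)) ⊆ C := by
        simp only [hQ, mem_filter, mem_product] at hp
        intro y hy
        simp only [mem_insert, mem_singleton] at hy
        rcases hy with rfl | rfl
        · exact hPC _ hp.1.1
        · exact hPC _ hp.1.2
      rw [Finset.sdiff_sdiff_eq_self hsub, offDiag_card]
      have h2 : ({p.1, p.2} : Finset (Fin n)).card ≤ 2 := card_le_two
      interval_cases h : ({p.1, p.2} : Finset (Fin n)).card <;> simp
    refine le_trans (card_le_card ?_) hD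
    rintro ⟨c, d⟩ h
    simp only [mem_filter] at h
    obtain ⟨h1, h2⟩ := h
    simp only [hQ, mem_filter, mem_product] at h1
    have hsub : ({c, d} : Finset (Fin n)) ⊆ C := by
      intro y hy
      simp only [mem_insert, mem_singleton] at hy
      rcases hy with rfl | rfl
      · exact hPC _ h1.1.1
      · exact hPC _ h1.1.2
    have hcd : c ≠ d := by
      rintro rfl
      exact h1.2.1 (hW c h1.1.1).2.1
    rw [← h2, mem_offDiag, Finset.sdiff_sdiff_eq_self hsub]
    simp [hcd]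
  have himg : Q.image (fun p => C \ {p.1, p.2}) ⊆ (univ : Finset (Finset (Fin n))).filter (fun B => relB TT C B) := by
    intro B hB
    obtain ⟨⟨c, d⟩, hp, rfl⟩ := mem_image.1 hB
    simp only [hQ, mem_filter, mem_product] at hp
    obtain ⟨⟨hcP, hdP⟩, h1, h2⟩ := hp
    have hcW := hW c hcP
    have hdW := hW d hdP
    have hsub : ({c, d} : Finset (Fin n)) ⊆ C := by
      intro y hy
      simp only [mem_insert, mem_singleton] at hy
      rcases hy with rfl | rfl
      · exact hPC _ hcP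
      · exact hPC _ hdP
    have hcd : c ≠ d := by
      rintro rfl
      exact h1 hcW.2.1
    have hone : ∀ a b : Fin n, a ∈ P → a ∈ C → (a ∈ ({c, d} : Finset (Fin n))) → b ∉ W a → ({c, d} : Finset (Fin n)) = {a, b} →
        ∃ T ∈ TT, ({c, d} : Finset (Fin n)) ∩ T = {a} ∧ ((C \ {c, d}) ∩ T).card = 1 := by
      intro a b haP haC _ hb hab
      obtain ⟨hT, haT, hc2⟩ := hW a haP
      refine ⟨W a, hT, ?_, ?_⟩
      · rw [hab]
        ext y
        simp only [mem_inter, mem_insert, mem_singleton]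
        constructor
        · rintro ⟨rfl | rfl, h⟩
          · rfl
          · exact absurd h hb
        · rintro rfl
          exact ⟨Or.inl rfl, haT⟩
      · have : (C \ {c, d}) ∩ W a = (C ∩ W a).erase a := by
          rw [hab]
          ext y
          simp only [mem_inter, mem_sdiff, mem_insert, mem_singleton, not_or, mem_erase]
          constructor
          · rintro ⟨⟨h1, h2, _⟩, h3⟩
            exact ⟨h2, h1, h3⟩
          · rintro ⟨h1, h2, h3⟩
            exact ⟨⟨h2, h1, fun h => hb (h ▸ h3)⟩, h3⟩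
        rw [this, card_erase_of_mem (mem_inter.2 ⟨haC, haT⟩), hc2]
    refine mem_filter.2 ⟨mem_univ _, sdiff_subset, ?_, ?_⟩
    · show (C \ (C \ {c, d})).card = 2
      rw [Finset.sdiff_sdiff_eq_self hsub, card_pair hcd]
    · intro e he
      have he' : e ∈ ({c, d} : Finset (Fin n)) := by
        rwa [show C \ (C \ {c, d}) = {c, d} from Finset.sdiff_sdiff_eq_self hsub] at he
      show ∃ T ∈ TT, (C \ (C \ {c, d})) ∩ T = {e} ∧ ((C \ {c, d}) ∩ T).card = 1
      rw [Finset.sdiff_sdiff_eq_self hsub]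
      simp only [mem_insert, mem_singleton] at he'
      rcases he' with rfl | rfl
      · exact hone e d hcP (hPC _ hcP) (by simp) h1 rfl
      · exact hone e c hdP (hPC _ hdP) (by simp) h2 (pair_comm _ _)
  have h1 := card_le_card hcov
  have h2 := card_union_le Q (Q1 ∪ Q2)
  have h3 := card_union_le Q1 Q2
  have h4 := card_le_card himg
  rw [card_product] at h1
  omega


/-! ## counting the supersets -/

theorem up_one {r j w : ℕ} (hj : j ≤ r) {TT : Finset (Finset (Fin n))} {B T : Finset (Fin n)} (hB : B.card = r - j)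
    (hT : T ∈ TT) (hd : Disjoint B T) (hw : w ≤ ((B ∪ T)ᶜ).card) :
    w.choose j ≤ ((KT r TT).filter (fun X => B ⊆ X)).card := by
  classical
  have hsub : (powersetCard j ((B ∪ T)ᶜ)).image (fun P => B ∪ P) ⊆ (KT r TT).filter (fun X => B ⊆ X) := by
    intro X hX
    obtain ⟨P, hP, rfl⟩ := mem_image.1 hX
    obtain ⟨hP1, hP2⟩ := mem_powersetCard.1 hP
    have hBP : Disjoint B P := by
      rw [disjoint_left]
      intro y hy hyP
      have := hP1 hyP
      simp only [mem_compl, mem_union, not_or] at this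
      exact this.1 hy
    refine mem_filter.2 ⟨mem_KT.2 ⟨?_, T, hT, ?_⟩, subset_union_left⟩
    · rw [card_union_of_disjoint hBP, hB, hP2]; omega
    · have : (B ∪ P) ∩ T = ∅ := by
        ext y
        simp only [mem_inter, mem_union, notMem_empty, iff_false, not_and]
        rintro (h | h) h2
        · exact disjoint_left.1 hd h h2
        · have := hP1 h
          simp only [mem_compl, mem_union, not_or] at this
          exact this.2 h2
      rw [this]; simp
  refine le_trans ?_ (card_le_card hsub)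
  rw [card_image_of_injOn, card_powersetCard]
  · exact Nat.choose_le_choose j hw
  · intro P hP P' hP' h
    have hdis : ∀ P ∈ powersetCard j ((B ∪ T)ᶜ), (B ∪ P) \ B = P := by
      intro P hP
      obtain ⟨hP1, _⟩ := mem_powersetCard.1 hP
      ext y
      simp only [mem_sdiff, mem_union]
      constructor
      · rintro ⟨h | h, h2⟩
        · exact absurd h h2
        · exact h
      · intro h
        refine ⟨Or.inr h, fun h2 => ?_⟩
        have := hP1 h
        simp only [mem_compl, mem_union, not_or] at this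
        exact this.1 h2
    simp only at h
    rw [← hdis P hP, ← hdis P' hP', h]

theorem up_count {r j w : ℕ} (hj : j ≤ r) {TT : Finset (Finset (Fin n))} (BS : Finset (Finset (Fin n)))
    (h : ∀ B ∈ BS, B.card = r - j ∧ ∃ T ∈ TT, Disjoint B T ∧ w ≤ ((B ∪ T)ᶜ).card) :
    BS.card * w.choose j ≤ (KT r TT).card * r.choose j := by
  classical
  refine card_mul_le_card_mul (fun B X => B ⊆ X) ?_ ?_
  · intro B hB
    obtain ⟨h1, T, hT, hd, hw⟩ := h B hB
    exact up_one hj h1 hT hd hw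
  · intro X hX
    have hsub : bipartiteBelow (fun B X => B ⊆ X) BS X ⊆ powersetCard (r - j) X := by
      intro B hB
      obtain ⟨h1, h2⟩ := (mem_bipartiteBelow _).1 hB
      exact mem_powersetCard.2 ⟨h2, (h B h1).1⟩
    refine (card_le_card hsub).trans ?_
    rw [card_powersetCard, (mem_KT.1 hX).1, Nat.choose_symm hj]

open Classical in
/-- the tight sets -/
noncomputable def tightU (k : ℕ) (TT : Finset (Finset (Fin n))) : Finset (Finset (Fin n)) :=
  (leanU k TT).filter (fun C => k < 2 * (Pc TT C).card)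

open Classical in
/-- the other sets -/
noncomputable def goodU (k : ℕ) (TT : Finset (Finset (Fin n))) : Finset (Finset (Fin n)) :=
  (leanU k TT).filter (fun C => ¬ k < 2 * (Pc TT C).card)

theorem tight_union_good (k : ℕ) (TT : Finset (Finset (Fin n))) : tightU k TT ∪ goodU k TT = leanU k TT := by
  classical
  exact filter_union_filter_not_eq _ _

theorem goodU_subset (k : ℕ) (TT : Finset (Finset (Fin n))) : goodU k TT ⊆ leanU k TT := filter_subset _ _

open Classical in
/-- the sets two elements below a lean set -/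
noncomputable def downB (k : ℕ) (TT : Finset (Finset (Fin n))) : Finset (Finset (Fin n)) :=
  univ.filter (fun B => ∃ C ∈ leanU k TT, relB TT C B)

theorem mem_downB {k : ℕ} {TT : Finset (Finset (Fin n))} {B : Finset (Fin n)} :
    B ∈ downB k TT ↔ ∃ C ∈ leanU k TT, relB TT C B := by
  simp [downB]

theorem card_tight {r s w G : ℕ} (hr : 4 ≤ r) {TT : Finset (Finset (Fin n))} (hw : w + (r - 2) + s ≤ n)
    (hTT : ∀ T ∈ TT, T.card ≤ s) (hG : ∀ p : ℕ, r - 2 < 2 * p → 2 * G + 4 * p ≤ p * p) :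
    (tightU (r - 2) TT).card * G * w.choose 4 ≤ (KT r TT).card * r.choose 4 * (s * s) := by
  classical
  set BS := downB (r - 2) TT with hBS
  have h1 : (tightU (r - 2) TT).card * G ≤ BS.card * (s * s) := by
    refine card_mul_le_card_mul (fun C B => relB TT C B) ?_ ?_
    · intro C hC
      obtain ⟨hCU, ht⟩ := mem_filter.1 hC
      have h2 := relB_many (TT := TT) (C := C)
      have h3 := hG _ ht
      have h4 : (univ : Finset (Finset (Fin n))).filter (fun B => relB TT C B) ⊆
          bipartiteAbove (fun C B => relB TT C B) BS C := by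
        intro B hB
        have hB' := (mem_filter.1 hB).2
        exact (mem_bipartiteAbove _).2 ⟨mem_downB.2 ⟨C, hCU, hB'⟩, hB'⟩
      have h5 := card_le_card h4
      omega
    · intro B _
      refine relB_card_le (k := r - 2) hTT B _ ?_
      intro C hC
      obtain ⟨h2, h3⟩ := (mem_bipartiteBelow _).1 hC
      exact ⟨(mem_filter.1 h2).1, h3⟩
  have h2 : BS.card * w.choose 4 ≤ (KT r TT).card * r.choose 4 := by
    refine up_count hr BS ?_
    intro B hB
    obtain ⟨C, hC, hBC, hc, _⟩ := mem_downB.1 hB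
    obtain ⟨hCk, T, hT, hd, _⟩ := mem_leanU.1 hC
    refine ⟨?_, T, hT, hd.mono_left hBC, ?_⟩
    · rw [card_sdiff_of_subset hBC] at hc
      have := card_le_card hBC
      omega
    · exact compl_card hw ((card_le_card hBC).trans hCk.le) (hTT T hT)
  calc (tightU (r - 2) TT).card * G * w.choose 4 ≤ BS.card * (s * s) * w.choose 4 := Nat.mul_le_mul_right _ h1
    _ = BS.card * w.choose 4 * (s * s) := by ring
    _ ≤ (KT r TT).card * r.choose 4 * (s * s) := Nat.mul_le_mul_right _ h2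

/-! ## E3: supersaturation -/

open Classical in
/-- the popular sets -/
noncomputable def BB (k w : ℕ) (TT : Finset (Finset (Fin n))) : Finset (Finset (Fin n)) :=
  univ.filter (fun B => B.card + 1 = k ∧ w ≤ ((leanU k TT).filter (fun C => B ⊆ C)).card)

theorem below_card_le {k : ℕ} (S : Finset (Finset (Fin n))) (C : Finset (Fin n)) (hC : C.card = k)
    (hS : ∀ B ∈ S, B.card + 1 = k ∧ B ⊆ C) : S.card ≤ k := by
  classical
  have : S ⊆ C.image (fun c => C.erase c) := by
    intro B hB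
    obtain ⟨h1, h2⟩ := hS B hB
    have h3 : (C \ B).card = 1 := by rw [card_sdiff_of_subset h2]; omega
    obtain ⟨c, hc⟩ := card_eq_one.1 h3
    have hcC : c ∈ C \ B := by rw [hc]; simp
    refine mem_image.2 ⟨c, (mem_sdiff.1 hcC).1, ?_⟩
    ext y
    constructor
    · intro hy
      obtain ⟨h4, h5⟩ := mem_erase.1 hy
      by_contra h6
      have : y ∈ C \ B := mem_sdiff.2 ⟨h5, h6⟩
      rw [hc, mem_singleton] at this
      exact h4 this
    · intro hy
      refine mem_erase.2 ⟨?_, h2 hy⟩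
      rintro rfl
      exact (mem_sdiff.1 hcC).2 hy
  exact (card_le_card this).trans (card_image_le.trans hC.le)

theorem card_BB {k w : ℕ} (TT : Finset (Finset (Fin n))) :
    (BB k w TT).card * w ≤ (leanU k TT).card * k := by
  classical
  refine card_mul_le_card_mul (fun B C => B ⊆ C) ?_ ?_
  · intro B hB
    exact (mem_filter.1 hB).2.2
  · intro C hC
    refine below_card_le _ C (mem_leanU.1 hC).1 ?_
    intro B hB
    obtain ⟨h1, h2⟩ := (mem_bipartiteBelow _).1 hB
    exact ⟨(mem_filter.1 h1).2.1, h2⟩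

theorem BB_below {k w s : ℕ} {TT : Finset (Finset (Fin n))} (hw : w + k + s ≤ n) (hTT : ∀ T ∈ TT, T.card ≤ s)
    {C : Finset (Fin n)} (hC : C ∈ goodU k TT) : k ≤ 2 * ((BB k w TT).filter (fun B => B ⊆ C)).card := by
  classical
  obtain ⟨hCU, hnt⟩ := mem_filter.1 hC
  obtain ⟨hCk, T, hT, hd, _⟩ := mem_leanU.1 hCU
  have hsub : (C \ Pc TT C).image (fun c => C.erase c) ⊆ (BB k w TT).filter (fun B => B ⊆ C) := by
    intro B hB
    obtain ⟨c, hc, rfl⟩ := mem_image.1 hB
    obtain ⟨hcC, hcP⟩ := mem_sdiff.1 hc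
    refine mem_filter.2 ⟨mem_filter.2 ⟨mem_univ _, ?_, ?_⟩, erase_subset _ _⟩
    · rw [card_erase_of_mem hcC]; have := card_pos.2 ⟨c, hcC⟩; omega
    · have hsub2 : ((C ∪ T)ᶜ).image (fun x => insert x (C.erase c)) ⊆ (leanU k TT).filter (fun C' => C.erase c ⊆ C') := by
        intro Y hY
        obtain ⟨x, hx, rfl⟩ := mem_image.1 hY
        simp only [mem_compl, mem_union, not_or] at hx
        exact mem_filter.2 ⟨swap_mem hCU hT hd hcC hcP hx.1 hx.2, subset_insert _ _⟩
      refine le_trans ?_ (card_le_card hsub2)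
      rw [card_image_of_injOn]
      · exact compl_card hw hCk.le (hTT T hT)
      · intro x hx y hy hxy
        simp only [coe_compl, Set.mem_compl_iff, mem_coe, mem_union, not_or] at hx hy
        have : x ∈ insert y (C.erase c) := by
          have h := mem_insert_self x (C.erase c)
          simp only at hxy
          rwa [hxy] at h
        rcases mem_insert.1 this with h | h
        · exact h
        · exact absurd (mem_of_mem_erase h) hx.1
  have h1 := card_le_card hsub
  rw [card_image_of_injOn, card_sdiff_of_subset (fun c hc => (mem_Pc.1 hc).1)] at h1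
  · have : (Pc TT C).card ≤ C.card := card_le_card (fun c hc => (mem_Pc.1 hc).1)
    omega
  · intro c hc d hd' hcd
    simp only [coe_sdiff, Set.mem_sdiff, mem_coe] at hc hd'
    by_contra hne
    have : c ∈ C.erase d := mem_erase.2 ⟨hne, hc.1⟩
    simp only at hcd
    rw [← hcd] at this
    exact (mem_erase.1 this).1 rfl

theorem exists_deg {k w s : ℕ} {TT : Finset (Finset (Fin n))} (hk : 1 ≤ k) (hw : w + k + s ≤ n)
    (hTT : ∀ T ∈ TT, T.card ≤ s) (A : Finset (Finset (Fin n))) (hA : A ⊆ goodU k TT) (hA0 : A.Nonempty)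
    (hbig : 8 * (leanU k TT).card ≤ w * A.card) :
    ∃ v ∈ A, k * w * A.card ≤ 8 * (leanU k TT).card * (nbr v A).card := by
  classical
  by_contra hcon
  push Not at hcon
  set N := (leanU k TT).card with hN
  set d : Finset (Fin n) → ℕ := fun B => (A.filter (fun C => B ⊆ C)).card with hd
  have hAk : ∀ C ∈ A, C.card = k := fun C hC => (mem_leanU.1 (goodU_subset _ _ (hA hC))).1
  -- sum of the degrees
  have hsum : ∑ B ∈ BB k w TT, d B = ∑ C ∈ A, ((BB k w TT).filter (fun B => B ⊆ C)).card := by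
    simp only [hd, card_filter]
    exact sum_comm
  have hlow : k * A.card ≤ 2 * ∑ B ∈ BB k w TT, d B := by
    rw [hsum, mul_sum, mul_comm]
    calc A.card * k = ∑ _C ∈ A, k := by rw [sum_const, smul_eq_mul]
      _ ≤ _ := sum_le_sum (fun C hC => BB_below hw hTT (hA hC))
  have hsq : ∑ B ∈ BB k w TT, d B ^ 2 ≤ ∑ C ∈ A, (k + (nbr C A).card) := by
    have h1 : ∑ B ∈ BB k w TT, d B ^ 2 = ∑ C ∈ A, ∑ B ∈ (BB k w TT).filter (fun B => B ⊆ C), d B := by
      have h2 : ∀ B ∈ BB k w TT, d B ^ 2 = ∑ C ∈ A, if B ⊆ C then d B else 0 := by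
        intro B _
        rw [← sum_filter, sum_const, smul_eq_mul, sq]
      rw [sum_congr rfl h2, sum_comm]
      refine sum_congr rfl fun C _ => ?_
      rw [sum_filter]
    rw [h1]
    refine sum_le_sum fun C hC => ?_
    have hCk := hAk C hC
    -- pairs
    have h2 : ∑ B ∈ (BB k w TT).filter (fun B => B ⊆ C), d B =
        (((BB k w TT).filter (fun B => B ⊆ C)).sigma (fun B => A.filter (fun C' => B ⊆ C'))).card := by
      rw [card_sigma]
    rw [h2]
    have h3 : (((BB k w TT).filter (fun B => B ⊆ C)).sigma (fun B => A.filter (fun C' => B ⊆ C'))) ⊆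
        (((BB k w TT).filter (fun B => B ⊆ C)).image (fun B => (⟨B, C⟩ : Σ _ : Finset (Fin n), Finset (Fin n)))) ∪
          ((nbr C A).image (fun C' => (⟨C ∩ C', C'⟩ : Σ _ : Finset (Fin n), Finset (Fin n)))) := by
      rintro ⟨B, C'⟩ h
      obtain ⟨hB, hC'⟩ := mem_sigma.1 h
      obtain ⟨hBB, hBC⟩ := mem_filter.1 hB
      obtain ⟨hC'A, hBC'⟩ := mem_filter.1 hC'
      simp only at hBC' hC'A hBC hBB
      have hBk := (mem_filter.1 hBB).2.1
      by_cases hCC : C' = C
      · subst hCC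
        exact mem_union_left _ (mem_image.2 ⟨B, mem_filter.2 ⟨hBB, hBC⟩, rfl⟩)
      · have hC'k := hAk C' hC'A
        have hsub : B ⊆ C ∩ C' := subset_inter hBC hBC'
        have hlt : (C ∩ C').card < C.card := by
          refine card_lt_card ⟨inter_subset_left, ?_⟩
          intro h4
          have h5 : C ⊆ C' := fun y hy => (mem_inter.1 (h4 hy)).2
          exact hCC (eq_of_subset_of_card_le h5 (by omega)).symm
        have hle := card_le_card hsub
        have heq : B = C ∩ C' := eq_of_subset_of_card_le hsub (by omega)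
        refine mem_union_right _ (mem_image.2 ⟨C', mem_nbr.2 ⟨hC'A, ?_⟩, ?_⟩)
        · rw [inter_comm, ← heq]; omega
        · rw [heq]
    refine (card_le_card h3).trans ((card_union_le _ _).trans ?_)
    refine Nat.add_le_add (card_image_le.trans ?_) card_image_le
    refine below_card_le _ C hCk ?_
    intro B hB
    obtain ⟨h4, h5⟩ := mem_filter.1 hB
    exact ⟨(mem_filter.1 h4).2.1, h5⟩
  have hCS : (∑ B ∈ BB k w TT, d B) ^ 2 ≤ (BB k w TT).card * ∑ B ∈ BB k w TT, d B ^ 2 := by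
    have := sq_sum_le_card_mul_sum_sq (s := BB k w TT) (f := fun B => (d B : ℚ))
    exact_mod_cast this
  have hBBc := card_BB (k := k) (w := w) TT
  set D := ∑ C ∈ A, (nbr C A).card with hD
  have hsum2 : ∑ C ∈ A, (k + (nbr C A).card) = k * A.card + D := by
    rw [sum_add_distrib, sum_const, smul_eq_mul, mul_comm]
  rw [hsum2] at hsq
  have hDlt : 8 * N * D < k * w * A.card * A.card := by
    have h1 : ∑ C ∈ A, 8 * N * (nbr C A).card < ∑ _C ∈ A, k * w * A.card :=
      sum_lt_sum_of_nonempty hA0 (fun C hC => hcon C hC)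
    rw [← mul_sum, sum_const, smul_eq_mul] at h1
    calc 8 * N * D < A.card * (k * w * A.card) := h1
      _ = _ := by ring
  -- conclusion
  have hA1 : 1 ≤ A.card := card_pos.2 hA0
  set a := A.card with ha
  set Sd := ∑ B ∈ BB k w TT, d B with hSd
  set S2 := ∑ B ∈ BB k w TT, d B ^ 2 with hS2
  set b := (BB k w TT).card with hb
  have e1 : (k * a) ^ 2 ≤ 4 * (b * S2) := by
    calc (k * a) ^ 2 ≤ (2 * Sd) ^ 2 := Nat.pow_le_pow_left hlow 2
      _ = 4 * Sd ^ 2 := by ring
      _ ≤ 4 * (b * S2) := Nat.mul_le_mul_left _ hCS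
  have e2 : w * (k * a) ^ 2 ≤ 4 * (N * k) * (k * a + D) := by
    calc w * (k * a) ^ 2 ≤ w * (4 * (b * S2)) := Nat.mul_le_mul_left _ e1
      _ = 4 * (b * w) * S2 := by ring
      _ ≤ 4 * (N * k) * (k * a + D) := Nat.mul_le_mul (Nat.mul_le_mul_left _ hBBc) hsq
  have e3 : w * k * a ^ 2 ≤ 4 * N * (k * a + D) := by
    have : k * (w * k * a ^ 2) ≤ k * (4 * N * (k * a + D)) := by
      calc k * (w * k * a ^ 2) = w * (k * a) ^ 2 := by ring
        _ ≤ 4 * (N * k) * (k * a + D) := e2
        _ = _ := by ring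
    exact Nat.le_of_mul_le_mul_left this hk
  have e4 : 8 * N * (k * a) ≤ w * k * a ^ 2 := by
    calc 8 * N * (k * a) ≤ w * a * (k * a) := Nat.mul_le_mul_right _ hbig
      _ = _ := by ring
  have e5 : 8 * N * D < w * k * a ^ 2 := by
    calc 8 * N * D < k * w * a * a := hDlt
      _ = _ := by ring
  have e6 : 2 * (w * k * a ^ 2) ≤ 8 * N * (k * a) + 8 * N * D := by
    calc 2 * (w * k * a ^ 2) ≤ 2 * (4 * N * (k * a + D)) := Nat.mul_le_mul_left _ e3
      _ = _ := by ring
  omega


/-! ## E5: assembly -/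

theorem card_le_tr_mul (EE : Finset (Finset (Finset (Fin n)))) (A B : Finset (Finset (Fin n)))
    (h : ∀ E ∈ EE, E ⊆ A ∪ B) : EE.card ≤ (tr EE A).card * (tr EE B).card := by
  classical
  rw [← card_product]
  refine card_le_card_of_injOn (fun E => (E ∩ A, E ∩ B)) ?_ ?_
  · intro E hE
    exact mem_product.2 ⟨mem_image.2 ⟨E, hE, rfl⟩, mem_image.2 ⟨E, hE, rfl⟩⟩
  · intro E hE E' hE' heq
    simp only [Prod.mk.injEq] at heq
    have h1 : E = (E ∩ A) ∪ (E ∩ B) := by
      rw [← inter_union_distrib_left]; exact (inter_eq_left.2 (h E hE)).symm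
    have h2 : E' = (E' ∩ A) ∪ (E' ∩ B) := by
      rw [← inter_union_distrib_left]; exact (inter_eq_left.2 (h E' hE')).symm
    rw [h1, h2, heq.1, heq.2]

theorem choose_four_lower (w : ℕ) : (w - 3) ^ 4 ≤ 24 * w.choose 4 := by
  have h := Nat.pow_sub_le_descFactorial w 4
  rw [Nat.descFactorial_eq_factorial_mul_choose] at h
  have h2 : w + 1 - 4 = w - 3 := by omega
  rw [h2] at h
  simpa [Nat.factorial] using h

theorem choose_four_upper (r : ℕ) : 24 * r.choose 4 ≤ r ^ 4 := by
  have h := Nat.descFactorial_le_pow r 4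
  rw [Nat.descFactorial_eq_factorial_mul_choose] at h
  simpa [Nat.factorial] using h

/-- the counting lemma with explicit conditions -/
theorem count_core {r g s : ℕ} {TT : Finset (Finset (Fin n))} {EE : Finset (Finset (Finset (Fin n)))} {L : ℝ}
    (hn : 2 * 10 ^ 6 ≤ n) (hr1 : 4 * n < 9 * r) (hr2 : 9 * r < 5 * n) (hg : 10 ^ 5 ≤ g)
    (hs : 10 ^ 7 * (s * s) ≤ n) (hTT : ∀ T ∈ TT, g ≤ T.card ∧ T.card ≤ s) (hL1 : 1 ≤ L)
    (hEE : ∀ E ∈ EE, E ⊆ leanU (r - 2) TT)
    (hL : ∀ v, (((EE.filter (fun E => v ∈ E)).image (nbr v)).card : ℝ) ≤ L)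
    (hB1 : Real.log L + 2 * Real.log n ≤ n / 10 ^ 6)
    (hB2 : Real.log n * (Real.log L + 2 * Real.log n) ≤ n / 100) :
    (EE.card : ℝ) ≤ Real.exp ((KT r TT).card / (1000 * n)) := by
  classical
  set N := (leanU (r - 2) TT).card with hN
  set κ := (KT r TT).card with hκ
  have hnR : (2 * 10 ^ 6 : ℝ) ≤ n := by exact_mod_cast hn
  have hn0 : (0 : ℝ) < n := by linarith
  rcases Nat.eq_zero_or_pos N with hN0 | hNpos
  · -- no lean sets
    have hU : leanU (r - 2) TT = ∅ := card_eq_zero.1 hN0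
    have h1 : EE ⊆ {∅} := by
      intro E hE
      have := hEE E hE
      rw [hU, subset_empty] at this
      simp [this]
    have h2 : EE.card ≤ 1 := by simpa using card_le_card h1
    have h3 : (1 : ℝ) ≤ Real.exp (κ / (1000 * n)) := Real.one_le_exp (by positivity)
    have h4 : (EE.card : ℝ) ≤ 1 := by exact_mod_cast h2
    linarith
  have hss : s ≤ s * s := by
    rcases Nat.eq_zero_or_pos s with h | h
    · simp [h]
    · exact Nat.le_mul_of_pos_left s h
  set w := n / 3 with hw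
  have hwsum : w + (r - 2) + s ≤ n := by omega
  have hTs : ∀ T ∈ TT, T.card ≤ s := fun T hT => (hTT T hT).2
  -- E1
  have hE1 := card_lean_le (by omega) hwsum hTT
  rw [← hN, ← hκ] at hE1
  -- real versions
  have hwR : (0.33 : ℝ) * n ≤ w := by
    have : n ≤ 3 * w + 2 := by omega
    have : (n : ℝ) ≤ 3 * w + 2 := by exact_mod_cast this
    linarith
  have hwR2 : (w : ℝ) ≤ n := by exact_mod_cast (by omega : w ≤ n)
  have hw0 : (0 : ℝ) < w := by nlinarith
  have hrR : (r : ℝ) ≤ 0.556 * n := by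
    have : (9 * r : ℝ) < 5 * n := by exact_mod_cast hr2
    linarith
  have hrR2 : (0.444 : ℝ) * n ≤ r := by
    have : (4 * n : ℝ) < 9 * r := by exact_mod_cast hr1
    linarith
  have hNκ : (N : ℝ) ≤ 2 / 10 ^ 5 * κ := by
    have h1 : (N : ℝ) * (g * w) ≤ κ * r := by exact_mod_cast hE1
    have hgR : (10 ^ 5 : ℝ) ≤ g := by exact_mod_cast hg
    have h2 : (N : ℝ) * (10 ^ 5 * (0.33 * n)) ≤ κ * (0.556 * n) := by
      calc (N : ℝ) * (10 ^ 5 * (0.33 * n)) ≤ N * (g * w) := by gcongr
        _ ≤ κ * r := h1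
        _ ≤ κ * (0.556 * n) := by gcongr
    have hκ0 : (0 : ℝ) ≤ κ := Nat.cast_nonneg _
    have h3 : ((N : ℝ) * (10 ^ 5 * 0.33)) * n ≤ (κ * 0.556) * n := by linarith
    have h4 := le_of_mul_le_mul_right h3 hn0
    linarith
  -- lower bound of κ
  have hκn : (0.05 : ℝ) * n ^ 2 ≤ κ := by
    obtain ⟨C, hC⟩ := card_pos.1 hNpos
    obtain ⟨hCk, T, hT, hd, _⟩ := mem_leanU.1 hC
    have h1 := up_one (r := r) (j := 2) (w := w) (by omega) hCk hT hd (compl_card hwsum hCk.le (hTs T hT))
    have h2 : w.choose 2 ≤ κ := h1.trans (card_le_card (filter_subset _ _))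
    have h3 : w * (w - 1) ≤ 2 * κ := by
      rw [Nat.choose_two_right] at h2
      have := Nat.div_mul_cancel (Nat.even_mul_pred_self w).two_dvd
      omega
    have h4 : (w : ℝ) * (w - 1) ≤ 2 * κ := by
      have h5 : ((w * (w - 1) : ℕ) : ℝ) ≤ ((2 * κ : ℕ) : ℝ) := by exact_mod_cast h3
      rw [Nat.cast_mul, Nat.cast_sub (by omega : 1 ≤ w)] at h5
      push_cast at h5
      linarith
    nlinarith
  -- the tight sets
  set t := (tightU (r - 2) TT).card with ht
  have htR : (t : ℝ) ≤ 600 * κ * (s * s) / n ^ 2 := by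
    have h1 := card_tight (r := r) (s := s) (w := w) (G := n ^ 2 / 50) (by omega) hwsum hTs (by
      intro p hp
      have h2 : 4 * n < 18 * p + 27 := by omega
      have h3 : 2 * (n ^ 2 / 50) ≤ n ^ 2 / 25 := by omega
      have h4 : n ^ 2 / 25 + 4 * p ≤ p * p := by
        have h5 : n ^ 2 / 25 * 25 ≤ n ^ 2 := Nat.div_mul_le_self _ _
        nlinarith
      omega)
    rw [← ht, ← hκ] at h1
    have h2 := choose_four_lower w
    have h3 := choose_four_upper r
    have h4 : t * (n ^ 2 / 50) * (w - 3) ^ 4 ≤ κ * r ^ 4 * (s * s) := by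
      calc t * (n ^ 2 / 50) * (w - 3) ^ 4 ≤ t * (n ^ 2 / 50) * (24 * w.choose 4) := Nat.mul_le_mul_left _ h2
        _ = 24 * (t * (n ^ 2 / 50) * w.choose 4) := by ring
        _ ≤ 24 * (κ * r.choose 4 * (s * s)) := Nat.mul_le_mul_left _ h1
        _ = κ * (24 * r.choose 4) * (s * s) := by ring
        _ ≤ κ * r ^ 4 * (s * s) := Nat.mul_le_mul_right _ (Nat.mul_le_mul_left _ h3)
    have h5 : (t : ℝ) * ((n ^ 2 / 50 : ℕ) : ℝ) * ((w - 3 : ℕ) : ℝ) ^ 4 ≤ κ * r ^ 4 * (s * s) := by exact_mod_cast h4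
    have h6 : (0.32 : ℝ) * n ≤ ((w - 3 : ℕ) : ℝ) := by
      rw [Nat.cast_sub (by omega)]; push_cast; nlinarith
    have h7 : (n : ℝ) ^ 2 / 60 ≤ ((n ^ 2 / 50 : ℕ) : ℝ) := by
      have : n ^ 2 ≤ 50 * (n ^ 2 / 50) + 49 := by omega
      have : ((n ^ 2 : ℕ) : ℝ) ≤ ((50 * (n ^ 2 / 50) + 49 : ℕ) : ℝ) := by exact_mod_cast this
      push_cast at this
      nlinarith
    have h8 : (t : ℝ) * (n ^ 2 / 60) * (0.32 * n) ^ 4 ≤ κ * (0.556 * n) ^ 4 * (s * s) := by
      calc (t : ℝ) * ((n : ℝ) ^ 2 / 60) * (0.32 * (n : ℝ)) ^ 4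
          ≤ t * ((n ^ 2 / 50 : ℕ) : ℝ) * ((w - 3 : ℕ) : ℝ) ^ 4 := by gcongr
        _ ≤ (κ : ℝ) * (r : ℝ) ^ 4 * ((s : ℝ) * s) := h5
        _ ≤ (κ : ℝ) * (0.556 * (n : ℝ)) ^ 4 * ((s : ℝ) * s) := by gcongr
    have h9 : (t : ℝ) * (n ^ 2 / 60) ≤ 10 * (κ * (s * s)) := by
      have h10 : ((t : ℝ) * (n ^ 2 / 60)) * (0.32 ^ 4 * n ^ 4) ≤ (10 * (κ * (s * s))) * (0.32 ^ 4 * n ^ 4) := by
        have h11 : (κ : ℝ) * (0.556 * n) ^ 4 * (s * s) ≤ (10 * (κ * (s * s))) * (0.32 ^ 4 * n ^ 4) := by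
          have : (0 : ℝ) ≤ κ * (s * s) * n ^ 4 := by positivity
          nlinarith
        calc ((t : ℝ) * (n ^ 2 / 60)) * (0.32 ^ 4 * n ^ 4) = (t : ℝ) * (n ^ 2 / 60) * (0.32 * n) ^ 4 := by ring
          _ ≤ _ := h8
          _ ≤ _ := h11
      exact le_of_mul_le_mul_right h10 (by positivity)
    rw [le_div_iff₀ (by positivity)]
    nlinarith
  have hsR : (10 ^ 7 : ℝ) * (s * s) ≤ n := by exact_mod_cast hs
  have hκ0 : (0 : ℝ) ≤ κ := Nat.cast_nonneg _
  have htR2 : (t : ℝ) ≤ 6 / 10 ^ 5 * (κ / n) := by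
    refine htR.trans ?_
    rw [div_le_iff₀ (by positivity)]
    have : 6 / 10 ^ 5 * ((κ : ℝ) / n) * n ^ 2 = 6 / 10 ^ 5 * (κ * n) := by field_simp
    rw [this]
    have h2 : (κ : ℝ) * (10 ^ 7 * (s * s)) ≤ κ * n := mul_le_mul_of_nonneg_left hsR hκ0
    nlinarith
  -- parameters
  set m := 8 * N / w + 1 with hm
  have hw1 : 0 < w := by omega
  have hmw : 8 * N < w * m := by
    rw [hm]; exact Nat.lt_mul_div_succ _ hw1
  set β : ℝ := ((r - 2 : ℕ) : ℝ) * w / (8 * N) with hβ
  have hN0R : (0 : ℝ) < N := by exact_mod_cast hNpos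
  have hkR : (0.44 : ℝ) * n ≤ ((r - 2 : ℕ) : ℝ) := by
    rw [Nat.cast_sub (by omega)]; push_cast; linarith
  have hβ0 : 0 < β := by
    rw [hβ]
    have : (0 : ℝ) < ((r - 2 : ℕ) : ℝ) := by nlinarith
    positivity
  set lg := Real.log n with hlg
  have hlg0 : 0 < lg := Real.log_pos (by linarith)
  set q := ⌈lg / β⌉₊ with hq
  have hqle : (q : ℝ) ≤ lg / β + 1 := (Nat.ceil_lt_add_one (by positivity)).le
  have hβq : lg ≤ β * q := by
    have h1 : lg / β ≤ q := Nat.le_ceil _
    rw [div_le_iff₀ hβ0] at h1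
    linarith
  have hM : (1 : ℝ) ≤ (n : ℝ) ^ 2 := by nlinarith
  have hdeg : ∀ A ⊆ goodU (r - 2) TT, m < A.card → ∃ v ∈ A, β * A.card ≤ ((nbr v A).card : ℝ) := by
    intro A hA hmA
    have h1 : 8 * (leanU (r - 2) TT).card ≤ w * A.card :=
      (hmw.le).trans (Nat.mul_le_mul_left _ hmA.le)
    obtain ⟨v, hv, h2⟩ := exists_deg (by omega) hwsum hTs A hA (card_pos.1 (Nat.zero_lt_of_lt hmA)) h1
    refine ⟨v, hv, ?_⟩
    have h3 : (((r - 2 : ℕ) : ℝ) * w * A.card) ≤ 8 * N * (nbr v A).card := by exact_mod_cast h2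
    rw [hβ, div_mul_eq_mul_div, div_le_iff₀ (by positivity)]
    linarith
  have hgoodN : ((goodU (r - 2) TT).card : ℝ) ≤ N := by exact_mod_cast card_le_card (goodU_subset _ _)
  have htr := tr_bound EE (goodU (r - 2) TT) L ((n : ℝ) ^ 2) β m hL1 hM hL hdeg _ _ (Subset.refl _) rfl q (by
    have h1 : Real.exp (-(β * q)) ≤ (n : ℝ)⁻¹ := by
      have : (n : ℝ)⁻¹ = Real.exp (-lg) := by rw [Real.exp_neg, Real.exp_log hn0]
      rw [this]
      exact Real.exp_le_exp.2 (by linarith)
    have h2 : (N : ℝ) ≤ n * m := by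
      have h3 : (8 * N : ℝ) < w * m := by exact_mod_cast hmw
      have h4 : (w : ℝ) * m ≤ n * m := by gcongr
      linarith
    calc ((goodU (r - 2) TT).card : ℝ) * Real.exp (-(β * q)) ≤ N * (n : ℝ)⁻¹ := by gcongr
      _ ≤ (n * m) * (n : ℝ)⁻¹ := by gcongr
      _ = m := by field_simp)
  have hcard := card_le_tr_mul EE (tightU (r - 2) TT) (goodU (r - 2) TT) (fun E hE => by
    rw [tight_union_good]; exact hEE E hE)
  have htt := tr_card_le_pow EE (tightU (r - 2) TT)
  have hL0 : 0 < L := by linarith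
  -- to exponentials
  have hexp2 : (2 : ℝ) ≤ Real.exp 0.7 := by
    have := Real.log_two_lt_d9
    rw [← Real.exp_log (by norm_num : (0 : ℝ) < 2)]
    exact Real.exp_le_exp.2 (by linarith)
  have h2pow : ∀ j : ℕ, (2 : ℝ) ^ j ≤ Real.exp (0.7 * j) := by
    intro j
    calc (2 : ℝ) ^ j ≤ (Real.exp 0.7) ^ j := by gcongr
      _ = Real.exp (0.7 * j) := by rw [← Real.exp_nat_mul]; congr 1; ring
  have hLMq : (L * (n : ℝ) ^ 2) ^ q = Real.exp (q * (Real.log L + 2 * lg)) := by
    have : L * (n : ℝ) ^ 2 = Real.exp (Real.log L + 2 * lg) := by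
      rw [Real.exp_add, Real.exp_log hL0, two_mul, Real.exp_add, Real.exp_log hn0]; ring
    rw [this, ← Real.exp_nat_mul]
  have hone : (1 + 1 / (n : ℝ) ^ 2) ^ (goodU (r - 2) TT).card ≤ Real.exp (N / n ^ 2) := by
    calc (1 + 1 / (n : ℝ) ^ 2) ^ (goodU (r - 2) TT).card
        ≤ (Real.exp (1 / (n : ℝ) ^ 2)) ^ (goodU (r - 2) TT).card := by
          gcongr
          have := Real.add_one_le_exp (1 / (n : ℝ) ^ 2); linarith
      _ = Real.exp ((goodU (r - 2) TT).card * (1 / (n : ℝ) ^ 2)) := by rw [← Real.exp_nat_mul]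
      _ ≤ Real.exp (N / n ^ 2) := by
          apply Real.exp_le_exp.2
          rw [mul_one_div]
          gcongr
  have htotal : (EE.card : ℝ) ≤ Real.exp (0.7 * t + (0.7 * m + q * (Real.log L + 2 * lg) + N / n ^ 2)) := by
    have h1 : (EE.card : ℝ) ≤ (tr EE (tightU (r - 2) TT)).card * (tr EE (goodU (r - 2) TT)).card := by
      exact_mod_cast hcard
    have h2 : ((tr EE (tightU (r - 2) TT)).card : ℝ) ≤ Real.exp (0.7 * t) := by
      refine le_trans ?_ (h2pow t)
      exact_mod_cast htt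
    have h3 : ((tr EE (goodU (r - 2) TT)).card : ℝ) ≤
        Real.exp (0.7 * m + q * (Real.log L + 2 * lg) + N / n ^ 2) := by
      refine htr.trans ?_
      rw [Real.exp_add, Real.exp_add, ← hLMq]
      gcongr
      exact h2pow m
    rw [Real.exp_add]
    exact h1.trans (mul_le_mul h2 h3 (Nat.cast_nonneg _) (Real.exp_pos _).le)
  refine htotal.trans (Real.exp_le_exp.2 ?_)
  -- numerics
  set Bd := Real.log L + 2 * lg with hBd
  have hBd0 : 0 ≤ Bd := by
    have := Real.log_nonneg hL1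
    linarith
  have hmR : (m : ℝ) ≤ 8 * N / w + 1 := by
    rw [hm]; push_cast
    have : ((8 * N / w : ℕ) : ℝ) ≤ ((8 * N : ℕ) : ℝ) / w := Nat.cast_div_le
    push_cast at this
    linarith
  have hm2 : (m : ℝ) ≤ 5 / 10 ^ 4 * (κ / n) + 1 := by
    refine hmR.trans ?_
    have h1 : 8 * (N : ℝ) / w ≤ 5 / 10 ^ 4 * (κ / n) := by
      rw [div_le_iff₀ hw0]
      have h2 : 5 / 10 ^ 4 * ((κ : ℝ) / n) * (0.33 * n) ≤ 5 / 10 ^ 4 * ((κ : ℝ) / n) * w := by gcongr
      have h3 : 5 / 10 ^ 4 * ((κ : ℝ) / n) * (0.33 * n) = 5 / 10 ^ 4 * 0.33 * κ := by field_simp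
      rw [h3] at h2
      linarith
    linarith
  have hqR : lg / β ≤ 12 / 10 ^ 4 * (κ * lg / n ^ 2) := by
    have h1 : (0.145 : ℝ) * n ^ 2 ≤ ((r - 2 : ℕ) : ℝ) * w := by nlinarith
    have h2 : lg / β = lg * (8 * N) / (((r - 2 : ℕ) : ℝ) * w) := by
      rw [hβ]; field_simp
    rw [h2, div_le_iff₀ (by nlinarith)]
    have h3 : 12 / 10 ^ 4 * ((κ : ℝ) * lg / n ^ 2) * (0.145 * n ^ 2) ≤
        12 / 10 ^ 4 * ((κ : ℝ) * lg / n ^ 2) * (((r - 2 : ℕ) : ℝ) * w) := by gcongr
    have h4 : 12 / 10 ^ 4 * ((κ : ℝ) * lg / n ^ 2) * (0.145 * n ^ 2) = 12 / 10 ^ 4 * 0.145 * (κ * lg) := by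
      field_simp
    rw [h4] at h3
    have h5 : lg * (8 * N) ≤ lg * (8 * (2 / 10 ^ 5 * κ)) := by gcongr
    nlinarith
  have hκn2 : (1 : ℝ) ≤ 20 / n * (κ / n) := by
    have : 20 / (n : ℝ) * (κ / n) = 20 * κ / n ^ 2 := by field_simp
    rw [this, le_div_iff₀ (by positivity)]
    linarith
  have hX0 : (0 : ℝ) ≤ κ / n := by positivity
  have hone2 : (1 : ℝ) ≤ 1 / 10 ^ 5 * (κ / n) := by
    refine hκn2.trans (mul_le_mul_of_nonneg_right ?_ hX0)
    rw [div_le_div_iff₀ hn0 (by norm_num)]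
    linarith
  have hqB : q * Bd ≤ 4 / 10 ^ 5 * (κ / n) := by
    have h1 : (q : ℝ) * Bd ≤ (12 / 10 ^ 4 * (κ * lg / n ^ 2) + 1) * Bd := by
      gcongr
      linarith
    have h2 : (12 / 10 ^ 4 * ((κ : ℝ) * lg / n ^ 2)) * Bd = 12 / 10 ^ 4 * ((κ : ℝ) / n) * (lg * Bd / n) := by
      field_simp
    have h3 : lg * Bd / n ≤ 1 / 100 := by
      rw [div_le_iff₀ hn0]; linarith
    have h4 : 12 / 10 ^ 4 * ((κ : ℝ) / n) * (lg * Bd / n) ≤ 12 / 10 ^ 4 * ((κ : ℝ) / n) * (1 / 100) := by gcongr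
    have h5 : Bd ≤ 2 / 10 ^ 5 * (κ / n) := by
      have h6 : (n : ℝ) / 10 ^ 6 ≤ (n / 10 ^ 6) * (20 / n * (κ / n)) := by
        have : (0 : ℝ) ≤ n / 10 ^ 6 := by positivity
        nlinarith
      have h7 : (n : ℝ) / 10 ^ 6 * (20 / n * (κ / n)) = 2 / 10 ^ 5 * (κ / n) := by field_simp; ring
      linarith
    nlinarith
  have hNn : (N : ℝ) / n ^ 2 ≤ 1 / 10 ^ 5 * (κ / n) := by
    rw [div_le_iff₀ (by positivity)]
    have : 1 / 10 ^ 5 * ((κ : ℝ) / n) * n ^ 2 = 1 / 10 ^ 5 * (κ * n) := by field_simp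
    rw [this]
    nlinarith
  have hfin : (κ : ℝ) / (1000 * n) = 1 / 1000 * (κ / n) := by field_simp
  rw [hfin]
  nlinarith

theorem eventually_count (C1 : ℝ) : ∀ᶠ n : ℕ in Filter.atTop, ∀ (r g s L : ℕ) (TT : Finset (Finset (Fin n)))
    (EE : Finset (Finset (Finset (Fin n)))),
    4 * n < 9 * min (n - r) r → r ≤ n → 10 ^ 5 ≤ g → (s : ℝ) ≤ C1 * Real.log n →
    (∀ T ∈ TT, g ≤ T.card ∧ T.card ≤ s) → (L : ℝ) ≤ Real.exp ((n : ℝ) ^ (4 / 5 : ℝ)) →
    (∀ E ∈ EE, E ⊆ leanU (r - 2) TT) →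
    (∀ v, ((EE.filter (fun E => v ∈ E)).image (nbr v)).card ≤ L) →
    (EE.card : ℝ) ≤ Real.exp ((KT r TT).card / (1000 * n)) := by
  have e1 : ∀ᶠ n : ℕ in Filter.atTop, Real.log (n : ℝ) ≤ (n : ℝ) ^ (1 / 10 : ℝ) := by
    have h := (isLittleO_log_rpow_atTop (show (0 : ℝ) < 1 / 10 by norm_num)).bound (show (0 : ℝ) < 1 by norm_num)
    have h2 := tendsto_natCast_atTop_atTop (R := ℝ) |>.eventually h
    filter_upwards [h2, Filter.eventually_ge_atTop 1] with n hn hn1
    have h3 : (0 : ℝ) ≤ (n : ℝ) ^ (1 / 10 : ℝ) := Real.rpow_nonneg (Nat.cast_nonneg _) _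
    have h4 : (0 : ℝ) ≤ Real.log n := Real.log_nonneg (by exact_mod_cast hn1)
    rw [Real.norm_of_nonneg h4, Real.norm_of_nonneg h3] at hn
    linarith
  have e2 : ∀ᶠ n : ℕ in Filter.atTop, 10 ^ 4 * (|C1| + 1) ≤ (n : ℝ) ^ (1 / 10 : ℝ) :=
    (tendsto_natCast_atTop_atTop (R := ℝ) |>.eventually
      ((tendsto_rpow_atTop (show (0 : ℝ) < 1 / 10 by norm_num)).eventually_ge_atTop _))
  filter_upwards [e1, e2, Filter.eventually_ge_atTop 1] with n h1 h2 hn1
  intro r g s L TT EE hr hrn hg hs hTT hL hEE hLv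
  set y : ℝ := (n : ℝ) ^ (1 / 10 : ℝ) with hy
  have hn0 : (0 : ℝ) ≤ n := Nat.cast_nonneg _
  have hy10 : y ^ 10 = n := by
    rw [hy, ← Real.rpow_natCast, ← Real.rpow_mul hn0]; norm_num
  have hy8 : (n : ℝ) ^ (4 / 5 : ℝ) = y ^ 8 := by
    rw [hy, ← Real.rpow_natCast, ← Real.rpow_mul hn0]; norm_num
  have hC0 : 0 ≤ |C1| := abs_nonneg _
  have hyK : (10 : ℝ) ^ 4 ≤ y := by nlinarith
  have hy1 : 1 ≤ y := by linarith
  have hyC : 10 ^ 4 * |C1| ≤ y := by nlinarith
  have hlog0 : 0 ≤ Real.log (n : ℝ) := Real.log_nonneg (by exact_mod_cast hn1)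
  have hnbig : 2 * 10 ^ 6 ≤ n := by
    have h3 : (2 * 10 ^ 6 : ℝ) ≤ n := by
      rw [← hy10]
      calc (2 * 10 ^ 6 : ℝ) ≤ (10 ^ 4) ^ 2 := by norm_num
        _ ≤ y ^ 2 := by gcongr
        _ ≤ y ^ 10 := pow_le_pow_right₀ hy1 (by norm_num)
    exact_mod_cast h3
  set L' : ℝ := max 1 L with hL'
  have hL'1 : 1 ≤ L' := le_max_left _ _
  have hlogL : Real.log L' ≤ y ^ 8 := by
    rw [Real.log_le_iff_le_exp (by linarith), ← hy8]
    refine max_le ?_ hL
    exact Real.one_le_exp (Real.rpow_nonneg hn0 _)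
  have hy8y : y ≤ y ^ 8 := le_self_pow₀ hy1 (by norm_num)
  have hB : Real.log L' + 2 * Real.log n ≤ 3 * y ^ 8 := by linarith
  have hB0 : 0 ≤ Real.log L' + 2 * Real.log n := by
    have := Real.log_nonneg hL'1
    linarith
  refine count_core (L := L') hnbig ?_ ?_ hg ?_ hTT hL'1 hEE ?_ ?_ ?_
  · have := min_le_right (n - r) r
    omega
  · have := min_le_left (n - r) r
    omega
  · have hs0 : (0 : ℝ) ≤ s := Nat.cast_nonneg _
    have hs1 : (s : ℝ) ≤ |C1| * y := by
      calc (s : ℝ) ≤ C1 * Real.log n := hs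
        _ ≤ |C1| * Real.log n := mul_le_mul_of_nonneg_right (le_abs_self _) hlog0
        _ ≤ |C1| * y := mul_le_mul_of_nonneg_left h1 hC0
    have hs2 : (10 ^ 4 : ℝ) * s ≤ y ^ 2 := by nlinarith
    have hs3 : (10 ^ 7 : ℝ) * (s * s) ≤ n := by
      have h4 : ((10 ^ 4 : ℝ) * s) * (10 ^ 4 * s) ≤ y ^ 2 * y ^ 2 := by gcongr
      have h5 : y ^ 4 ≤ y ^ 10 := pow_le_pow_right₀ hy1 (by norm_num)
      rw [hy10] at h5
      nlinarith
    exact_mod_cast hs3
  · intro v
    refine le_trans ?_ (le_max_right 1 (L : ℝ))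
    exact_mod_cast hLv v
  · rw [le_div_iff₀ (by positivity)]
    have h4 : (10 ^ 4 : ℝ) * 10 ^ 4 * y ^ 8 ≤ y * y * y ^ 8 := by gcongr
    have h5 : y * y * y ^ 8 = n := by rw [← hy10]; ring
    nlinarith
  · have h3 : Real.log n * (Real.log L' + 2 * Real.log n) ≤ y * (3 * y ^ 8) := by gcongr
    refine h3.trans ?_
    rw [le_div_iff₀ (by norm_num)]
    have h4 : (10 ^ 4 : ℝ) * y ^ 9 ≤ y * y ^ 9 := by gcongr
    have h5 : y * y ^ 9 = n := by rw [← hy10]; ring
    have h6 : y * (3 * y ^ 8) * 100 = 300 * y ^ 9 := by ring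
    rw [h6]
    have h7 : 0 ≤ y ^ 9 := by positivity
    linarith

end H83E
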