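import Pool.Agent.H38Pav.Asym

/-!
MP_039b14_co: numerical estimates.
-/

namespace H83Pav

open Finset Filter Topology H38Pav

/-- the base `2 ^ (-1 / (48 n))` -/
noncomputable def vv (n : ℕ) : ℝ := Real.exp (-(Real.log 2 / (48 * n)))

theorem vv_pos (n : ℕ) : 0 < vv n := Real.exp_pos _

theorem log2_pos : 0 < Real.log 2 := Real.log_pos (by norm_num)

theorem vv_le_one (n : ℕ) : vv n ≤ 1 := by
  unfold vv
  rw [Real.exp_le_one_iff]
  have := log2_pos
  have h : 0 ≤ Real.log 2 / (48 * n) := by positivity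
  linarith

theorem vv_pow (n m : ℕ) : vv n ^ m = Real.exp (-(Real.log 2 * m / (48 * n))) := by
  unfold vv
  rw [← Real.exp_nat_mul]
  congr 1
  ring

theorem vv_pow_n (n : ℕ) (hn : 0 < n) : vv n ^ (48 * n) = 1 / 2 := by
  rw [vv_pow]
  have hn' : (n : ℝ) ≠ 0 := by positivity
  have : -(Real.log 2 * ((48 * n : ℕ) : ℝ) / (48 * n)) = -Real.log 2 := by
    push_cast
    field_simp
  rw [this, Real.exp_neg, Real.exp_log (by norm_num)]
  norm_num

/-- shifting binomial coefficients -/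
theorem choose_le_shift (k : ℕ) : ∀ n r : ℕ, k ≤ r → r ≤ n → n ≤ 8 * (r - k) →
    n.choose r ≤ 8 ^ k * (n - k).choose (r - k) := by
  induction k with
  | zero => intro n r _ _ _; simp
  | succ k ih =>
    intro n r hk hr hn
    obtain ⟨r', rfl⟩ : ∃ r', r = r' + 1 := ⟨r - 1, by omega⟩
    obtain ⟨n', rfl⟩ : ∃ n', n = n' + 1 := ⟨n - 1, by omega⟩
    have h1 := ih n' r' (by omega) (by omega) (by omega)
    have h2 : (n' + 1) * n'.choose r' = (n' + 1).choose (r' + 1) * (r' + 1) :=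
      Nat.add_one_mul_choose_eq n' r'
    have h3 : (n' + 1).choose (r' + 1) ≤ 8 * n'.choose r' := by
      have h4 : (n' + 1).choose (r' + 1) * (r' + 1) ≤ (8 * n'.choose r') * (r' + 1) := by
        rw [← h2]
        calc (n' + 1) * n'.choose r' ≤ (8 * (r' + 1)) * n'.choose r' :=
              Nat.mul_le_mul_right _ (by omega)
          _ = _ := by ring
      exact Nat.le_of_mul_le_mul_right h4 (by omega)
    calc (n' + 1).choose (r' + 1) ≤ 8 * n'.choose r' := h3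
      _ ≤ 8 * (8 ^ k * (n' - k).choose (r' - k)) := Nat.mul_le_mul_left _ h1
      _ = 8 ^ (k + 1) * (n' - k).choose (r' - k) := by rw [pow_succ]; ring
      _ = _ := by
          congr 2
          all_goals omega

theorem one_add_pow_le (x : ℝ) (m : ℕ) (hx : 0 ≤ x) : (1 + x) ^ m ≤ Real.exp (m * x) := by
  calc (1 + x) ^ m ≤ (Real.exp x) ^ m :=
        pow_le_pow_left₀ (by linarith) (by linarith [Real.add_one_le_exp x]) m
    _ = Real.exp (m * x) := by rw [← Real.exp_nat_mul]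

/-- `min (r, n - r) - 1 ≥ n / 3` for middle ranks -/
theorem mid_ge {n r : ℕ} (hn : 9 ≤ n) (hr : 4 * n < 9 * min (n - r) r) :
    n ≤ 3 * (min r (n - r) - 1) := by omega

theorem vv_h_le {n r g : ℕ} (hn : 9 ≤ n) (hr : 4 * n < 9 * min (n - r) r) :
    vv n ^ ((min r (n - r) - 1) * (g * g)) ≤ Real.exp (-(Real.log 2 * (g : ℝ) ^ 2 / 144)) := by
  rw [vv_pow]
  apply Real.exp_le_exp.mpr
  have hn0 : (0 : ℝ) < n := by
    have : 0 < n := by omega
    exact_mod_cast this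
  have h1 : ((n : ℕ) : ℝ) ≤ ((3 * (min r (n - r) - 1) : ℕ) : ℝ) := by
    exact_mod_cast mid_ge hn hr
  push_cast [-Nat.cast_min, -Nat.cast_sub] at h1
  set m : ℝ := ((min r (n - r) - 1 : ℕ) : ℝ) with hm
  have h2 : (((min r (n - r) - 1) * (g * g) : ℕ) : ℝ) = m * (g : ℝ) ^ 2 := by
    rw [Nat.cast_mul, Nat.cast_mul, hm]; ring
  rw [h2, neg_le_neg_iff]
  have hL := log2_pos
  rw [div_le_div_iff₀ (by norm_num) (by positivity)]
  have h3 : (n : ℝ) * (g : ℝ) ^ 2 ≤ 3 * m * (g : ℝ) ^ 2 :=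
    mul_le_mul_of_nonneg_right h1 (by positivity)
  nlinarith [mul_le_mul_of_nonneg_left h3 hL.le]

/-- polynomials are smaller than exponentials, natural number version -/
theorem eventually_pow_le (k : ℕ) (A b : ℝ) (hA : 0 ≤ A) (hb : 1 < b) :
    ∀ᶠ n : ℕ in atTop, A * (n : ℝ) ^ k ≤ b ^ n := by
  filter_upwards [eventually_poly k A b hb] with n hn
  refine le_trans (mul_le_mul_of_nonneg_left ?_ hA) hn
  exact pow_le_pow_left₀ (by positivity) (by linarith) k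

/-- the constant in the exponent -/
noncomputable def c0 : ℝ := Real.log 2 / 63504

theorem c0_pos : 0 < c0 := by unfold c0; have := log2_pos; positivity

/-- the bound for small minimal size -/
theorem eventually_bound_small (g : ℕ → ℕ)
    (hg : ∀ A : ℝ, ∀ᶠ n : ℕ in atTop, A * Real.log n ≤ (g n : ℝ) ^ 2) :
    ∀ᶠ n : ℕ in atTop, ∀ g' r : ℕ, g n ≤ g' → 20 * g' ≤ n → r ≤ n →
      4 * n < 9 * min (n - r) r → 2 ^ n ≤ n ^ 3 * n.choose r →
      vv n ^ (24 * (n.choose r / 8 ^ g')) *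
        (1 + vv n ^ ((min r (n - r) - 1) * (g' * g'))) ^ (2 * (2 ^ n * (n + 1))) ≤
        Real.exp (-(c0 * (n : ℝ) ^ 2)) := by
  have hL := log2_pos
  have hL1 : (1 / 2 : ℝ) ≤ Real.log 2 := by have := Real.log_two_gt_d9; linarith
  have hL2 : Real.log 2 ≤ 1 := by have := Real.log_two_lt_d9; linarith
  -- growth conditions
  have e1 := hg 2500
  have e2 : ∀ᶠ n : ℕ in atTop, (864 : ℝ) ^ 2 ≤ 2500 * Real.log n := by
    have h := (Real.tendsto_log_atTop.comp (tendsto_natCast_atTop_atTop (R := ℝ))).eventually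
      (eventually_ge_atTop ((864 : ℝ) ^ 2 / 2500))
    filter_upwards [h] with n hn
    have hn' : (864 : ℝ) ^ 2 / 2500 ≤ Real.log n := hn
    linarith [(div_le_iff₀ (by norm_num : (0 : ℝ) < 2500)).mp hn']
  have e3 := eventually_pow_le 6 16 (3 / 2) (by norm_num) (by norm_num)
  have e4 := eventually_pow_le 3 4 (3 / 2) (by norm_num) (by norm_num)
  filter_upwards [e1, e2, e3, e4, eventually_ge_atTop 100] with n h1 h2 h3 h4 hn g' r hg' hg20
    hr hmid hch
  have hn0 : (0 : ℝ) < n := by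
    have : 0 < n := by omega
    exact_mod_cast this
  have hn100 : (100 : ℝ) ≤ n := by exact_mod_cast hn
  have hgg : (g n : ℝ) ≤ g' := by exact_mod_cast hg'
  have hg0 : (0 : ℝ) ≤ g n := by positivity
  have h5 : (g n : ℝ) ^ 2 ≤ (g' : ℝ) ^ 2 := pow_le_pow_left₀ hg0 hgg 2
  have h6 : (864 : ℝ) ≤ g' := by
    have h7 : (864 : ℝ) ^ 2 ≤ (g' : ℝ) ^ 2 := h2.trans (h1.trans h5)
    exact le_of_sq_le_sq h7 (by positivity)
  -- eight powers
  have h8 : ((8 : ℝ)) ^ g' ≤ (4 / 3) ^ n := by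
    have a1 : ((8 : ℝ)) ^ (20 * g') ≤ 8 ^ n := pow_le_pow_right₀ (by norm_num) hg20
    have a2 : ((8 : ℝ)) ^ n ≤ ((4 / 3) ^ n) ^ 20 := by
      rw [← pow_mul, mul_comm n 20, pow_mul]
      exact pow_le_pow_left₀ (by norm_num) (by norm_num) n
    have a3 : ((8 : ℝ) ^ g') ^ 20 ≤ ((4 / 3) ^ n) ^ 20 := by
      rw [← pow_mul, mul_comm g' 20]; exact a1.trans a2
    exact le_of_pow_le_pow_left₀ (by norm_num) (by positivity) a3
  -- the quotient
  set N : ℝ := (n.choose r : ℝ) with hN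
  set q : ℕ := n.choose r / 8 ^ g' with hq
  have hch' : (2 : ℝ) ^ n ≤ (n : ℝ) ^ 3 * N := by rw [hN]; exact_mod_cast hch
  have hNq : N / 8 ^ g' ≤ q + 1 := by
    have a1 : n.choose r < (q + 1) * 8 ^ g' := by
      have := Nat.lt_mul_div_succ (n.choose r) (b := 8 ^ g') (by positivity)
      rw [hq]
      calc n.choose r < 8 ^ g' * (n.choose r / 8 ^ g' + 1) := this
        _ = _ := by ring
    rw [div_le_iff₀ (by positivity), hN]
    have a2 : (n.choose r : ℝ) < ((q : ℝ) + 1) * 8 ^ g' := by exact_mod_cast a1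
    exact a2.le
  have h9 : (3 / 2 : ℝ) ^ n ≤ (n : ℝ) ^ 3 * (N / 8 ^ g') := by
    have a1 : (2 : ℝ) ^ n = (3 / 2) ^ n * (4 / 3) ^ n := by rw [← mul_pow]; norm_num
    have a2 : (3 / 2 : ℝ) ^ n * 8 ^ g' ≤ (n : ℝ) ^ 3 * N := by
      calc (3 / 2 : ℝ) ^ n * 8 ^ g' ≤ (3 / 2) ^ n * (4 / 3) ^ n :=
            mul_le_mul_of_nonneg_left h8 (by positivity)
        _ = 2 ^ n := a1.symm
        _ ≤ _ := hch'
    rw [mul_div_assoc', le_div_iff₀ (by positivity)]
    exact a2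
  have h10 : (2 : ℝ) ≤ N / 8 ^ g' := by
    have a1 : (n : ℝ) ^ 3 * 4 ≤ (n : ℝ) ^ 3 * (N / 8 ^ g') := by linarith [h4, h9]
    have := le_of_mul_le_mul_left a1 (by positivity)
    linarith
  have h11 : N / 8 ^ g' / 2 ≤ q := by linarith
  -- the exponent
  have h12 : (n : ℝ) ^ 6 ≤ Real.exp (Real.log 2 * (g' : ℝ) ^ 2 / 144 -
      3 * Real.log 2 * g') := by
    have a1 : (n : ℝ) ^ 6 = Real.exp (6 * Real.log n) := by
      rw [mul_comm, Real.exp_mul, Real.exp_log hn0]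
      norm_cast
    rw [a1]
    apply Real.exp_le_exp.mpr
    have a2 : 864 * (g' : ℝ) ≤ (g' : ℝ) ^ 2 := by nlinarith
    have a3 : 2500 * Real.log n ≤ (g' : ℝ) ^ 2 := h1.trans h5
    have hlog : 0 ≤ Real.log n := Real.log_nonneg (by linarith)
    have a4 : 3 * Real.log 2 * g' ≤ Real.log 2 * (g' : ℝ) ^ 2 / 288 := by nlinarith
    have a5 : 6 * Real.log n ≤ Real.log 2 * (g' : ℝ) ^ 2 / 288 := by
      have b1 := Real.log_two_gt_d9
      have b2 : (0.693 : ℝ) * (g' : ℝ) ^ 2 ≤ Real.log 2 * (g' : ℝ) ^ 2 :=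
        mul_le_mul_of_nonneg_right (by linarith) (by positivity)
      linarith
    linarith
  -- the second factor
  set x : ℝ := vv n ^ ((min r (n - r) - 1) * (g' * g')) with hx
  have hx0 : 0 ≤ x := pow_nonneg (vv_pos n).le _
  have hx1 : x ≤ Real.exp (-(Real.log 2 * (g' : ℝ) ^ 2 / 144)) := vv_h_le (by omega) hmid
  have h8e : (8 : ℝ) ^ g' = Real.exp (3 * Real.log 2 * g') := by
    have : Real.exp (3 * Real.log 2 * g') = (Real.exp (Real.log 2)) ^ (3 * g') := by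
      rw [← Real.exp_nat_mul]; push_cast; ring_nf
    rw [this, Real.exp_log (by norm_num), pow_mul]; norm_num
  have h13 : (n : ℝ) ^ 6 * (x * 8 ^ g') ≤ 1 := by
    calc (n : ℝ) ^ 6 * (x * 8 ^ g') ≤ Real.exp (Real.log 2 * (g' : ℝ) ^ 2 / 144 -
          3 * Real.log 2 * g') * (Real.exp (-(Real.log 2 * (g' : ℝ) ^ 2 / 144)) *
          Real.exp (3 * Real.log 2 * g')) := by
          rw [h8e]; gcongr
      _ = 1 := by
          rw [← Real.exp_add, ← Real.exp_add]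
          rw [show Real.log 2 * (g' : ℝ) ^ 2 / 144 - 3 * Real.log 2 * g' +
            (-(Real.log 2 * (g' : ℝ) ^ 2 / 144) + 3 * Real.log 2 * g') = 0 by ring]
          exact Real.exp_zero
  have h14 : (2 * ((2 : ℝ) ^ n * (n + 1))) * x ≤ Real.log 2 / (4 * n) * q := by
    -- 2^n ≤ n^3 N, N ≤ 2 q 8^g'
    have a1 : (2 : ℝ) ^ n ≤ (n : ℝ) ^ 3 * (2 * q * 8 ^ g') := by
      have b1 : N ≤ 2 * q * 8 ^ g' := by
        have := (div_le_iff₀ (by positivity : (0 : ℝ) < 8 ^ g')).mp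
          (show N / 8 ^ g' ≤ 2 * q by linarith)
        exact this
      exact hch'.trans (mul_le_mul_of_nonneg_left b1 (by positivity))
    have a2 : (n : ℝ) + 1 ≤ 2 * n := by linarith
    have hq0 : (0 : ℝ) ≤ q := by positivity
    have a3 : (2 * ((2 : ℝ) ^ n * (n + 1))) * x ≤
        8 * q * ((n : ℝ) ^ 4 * (x * 8 ^ g')) := by
      calc (2 * ((2 : ℝ) ^ n * (n + 1))) * x ≤
            (2 * (((n : ℝ) ^ 3 * (2 * q * 8 ^ g')) * (2 * n))) * x := by gcongr
        _ = _ := by ring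
    have a4 : (n : ℝ) ^ 4 * (x * 8 ^ g') ≤ 1 / (n : ℝ) ^ 2 := by
      rw [le_div_iff₀ (by positivity)]
      calc (n : ℝ) ^ 4 * (x * 8 ^ g') * (n : ℝ) ^ 2 = (n : ℝ) ^ 6 * (x * 8 ^ g') := by ring
        _ ≤ 1 := h13
    calc (2 * ((2 : ℝ) ^ n * (n + 1))) * x ≤ 8 * q * ((n : ℝ) ^ 4 * (x * 8 ^ g')) := a3
      _ ≤ 8 * q * (1 / (n : ℝ) ^ 2) := mul_le_mul_of_nonneg_left a4 (by positivity)
      _ ≤ Real.log 2 / (4 * n) * q := by
          have a5 : 8 * (1 / (n : ℝ) ^ 2) ≤ Real.log 2 / (4 * n) := by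
            rw [mul_one_div, div_le_div_iff₀ (by positivity) (by positivity)]
            nlinarith
          calc 8 * (q : ℝ) * (1 / (n : ℝ) ^ 2) = (8 * (1 / (n : ℝ) ^ 2)) * q := by ring
            _ ≤ _ := mul_le_mul_of_nonneg_right a5 hq0
  have h15 : (1 + x) ^ (2 * (2 ^ n * (n + 1))) ≤ Real.exp (Real.log 2 / (4 * n) * q) := by
    refine (one_add_pow_le x _ hx0).trans (Real.exp_le_exp.mpr ?_)
    push_cast
    exact h14
  have h16 : vv n ^ (24 * q) = Real.exp (-(Real.log 2 / (2 * n) * q)) := by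
    rw [vv_pow]
    congr 1
    push_cast
    field_simp
    ring
  rw [h16]
  calc Real.exp (-(Real.log 2 / (2 * n) * q)) * (1 + x) ^ (2 * (2 ^ n * (n + 1)))
      ≤ Real.exp (-(Real.log 2 / (2 * n) * q)) * Real.exp (Real.log 2 / (4 * n) * q) :=
        mul_le_mul_of_nonneg_left h15 (Real.exp_pos _).le
    _ = Real.exp (-(Real.log 2 / (4 * n) * q)) := by
        rw [← Real.exp_add]; congr 1; field_simp; ring
    _ ≤ Real.exp (-(c0 * (n : ℝ) ^ 2)) := by
        apply Real.exp_le_exp.mpr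
        rw [neg_le_neg_iff]
        -- n^2 ≤ q / (8 n)
        have a1 : (3 / 2 : ℝ) ^ n ≤ (n : ℝ) ^ 3 * (2 * q) :=
          h9.trans (mul_le_mul_of_nonneg_left (by linarith) (by positivity))
        have a2 : 16 * (n : ℝ) ^ 6 ≤ (n : ℝ) ^ 3 * (2 * q) := h3.trans a1
        have a3 : 8 * (n : ℝ) ^ 3 ≤ q := by
          have b1 : (n : ℝ) ^ 3 * (16 * (n : ℝ) ^ 3) ≤ (n : ℝ) ^ 3 * (2 * q) := by
            calc (n : ℝ) ^ 3 * (16 * (n : ℝ) ^ 3) = 16 * (n : ℝ) ^ 6 := by ring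
              _ ≤ _ := a2
          have := le_of_mul_le_mul_left b1 (by positivity)
          linarith
        have a4 : c0 ≤ Real.log 2 := by
          unfold c0
          rw [div_le_iff₀ (by norm_num)]
          nlinarith
        calc c0 * (n : ℝ) ^ 2 ≤ Real.log 2 * (n : ℝ) ^ 2 :=
              mul_le_mul_of_nonneg_right a4 (by positivity)
          _ ≤ Real.log 2 / (4 * n) * (8 * (n : ℝ) ^ 3) := by
              have : Real.log 2 / (4 * n) * (8 * (n : ℝ) ^ 3) = 2 * (Real.log 2 * (n : ℝ) ^ 2) := by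
                field_simp
                ring
              rw [this]
              nlinarith [mul_pos hL (pow_pos hn0 2)]
          _ ≤ Real.log 2 / (4 * n) * q := mul_le_mul_of_nonneg_left a3 (by positivity)

/-- the bound for large minimal size -/
theorem eventually_bound_large :
    ∀ᶠ n : ℕ in atTop, ∀ r : ℕ, 4 * n < 9 * min (n - r) r →
      vv n ^ ((min r (n - r) - 1) * (n / 20 * (n / 20))) *
        (1 + vv n ^ ((min r (n - r) - 1) * (n / 20 * (n / 20)))) ^ (2 * (2 ^ n * (n + 1))) ≤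
        3 * Real.exp (-(c0 * (n : ℝ) ^ 2)) := by
  have hL := log2_pos
  -- 2^(n+1) (n+1) exp(-c0 n^2) ≤ 1
  have e1 : ∀ᶠ n : ℕ in atTop, 2 * ((2 : ℝ) ^ n * (n + 1)) * Real.exp (-(c0 * (n : ℝ) ^ 2)) ≤ 1 := by
    have a1 := eventually_pow_le 1 4 2 (by norm_num) (by norm_num)
    have a2 : ∀ᶠ n : ℕ in atTop, 2 / c0 ≤ (n : ℝ) :=
      (tendsto_natCast_atTop_atTop (R := ℝ)).eventually (eventually_ge_atTop _)
    filter_upwards [a1, a2, eventually_ge_atTop 1] with n h1 h2 hn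
    have hn1 : (1 : ℝ) ≤ n := by exact_mod_cast hn
    have h3 : 2 ≤ c0 * n := by
      rw [div_le_iff₀ c0_pos] at h2; linarith
    have h4 : 2 * ((2 : ℝ) ^ n * (n + 1)) ≤ 4 ^ n := by
      have b1 : 2 * ((n : ℝ) + 1) ≤ 4 * (n : ℝ) ^ 1 := by rw [pow_one]; linarith
      calc 2 * ((2 : ℝ) ^ n * (n + 1)) = 2 ^ n * (2 * ((n : ℝ) + 1)) := by ring
        _ ≤ 2 ^ n * 2 ^ n := mul_le_mul_of_nonneg_left (b1.trans h1) (by positivity)
        _ = 4 ^ n := by rw [← mul_pow]; norm_num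
    have h5 : (4 : ℝ) ^ n ≤ Real.exp (2 * n) := by
      have b1 : (4 : ℝ) ≤ Real.exp 2 := by
        have := Real.exp_one_gt_d9
        have b2 : Real.exp 2 = Real.exp 1 * Real.exp 1 := by rw [← Real.exp_add]; norm_num
        rw [b2]; nlinarith
      calc (4 : ℝ) ^ n ≤ (Real.exp 2) ^ n := pow_le_pow_left₀ (by norm_num) b1 n
        _ = Real.exp (2 * n) := by rw [← Real.exp_nat_mul]; ring_nf
    calc 2 * ((2 : ℝ) ^ n * (n + 1)) * Real.exp (-(c0 * (n : ℝ) ^ 2))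
        ≤ Real.exp (2 * n) * Real.exp (-(c0 * (n : ℝ) ^ 2)) :=
          mul_le_mul_of_nonneg_right (h4.trans h5) (Real.exp_pos _).le
      _ = Real.exp (2 * n - c0 * (n : ℝ) ^ 2) := by rw [← Real.exp_add]; ring_nf
      _ ≤ 1 := by
          rw [Real.exp_le_one_iff]
          nlinarith
  filter_upwards [e1, eventually_ge_atTop 500] with n h1 hn r hmid
  have hn500 : (500 : ℝ) ≤ n := by exact_mod_cast hn
  set x : ℝ := vv n ^ ((min r (n - r) - 1) * (n / 20 * (n / 20))) with hx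
  have hx0 : 0 ≤ x := pow_nonneg (vv_pos n).le _
  have hx1 : x ≤ Real.exp (-(c0 * (n : ℝ) ^ 2)) := by
    refine (vv_h_le (by omega) hmid).trans (Real.exp_le_exp.mpr ?_)
    rw [neg_le_neg_iff]
    have h2 : (n : ℝ) ≤ 21 * ((n / 20 : ℕ) : ℝ) := by
      have : n ≤ 21 * (n / 20) := by omega
      exact_mod_cast this
    have h3 : (n : ℝ) ^ 2 ≤ 441 * ((n / 20 : ℕ) : ℝ) ^ 2 := by nlinarith
    unfold c0
    calc Real.log 2 / 63504 * (n : ℝ) ^ 2 ≤
          Real.log 2 / 63504 * (441 * ((n / 20 : ℕ) : ℝ) ^ 2) :=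
          mul_le_mul_of_nonneg_left h3 (by positivity)
      _ = _ := by ring
  have h2 : (1 + x) ^ (2 * (2 ^ n * (n + 1))) ≤ 3 := by
    refine (one_add_pow_le x _ hx0).trans ?_
    have h3 : ((2 * (2 ^ n * (n + 1)) : ℕ) : ℝ) * x ≤ 1 := by
      push_cast
      exact (mul_le_mul_of_nonneg_left hx1 (by positivity)).trans h1
    calc Real.exp (((2 * (2 ^ n * (n + 1)) : ℕ) : ℝ) * x) ≤ Real.exp 1 :=
          Real.exp_le_exp.mpr h3
      _ ≤ 3 := by have := Real.exp_one_lt_d9; linarith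
  calc x * (1 + x) ^ (2 * (2 ^ n * (n + 1))) ≤ Real.exp (-(c0 * (n : ℝ) ^ 2)) * 3 :=
        mul_le_mul hx1 h2 (by positivity) (Real.exp_pos _).le
    _ = _ := by ring

end H83Pav
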