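import Pool.Agent.H83Pav.Sum
import Pool.Agent.H83Pav.Numeric

/-!
MP_039b14_co: assembly.
-/

namespace H83Pav

open Finset Filter Topology H38Pav

variable {n : ℕ}

open Classical in
/-- labelled matroids of rank `r` without shallow nonbases, of girth and cogirth at least `g`,
which are not sparse paving -/
noncomputable def badR (n r g : ℕ) : Finset (Mat n) :=
  univ.filter (fun M => rk M = r ∧ NoShallow 3 M ∧ Wide g M ∧ (KK 3 M).Nonempty)

theorem mem_badR {r g : ℕ} {M : Mat n} :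
    M ∈ badR n r g ↔ rk M = r ∧ NoShallow 3 M ∧ Wide g M ∧ (KK 3 M).Nonempty := by
  simp [badR]

theorem small_nonempty {M : Mat n} (h : (KK 3 M).Nonempty) :
    (small 3 M ∪ small 3 (dual M)).Nonempty := by
  obtain ⟨X, hX⟩ := h
  rcases mem_KK.mp hX with h | h
  · obtain ⟨_, C, _, hC, hc⟩ := mem_Low.mp h
    exact ⟨C, Finset.mem_union_left _ (mem_small.mpr ⟨hC, hc⟩)⟩
  · obtain ⟨_, C, _, hC, hc⟩ := mem_Low.mp h
    exact ⟨C, Finset.mem_union_right _ (mem_small.mpr ⟨hC, hc⟩)⟩

theorem cover {r g : ℕ} (hn : 500 ≤ n) (hr : 4 * n < 9 * min (n - r) r) (hrn : r ≤ n) {M : Mat n}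
    (hM : M ∈ badR n r g) :
    Wide (n / 20) M ∨ ∃ g', g ≤ g' ∧ 20 * g' ≤ n ∧ Wide g' M ∧
      24 * (n.choose r / 8 ^ g') ≤ 24 * (KK 3 M).card := by
  obtain ⟨hrk, hns, hw, hne⟩ := mem_badR.mp hM
  have hrd := rk_add_rk_dual M
  obtain ⟨C0, hC0, hmin⟩ := Finset.exists_min_image (small 3 M ∪ small 3 (dual M))
    (fun C => C.card) (small_nonempty hne)
  have hwide : ∀ g'', g'' ≤ C0.card → g'' ≤ n / 20 → Wide g'' M := by
    intro g'' h1 h2 C hC
    rcases hC with hC | hC
    · by_cases hc : C.card + 3 ≤ rk M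
      · exact h1.trans (hmin C (Finset.mem_union_left _ (mem_small.mpr ⟨hC, hc⟩)))
      · omega
    · by_cases hc : C.card + 3 ≤ rk (dual M)
      · exact h1.trans (hmin C (Finset.mem_union_right _ (mem_small.mpr ⟨hC, hc⟩)))
      · omega
  by_cases hbig : n / 20 ≤ C0.card
  · exact Or.inl (hwide _ hbig le_rfl)
  · right
    refine ⟨C0.card, ?_, by omega, hwide _ le_rfl (by omega), ?_⟩
    · rcases Finset.mem_union.mp hC0 with h | h
      · exact hw C0 (Or.inl (mem_small.mp h).1)
      · exact hw C0 (Or.inr (mem_small.mp h).1)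
    · refine Nat.mul_le_mul_left _ ?_
      rcases Finset.mem_union.mp hC0 with h | h
      · have h1 := card_low_ge h
        have h2 := Finset.card_le_card (low_subset_KK 3 M)
        obtain ⟨_, hc⟩ := mem_small.mp h
        rw [hrk] at h1 hc
        have h3 := choose_le_shift C0.card n r (by omega) hrn (by omega)
        calc n.choose r / 8 ^ C0.card ≤
              (8 ^ C0.card * (n - C0.card).choose (r - C0.card)) / 8 ^ C0.card :=
              Nat.div_le_div_right h3
          _ = (n - C0.card).choose (r - C0.card) := Nat.mul_div_cancel_left _ (by positivity)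
          _ ≤ _ := h1.trans h2
      · have h1 := card_low_ge h
        have h2 := Finset.card_le_card (low_subset_KK 3 (dual M))
        rw [card_KK_dual] at h2
        obtain ⟨_, hc⟩ := mem_small.mp h
        rw [rk_dual, hrk] at h1 hc
        have h3 := choose_le_shift C0.card n (n - r) (by omega) (by omega) (by omega)
        rw [Nat.choose_symm hrn] at h3
        calc n.choose r / 8 ^ C0.card ≤
              (8 ^ C0.card * (n - C0.card).choose (n - r - C0.card)) / 8 ^ C0.card :=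
              Nat.div_le_div_right h3
          _ = (n - C0.card).choose (n - r - C0.card) := Nat.mul_div_cancel_left _ (by positivity)
          _ ≤ _ := h1.trans h2

/-- labelled matroids of a middle rank -/
theorem eventually_badR (g : ℕ → ℕ)
    (hg : ∀ A : ℝ, ∀ᶠ n : ℕ in atTop, A * Real.log n ≤ (g n : ℝ) ^ 2) :
    ∀ᶠ n : ℕ in atTop, ∀ r : ℕ, r ≤ n → 4 * n < 9 * min (n - r) r →
      2 ^ n ≤ n ^ 3 * n.choose r →
      ((badR n r (g n)).card : ℝ) ≤
        (matR n r).card * (((n : ℝ) + 3) * Real.exp (-(c0 * (n : ℝ) ^ 2))) := by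
  filter_upwards [eventually_bound_small g hg, eventually_bound_large, eventually_ge_atTop 500]
    with n h1 h2 hn r hrn hmid hch
  classical
  set E : ℝ := Real.exp (-(c0 * (n : ℝ) ^ 2)) with hE
  have hn0 : 0 < n := by omega
  -- the parts
  let T1 : ℕ → Finset (Mat n) := fun g' => (badR n r (g n)).filter
    (fun M => g n ≤ g' ∧ 20 * g' ≤ n ∧ Wide g' M ∧
      24 * (n.choose r / 8 ^ g') ≤ 24 * (KK 3 M).card)
  let T2 : Finset (Mat n) := (badR n r (g n)).filter (fun M => Wide (n / 20) M)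
  have hcov : badR n r (g n) ⊆ T2 ∪ (Finset.range n).biUnion T1 := by
    intro M hM
    rcases cover hn hmid hrn hM with h | ⟨g', h⟩
    · exact Finset.mem_union_left _ (Finset.mem_filter.mpr ⟨hM, h⟩)
    · refine Finset.mem_union_right _ (Finset.mem_biUnion.mpr ⟨g', ?_,
        Finset.mem_filter.mpr ⟨hM, h⟩⟩)
      rw [Finset.mem_range]; omega
  have hT1 : ∀ g' ∈ Finset.range n, ((T1 g').card : ℝ) ≤ (matR n r).card * E := by
    intro g' _
    rcases (T1 g').eq_empty_or_nonempty with h0 | ⟨M0, hM0⟩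
    · rw [h0, Finset.card_empty]; push_cast; positivity
    · obtain ⟨_, ha, hb, _, _⟩ := Finset.mem_filter.mp hM0
      have h3 := card_bad_le (r := r) (g := g') (G := 24 * (n.choose r / 8 ^ g')) hn0 (T1 g')
        (fun M hM => by
          obtain ⟨hM1, _, _, hM2, hM3⟩ := Finset.mem_filter.mp hM
          obtain ⟨hM4, hM5, _, _⟩ := mem_badR.mp hM1
          exact ⟨hM4, hM5, hM2, hM3⟩)
        (vv n) (vv_pos n) (vv_le_one n) (vv_pow_n n hn0)
      exact h3.trans (mul_le_mul_of_nonneg_left (h1 g' r ha hb hrn hmid hch) (by positivity))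
  have hT2 : (T2.card : ℝ) ≤ (matR n r).card * (3 * E) := by
    have h3 := card_bad_le (r := r) (g := n / 20)
      (G := (min r (n - r) - 1) * (n / 20 * (n / 20))) hn0 T2
      (fun M hM => by
        obtain ⟨hM1, hM2⟩ := Finset.mem_filter.mp hM
        obtain ⟨hM4, hM5, _, hM6⟩ := mem_badR.mp hM1
        refine ⟨hM4, hM5, hM2, ?_⟩
        have h4 := codes_le hM2
        rw [hM4] at h4
        have h5 : 1 ≤ (FF 3 M).card + (FF 3 (dual M)).card := by
          obtain ⟨C, hC⟩ := small_nonempty hM6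
          rcases Finset.mem_union.mp hC with h | h
          · have : 0 < (FF 3 M).card := Finset.card_pos.mpr ⟨_, mem_FF.mpr ⟨C, h, rfl⟩⟩
            omega
          · have : 0 < (FF 3 (dual M)).card := Finset.card_pos.mpr ⟨_, mem_FF.mpr ⟨C, h, rfl⟩⟩
            omega
        calc (min r (n - r) - 1) * (n / 20 * (n / 20))
            = 1 * ((min r (n - r) - 1) * (n / 20 * (n / 20))) := by ring
          _ ≤ _ := (Nat.mul_le_mul_right _ h5).trans h4)
      (vv n) (vv_pos n) (vv_le_one n) (vv_pow_n n hn0)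
    exact h3.trans (mul_le_mul_of_nonneg_left (h2 r hmid) (by positivity))
  calc ((badR n r (g n)).card : ℝ) ≤ ((T2 ∪ (Finset.range n).biUnion T1).card : ℝ) := by
        exact_mod_cast Finset.card_le_card hcov
    _ ≤ (T2.card : ℝ) + (((Finset.range n).biUnion T1).card : ℝ) := by
        exact_mod_cast Finset.card_union_le _ _
    _ ≤ (T2.card : ℝ) + ∑ g' ∈ Finset.range n, ((T1 g').card : ℝ) := by
        have : (((Finset.range n).biUnion T1).card : ℝ) ≤ ∑ g' ∈ Finset.range n, ((T1 g').card : ℝ) := by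
          exact_mod_cast Finset.card_biUnion_le
        linarith
    _ ≤ (matR n r).card * (3 * E) + ∑ _g' ∈ Finset.range n, (matR n r).card * E :=
        add_le_add hT2 (Finset.sum_le_sum hT1)
    _ = _ := by
        rw [Finset.sum_const, Finset.card_range, nsmul_eq_mul]; ring

/-- a non-paving matroid without shallow nonbases has deep nonbases -/
theorem KK_nonempty {M : Mat n} (h : NoShallow 3 M) (hp : ¬ Paving M.1) : (KK 3 M).Nonempty := by
  unfold Paving at hp
  push Not at hp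
  obtain ⟨C, hC, hlt⟩ := hp
  have hfin : ((Set.toFinite C).toFinset : Set (Fin n)) = C := Set.Finite.coe_toFinset _
  set C' := (Set.toFinite C).toFinset with hC'
  have hcard : C'.card < rk M := by
    have h1 : (C'.card : ℕ∞) < rk M := by
      rw [cast_rk, ← Set.encard_coe_eq_coe_finsetCard, hfin]; exact hlt
    exact_mod_cast h1
  have hC'c : Circ M C' := by
    show M.1.IsCircuit _
    rw [hfin]; exact hC
  obtain ⟨X, hX1, hX2⟩ := Finset.exists_superset_card_eq (s := C') (n := rk M) (by omega)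
    (by rw [Fintype.card_fin]; exact rk_le M)
  have hXN : X ∈ NB M := mem_NB_of_not_indep (not_indep_of_circ hC'c hX1) hX2
  rcases h X hXN with h1 | ⟨h1, _⟩
  · exact ⟨X, h1⟩
  · exfalso
    have h2 : M.1.IsCircuit (X : Set (Fin n)) := h1
    have h3 := h2.eq_of_superset_isCircuit (show M.1.IsCircuit (C' : Set (Fin n)) from hC'c)
      (by rw [Finset.coe_subset]; exact hX1)
    have h4 : X = C' := by exact_mod_cast h3
    rw [h4] at hX2
    omega

open Classical in
/-- the classes counted -/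
noncomputable def cntP (n : ℕ) (P : Cls n → Prop) : ℕ := (univ.filter (fun c : Cls n => P c)).card

theorem cntP_eq (P : Cls n → Prop) : cntP n P = Nat.card {c : Cls n // P c} := by
  classical
  unfold cntP
  rw [Nat.card_eq_fintype_card, Fintype.card_subtype]

theorem cntP_eq' (P : Cls n → Prop) [DecidablePred P] :
    cntP n P = (univ.filter (fun c : Cls n => P c)).card := by
  unfold cntP
  congr

theorem cntP_mono {P Q : Cls n → Prop} (h : ∀ c, P c → Q c) : cntP n P ≤ cntP n Q := by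
  classical
  rw [cntP_eq', cntP_eq']
  refine Finset.card_le_card (fun c hc => ?_)
  exact Finset.mem_filter.mpr ⟨Finset.mem_univ _, h c (Finset.mem_filter.mp hc).2⟩

theorem cntP_true : cntP n (fun _ => True) = Nat.card (Cls n) := by
  rw [cntP_eq, Nat.card_congr (Equiv.subtypeUnivEquiv (fun _ => trivial))]

theorem cntP_le_sum (P : Cls n → Prop) :
    cntP n P = ∑ r ∈ Finset.range (n + 1), cntP n (fun c => c.rk = r ∧ P c) := by
  classical
  rw [cntP_eq', Finset.card_eq_sum_card_fiberwise (f := fun c : Cls n => c.rk)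
    (t := Finset.range (n + 1)) (fun c _ => Finset.mem_coe.mpr (Finset.mem_range.mpr (by
      have h := clsrk_le c
      show c.rk < n + 1
      omega)))]
  refine Finset.sum_congr rfl (fun r _ => ?_)
  rw [Finset.filter_filter, cntP_eq']
  congr 1
  ext c
  simp [and_comm]

theorem cntP_rank_le (r : ℕ) (P : Cls n → Prop) :
    (cntP n (fun c => c.rk = r ∧ P c) : ℝ) ≤ 2 ^ n.choose r := by
  classical
  have h1 := sum_rank_le (n := n) r 1 (by norm_num)
  simp only [one_pow, Finset.sum_const, nsmul_eq_mul, mul_one] at h1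
  have h2 : (cntP n (fun c => c.rk = r ∧ P c) : ℝ) ≤
      ((univ.filter (fun c : Cls n => c.rk = r)).card : ℝ) := by
    have h3 := cntP_mono (P := fun c : Cls n => c.rk = r ∧ P c) (Q := fun c : Cls n => c.rk = r)
      (fun c h => h.1)
    rw [cntP_eq' (fun c : Cls n => c.rk = r)] at h3
    exact_mod_cast h3
  refine h2.trans (h1.trans (le_of_eq ?_))
  norm_num

/-- lower bound for the number of classes -/
theorem exists_lower (hn : 2 ≤ n) : ∃ a : ℕ, 2 ^ n ≤ n * (n + 1) * a ∧
    (2 : ℝ) ^ a ≤ (n.factorial : ℝ) * cntP n (fun _ => True) := by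
  classical
  obtain ⟨a, ha1, ha2⟩ := le_wsum (n := n) 1 (by norm_num) hn
  refine ⟨a, ?_, ?_⟩
  · calc 2 ^ n ≤ (n + 1) * n.choose (n / 2) := two_pow_le n
      _ ≤ (n + 1) * (n * a) := Nat.mul_le_mul_left _ ha1
      _ = _ := by ring
  · have h1 : wsum n 1 (fun _ => True) = (cntP n (fun _ => True) : ℝ) := by
      unfold wsum cntP
      simp
    rw [h1] at ha2
    have : (1 + 1 : ℝ) = 2 := by norm_num
    rwa [this] at ha2

/-- the classes of the theorem -/
def PP (n : ℕ) (g : ℕ) (c : Cls n) : Prop :=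
  ∃ M : Mat n, cls M = c ∧ ¬ Paving M.1 ∧ Wide g M ∧ NoShallow 3 M

theorem cntP_PP_le (r g : ℕ) :
    cntP n (fun c => c.rk = r ∧ PP n g c) ≤ (badR n r g).card := by
  classical
  have hex : ∀ c : Cls n, ∃ M : Mat n, (c.rk = r ∧ PP n g c) → cls M = c ∧ M ∈ badR n r g := by
    intro c
    by_cases h : c.rk = r ∧ PP n g c
    · obtain ⟨h1, M, h2, h3, h4, h5⟩ := h
      refine ⟨M, fun _ => ⟨h2, mem_badR.mpr ⟨?_, h5, h4, KK_nonempty h5 h3⟩⟩⟩
      rw [← rk_cls, h2, h1]
    · exact ⟨rep c, fun h' => absurd h' h⟩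
  choose m hm using hex
  rw [cntP_eq']
  refine Finset.card_le_card_of_injOn m (fun c hc => ?_) ?_
  · exact (hm c (Finset.mem_filter.mp (Finset.mem_coe.mp hc)).2).2
  · intro c hc c' hc' h
    have h1 := (hm c (Finset.mem_filter.mp (Finset.mem_coe.mp hc)).2).1
    have h2 := (hm c' (Finset.mem_filter.mp (Finset.mem_coe.mp hc')).2).1
    rw [← h1, ← h2, h]

/-- ranks with few matroids -/
theorem eventually_far : ∀ᶠ n : ℕ in atTop, ∀ r ≤ n,
    ¬ (4 * n < 9 * min (n - r) r ∧ 2 ^ n ≤ n ^ 3 * n.choose r) → n ^ 3 * n.choose r ≤ 2 ^ n := by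
  have e1 := eventually_pow_le 3 1 (200 / 199) (by norm_num) (by norm_num)
  filter_upwards [e1] with n h1 r hr hnot
  by_cases h2 : 4 * n < 9 * min (n - r) r
  · have : ¬ 2 ^ n ≤ n ^ 3 * n.choose r := fun h => hnot ⟨h2, h⟩
    omega
  · have h3 := choose_le_pow n r hr (by omega)
    have h4 : ((n : ℝ)) ^ 3 * n.choose r ≤ 2 ^ n := by
      calc ((n : ℝ)) ^ 3 * n.choose r ≤ (200 / 199) ^ n * (199 / 100) ^ n := by
            rw [one_mul] at h1
            exact mul_le_mul h1 h3 (by positivity) (by positivity)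
        _ = 2 ^ n := by rw [← mul_pow]; norm_num
    exact_mod_cast h4

/-- the final inequality -/
theorem eventually_ratio (g : ℕ → ℕ)
    (hg : ∀ A : ℝ, ∀ᶠ n : ℕ in atTop, A * Real.log n ≤ (g n : ℝ) ^ 2) :
    ∀ᶠ n : ℕ in atTop, (cntP n (PP n (g n)) : ℝ) / cntP n (fun _ => True) ≤
      (n.factorial : ℝ) * (((n : ℝ) + 3) * Real.exp (-(c0 * (n : ℝ) ^ 2))) +
        (n.factorial : ℝ) * (((n : ℝ) + 1) / 2 ^ (n * n)) := by
  have e1 := eventually_pow_le 4 4 2 (by norm_num) (by norm_num)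
  filter_upwards [eventually_badR g hg, eventually_far, e1, eventually_ge_atTop 500]
    with n h1 h2 h3 hn
  classical
  set E : ℝ := ((n : ℝ) + 3) * Real.exp (-(c0 * (n : ℝ) ^ 2)) with hE
  have hE0 : 0 ≤ E := by rw [hE]; positivity
  obtain ⟨a, ha1, ha2⟩ := exists_lower (n := n) (by omega)
  set m : ℝ := (cntP n (fun _ => True) : ℝ) with hm
  have hm0 : 0 < m := by
    have h4 : (0 : ℝ) < (n.factorial : ℝ) * m := lt_of_lt_of_le (by positivity) ha2
    exact (pos_iff_pos_of_mul_pos h4).mp (by positivity)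
  have hn0 : (0 : ℝ) < n := by
    have : 0 < n := by omega
    exact_mod_cast this
  have hn500 : (500 : ℝ) ≤ n := by exact_mod_cast hn
  -- far ranks
  have hfar : ∀ r ≤ n, ¬ (4 * n < 9 * min (n - r) r ∧ 2 ^ n ≤ n ^ 3 * n.choose r) →
      (2 : ℝ) ^ n.choose r ≤ (n.factorial : ℝ) * m / 2 ^ (n * n) := by
    intro r hr hnot
    have h4 := h2 r hr hnot
    have h5 : n.choose r + n * n ≤ a := by
      have b1 : (n : ℝ) ^ 3 * n.choose r ≤ 2 ^ n := by exact_mod_cast h4
      have b2 : (2 : ℝ) ^ n ≤ n * (n + 1) * a := by exact_mod_cast ha1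
      have b3 : (n.choose r : ℝ) ≤ 2 ^ n / n ^ 3 := by
        rw [le_div_iff₀ (by positivity)]; linarith
      have b4 : (2 : ℝ) ^ n / (n * (n + 1)) ≤ a := by
        rw [div_le_iff₀ (by positivity)]; linarith
      have b5 : (2 : ℝ) ^ n / n ^ 3 + n * n ≤ 2 ^ n / (n * (n + 1)) := by
        have c1 : (2 : ℝ) ^ n / n ^ 3 ≤ 2 ^ n / (2 * (n * (n + 1))) := by
          apply div_le_div_of_nonneg_left (by positivity) (by positivity)
          nlinarith [mul_pos hn0 hn0]
        have c2 : (n : ℝ) * n ≤ 2 ^ n / (2 * (n * (n + 1))) := by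
          rw [le_div_iff₀ (by positivity)]
          have c3 : (n : ℝ) * n * (2 * (n * (n + 1))) ≤ 4 * (n : ℝ) ^ 4 := by
            have c4 : 0 ≤ (n : ℝ) ^ 3 * ((n : ℝ) - 1) :=
              mul_nonneg (by positivity) (by linarith)
            nlinarith
          exact c3.trans h3
        have c5 : (2 : ℝ) ^ n / (2 * (n * (n + 1))) + 2 ^ n / (2 * (n * (n + 1))) =
            2 ^ n / (n * (n + 1)) := by field_simp; ring
        linarith
      have b6 : ((n.choose r + n * n : ℕ) : ℝ) ≤ (a : ℝ) := by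
        push_cast
        linarith
      exact_mod_cast b6
    rw [le_div_iff₀ (by positivity), ← pow_add]
    exact (pow_le_pow_right₀ (by norm_num) h5).trans ha2
  -- all ranks
  have hall : ∀ r ∈ Finset.range (n + 1), (cntP n (fun c => c.rk = r ∧ PP n (g n) c) : ℝ) ≤
      (n.factorial : ℝ) * E * cntP n (fun c => c.rk = r ∧ True) +
        (n.factorial : ℝ) * m / 2 ^ (n * n) := by
    intro r hr
    have hr' : r ≤ n := by have := Finset.mem_range.mp hr; omega
    have hpos1 : 0 ≤ (n.factorial : ℝ) * E * cntP n (fun c => c.rk = r ∧ True) := by positivity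
    have hpos2 : 0 ≤ (n.factorial : ℝ) * m / 2 ^ (n * n) := by positivity
    by_cases hgood : 4 * n < 9 * min (n - r) r ∧ 2 ^ n ≤ n ^ 3 * n.choose r
    · have h4 := h1 r hr' hgood.1 hgood.2
      have h5 : (cntP n (fun c => c.rk = r ∧ PP n (g n) c) : ℝ) ≤ (badR n r (g n)).card := by
        exact_mod_cast cntP_PP_le r (g n)
      have h6 : ((matR n r).card : ℝ) ≤
          (n.factorial : ℝ) * cntP n (fun c => c.rk = r ∧ True) := by
        have h7 := card_matR_le (n := n) r
        rw [← cntP_eq] at h7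
        have h8 : cntP n (fun c => c.rk = r) = cntP n (fun c => c.rk = r ∧ True) := by
          congr 1; ext c; simp
        rw [h8] at h7
        exact_mod_cast h7
      calc (cntP n (fun c => c.rk = r ∧ PP n (g n) c) : ℝ) ≤ (matR n r).card * E := h5.trans h4
        _ ≤ ((n.factorial : ℝ) * cntP n (fun c => c.rk = r ∧ True)) * E :=
            mul_le_mul_of_nonneg_right h6 hE0
        _ = (n.factorial : ℝ) * E * cntP n (fun c => c.rk = r ∧ True) := by ring
        _ ≤ _ := by linarith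
    · have h4 := (cntP_rank_le (n := n) r (PP n (g n))).trans (hfar r hr' hgood)
      linarith
  rw [div_le_iff₀ hm0]
  have hsum : (cntP n (PP n (g n)) : ℝ) =
      ∑ r ∈ Finset.range (n + 1), (cntP n (fun c => c.rk = r ∧ PP n (g n) c) : ℝ) := by
    rw [cntP_le_sum]; push_cast; rfl
  have hsum2 : m = ∑ r ∈ Finset.range (n + 1), (cntP n (fun c => c.rk = r ∧ True) : ℝ) := by
    rw [hm, cntP_le_sum]; push_cast; rfl
  rw [hsum]
  calc ∑ r ∈ Finset.range (n + 1), (cntP n (fun c => c.rk = r ∧ PP n (g n) c) : ℝ)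
      ≤ ∑ r ∈ Finset.range (n + 1), ((n.factorial : ℝ) * E * cntP n (fun c => c.rk = r ∧ True) +
        (n.factorial : ℝ) * m / 2 ^ (n * n)) := Finset.sum_le_sum hall
    _ = (n.factorial : ℝ) * E * m + ((n : ℝ) + 1) * ((n.factorial : ℝ) * m / 2 ^ (n * n)) := by
        rw [Finset.sum_add_distrib, ← Finset.mul_sum, ← hsum2, Finset.sum_const,
          Finset.card_range, nsmul_eq_mul]
        push_cast; ring
    _ = _ := by ring

theorem tendsto_aux1 : Tendsto (fun n : ℕ => (n.factorial : ℝ) *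
    (((n : ℝ) + 3) * Real.exp (-(c0 * (n : ℝ) ^ 2)))) atTop (𝓝 0) := by
  have hlim : Tendsto (fun n : ℕ => ((n : ℝ) + 3) * (1 / 4) ^ n) atTop (𝓝 0) := by
    have h1 : Tendsto (fun n : ℕ => (n : ℝ) ^ 1 * (1 / 4 : ℝ) ^ n) atTop (𝓝 0) :=
      tendsto_pow_const_mul_const_pow_of_abs_lt_one 1 (by rw [abs_of_pos] <;> norm_num)
    have h2 : Tendsto (fun n : ℕ => (1 / 4 : ℝ) ^ n) atTop (𝓝 0) :=
      tendsto_pow_atTop_nhds_zero_of_lt_one (by norm_num) (by norm_num)
    have h3 := h1.add (h2.const_mul 3)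
    simp only [mul_zero, add_zero] at h3
    refine h3.congr (fun n => ?_)
    rw [pow_one]; ring
  have hsmall : ∀ᶠ n : ℕ in atTop, (n : ℝ) * Real.exp (-(c0 * n)) ≤ 1 / 4 := by
    have h1 : Tendsto (fun n : ℕ => (n : ℝ) ^ 1 * (Real.exp (-c0)) ^ n) atTop (𝓝 0) :=
      tendsto_pow_const_mul_const_pow_of_abs_lt_one 1 (by
        rw [abs_of_pos (Real.exp_pos _), Real.exp_lt_one_iff]
        have := c0_pos; linarith)
    filter_upwards [h1.eventually (gt_mem_nhds (show (0 : ℝ) < 1 / 4 by norm_num))] with n hn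
    have h2 : Real.exp (-(c0 * n)) = (Real.exp (-c0)) ^ n := by
      rw [← Real.exp_nat_mul]; ring_nf
    rw [h2, ← pow_one (n : ℝ)]
    exact hn.le
  refine tendsto_of_tendsto_of_tendsto_of_le_of_le' tendsto_const_nhds hlim
    (Eventually.of_forall (fun n => by positivity)) ?_
  filter_upwards [hsmall] with n hn
  have h1 : (n.factorial : ℝ) ≤ (n : ℝ) ^ n := by exact_mod_cast Nat.factorial_le_pow n
  have h2 : Real.exp (-(c0 * (n : ℝ) ^ 2)) = (Real.exp (-(c0 * n))) ^ n := by
    rw [← Real.exp_nat_mul]; ring_nf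
  calc (n.factorial : ℝ) * (((n : ℝ) + 3) * Real.exp (-(c0 * (n : ℝ) ^ 2)))
      ≤ (n : ℝ) ^ n * (((n : ℝ) + 3) * Real.exp (-(c0 * (n : ℝ) ^ 2))) :=
        mul_le_mul_of_nonneg_right h1 (by positivity)
    _ = ((n : ℝ) + 3) * ((n : ℝ) * Real.exp (-(c0 * n))) ^ n := by
        rw [h2, mul_pow]; ring
    _ ≤ ((n : ℝ) + 3) * (1 / 4) ^ n := by
        refine mul_le_mul_of_nonneg_left ?_ (by positivity)
        exact pow_le_pow_left₀ (by positivity) hn n

theorem tendsto_aux2 : Tendsto (fun n : ℕ => (n.factorial : ℝ) *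
    (((n : ℝ) + 1) / 2 ^ (n * n))) atTop (𝓝 0) := by
  have hlim : Tendsto (fun n : ℕ => ((n : ℝ) + 1) * (1 / 4) ^ n) atTop (𝓝 0) := by
    have h1 : Tendsto (fun n : ℕ => (n : ℝ) ^ 1 * (1 / 4 : ℝ) ^ n) atTop (𝓝 0) :=
      tendsto_pow_const_mul_const_pow_of_abs_lt_one 1 (by rw [abs_of_pos] <;> norm_num)
    have h2 : Tendsto (fun n : ℕ => (1 / 4 : ℝ) ^ n) atTop (𝓝 0) :=
      tendsto_pow_atTop_nhds_zero_of_lt_one (by norm_num) (by norm_num)
    have h3 := h1.add h2
    simp only [add_zero] at h3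
    refine h3.congr (fun n => ?_)
    rw [pow_one]; ring
  have hsmall : ∀ᶠ n : ℕ in atTop, (n : ℝ) / 2 ^ n ≤ 1 / 4 := by
    have h1 : Tendsto (fun n : ℕ => (n : ℝ) ^ 1 * (1 / 2 : ℝ) ^ n) atTop (𝓝 0) :=
      tendsto_pow_const_mul_const_pow_of_abs_lt_one 1 (by rw [abs_of_pos] <;> norm_num)
    filter_upwards [h1.eventually (gt_mem_nhds (show (0 : ℝ) < 1 / 4 by norm_num))] with n hn
    have h2 : (n : ℝ) / 2 ^ n = (n : ℝ) ^ 1 * (1 / 2 : ℝ) ^ n := by
      rw [pow_one, one_div, inv_pow]; rfl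
    rw [h2]; exact hn.le
  refine tendsto_of_tendsto_of_tendsto_of_le_of_le' tendsto_const_nhds hlim
    (Eventually.of_forall (fun n => by positivity)) ?_
  filter_upwards [hsmall] with n hn
  have h1 : (n.factorial : ℝ) ≤ (n : ℝ) ^ n := by exact_mod_cast Nat.factorial_le_pow n
  calc (n.factorial : ℝ) * (((n : ℝ) + 1) / 2 ^ (n * n))
      ≤ (n : ℝ) ^ n * (((n : ℝ) + 1) / 2 ^ (n * n)) :=
        mul_le_mul_of_nonneg_right h1 (by positivity)
    _ = ((n : ℝ) + 1) * ((n : ℝ) / 2 ^ n) ^ n := by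
        rw [div_pow, ← pow_mul]; ring
    _ ≤ ((n : ℝ) + 1) * (1 / 4) ^ n := by
        refine mul_le_mul_of_nonneg_left ?_ (by positivity)
        exact pow_le_pow_left₀ (by positivity) hn n

/-- **the main theorem** -/
theorem tendsto_main (g : ℕ → ℕ)
    (hg : ∀ A : ℝ, ∀ᶠ n : ℕ in atTop, A * Real.log n ≤ (g n : ℝ) ^ 2) :
    Tendsto (fun n : ℕ => (cntP n (PP n (g n)) : ℝ) / cntP n (fun _ => True)) atTop (𝓝 0) := by
  have h := tendsto_aux1.add tendsto_aux2
  rw [add_zero] at h
  exact tendsto_of_tendsto_of_tendsto_of_le_of_le' tendsto_const_nhds h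
    (Eventually.of_forall (fun n => by positivity)) (eventually_ratio g hg)

end H83Pav
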