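import Pool.Agent.H83Pav.FinalS

/-!
MP_039b14_co: assembly of theorem (II), given the counting lemma for lean families and the
bound for large circuits.
-/

namespace H83Pav

open Finset Filter Topology H38Pav H83E

variable {n : ℕ}

/-- a non-paving matroid without shallow nonbases has deep nonbases -/
theorem KK_nonempty' {d : ℕ} {M : Mat n} (h : NoShallow d M) (hp : ¬ Paving M.1) :
    (KK d M).Nonempty := by
  unfold Paving at hp
  push Not at hp
  obtain ⟨C, hC, hlt⟩ := hp
  have hfin : ((Set.toFinite C).toFinset : Set (Fin n)) = C := Set.Finite.coe_toFinset _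
  set C' := (Set.toFinite C).toFinset with hC'
  have hcard : C'.card < rk M := by
    have h1 : (C'.card : ℕ∞) < rk M := by
      rw [cast_rk, ← Set.encard_coe_eq_coe_finsetCard, hfin]; exact hlt
    exact_mod_cast h1
  have hC'c : Circ M C' := by
    show M.1.IsCircuit _
    rw [hfin]; exact hC
  obtain ⟨X, hX1, hX2⟩ := Finset.exists_superset_card_eq (s := C') (n := rk M) (by omega)
    (by rw [Fintype.card_fin]; exact rk_le M)
  exact ⟨X, mem_KK_of_dep h hX2 hX1 hcard (not_indep_of_circ hC'c subset_rfl)⟩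

/-- the classes of the theorem -/
def PPd (d n g : ℕ) (c : Cls n) : Prop :=
  ∃ M : Mat n, cls M = c ∧ ¬ Paving M.1 ∧ Wide g M ∧ NoShallow d M

/-- the classes with large circuits and cocircuits only -/
def LL (n : ℕ) (c : Cls n) : Prop :=
  ∃ M : Mat n, cls M = c ∧ NoShallow 2 M ∧ Wide (n / 20000) M ∧ (KK 2 M).Nonempty

/-- the bound for large circuits, at `n` -/
def LBound (n : ℕ) : Prop :=
  ∀ r ≤ n, 4 * n < 9 * min (n - r) r → 2 ^ n ≤ n ^ 3 * n.choose r →
    (cntP n (fun c => c.rk = r ∧ LL n c) : ℝ) ≤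
      cntP n (fun c => c.rk = r ∧ True) / n + 2 ^ (2 ^ n / n ^ 4)

theorem cntP_PPd_le (r g : ℕ) : cntP n (fun c => c.rk = r ∧ PPd 2 n g c) ≤
    (badS n r g).card + cntP n (fun c => c.rk = r ∧ LL n c) := by
  classical
  have hex : ∀ c : Cls n, ∃ M : Mat n,
      ((c.rk = r ∧ PPd 2 n g c) ∧ ¬ LL n c) → cls M = c ∧ M ∈ badS n r g := by
    intro c
    by_cases h : (c.rk = r ∧ PPd 2 n g c) ∧ ¬ LL n c
    · obtain ⟨⟨h1, M, h2, h3, h4, h5⟩, h6⟩ := h
      have hne := KK_nonempty' h5 h3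
      refine ⟨M, fun _ => ⟨h2, mem_badS.mpr ⟨?_, h5, h4, hne, ?_⟩⟩⟩
      · rw [← rk_cls, h2, h1]
      · intro hw
        exact h6 ⟨M, h2, h5, hw, hne⟩
    · exact ⟨rep c, fun h' => absurd h' h⟩
  choose m hm using hex
  rw [cntP_eq', cntP_eq']
  have hsub : univ.filter (fun c : Cls n => c.rk = r ∧ PPd 2 n g c) ⊆
      (univ.filter (fun c : Cls n => (c.rk = r ∧ PPd 2 n g c) ∧ ¬ LL n c)) ∪
        univ.filter (fun c : Cls n => c.rk = r ∧ LL n c) := by
    intro c hc
    have hc' := (Finset.mem_filter.mp hc).2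
    by_cases hL : LL n c
    · exact Finset.mem_union_right _ (Finset.mem_filter.mpr ⟨Finset.mem_univ _, hc'.1, hL⟩)
    · exact Finset.mem_union_left _ (Finset.mem_filter.mpr ⟨Finset.mem_univ _, hc', hL⟩)
  refine (Finset.card_le_card hsub).trans ((Finset.card_union_le _ _).trans
    (Nat.add_le_add_right ?_ _))
  refine Finset.card_le_card_of_injOn m (fun c hc => ?_) ?_
  · exact (hm c (Finset.mem_filter.mp (Finset.mem_coe.mp hc)).2).2
  · intro c hc c' hc' h
    have h1 := (hm c (Finset.mem_filter.mp (Finset.mem_coe.mp hc)).2).1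
    have h2 := (hm c' (Finset.mem_filter.mp (Finset.mem_coe.mp hc')).2).1
    rw [← h1, ← h2, h]

/-- the number of classes is large -/
theorem eventually_room : ∀ᶠ n : ℕ in atTop, 0 < cntP n (fun _ => True) ∧
    ∀ x : ℕ, n ^ 3 * x ≤ 2 ^ n → (2 : ℝ) ^ x ≤
      (n.factorial : ℝ) * cntP n (fun _ => True) / 2 ^ (n * n) := by
  have e1 := eventually_pow_le 4 4 2 (by norm_num) (by norm_num)
  filter_upwards [e1, eventually_ge_atTop 500] with n h3 hn
  obtain ⟨a, ha1, ha2⟩ := exists_lower (n := n) (by omega)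
  set m : ℝ := (cntP n (fun _ => True) : ℝ) with hm
  have hm0 : 0 < m := by
    have h4 : (0 : ℝ) < (n.factorial : ℝ) * m := lt_of_lt_of_le (by positivity) ha2
    exact (pos_iff_pos_of_mul_pos h4).mp (by positivity)
  refine ⟨by rw [hm] at hm0; exact_mod_cast hm0, ?_⟩
  intro x h4
  have hn0 : (0 : ℝ) < n := by
    have : 0 < n := by omega
    exact_mod_cast this
  have hn500 : (500 : ℝ) ≤ n := by exact_mod_cast hn
  have h5 : x + n * n ≤ a := by
    have b1 : (n : ℝ) ^ 3 * x ≤ 2 ^ n := by exact_mod_cast h4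
    have b2 : (2 : ℝ) ^ n ≤ n * (n + 1) * a := by exact_mod_cast ha1
    have b3 : (x : ℝ) ≤ 2 ^ n / n ^ 3 := by
      rw [le_div_iff₀ (by positivity)]; linarith
    have b4 : (2 : ℝ) ^ n / (n * (n + 1)) ≤ a := by
      rw [div_le_iff₀ (by positivity)]; linarith
    have b5 : (2 : ℝ) ^ n / n ^ 3 + n * n ≤ 2 ^ n / (n * (n + 1)) := by
      have c1 : (2 : ℝ) ^ n / n ^ 3 ≤ 2 ^ n / (2 * (n * (n + 1))) := by
        apply div_le_div_of_nonneg_left (by positivity) (by positivity)
        nlinarith [mul_pos hn0 hn0]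
      have c2 : (n : ℝ) * n ≤ 2 ^ n / (2 * (n * (n + 1))) := by
        rw [le_div_iff₀ (by positivity)]
        have c3 : (n : ℝ) * n * (2 * (n * (n + 1))) ≤ 4 * (n : ℝ) ^ 4 := by
          have c4 : 0 ≤ (n : ℝ) ^ 3 * ((n : ℝ) - 1) :=
            mul_nonneg (by positivity) (by linarith)
          nlinarith
        exact c3.trans h3
      have c5 : (2 : ℝ) ^ n / (2 * (n * (n + 1))) + 2 ^ n / (2 * (n * (n + 1))) =
          2 ^ n / (n * (n + 1)) := by field_simp; ring
      linarith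
    have b6 : ((x + n * n : ℕ) : ℝ) ≤ (a : ℝ) := by
      push_cast
      linarith
    exact_mod_cast b6
  rw [le_div_iff₀ (by positivity), ← pow_add]
  exact (pow_le_pow_right₀ (by norm_num) h5).trans ha2

/-- the final inequality -/
theorem eventually_ratioII (hE : ∀ᶠ n : ℕ in atTop, ECount 1001 n)
    (hL : ∀ᶠ n : ℕ in atTop, LBound n) (g : ℕ → ℕ)
    (hg : ∀ A : ℝ, ∀ᶠ n : ℕ in atTop, A * Real.log n ≤ (g n : ℝ) ^ 2) :
    ∀ᶠ n : ℕ in atTop, (cntP n (PPd 2 n (g n)) : ℝ) / cntP n (fun _ => True) ≤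
      (n.factorial : ℝ) * (((n : ℝ) + 3) * Real.exp (-(c0 * (n : ℝ) ^ 2))) + 1 / n +
        2 * ((n.factorial : ℝ) * (((n : ℝ) + 1) / 2 ^ (n * n))) := by
  filter_upwards [eventually_badS hE g hg, hL, eventually_far, eventually_room,
    eventually_ge_atTop 500] with n h1 hL h2 hroom hn
  classical
  obtain ⟨hpos, hroom⟩ := hroom
  set E : ℝ := (n : ℝ) * Real.exp (-((n : ℝ) ^ 2)) with hE
  have hE0 : 0 ≤ E := by rw [hE]; positivity
  set m : ℝ := (cntP n (fun _ => True) : ℝ) with hm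
  have hm0 : 0 < m := by rw [hm]; exact_mod_cast hpos
  have hn0 : (0 : ℝ) < n := by
    have : 0 < n := by omega
    exact_mod_cast this
  have hn500 : (500 : ℝ) ≤ n := by exact_mod_cast hn
  set R : ℝ := (n.factorial : ℝ) * m / 2 ^ (n * n) with hR
  have hR0 : 0 ≤ R := by rw [hR]; positivity
  have hA : (2 : ℝ) ^ (2 ^ n / n ^ 4) ≤ R := by
    refine hroom _ ?_
    calc n ^ 3 * (2 ^ n / n ^ 4) ≤ n ^ 4 * (2 ^ n / n ^ 4) :=
          Nat.mul_le_mul_right _ (Nat.pow_le_pow_right (by omega) (by norm_num))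
      _ ≤ 2 ^ n := Nat.mul_div_le _ _
  -- all ranks
  have hall : ∀ r ∈ Finset.range (n + 1), (cntP n (fun c => c.rk = r ∧ PPd 2 n (g n) c) : ℝ) ≤
      ((n.factorial : ℝ) * E + 1 / n) * cntP n (fun c => c.rk = r ∧ True) + 2 * R := by
    intro r hr
    have hr' : r ≤ n := by have := Finset.mem_range.mp hr; omega
    have hc0 : (0 : ℝ) ≤ cntP n (fun c => c.rk = r ∧ True) := by positivity
    have hpos1 : 0 ≤ ((n.factorial : ℝ) * E + 1 / n) * cntP n (fun c => c.rk = r ∧ True) := by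
      positivity
    by_cases hgood : 4 * n < 9 * min (n - r) r ∧ 2 ^ n ≤ n ^ 3 * n.choose r
    · have h4 := h1 r hr' hgood.1 hgood.2
      have h4L := hL r hr' hgood.1 hgood.2
      have h5 : (cntP n (fun c => c.rk = r ∧ PPd 2 n (g n) c) : ℝ) ≤
          (badS n r (g n)).card + cntP n (fun c => c.rk = r ∧ LL n c) := by
        exact_mod_cast cntP_PPd_le r (g n)
      have h6 : ((matR n r).card : ℝ) ≤
          (n.factorial : ℝ) * cntP n (fun c => c.rk = r ∧ True) := by
        have h7 := card_matR_le (n := n) r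
        rw [← cntP_eq] at h7
        have h8 : cntP n (fun c => c.rk = r) = cntP n (fun c => c.rk = r ∧ True) := by
          congr 1; ext c; simp
        rw [h8] at h7
        exact_mod_cast h7
      have h9 : ((badS n r (g n)).card : ℝ) ≤
          (n.factorial : ℝ) * E * cntP n (fun c => c.rk = r ∧ True) := by
        calc ((badS n r (g n)).card : ℝ) ≤ (matR n r).card * E := h4
          _ ≤ ((n.factorial : ℝ) * cntP n (fun c => c.rk = r ∧ True)) * E :=
              mul_le_mul_of_nonneg_right h6 hE0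
          _ = _ := by ring
      have h10 : (cntP n (fun c => c.rk = r ∧ LL n c) : ℝ) ≤
          1 / n * cntP n (fun c => c.rk = r ∧ True) + R := by
        have : (cntP n (fun c => c.rk = r ∧ True) : ℝ) / n =
            1 / n * cntP n (fun c => c.rk = r ∧ True) := by ring
        rw [← this]
        linarith
      linarith
    · have h4 := (cntP_rank_le (n := n) r (PPd 2 n (g n))).trans
        (hroom _ (h2 r hr' hgood))
      linarith
  rw [div_le_iff₀ hm0]
  have hsum : (cntP n (PPd 2 n (g n)) : ℝ) =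
      ∑ r ∈ Finset.range (n + 1), (cntP n (fun c => c.rk = r ∧ PPd 2 n (g n) c) : ℝ) := by
    rw [cntP_le_sum]; push_cast; rfl
  have hsum2 : m = ∑ r ∈ Finset.range (n + 1), (cntP n (fun c => c.rk = r ∧ True) : ℝ) := by
    rw [hm, cntP_le_sum]; push_cast; rfl
  have hEE : E ≤ ((n : ℝ) + 3) * Real.exp (-(c0 * (n : ℝ) ^ 2)) := by
    rw [hE]
    have hc1 : c0 ≤ 1 := by
      unfold c0
      have := Real.log_two_lt_d9
      rw [div_le_one (by norm_num)]; linarith
    have h11 : Real.exp (-((n : ℝ) ^ 2)) ≤ Real.exp (-(c0 * (n : ℝ) ^ 2)) := by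
      apply Real.exp_le_exp.mpr
      rw [neg_le_neg_iff]
      exact mul_le_of_le_one_left (by positivity) hc1
    exact mul_le_mul (by linarith) h11 (by positivity) (by positivity)
  rw [hsum]
  calc ∑ r ∈ Finset.range (n + 1), (cntP n (fun c => c.rk = r ∧ PPd 2 n (g n) c) : ℝ)
      ≤ ∑ r ∈ Finset.range (n + 1), (((n.factorial : ℝ) * E + 1 / n) *
        cntP n (fun c => c.rk = r ∧ True) + 2 * R) := Finset.sum_le_sum hall
    _ = ((n.factorial : ℝ) * E + 1 / n) * m + ((n : ℝ) + 1) * (2 * R) := by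
        rw [Finset.sum_add_distrib, ← Finset.mul_sum, ← hsum2, Finset.sum_const,
          Finset.card_range, nsmul_eq_mul]
        push_cast; ring
    _ ≤ ((n.factorial : ℝ) * (((n : ℝ) + 3) * Real.exp (-(c0 * (n : ℝ) ^ 2))) + 1 / n) * m +
          ((n : ℝ) + 1) * (2 * R) := by
        gcongr
    _ = _ := by rw [hR]; ring

/-- **theorem (II)** -/
theorem tendsto_mainII (hE : ∀ᶠ n : ℕ in atTop, ECount 1001 n)
    (hL : ∀ᶠ n : ℕ in atTop, LBound n) (g : ℕ → ℕ)
    (hg : ∀ A : ℝ, ∀ᶠ n : ℕ in atTop, A * Real.log n ≤ (g n : ℝ) ^ 2) :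
    Tendsto (fun n : ℕ => (cntP n (PPd 2 n (g n)) : ℝ) / cntP n (fun _ => True)) atTop (𝓝 0) := by
  have h := (tendsto_aux1.add (tendsto_one_div_atTop_nhds_zero_nat (𝕜 := ℝ))).add
    (tendsto_aux2.const_mul 2)
  simp only [mul_zero, add_zero] at h
  exact tendsto_of_tendsto_of_tendsto_of_le_of_le' tendsto_const_nhds h
    (Eventually.of_forall (fun n => by positivity)) (eventually_ratioII hE hL g hg)

end H83Pav
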