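import Pool.Agent.H83Pav.NumS
import Pool.Agent.H83Pav.Final

/-!
MP_039b14_co: assembly for small circuits.
-/

namespace H83Pav

open Finset Filter Topology H38Pav H83E

variable {n : ℕ}

open Classical in
/-- labelled matroids of rank `r` without shallow nonbases, of girth and cogirth at least `g`,
with deep nonbases and with a small circuit or cocircuit -/
noncomputable def badS (n r g : ℕ) : Finset (Mat n) :=
  univ.filter (fun M => rk M = r ∧ NoShallow 2 M ∧ Wide g M ∧ (KK 2 M).Nonempty ∧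
    ¬ Wide (n / 20000) M)

theorem mem_badS {r g : ℕ} {M : Mat n} : M ∈ badS n r g ↔ rk M = r ∧ NoShallow 2 M ∧
    Wide g M ∧ (KK 2 M).Nonempty ∧ ¬ Wide (n / 20000) M := by
  simp [badS]

theorem small_nonempty' {d : ℕ} {M : Mat n} (h : (KK d M).Nonempty) :
    (small d M ∪ small d (dual M)).Nonempty := by
  obtain ⟨X, hX⟩ := h
  rcases mem_KK.mp hX with h | h
  · obtain ⟨_, C, _, hC, hc⟩ := mem_Low.mp h
    exact ⟨C, Finset.mem_union_left _ (mem_small.mpr ⟨hC, hc⟩)⟩
  · obtain ⟨_, C, _, hC, hc⟩ := mem_Low.mp h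
    exact ⟨C, Finset.mem_union_right _ (mem_small.mpr ⟨hC, hc⟩)⟩

theorem coverS {r g : ℕ} (hn : 1000 ≤ n) (hr : 4 * n < 9 * min (n - r) r) (hrn : r ≤ n)
    {M : Mat n} (hM : M ∈ badS n r g) :
    ∃ g', g ≤ g' ∧ 20000 * g' ≤ n ∧ Wide g' M ∧ n.choose r / 8 ^ g' ≤ (KK 2 M).card := by
  obtain ⟨hrk, hns, hw, hne, hnw⟩ := mem_badS.mp hM
  have hrd := rk_add_rk_dual M
  obtain ⟨C0, hC0, hmin⟩ := Finset.exists_min_image (small 2 M ∪ small 2 (dual M))
    (fun C => C.card) (small_nonempty' hne)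
  have hwide : ∀ g'', g'' ≤ C0.card → g'' ≤ n / 20000 → Wide g'' M := by
    intro g'' h1 h2 C hC
    rcases hC with hC | hC
    · by_cases hc : C.card + 2 ≤ rk M
      · exact h1.trans (hmin C (Finset.mem_union_left _ (mem_small.mpr ⟨hC, hc⟩)))
      · omega
    · by_cases hc : C.card + 2 ≤ rk (dual M)
      · exact h1.trans (hmin C (Finset.mem_union_right _ (mem_small.mpr ⟨hC, hc⟩)))
      · omega
  have hbig : ¬ n / 20000 ≤ C0.card := fun h => hnw (hwide _ h le_rfl)
  refine ⟨C0.card, ?_, by omega, hwide _ le_rfl (by omega), ?_⟩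
  · rcases Finset.mem_union.mp hC0 with h | h
    · exact hw C0 (Or.inl (mem_small.mp h).1)
    · exact hw C0 (Or.inr (mem_small.mp h).1)
  · rcases Finset.mem_union.mp hC0 with h | h
    · have h1 := card_low_ge h
      have h2 := Finset.card_le_card (low_subset_KK 2 M)
      obtain ⟨_, hc⟩ := mem_small.mp h
      rw [hrk] at h1 hc
      have h3 := choose_le_shift C0.card n r (by omega) hrn (by omega)
      calc n.choose r / 8 ^ C0.card ≤
            (8 ^ C0.card * (n - C0.card).choose (r - C0.card)) / 8 ^ C0.card :=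
            Nat.div_le_div_right h3
        _ = (n - C0.card).choose (r - C0.card) := Nat.mul_div_cancel_left _ (by positivity)
        _ ≤ _ := h1.trans h2
    · have h1 := card_low_ge h
      have h2 := Finset.card_le_card (low_subset_KK 2 (dual M))
      rw [card_KK_dual] at h2
      obtain ⟨_, hc⟩ := mem_small.mp h
      rw [rk_dual, hrk] at h1 hc
      have h3 := choose_le_shift C0.card n (n - r) (by omega) (by omega) (by omega)
      rw [Nat.choose_symm hrn] at h3
      calc n.choose r / 8 ^ C0.card ≤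
            (8 ^ C0.card * (n - C0.card).choose (n - r - C0.card)) / 8 ^ C0.card :=
            Nat.div_le_div_right h3
        _ = (n - C0.card).choose (n - r - C0.card) := Nat.mul_div_cancel_left _ (by positivity)
        _ ≤ _ := h1.trans h2

/-- labelled matroids of a middle rank -/
theorem eventually_badS (hE : ∀ᶠ n : ℕ in atTop, ECount 1001 n) (g : ℕ → ℕ)
    (hg : ∀ A : ℝ, ∀ᶠ n : ℕ in atTop, A * Real.log n ≤ (g n : ℝ) ^ 2) :
    ∀ᶠ n : ℕ in atTop, ∀ r : ℕ, r ≤ n → 4 * n < 9 * min (n - r) r →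
      2 ^ n ≤ n ^ 3 * n.choose r →
      ((badS n r (g n)).card : ℝ) ≤
        (matR n r).card * ((n : ℝ) * Real.exp (-((n : ℝ) ^ 2))) := by
  have hg5 : ∀ᶠ n : ℕ in atTop, 10 ^ 5 ≤ g n := by
    have h := (Real.tendsto_log_atTop.comp (tendsto_natCast_atTop_atTop (R := ℝ))).eventually
      (eventually_ge_atTop ((10 : ℝ) ^ 10))
    filter_upwards [hg 1, h] with n h1 h2
    have h2' : (10 : ℝ) ^ 10 ≤ Real.log n := h2
    have h3 : ((10 : ℝ) ^ 5) ^ 2 ≤ (g n : ℝ) ^ 2 := by
      have : ((10 : ℝ) ^ 5) ^ 2 = 10 ^ 10 := by norm_num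
      rw [this]; linarith
    have h4 : ((10 : ℝ) ^ 5) ≤ g n := le_of_sq_le_sq h3 (by positivity)
    exact_mod_cast h4
  filter_upwards [hE, hg5, eventually_numS g hg, eventually_xm, eventually_sn_le, eventually_an,
    eventually_ge_atTop 1000] with n hE hg5 h1 hxm hsn han hn r hrn hmid hch
  classical
  obtain ⟨hs1, hs2, hs3⟩ := hsn
  obtain ⟨ha1, _, ha3⟩ := han
  have hn0 : 0 < n := by omega
  have hn0' : (0 : ℝ) < n := by exact_mod_cast hn0
  have hmid' : 4 * n < 9 * min (n - (n - r)) (n - r) := by omega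
  have hL1 : (0.69 : ℝ) ≤ Real.log 2 := by have := Real.log_two_gt_d9; linarith
  set E : ℝ := Real.exp (-((n : ℝ) ^ 2)) with hEdef
  let T1 : ℕ → Finset (Mat n) := fun g' => (badS n r (g n)).filter
    (fun M => g n ≤ g' ∧ 20000 * g' ≤ n ∧ Wide g' M ∧ n.choose r / 8 ^ g' ≤ (KK 2 M).card)
  have hcov : badS n r (g n) ⊆ (Finset.range n).biUnion T1 := by
    intro M hM
    obtain ⟨g', h⟩ := coverS hn hmid hrn hM
    refine Finset.mem_biUnion.mpr ⟨g', ?_, Finset.mem_filter.mpr ⟨hM, h⟩⟩
    rw [Finset.mem_range]; omega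
  have hT1 : ∀ g' ∈ Finset.range n, ((T1 g').card : ℝ) ≤ (matR n r).card * E := by
    intro g' _
    rcases (T1 g').eq_empty_or_nonempty with h0 | ⟨M0, hM0⟩
    · rw [h0, Finset.card_empty]; push_cast; positivity
    · obtain ⟨_, ha, hb, _, _⟩ := Finset.mem_filter.mp hM0
      have hT : ∀ M ∈ T1 g', rk M = r ∧ NoShallow 2 M ∧ Wide g' M ∧
          n.choose r / 8 ^ g' ≤ (KK 2 M).card := by
        intro M hM
        obtain ⟨hM1, _, _, hM2, hM3⟩ := Finset.mem_filter.mp hM
        obtain ⟨hM4, hM5, _, _⟩ := mem_badS.mp hM1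
        exact ⟨hM4, hM5, hM2, hM3⟩
      have hgood := good_of hn ha1 hs1 hrn hmid
      have hgood' := good_of hn ha1 hs1 (show n - r ≤ n by omega) hmid'
      have hexp : ∀ x : ℕ, Real.exp ((x : ℝ) / (1000 * n)) ≤
          Real.exp (Real.log 2 / n / 32 * x) := by
        intro x
        apply Real.exp_le_exp.mpr
        have h5 : (1 : ℝ) / (1000 * n) ≤ Real.log 2 / n / 32 := by
          rw [div_div, div_le_div_iff₀ (by positivity) (by positivity)]
          nlinarith
        calc (x : ℝ) / (1000 * n) = 1 / (1000 * n) * x := by ring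
          _ ≤ _ := mul_le_mul_of_nonneg_right h5 (by positivity)
      have h3 := card_badS_le (a := an n) (s := sn n) (g := g') (r := r)
        (G := n.choose r / 8 ^ g') hn0 rfl (T1 g') hT hrn hgood hgood' hxm
        (fun T3 GG => (EEf_le (g := g') hE hmid hrn (by omega) hs2 ha3 hgood (T1 g')
          (fun M hM => ⟨(hT M hM).1, (hT M hM).2.2.1⟩) T3 GG).trans (hexp _))
        (fun T3 GG => (EEf_le (g := g') hE hmid' (by omega) (by omega) hs2 ha3 hgood' ((T1 g').image dual)
          (fun M hM => by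
            obtain ⟨N, hN, rfl⟩ := Finset.mem_image.mp hM
            refine ⟨by rw [rk_dual, (hT N hN).1], Wide_dual (hT N hN).2.2.1⟩) T3 GG).trans
              (hexp _))
      refine h3.trans (mul_le_mul_of_nonneg_left ?_ (by positivity))
      apply Real.exp_le_exp.mpr
      exact h1 g' r ha hb hrn hmid hch
  calc ((badS n r (g n)).card : ℝ) ≤ (((Finset.range n).biUnion T1).card : ℝ) := by
        exact_mod_cast Finset.card_le_card hcov
    _ ≤ ∑ g' ∈ Finset.range n, ((T1 g').card : ℝ) := by exact_mod_cast Finset.card_biUnion_le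
    _ ≤ ∑ _g' ∈ Finset.range n, (matR n r).card * E := Finset.sum_le_sum hT1
    _ = _ := by
        rw [Finset.sum_const, Finset.card_range, nsmul_eq_mul]; ring

end H83Pav
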