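import Mathlib

/-!
MP_039b14_co: many stable subsets of a family with small degrees.
-/

namespace H83L

open Finset

variable {V : Type*} [DecidableEq V]

open Classical in
/-- the stable subsets with `j` members -/
noncomputable def stab (adj : V → V → Prop) (W : Finset V) (j : ℕ) : Finset (Finset V) :=
  (W.powersetCard j).filter (fun R => ∀ X ∈ R, ∀ Y ∈ R, ¬ adj X Y)

omit [DecidableEq V] in
theorem mem_stab {adj : V → V → Prop} {W : Finset V} {j : ℕ} {R : Finset V} :
    R ∈ stab adj W j ↔ (R ⊆ W ∧ R.card = j) ∧ ∀ X ∈ R, ∀ Y ∈ R, ¬ adj X Y := by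
  classical
  unfold stab
  rw [Finset.mem_filter, Finset.mem_powersetCard]

theorem stab_step (adj : V → V → Prop) (hsymm : ∀ x y, adj x y → adj y x) (W : Finset V)
    (hirr : ∀ x ∈ W, ¬ adj x x) (D J : ℕ)
    (hdeg : ∀ x ∈ W, ∀ T ⊆ W, (∀ y ∈ T, adj x y) → T.card ≤ D)
    (hJ : 2 * (D + 1) * J ≤ W.card) (j : ℕ) (hj : j < J) :
    (stab adj W j).card * (D + 1) ≤ (stab adj W (j + 1)).card := by
  classical
  have hkey : (stab adj W j).card * ((D + 1) * (j + 1)) ≤ (stab adj W (j + 1)).card * (j + 1) := by
    refine Finset.card_mul_le_card_mul (fun R R' : Finset V => R ⊆ R') ?_ ?_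
    · intro R hR
      obtain ⟨⟨hRW, hRc⟩, hRs⟩ := mem_stab.mp hR
      -- the forbidden vertices
      set F : Finset V := R ∪ R.biUnion (fun x => W.filter (fun y => adj x y)) with hF
      have hFc : F.card ≤ j * (D + 1) := by
        have h1 : (R.biUnion (fun x => W.filter (fun y => adj x y))).card ≤ R.card * D := by
          refine Finset.card_biUnion_le_card_mul _ _ _ (fun x hx => ?_)
          exact hdeg x (hRW hx) _ (Finset.filter_subset _ _)
            (fun y hy => (Finset.mem_filter.mp hy).2)
        calc F.card ≤ R.card + (R.biUnion (fun x => W.filter (fun y => adj x y))).card :=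
              Finset.card_union_le _ _
          _ ≤ j + j * D := by rw [hRc] at h1 ⊢; omega
          _ = _ := by ring
      have hcount : (D + 1) * (j + 1) ≤ (W \ F).card := by
        have h1 : W.card - F.card ≤ (W \ F).card := Finset.le_card_sdiff _ _
        have h2 : (D + 1) * (j + 1) + j * (D + 1) ≤ W.card := by
          refine le_trans ?_ hJ
          have h3 : (D + 1) * (j + 1) + j * (D + 1) = (D + 1) * (2 * j + 1) := by ring
          rw [h3, mul_comm 2 (D + 1), mul_assoc]
          exact Nat.mul_le_mul_left _ (by omega)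
        omega
      refine hcount.trans ?_
      rw [Finset.bipartiteAbove]
      refine Finset.card_le_card_of_injOn (fun x => insert x R) ?_ ?_
      · intro x hx
        obtain ⟨hxW, hxF⟩ := Finset.mem_sdiff.mp (Finset.mem_coe.mp hx)
        have hxR : x ∉ R := fun h => hxF (Finset.mem_union_left _ h)
        have hxa : ∀ y ∈ R, ¬ adj y x := by
          intro y hy h
          exact hxF (Finset.mem_union_right _ (Finset.mem_biUnion.mpr
            ⟨y, hy, Finset.mem_filter.mpr ⟨hxW, h⟩⟩))
        refine Finset.mem_coe.mpr (Finset.mem_filter.mpr ⟨mem_stab.mpr ⟨⟨?_, ?_⟩, ?_⟩,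
          Finset.subset_insert _ _⟩)
        · exact Finset.insert_subset hxW hRW
        · rw [Finset.card_insert_of_notMem hxR, hRc]
        · intro a ha b hb hab
          rcases Finset.mem_insert.mp ha with ha1 | ha1
          · rcases Finset.mem_insert.mp hb with hb1 | hb1
            · rw [ha1, hb1] at hab
              exact hirr _ hxW hab
            · rw [ha1] at hab
              exact hxa b hb1 (hsymm _ _ hab)
          · rcases Finset.mem_insert.mp hb with hb1 | hb1
            · rw [hb1] at hab
              exact hxa a ha1 hab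
            · exact hRs a ha1 b hb1 hab
      · intro x hx y hy hxy
        obtain ⟨_, hxF⟩ := Finset.mem_sdiff.mp (Finset.mem_coe.mp hx)
        have hxR : x ∉ R := fun h => hxF (Finset.mem_union_left _ h)
        have h1 : x ∈ insert y R := by
          have h2 : insert x R = insert y R := hxy
          rw [← h2]; exact Finset.mem_insert_self _ _
        rcases Finset.mem_insert.mp h1 with h | h
        · exact h
        · exact absurd h hxR
    · intro R' hR'
      obtain ⟨⟨_, hRc⟩, _⟩ := mem_stab.mp hR'
      have h1 : Finset.bipartiteBelow (fun R R' : Finset V => R ⊆ R') (stab adj W j) R' ⊆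
          R'.powersetCard j := by
        intro R hR
        obtain ⟨hR1, hR2⟩ := Finset.mem_filter.mp hR
        exact Finset.mem_powersetCard.mpr ⟨hR2, (mem_stab.mp hR1).1.2⟩
      refine (Finset.card_le_card h1).trans ?_
      rw [Finset.card_powersetCard, hRc, Nat.choose_succ_self_right]
  rw [← mul_assoc] at hkey
  exact Nat.le_of_mul_le_mul_right hkey (Nat.succ_pos _)

/-- **many stable subsets** -/
theorem card_stab_ge (adj : V → V → Prop) (hsymm : ∀ x y, adj x y → adj y x) (W : Finset V)
    (hirr : ∀ x ∈ W, ¬ adj x x) (D J : ℕ)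
    (hdeg : ∀ x ∈ W, ∀ T ⊆ W, (∀ y ∈ T, adj x y) → T.card ≤ D)
    (hJ : 2 * (D + 1) * J ≤ W.card) : ∀ j ≤ J, (D + 1) ^ j ≤ (stab adj W j).card := by
  intro j
  induction j with
  | zero =>
    intro _
    have : (∅ : Finset V) ∈ stab adj W 0 := mem_stab.mpr (by simp)
    rw [pow_zero]
    exact Finset.card_pos.mpr ⟨_, this⟩
  | succ j ih =>
    intro hj
    calc (D + 1) ^ (j + 1) = (D + 1) ^ j * (D + 1) := pow_succ _ _
      _ ≤ (stab adj W j).card * (D + 1) := Nat.mul_le_mul_right _ (ih (by omega))
      _ ≤ _ := stab_step adj hsymm W hirr D J hdeg hJ j (by omega)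

end H83L
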