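import Pool.Agent.H83Pav.Charge
import Pool.Agent.H83Pav.Count
import Pool.Agent.H83Pav.EDefs

/-!
MP_039b14_co: circuits of size `r(M) - 2`.
-/

namespace H83Pav

open Finset H38Pav

variable {n : ℕ}

/-- an independent set inside a closure is small -/
theorem card_le_of_subset_clo {M : Mat n} {Y Z : Finset (Fin n)} (h : Y ⊆ clo M Z)
    (hY : M.1.Indep (Y : Set (Fin n))) : Y.card ≤ Z.card := by
  have h1 : (Y : Set (Fin n)).encard ≤ M.1.eRk (M.1.closure (Z : Set (Fin n))) := by
    refine hY.encard_le_eRk_of_subset ?_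
    rw [← coe_clo, Finset.coe_subset]; exact h
  rw [Matroid.eRk_closure_eq, Set.encard_coe_eq_coe_finsetCard] at h1
  have h2 : M.1.eRk (Z : Set (Fin n)) ≤ (Z.card : ℕ∞) := by
    rw [← Set.encard_coe_eq_coe_finsetCard]; exact M.1.eRk_le_encard _
  exact_mod_cast h1.trans h2

theorem clo_mono {M : Mat n} {A B : Finset (Fin n)} (h : A ⊆ B) : clo M A ⊆ clo M B := by
  rw [← Finset.coe_subset, coe_clo, coe_clo]
  exact M.1.closure_subset_closure (by rw [Finset.coe_subset]; exact h)

theorem clo_subset_clo {M : Mat n} {A B : Finset (Fin n)} (h : A ⊆ clo M B) :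
    clo M A ⊆ clo M B := by
  rw [← Finset.coe_subset, coe_clo, coe_clo]
  refine M.1.closure_subset_closure_of_subset_closure ?_
  rw [← coe_clo, Finset.coe_subset]; exact h

theorem clo_erase {M : Mat n} {C : Finset (Fin n)} (hC : Circ M C) {c : Fin n} (hc : c ∈ C) :
    clo M (C.erase c) = clo M C := by
  apply Finset.coe_injective
  rw [coe_clo, coe_clo, Finset.coe_erase]
  exact hC.closure_sdiff_singleton_eq c

theorem indep_erase {M : Mat n} {C : Finset (Fin n)} (hC : Circ M C) {c : Fin n} (hc : c ∈ C) :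
    M.1.Indep ((C.erase c : Finset (Fin n)) : Set (Fin n)) := by
  rw [Finset.coe_erase]
  exact hC.sdiff_singleton_indep (by exact_mod_cast hc)

theorem indep_insert {M : Mat n} {Z : Finset (Fin n)} (hZ : M.1.Indep (Z : Set (Fin n)))
    {w : Fin n} (hw : w ∉ clo M Z) : M.1.Indep ((insert w Z : Finset (Fin n)) : Set (Fin n)) := by
  rw [mem_clo] at hw
  rw [Finset.coe_insert]
  exact ((hZ.notMem_closure_iff (subE M _ (Set.mem_univ _))).mp hw).1

theorem clo_eq_of_indep {M : Mat n} {Z Z' : Finset (Fin n)} (h : Z ⊆ clo M Z')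
    (hZ : M.1.Indep (Z : Set (Fin n))) (hc : Z'.card ≤ Z.card) : clo M Z = clo M Z' := by
  refine Finset.Subset.antisymm (clo_subset_clo h) ?_
  intro w hw
  by_contra hwZ
  have h1 := indep_insert hZ hwZ
  have h2 := card_le_of_subset_clo (Z := Z') (Y := insert w Z)
    (Finset.insert_subset_iff.mpr ⟨hw, h⟩) h1
  rw [Finset.card_insert_of_notMem (fun h => hwZ (subset_clo M Z h))] at h2
  omega

/-- a circuit inside a closure -/
theorem card_circ_of_clo {M : Mat n} {C Y : Finset (Fin n)} (hC : Circ M C)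
    (hY : Y ⊆ clo M C) (hi : M.1.Indep (Y : Set (Fin n))) : Y.card + 1 ≤ C.card := by
  obtain ⟨c, hc⟩ := Finset.card_pos.mp (circ_card_pos hC)
  rw [← clo_erase hC hc] at hY
  have h1 := card_le_of_subset_clo hY hi
  rw [Finset.card_erase_of_mem hc] at h1
  have := circ_card_pos hC
  omega

theorem clo_insert_erase {M : Mat n} {C : Finset (Fin n)} (hC : Circ M C) {c : Fin n}
    (hc : c ∈ C) (x : Fin n) : clo M (insert x (C.erase c)) = clo M (insert x C) := by
  refine Finset.Subset.antisymm (clo_mono (Finset.insert_subset_insert _ (Finset.erase_subset _ _)))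
    (clo_subset_clo ?_)
  intro w hw
  rcases Finset.mem_insert.mp hw with h | h
  · exact subset_clo M _ (by rw [h]; exact Finset.mem_insert_self _ _)
  · have h1 : w ∈ clo M (C.erase c) := by rw [clo_erase hC hc]; exact subset_clo M C h
    exact clo_mono (Finset.subset_insert _ _) h1

/-- an element of a circuit is in the closure of the rest -/
theorem mem_clo_of_circ {M : Mat n} {C A : Finset (Fin n)} (hC : Circ M C) {e : Fin n}
    (he : e ∈ C) (h : C.erase e ⊆ clo M A) : e ∈ clo M A := by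
  have h1 : e ∈ clo M (C.erase e) := by rw [clo_erase hC he]; exact subset_clo M C he
  exact clo_subset_clo h h1

theorem circ_eq {M : Mat n} {C C' : Finset (Fin n)} (hC : Circ M C) (hC' : Circ M C')
    (h : C' ⊆ C) : C' = C := by
  have h1 : M.1.IsCircuit (C' : Set (Fin n)) := hC'
  have h2 : M.1.IsCircuit (C : Set (Fin n)) := hC
  have h3 := h2.eq_of_superset_isCircuit h1 (by rw [Finset.coe_subset]; exact h)
  exact_mod_cast h3.symm

/-- a nonbasis containing a smaller dependent set is deep -/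
theorem mem_KK_of_dep {d : ℕ} {M : Mat n} (hM : NoShallow d M) {X Y : Finset (Fin n)}
    (hX : X.card = rk M) (hYX : Y ⊆ X) (hYc : Y.card < rk M)
    (hY : ¬ M.1.Indep (Y : Set (Fin n))) : X ∈ KK d M := by
  obtain ⟨C, hCY, hC⟩ := exists_circ hY
  have hXN : X ∈ NB M := mem_NB_of_not_indep (not_indep_of_circ hC (hCY.trans hYX)) hX
  rcases hM X hXN with h | ⟨h, _⟩
  · exact h
  · exfalso
    have h1 := circ_eq h hC (hCY.trans hYX)
    have h2 := Finset.card_le_card hCY
    rw [h1, hX] at h2
    omega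

open Classical in
/-- the circuits of size `r(M) - 2` -/
noncomputable def midc (M : Mat n) : Finset (Finset (Fin n)) :=
  univ.filter (fun C => Circ M C ∧ C.card + 2 = rk M)

theorem mem_midc {M : Mat n} {C : Finset (Fin n)} :
    C ∈ midc M ↔ Circ M C ∧ C.card + 2 = rk M := by simp [midc]

open Classical in
/-- the flats of rank `r(M) - 2` whose complements have at most `t` elements -/
noncomputable def Gi (t : ℕ) (M : Mat n) : Finset (Finset (Fin n)) :=
  univ.filter (fun G => (∃ Z : Finset (Fin n), M.1.Indep (Z : Set (Fin n)) ∧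
    Z.card + 2 = rk M ∧ clo M Z = G) ∧ n ≤ G.card + t)

theorem mem_Gi {t : ℕ} {M : Mat n} {G : Finset (Fin n)} : G ∈ Gi t M ↔
    (∃ Z : Finset (Fin n), M.1.Indep (Z : Set (Fin n)) ∧
    Z.card + 2 = rk M ∧ clo M Z = G) ∧ n ≤ G.card + t := by simp [Gi]

theorem Gi_mono {s t : ℕ} (h : s ≤ t) (M : Mat n) : Gi s M ⊆ Gi t M := by
  intro G hG
  obtain ⟨h1, h2⟩ := mem_Gi.mp hG
  exact mem_Gi.mpr ⟨h1, by omega⟩

theorem Gi_eq_filter {s t : ℕ} (h : s ≤ t) (M : Mat n) :
    Gi s M = (Gi t M).filter (fun G => n ≤ G.card + s) := by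
  ext G
  rw [Finset.mem_filter, mem_Gi, mem_Gi]
  constructor
  · rintro ⟨h1, h2⟩
    exact ⟨⟨h1, by omega⟩, h2⟩
  · rintro ⟨⟨h1, _⟩, h2⟩
    exact ⟨h1, h2⟩

/-- the circuits of size `r(M) - 2` with small closures -/
noncomputable def thin (a : ℕ) (M : Mat n) : Finset (Finset (Fin n)) :=
  (midc M).filter (fun C => (clo M C).card < C.card + a)

theorem mem_thin {a : ℕ} {M : Mat n} {C : Finset (Fin n)} :
    C ∈ thin a M ↔ (Circ M C ∧ C.card + 2 = rk M) ∧ (clo M C).card < C.card + a := by
  rw [thin, Finset.mem_filter, mem_midc]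

/-- the large closures of circuits of size `r(M) - 2` -/
noncomputable def Ff (a : ℕ) (M : Mat n) : Finset (Finset (Fin n)) :=
  ((midc M).filter (fun C => C.card + a ≤ (clo M C).card)).image (clo M)

theorem mem_Ff {a : ℕ} {M : Mat n} {F : Finset (Fin n)} :
    F ∈ Ff a M ↔ ∃ C, (Circ M C ∧ C.card + 2 = rk M) ∧ C.card + a ≤ (clo M C).card ∧
      clo M C = F := by
  rw [Ff, Finset.mem_image]
  constructor
  · rintro ⟨C, hC, h⟩
    obtain ⟨h1, h2⟩ := Finset.mem_filter.mp hC
    exact ⟨C, mem_midc.mp h1, h2, h⟩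
  · rintro ⟨C, hC, h2, h⟩
    exact ⟨C, Finset.mem_filter.mpr ⟨mem_midc.mpr hC, h2⟩, h⟩

open Classical in
/-- the thin circuits in no flat of `Gi t M` -/
noncomputable def NG (a t : ℕ) (M : Mat n) : Finset (Finset (Fin n)) :=
  (thin a M).filter (fun C => ∀ G ∈ Gi t M, ¬ C ⊆ G)

open Classical in
/-- the thin circuits in a flat of `Gi t M` -/
noncomputable def IG (a t : ℕ) (M : Mat n) : Finset (Finset (Fin n)) :=
  (thin a M).filter (fun C => ∃ G ∈ Gi t M, C ⊆ G)

open Classical in
/-- the thin circuits in a flat of `Gi t M` but in no flat of `Gi s M` -/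
noncomputable def Em (a s t : ℕ) (M : Mat n) : Finset (Finset (Fin n)) :=
  (NG a s M).filter (fun C => ∃ G ∈ Gi t M, C ⊆ G)

theorem mem_NG {a t : ℕ} {M : Mat n} {C : Finset (Fin n)} :
    C ∈ NG a t M ↔ C ∈ thin a M ∧ ∀ G ∈ Gi t M, ¬ C ⊆ G := by
  rw [NG, Finset.mem_filter]

theorem mem_IG {a t : ℕ} {M : Mat n} {C : Finset (Fin n)} :
    C ∈ IG a t M ↔ C ∈ thin a M ∧ ∃ G ∈ Gi t M, C ⊆ G := by
  rw [IG, Finset.mem_filter]

theorem mem_Em {a s t : ℕ} {M : Mat n} {C : Finset (Fin n)} :
    C ∈ Em a s t M ↔ C ∈ NG a s M ∧ ∃ G ∈ Gi t M, C ⊆ G := by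
  rw [Em, Finset.mem_filter]

theorem thin_eq {a s t : ℕ} (M : Mat n) :
    thin a M = NG a t M ∪ (Em a s t M ∪ IG a s M) := by
  ext C
  rw [Finset.mem_union, Finset.mem_union, mem_NG, mem_Em, mem_NG, mem_IG]
  constructor
  · intro h0
    by_cases h1 : ∃ G ∈ Gi t M, C ⊆ G
    · by_cases h2 : ∃ G ∈ Gi s M, C ⊆ G
      · exact Or.inr (Or.inr ⟨h0, h2⟩)
      · exact Or.inr (Or.inl ⟨⟨h0, fun G hG hCG => h2 ⟨G, hG, hCG⟩⟩, h1⟩)
    · exact Or.inl ⟨h0, fun G hG hCG => h1 ⟨G, hG, hCG⟩⟩
  · rintro (h | h | h)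
    · exact h.1
    · exact h.1.1
    · exact h.1

/-- the decoding of `Low 2 M` -/
theorem mem_low_two {a : ℕ} {M : Mat n} {X : Finset (Fin n)} : X ∈ Low 2 M ↔
    X.card = rk M ∧ ((∃ p ∈ FF 3 M, p.2 ≤ (X ∩ p.1).card) ∨
      (∃ F ∈ Ff a M, rk M ≤ (X ∩ F).card + 2) ∨ ∃ C ∈ thin a M, C ⊆ X) := by
  constructor
  · intro hX
    obtain ⟨h1, C, hCX, hC, hc⟩ := mem_Low.mp hX
    refine ⟨h1, ?_⟩
    by_cases h3 : C.card + 3 ≤ rk M
    · left
      have h4 : X ∈ Low 3 M := mem_Low.mpr ⟨h1, C, hCX, hC, h3⟩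
      rw [low_eq, mem_bunch] at h4
      exact h4.2
    · right
      have h4 : C.card + 2 = rk M := by omega
      by_cases h5 : (clo M C).card < C.card + a
      · right
        exact ⟨C, mem_thin.mpr ⟨⟨hC, h4⟩, h5⟩, hCX⟩
      · left
        refine ⟨clo M C, mem_Ff.mpr ⟨C, ⟨hC, h4⟩, by omega, rfl⟩, ?_⟩
        have := Finset.card_le_card (Finset.subset_inter hCX (subset_clo M C))
        omega
  · rintro ⟨h1, h⟩
    rcases h with h | ⟨F, hF, hX⟩ | ⟨C, hC, hCX⟩
    · have h2 : X ∈ Low 3 M := by rw [low_eq, mem_bunch]; exact ⟨h1, h⟩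
      obtain ⟨_, C, hCX, hC, hc⟩ := mem_Low.mp h2
      exact mem_Low.mpr ⟨h1, C, hCX, hC, by omega⟩
    · obtain ⟨C, ⟨hC, hc⟩, _, rfl⟩ := mem_Ff.mp hF
      obtain ⟨Y, hYX, hY⟩ := Finset.exists_subset_card_eq (s := X ∩ clo M C) (n := C.card)
        (by omega)
      have hnot : ¬ M.1.Indep (Y : Set (Fin n)) := by
        intro hi
        have := card_circ_of_clo hC (hYX.trans Finset.inter_subset_right) hi
        omega
      obtain ⟨C', hC'Y, hC'⟩ := exists_circ hnot
      refine mem_Low.mpr ⟨h1, C', hC'Y.trans (hYX.trans Finset.inter_subset_left), hC', ?_⟩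
      have := Finset.card_le_card hC'Y
      omega
    · obtain ⟨⟨hC1, hC2⟩, _⟩ := mem_thin.mp hC
      exact mem_Low.mpr ⟨h1, C, hCX, hC1, by omega⟩

theorem low_two_eq {a : ℕ} {M N : Mat n} (h : rk M = rk N) (h1 : FF 3 M = FF 3 N)
    (h2 : Ff a M = Ff a N) (h3 : thin a M = thin a N) : Low 2 M = Low 2 N := by
  ext X
  rw [mem_low_two (a := a), mem_low_two (a := a), h, h1, h2, h3]

/-! ### private sets -/

open Classical in
/-- the sets whose only circuit is `C` -/
noncomputable def privm (M : Mat n) (C : Finset (Fin n)) : Finset (Finset (Fin n)) :=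
  univ.filter (fun X => X.card = rk M ∧ C ⊆ X ∧ ∀ C' ⊆ X, Circ M C' → C' = C)

theorem mem_privm {M : Mat n} {C X : Finset (Fin n)} : X ∈ privm M C ↔
    X.card = rk M ∧ C ⊆ X ∧ ∀ C' ⊆ X, Circ M C' → C' = C := by simp [privm]

theorem mem_privm_of {M : Mat n} {C : Finset (Fin n)} (hC : C ∈ midc M) {x y : Fin n}
    (hx : x ∉ clo M C) (hy : y ∉ clo M (insert x C)) : insert y (insert x C) ∈ privm M C := by
  obtain ⟨hC1, hC2⟩ := mem_midc.mp hC
  have hxC : x ∉ C := fun h => hx (subset_clo M C h)
  have hyC : y ∉ insert x C := fun h => hy (subset_clo M _ h)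
  refine mem_privm.mpr ⟨?_, (Finset.subset_insert _ _).trans (Finset.subset_insert _ _), ?_⟩
  · rw [Finset.card_insert_of_notMem hyC, Finset.card_insert_of_notMem hxC]; omega
  · intro C' hC'X hC'
    have h1 : y ∉ C' := by
      intro h
      apply hy
      refine mem_clo_of_circ hC' h ?_
      intro w hw
      obtain ⟨hwy, hwC⟩ := Finset.mem_erase.mp hw
      rcases Finset.mem_insert.mp (hC'X hwC) with h2 | h2
      · exact absurd h2 hwy
      · exact subset_clo M _ h2
    have h2 : C' ⊆ insert x C := by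
      intro w hw
      rcases Finset.mem_insert.mp (hC'X hw) with h3 | h3
      · rw [h3] at hw; exact absurd hw h1
      · exact h3
    have h3 : x ∉ C' := by
      intro h
      apply hx
      refine mem_clo_of_circ hC' h ?_
      intro w hw
      obtain ⟨hwx, hwC⟩ := Finset.mem_erase.mp hw
      rcases Finset.mem_insert.mp (h2 hwC) with h4 | h4
      · exact absurd h4 hwx
      · exact subset_clo M _ h4
    refine circ_eq hC1 hC' ?_
    intro w hw
    rcases Finset.mem_insert.mp (h2 hw) with h4 | h4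
    · rw [h4] at hw; exact absurd hw h3
    · exact h4

theorem card_privm_ge {M : Mat n} {C : Finset (Fin n)} (hC : C ∈ midc M) (t : ℕ)
    (ht : ∀ x ∉ clo M C, t ≤ ((clo M (insert x C))ᶜ).card) :
    (n - (clo M C).card) * t ≤ 2 * (privm M C).card := by
  classical
  obtain ⟨hC1, hC2⟩ := mem_midc.mp hC
  let P : Finset (Σ _ : Fin n, Fin n) := ((clo M C)ᶜ).sigma (fun x => (clo M (insert x C))ᶜ)
  have hP : (n - (clo M C).card) * t ≤ P.card := by
    rw [Finset.card_sigma]
    have h1 : ((clo M C)ᶜ).card = n - (clo M C).card := by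
      rw [Finset.card_compl, Fintype.card_fin]
    rw [← h1, ← smul_eq_mul]
    exact Finset.card_nsmul_le_sum _ _ _ (fun x hx => ht x (Finset.mem_compl.mp hx))
  let f : (Σ _ : Fin n, Fin n) → Finset (Fin n) := fun q => insert q.2 (insert q.1 C)
  have hmemP : ∀ q ∈ P, q.1 ∉ clo M C ∧ q.2 ∉ clo M (insert q.1 C) := by
    intro q hq
    obtain ⟨h1, h2⟩ := Finset.mem_sigma.mp hq
    exact ⟨Finset.mem_compl.mp h1, Finset.mem_compl.mp h2⟩
  have himg : P.image f ⊆ privm M C := by
    intro X hX
    obtain ⟨q, hq, rfl⟩ := Finset.mem_image.mp hX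
    obtain ⟨h1, h2⟩ := hmemP q hq
    exact mem_privm_of hC h1 h2
  have hfib : ∀ X ∈ P.image f, (P.filter (fun q => f q = X)).card ≤ 2 := by
    intro X hX
    obtain ⟨hX1, hX2, _⟩ := mem_privm.mp (himg hX)
    have hc : (X \ C).card = 2 := by
      rw [Finset.card_sdiff_of_subset hX2]; omega
    have h1 : ((P.filter (fun q => f q = X)).image (fun q => (q.1, q.2))).card =
        (P.filter (fun q => f q = X)).card := by
      refine Finset.card_image_of_injective _ ?_
      rintro ⟨a, b⟩ ⟨c, d⟩ h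
      simp only [Prod.mk.injEq] at h
      rw [h.1, h.2]
    rw [← h1]
    have h2 : (P.filter (fun q => f q = X)).image (fun q => (q.1, q.2)) ⊆ (X \ C).offDiag := by
      intro p hp
      obtain ⟨q, hq, rfl⟩ := Finset.mem_image.mp hp
      obtain ⟨hq1, hq2⟩ := Finset.mem_filter.mp hq
      obtain ⟨h3, h4⟩ := hmemP q hq1
      have h5 : q.1 ∉ C := fun h => h3 (subset_clo M C h)
      have h6 : q.2 ∉ insert q.1 C := fun h => h4 (subset_clo M _ h)
      rw [Finset.mem_offDiag]
      refine ⟨Finset.mem_sdiff.mpr ⟨?_, h5⟩, Finset.mem_sdiff.mpr ⟨?_, fun h => h6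
        (Finset.mem_insert_of_mem h)⟩, ?_⟩
      · rw [← hq2]; exact Finset.mem_insert_of_mem (Finset.mem_insert_self _ _)
      · rw [← hq2]; exact Finset.mem_insert_self _ _
      · intro h
        apply h6
        show q.2 ∈ insert q.1 C
        rw [show q.2 = q.1 from h.symm]
        exact Finset.mem_insert_self _ _
    refine (Finset.card_le_card h2).trans ?_
    rw [Finset.offDiag_card, hc]
  calc _ ≤ P.card := hP
    _ ≤ 2 * (P.image f).card := Finset.card_le_mul_card_image _ _ hfib
    _ ≤ _ := Nat.mul_le_mul_left _ (Finset.card_le_card himg)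

theorem privm_subset {M : Mat n} {C : Finset (Fin n)} (hC : C ∈ midc M) :
    privm M C ⊆ Low 2 M := by
  obtain ⟨hC1, hC2⟩ := mem_midc.mp hC
  intro X hX
  obtain ⟨h1, h2, _⟩ := mem_privm.mp hX
  exact mem_Low.mpr ⟨h1, C, h2, hC1, by omega⟩

/-- the private sets are disjoint -/
theorem sum_privm_le {M : Mat n} (S : Finset (Finset (Fin n))) (hS : S ⊆ midc M) :
    ∑ C ∈ S, (privm M C).card ≤ (Low 2 M).card := by
  classical
  rw [← Finset.card_biUnion]
  · refine Finset.card_le_card (fun X hX => ?_)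
    obtain ⟨C, hC, hXC⟩ := Finset.mem_biUnion.mp hX
    exact privm_subset (hS hC) hXC
  · intro C hC C' hC' hne
    refine Finset.disjoint_left.mpr (fun X hX hX' => hne ?_)
    obtain ⟨_, h2, _⟩ := mem_privm.mp hX
    obtain ⟨_, _, h6⟩ := mem_privm.mp hX'
    exact h6 C h2 (mem_midc.mp (hS hC)).1

/-- the thin circuits in no giant are few -/
theorem card_NG_le {a t : ℕ} {M : Mat n} :
    (NG a t M).card * ((n - rk M - a) * t) ≤ 2 * (Low 2 M).card := by
  have hsub : NG a t M ⊆ midc M := by
    intro C hC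
    exact mem_midc.mpr (mem_thin.mp (mem_NG.mp hC).1).1
  calc (NG a t M).card * ((n - rk M - a) * t) = ∑ _C ∈ NG a t M, (n - rk M - a) * t := by
        rw [Finset.sum_const, smul_eq_mul]
    _ ≤ ∑ C ∈ NG a t M, 2 * (privm M C).card := by
        refine Finset.sum_le_sum (fun C hC => ?_)
        obtain ⟨h1, h2⟩ := mem_NG.mp hC
        obtain ⟨⟨hC1, hC2⟩, hthin⟩ := mem_thin.mp h1
        obtain ⟨c, hc⟩ := Finset.card_pos.mp (circ_card_pos hC1)
        have h3 : ∀ x ∉ clo M C, t ≤ ((clo M (insert x C))ᶜ).card := by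
          intro x hx
          have hx' : x ∉ clo M (C.erase c) := by rw [clo_erase hC1 hc]; exact hx
          have hxe : x ∉ C.erase c := fun h => hx' (subset_clo M _ h)
          have h4 := h2 (clo M (insert x C))
          by_contra hcon
          apply h4
          · refine mem_Gi.mpr ⟨⟨insert x (C.erase c), indep_insert (indep_erase hC1 hc) hx', ?_,
              clo_insert_erase hC1 hc x⟩, ?_⟩
            · rw [Finset.card_insert_of_notMem hxe, Finset.card_erase_of_mem hc]
              have := circ_card_pos hC1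
              omega
            · rw [Finset.card_compl, Fintype.card_fin] at hcon
              have : (clo M (insert x C)).card ≤ n := by
                simpa using Finset.card_le_univ (clo M (insert x C))
              omega
          · exact (Finset.subset_insert _ _).trans (subset_clo M _)
        have h5 := card_privm_ge (hsub hC) t h3
        refine le_trans (Nat.mul_le_mul_right _ ?_) h5
        omega
    _ = 2 * ∑ C ∈ NG a t M, (privm M C).card := by rw [Finset.mul_sum]
    _ ≤ _ := Nat.mul_le_mul_left _ (sum_privm_le _ hsub)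

/-- fibres over a set of values -/
theorem sum_fiber_le {α β : Type*} [DecidableEq α] [DecidableEq β] (A : Finset α) (B : Finset β) (f : α → β) :
    ∑ b ∈ B, (A.filter (fun a => f a = b)).card ≤ A.card := by
  rw [← Finset.card_biUnion]
  · refine Finset.card_le_card (fun a ha => ?_)
    obtain ⟨b, _, h⟩ := Finset.mem_biUnion.mp ha
    exact (Finset.mem_filter.mp h).1
  · intro b _ b' _ hne
    refine Finset.disjoint_left.mpr (fun a ha ha' => hne ?_)
    rw [← (Finset.mem_filter.mp ha).2, ← (Finset.mem_filter.mp ha').2]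

/-- adding `k` elements of a closure to an independent set -/
theorem card_span_ge {M : Mat n} {Z F : Finset (Fin n)} (hZF : clo M Z = F) (k : ℕ)
    (A : Finset (Finset (Fin n))) (hA : ∀ X : Finset (Fin n), Z ⊆ X → X ⊆ F →
      X.card = Z.card + k → X ∈ A) :
    (F.card - Z.card).choose k ≤ (A.filter (fun X => clo M X = F)).card := by
  classical
  have hZ : Z ⊆ F := by rw [← hZF]; exact subset_clo M Z
  have h1 : ((powersetCard k (F \ Z)).image (fun P => Z ∪ P)).card =
      (F.card - Z.card).choose k := by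
    rw [Finset.card_image_of_injOn, Finset.card_powersetCard, Finset.card_sdiff_of_subset hZ]
    intro P hP Q hQ h
    have hP' := (Finset.mem_powersetCard.mp (Finset.mem_coe.mp hP)).1
    have hQ' := (Finset.mem_powersetCard.mp (Finset.mem_coe.mp hQ)).1
    have h' : Z ∪ P = Z ∪ Q := h
    ext z
    constructor
    · intro hz
      have : z ∈ Z ∪ Q := by rw [← h']; exact Finset.mem_union_right _ hz
      rcases Finset.mem_union.mp this with h2 | h2
      · exact absurd h2 (Finset.mem_sdiff.mp (hP' hz)).2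
      · exact h2
    · intro hz
      have : z ∈ Z ∪ P := by rw [h']; exact Finset.mem_union_right _ hz
      rcases Finset.mem_union.mp this with h2 | h2
      · exact absurd h2 (Finset.mem_sdiff.mp (hQ' hz)).2
      · exact h2
  rw [← h1]
  refine Finset.card_le_card (fun X hX => ?_)
  obtain ⟨P, hP, rfl⟩ := Finset.mem_image.mp hX
  obtain ⟨hP1, hP2⟩ := Finset.mem_powersetCard.mp hP
  have hPF : P ⊆ F := hP1.trans Finset.sdiff_subset
  refine Finset.mem_filter.mpr ⟨hA _ Finset.subset_union_left (Finset.union_subset hZ hPF) ?_, ?_⟩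
  · rw [Finset.card_union_of_disjoint, hP2]
    rw [Finset.disjoint_left]
    intro z hz hz'
    exact (Finset.mem_sdiff.mp (hP1 hz')).2 hz
  · refine Finset.Subset.antisymm ?_ ?_
    · rw [← hZF]
      refine clo_subset_clo ?_
      rw [hZF]; exact Finset.union_subset hZ hPF
    · rw [← hZF]; exact clo_mono Finset.subset_union_left

/-- the large closures are few -/
theorem card_Ff_le {a : ℕ} {M : Mat n} : (Ff a M).card * a.choose 3 ≤ (Low 2 M).card := by
  classical
  calc (Ff a M).card * a.choose 3 = ∑ _F ∈ Ff a M, a.choose 3 := by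
        rw [Finset.sum_const, smul_eq_mul]
    _ ≤ ∑ F ∈ Ff a M, ((Low 2 M).filter (fun X => clo M X = F)).card := by
        refine Finset.sum_le_sum (fun F hF => ?_)
        obtain ⟨C, ⟨hC1, hC2⟩, ha, hF⟩ := mem_Ff.mp hF
        obtain ⟨c, hc⟩ := Finset.card_pos.mp (circ_card_pos hC1)
        have hce := Finset.card_erase_of_mem hc
        have hpos := circ_card_pos hC1
        rw [← clo_erase hC1 hc] at hF
        refine le_trans (Nat.choose_le_choose 3 ?_) (card_span_ge hF 3 (Low 2 M) ?_)
        · rw [← hF, clo_erase hC1 hc]; omega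
        · intro X hX1 hX2 hX3
          have hXc : X.card = rk M := by omega
          obtain ⟨Y, hYX, hY⟩ := Finset.exists_subset_card_eq (s := X) (n := C.card) (by omega)
          have hnot : ¬ M.1.Indep (Y : Set (Fin n)) := by
            intro hi
            have h1 : Y ⊆ clo M C := by
              rw [← clo_erase hC1 hc, hF]; exact hYX.trans hX2
            have := card_circ_of_clo hC1 h1 hi
            omega
          obtain ⟨C', hC'Y, hC'⟩ := exists_circ hnot
          refine mem_Low.mpr ⟨hXc, C', hC'Y.trans hYX, hC', ?_⟩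
          have := Finset.card_le_card hC'Y
          omega
    _ ≤ _ := sum_fiber_le _ _ _

/-- the giants are few -/
theorem card_Gi_le {t : ℕ} {M : Mat n} (hM : NoShallow 2 M) :
    (Gi t M).card * (n - t - (rk M - 2)).choose 2 ≤ (KK 2 M).card := by
  classical
  calc (Gi t M).card * (n - t - (rk M - 2)).choose 2
      = ∑ _G ∈ Gi t M, (n - t - (rk M - 2)).choose 2 := by
        rw [Finset.sum_const, smul_eq_mul]
    _ ≤ ∑ G ∈ Gi t M, ((KK 2 M).filter (fun X => clo M X = G)).card := by
        refine Finset.sum_le_sum (fun G hG => ?_)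
        obtain ⟨⟨Z, hZ, hZc, hZG⟩, hGc⟩ := mem_Gi.mp hG
        refine le_trans (Nat.choose_le_choose 2 ?_) (card_span_ge hZG 2 (KK 2 M) ?_)
        · omega
        · intro X hX1 hX2 hX3
          have hXc : X.card = rk M := by omega
          obtain ⟨Y, hYX, hY⟩ := Finset.exists_subset_card_eq (s := X) (n := Z.card + 1)
            (by omega)
          refine mem_KK_of_dep hM hXc hYX (by omega) (fun hi => ?_)
          have h1 : Y ⊆ clo M Z := by rw [hZG]; exact hYX.trans hX2
          have := card_le_of_subset_clo h1 hi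
          omega
    _ ≤ _ := sum_fiber_le _ _ _

/-- the `k`-sets inside a member of `GG` -/
noncomputable def UU (k : ℕ) (GG : Finset (Finset (Fin n))) : Finset (Finset (Fin n)) :=
  univ.filter (fun C => C.card = k ∧ ∃ G ∈ GG, C ⊆ G)

theorem mem_UU {k : ℕ} {GG : Finset (Finset (Fin n))} {C : Finset (Fin n)} :
    C ∈ UU k GG ↔ C.card = k ∧ ∃ G ∈ GG, C ⊆ G := by simp [UU]

theorem Em_subset {a s t : ℕ} (M : Mat n) : Em a s t M ⊆ UU (rk M - 2) (Gi t M) := by
  intro C hC
  obtain ⟨h1, h2⟩ := mem_Em.mp hC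
  obtain ⟨⟨_, h3⟩, _⟩ := mem_thin.mp (mem_NG.mp h1).1
  exact mem_UU.mpr ⟨by omega, h2⟩

theorem card_Em_le {a s t : ℕ} {M : Mat n} :
    (Em a s t M).card * ((n - rk M - a) * s) ≤ 2 * (Low 2 M).card := by
  refine le_trans (Nat.mul_le_mul_right _ (Finset.card_le_card ?_)) (card_NG_le (a := a) (t := s))
  intro C hC
  exact (mem_Em.mp hC).1

/-- the sets inside giants are not much more numerous than the deep nonbases -/
theorem card_UU_le {t : ℕ} {M : Mat n} (hM : NoShallow 2 M) (h2 : 2 ≤ rk M) :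
    (UU (rk M - 2) (Gi t M)).card * (n - t - (rk M - 2)).choose 2 ≤
      (rk M).choose 2 * (KK 2 M).card := by
  classical
  rw [mul_comm ((rk M).choose 2)]
  refine Finset.card_mul_le_card_mul (fun C X => C ⊆ X) ?_ ?_
  · intro C hC
    obtain ⟨hCc, G, hG, hCG⟩ := mem_UU.mp hC
    obtain ⟨⟨Z, hZ, hZc, hZG⟩, hGc⟩ := mem_Gi.mp hG
    have h1 : ((powersetCard 2 (G \ C)).image (fun P => C ∪ P)).card =
        (G.card - C.card).choose 2 := by
      rw [Finset.card_image_of_injOn, Finset.card_powersetCard, Finset.card_sdiff_of_subset hCG]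
      intro P hP Q hQ h
      have hP' := (Finset.mem_powersetCard.mp (Finset.mem_coe.mp hP)).1
      have hQ' := (Finset.mem_powersetCard.mp (Finset.mem_coe.mp hQ)).1
      have h' : C ∪ P = C ∪ Q := h
      ext z
      constructor
      · intro hz
        have : z ∈ C ∪ Q := by rw [← h']; exact Finset.mem_union_right _ hz
        rcases Finset.mem_union.mp this with h2 | h2
        · exact absurd h2 (Finset.mem_sdiff.mp (hP' hz)).2
        · exact h2
      · intro hz
        have : z ∈ C ∪ P := by rw [h']; exact Finset.mem_union_right _ hz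
        rcases Finset.mem_union.mp this with h2 | h2
        · exact absurd h2 (Finset.mem_sdiff.mp (hQ' hz)).2
        · exact h2
    refine le_trans (Nat.choose_le_choose 2 (show n - t - (rk M - 2) ≤ G.card - C.card by omega)) ?_
    rw [← h1]
    refine Finset.card_le_card (fun X hX => ?_)
    obtain ⟨P, hP, rfl⟩ := Finset.mem_image.mp hX
    obtain ⟨hP1, hP2⟩ := Finset.mem_powersetCard.mp hP
    refine Finset.mem_bipartiteAbove _ |>.mpr ⟨?_, Finset.subset_union_left⟩
    have hXc : (C ∪ P).card = rk M := by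
      rw [Finset.card_union_of_disjoint, hP2]
      · omega
      · rw [Finset.disjoint_left]
        intro z hz hz'
        exact (Finset.mem_sdiff.mp (hP1 hz')).2 hz
    obtain ⟨Y, hYX, hY⟩ := Finset.exists_subset_card_eq (s := C ∪ P) (n := Z.card + 1)
      (by omega)
    refine mem_KK_of_dep hM hXc hYX (by omega) (fun hi => ?_)
    have h1 : Y ⊆ clo M Z := by
      rw [hZG]
      exact hYX.trans (Finset.union_subset hCG (hP1.trans Finset.sdiff_subset))
    have := card_le_of_subset_clo h1 hi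
    omega
  · intro X hX
    have hXc : X.card = rk M := (mem_NB.mp (KK_subset 2 M hX)).1
    have h1 : (UU (rk M - 2) (Gi t M)).bipartiteBelow (fun C X => C ⊆ X) X ⊆
        powersetCard (rk M - 2) X := by
      intro C hC
      obtain ⟨h3, h4⟩ := (Finset.mem_bipartiteBelow _).mp hC
      exact Finset.mem_powersetCard.mpr ⟨h4, (mem_UU.mp h3).1⟩
    refine (Finset.card_le_card h1).trans ?_
    rw [Finset.card_powersetCard, hXc, Nat.choose_symm h2]

end H83Pav
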