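import Pool.Agent.H83Pav.SmallS
import Pool.Agent.H83Pav.Numeric

/-!
MP_039b14_co: numerical estimates for small circuits.
-/

namespace H83Pav

open Finset Filter Topology H38Pav H83E

/-- the threshold for very large flats -/
noncomputable def sn (n : ℕ) : ℕ := ⌈1000 * Real.log n⌉₊

/-- the threshold for fat closures -/
noncomputable def an (n : ℕ) : ℕ := ⌊(n : ℝ) ^ (3 / 4 : ℝ)⌋₊

theorem good_of {n a s r : ℕ} (hn : 1000 ≤ n) (ha : 100 * a ≤ n) (hs : 100 * s ≤ n)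
    (hr : r ≤ n) (hmid : 4 * n < 9 * min (n - r) r) : Good n a s r := by
  refine ⟨by omega, by omega, by omega, by omega, ?_, by omega, by omega, ?_⟩
  · set m := n - n / 20 - (r - 2) with hm
    have h1 : r ≤ 2 * (m - 1) := by omega
    have h2 : 2 ≤ m := by omega
    have h3 : r.choose 2 ≤ (2 * (m - 1)).choose 2 := Nat.choose_le_choose 2 h1
    obtain ⟨k, hk⟩ : ∃ k, m = k + 2 := ⟨m - 2, by omega⟩
    rw [hk] at h3 ⊢
    refine h3.trans ?_
    rw [Nat.choose_two_right, Nat.choose_two_right]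
    have h4 : 2 * (k + 2 - 1) * (2 * (k + 2 - 1) - 1) / 2 = (k + 1) * (2 * k + 1) := by
      have : 2 * (k + 2 - 1) * (2 * (k + 2 - 1) - 1) = 2 * ((k + 1) * (2 * k + 1)) := by
        have e1 : k + 2 - 1 = k + 1 := by omega
        have e2 : 2 * (k + 2 - 1) - 1 = 2 * k + 1 := by omega
        rw [e2, e1]; ring
      rw [this, Nat.mul_div_cancel_left _ (by norm_num)]
    rw [h4]
    have h5 : (k + 2) * (k + 2 - 1) = (k + 2) * (k + 1) := by
      congr 1
    rw [h5]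
    have h6 : (k + 2) * (k + 1) ≤ 2 * ((k + 2) * (k + 1) / 2) + 1 := by omega
    nlinarith
  · exact Nat.choose_pos (by omega)

theorem eventually_sn_le : ∀ᶠ n : ℕ in atTop, 100 * sn n ≤ n ∧ (sn n : ℝ) ≤ 1001 * Real.log n ∧
    1000 * Real.log n ≤ sn n := by
  have h1 : ∀ᶠ n : ℕ in atTop, (1 : ℝ) ≤ Real.log n := by
    exact (Real.tendsto_log_atTop.comp (tendsto_natCast_atTop_atTop (R := ℝ))).eventually
      (eventually_ge_atTop (1 : ℝ))
  have h2 : ∀ᶠ n : ℕ in atTop, Real.log n ≤ (1 / 100100 : ℝ) * n := by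
    have h := (Real.isLittleO_log_id_atTop).bound (show (0 : ℝ) < 1 / 100100 by norm_num)
    have h3 := (tendsto_natCast_atTop_atTop (R := ℝ)).eventually h
    filter_upwards [h3, h1] with n hn hn1
    have : ‖Real.log (n : ℝ)‖ ≤ (1 / 100100 : ℝ) * ‖(n : ℝ)‖ := hn
    rw [Real.norm_of_nonneg (by linarith), Real.norm_of_nonneg (by positivity)] at this
    exact this
  filter_upwards [h1, h2] with n h1 h2
  have h3 : (sn n : ℝ) < 1000 * Real.log n + 1 := Nat.ceil_lt_add_one (by positivity)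
  have h4 : (sn n : ℝ) ≤ 1001 * Real.log n := by linarith
  refine ⟨?_, h4, Nat.le_ceil _⟩
  have h5 : (100 : ℝ) * sn n ≤ n := by linarith
  exact_mod_cast h5

theorem eventually_rpow_ge (p : ℝ) (hp : 0 < p) (A : ℝ) :
    ∀ᶠ n : ℕ in atTop, A ≤ (n : ℝ) ^ p :=
  ((tendsto_rpow_atTop hp).comp (tendsto_natCast_atTop_atTop (R := ℝ))).eventually
    (eventually_ge_atTop A)

theorem eventually_an : ∀ᶠ n : ℕ in atTop, 100 * an n ≤ n ∧ n ^ 2 ≤ (an n).choose 3 ∧
    (((n + 1) ^ an n : ℕ) : ℝ) ≤ Real.exp ((n : ℝ) ^ (4 / 5 : ℝ)) := by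
  have h1 := eventually_rpow_ge (1 / 4) (by norm_num) 100
  have h2 := eventually_rpow_ge (3 / 4) (by norm_num) 6
  have h3 : ∀ᶠ n : ℕ in atTop, 2 * Real.log n ≤ (n : ℝ) ^ (1 / 20 : ℝ) := by
    have h := (isLittleO_log_rpow_atTop (show (0 : ℝ) < 1 / 20 by norm_num)).bound
      (show (0 : ℝ) < 1 / 2 by norm_num)
    have h4 := (tendsto_natCast_atTop_atTop (R := ℝ)).eventually h
    filter_upwards [h4, eventually_ge_atTop 1] with n hn hn1
    have hn1' : (1 : ℝ) ≤ n := by exact_mod_cast hn1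
    have h5 : ‖Real.log (n : ℝ)‖ ≤ (1 / 2 : ℝ) * ‖(n : ℝ) ^ (1 / 20 : ℝ)‖ := hn
    rw [Real.norm_of_nonneg (Real.log_nonneg hn1'), Real.norm_of_nonneg (by positivity)] at h5
    linarith
  filter_upwards [h1, h2, h3, eventually_ge_atTop 2] with n h1 h2 h3 hn
  have hn2 : (2 : ℝ) ≤ n := by exact_mod_cast hn
  have hn0 : (0 : ℝ) < n := by linarith
  set x : ℝ := (n : ℝ) ^ (3 / 4 : ℝ) with hx
  have hx4 : x * (n : ℝ) ^ (1 / 4 : ℝ) = n := by
    rw [hx, ← Real.rpow_add hn0]; norm_num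
  have hxn : 100 * x ≤ n := by
    have : x * 100 ≤ x * (n : ℝ) ^ (1 / 4 : ℝ) := mul_le_mul_of_nonneg_left h1 (by positivity)
    linarith
  have ha1 : (an n : ℝ) ≤ x := Nat.floor_le (by positivity)
  have ha2 : x < an n + 1 := Nat.lt_floor_add_one _
  refine ⟨?_, ?_, ?_⟩
  · have h5 : (100 : ℝ) * an n ≤ n := by linarith
    exact_mod_cast h5
  · -- choose 3
    have h5 : (an n + 1 - 3) ^ 3 ≤ (an n).descFactorial 3 := Nat.pow_sub_le_descFactorial _ _
    rw [Nat.descFactorial_eq_factorial_mul_choose] at h5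
    have h6 : (3 : ℕ).factorial = 6 := rfl
    rw [h6] at h5
    have h7 : 6 * n ^ 2 ≤ (an n + 1 - 3) ^ 3 := by
      have h8 : x / 2 ≤ ((an n + 1 - 3 : ℕ) : ℝ) := by
        have h9 : 3 ≤ an n + 1 := by
          have : (3 : ℝ) ≤ (an n : ℝ) + 1 := by linarith
          exact_mod_cast this
        rw [Nat.cast_sub h9]
        push_cast
        linarith
      have h10 : (6 : ℝ) * (n : ℝ) ^ 2 ≤ (x / 2) ^ 3 := by
        have h11 : x ^ 3 = (n : ℝ) ^ 2 * (n : ℝ) ^ (1 / 4 : ℝ) := by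
          rw [hx, ← Real.rpow_natCast, ← Real.rpow_mul hn0.le, ← Real.rpow_natCast,
            ← Real.rpow_add hn0]
          norm_num
        rw [div_pow, h11]
        nlinarith [sq_nonneg (n : ℝ), mul_le_mul_of_nonneg_left h1 (sq_nonneg (n : ℝ))]
      have h12 : (6 : ℝ) * (n : ℝ) ^ 2 ≤ ((an n + 1 - 3 : ℕ) : ℝ) ^ 3 :=
        h10.trans (pow_le_pow_left₀ (by positivity) h8 3)
      exact_mod_cast h12
    omega
  · push_cast
    have hlog : 0 ≤ Real.log n := Real.log_nonneg (by linarith)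
    have h5 : Real.log ((n : ℝ) + 1) ≤ 2 * Real.log n := by
      have h6 : (n : ℝ) + 1 ≤ (n : ℝ) ^ 2 := by nlinarith
      calc Real.log ((n : ℝ) + 1) ≤ Real.log ((n : ℝ) ^ 2) :=
            Real.log_le_log (by linarith) h6
        _ = 2 * Real.log n := by rw [Real.log_pow]; push_cast; ring
    have h7 : ((n : ℝ) + 1) ^ an n = Real.exp (an n * Real.log ((n : ℝ) + 1)) := by
      rw [mul_comm, Real.exp_mul, Real.exp_log (by linarith)]; norm_cast
    rw [h7]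
    apply Real.exp_le_exp.mpr
    have h8 : (n : ℝ) ^ (4 / 5 : ℝ) = x * (n : ℝ) ^ (1 / 20 : ℝ) := by
      rw [hx, ← Real.rpow_add hn0]; norm_num
    rw [h8]
    have hl1 : 0 ≤ Real.log ((n : ℝ) + 1) := Real.log_nonneg (by linarith)
    calc (an n : ℝ) * Real.log ((n : ℝ) + 1) ≤ x * Real.log ((n : ℝ) + 1) :=
          mul_le_mul_of_nonneg_right ha1 hl1
      _ ≤ x * (n : ℝ) ^ (1 / 20 : ℝ) :=
          mul_le_mul_of_nonneg_left (h5.trans h3) (by positivity)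

/-- the weight of a circuit in a large flat -/
theorem eventually_xm : ∀ᶠ n : ℕ in atTop,
    Real.exp (-(Real.log 2 / n * ((n / 3 * sn n : ℕ) : ℝ) / 64)) ≤ Real.log 2 / n / 128 := by
  filter_upwards [eventually_sn_le, eventually_ge_atTop 1000] with n h1 hn
  obtain ⟨_, _, h3⟩ := h1
  have hL1 : (0.69 : ℝ) ≤ Real.log 2 := by have := Real.log_two_gt_d9; linarith
  have hn' : (1000 : ℝ) ≤ n := by exact_mod_cast hn
  have hn0 : (0 : ℝ) < n := by linarith
  have hlog : 0 ≤ Real.log n := Real.log_nonneg (by linarith)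
  have h4 : (n : ℝ) / 4 ≤ ((n / 3 : ℕ) : ℝ) := by
    have : n ≤ 4 * (n / 3) := by omega
    have h5 : (n : ℝ) ≤ 4 * ((n / 3 : ℕ) : ℝ) := by exact_mod_cast this
    linarith
  have h6 : 2 * Real.log n ≤ Real.log 2 / n * ((n / 3 * sn n : ℕ) : ℝ) / 64 := by
    rw [Nat.cast_mul]
    have h7 : (n : ℝ) / 4 * (1000 * Real.log n) ≤ ((n / 3 : ℕ) : ℝ) * (sn n : ℝ) :=
      mul_le_mul h4 h3 (by positivity) (by positivity)
    have h8 : Real.log 2 / n * ((n : ℝ) / 4 * (1000 * Real.log n)) ≤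
        Real.log 2 / n * (((n / 3 : ℕ) : ℝ) * (sn n : ℝ)) :=
      mul_le_mul_of_nonneg_left h7 (by positivity)
    have h9 : Real.log 2 / n * ((n : ℝ) / 4 * (1000 * Real.log n)) =
        250 * Real.log 2 * Real.log n := by field_simp; ring
    rw [h9] at h8
    nlinarith
  calc Real.exp (-(Real.log 2 / n * ((n / 3 * sn n : ℕ) : ℝ) / 64)) ≤
        Real.exp (-(2 * Real.log n)) := Real.exp_le_exp.mpr (by linarith)
    _ = 1 / (n : ℝ) ^ 2 := by
        rw [Real.exp_neg, one_div, mul_comm, Real.exp_mul, Real.exp_log hn0]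
        norm_cast
    _ ≤ Real.log 2 / n / 128 := by
        rw [div_div, div_le_div_iff₀ (by positivity) (by positivity)]
        nlinarith [mul_pos hn0 hn0]

/-- the four kinds of codes -/
theorem eventually_xi (g : ℕ → ℕ)
    (hg : ∀ A : ℝ, ∀ᶠ n : ℕ in atTop, A * Real.log n ≤ (g n : ℝ) ^ 2) :
    ∀ᶠ n : ℕ in atTop, ∀ g' : ℕ, g n ≤ g' → 20000 * g' ≤ n →
      ∀ b : ℝ, (b = Real.log 2 / n * ((n / 3 * (g' * g') : ℕ) : ℝ) / 384 ∨
        b = Real.log 2 / n * ((n / 3).choose 2 : ℝ) / 32 ∨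
        b = Real.log 2 / n * ((an n).choose 3 : ℝ) / 32 ∨
        b = Real.log 2 / n * ((n / 3 * (n / 20) : ℕ) : ℝ) / 64) →
        6 * Real.log n + 3 * Real.log 2 * g' ≤ b := by
  have e1 := hg 40000
  have e2 : ∀ᶠ n : ℕ in atTop, (1 : ℝ) * 40000 ^ 2 ≤ 40000 * Real.log n := by
    have h := (Real.tendsto_log_atTop.comp (tendsto_natCast_atTop_atTop (R := ℝ))).eventually
      (eventually_ge_atTop (40000 : ℝ))
    filter_upwards [h] with n hn
    have hn' : (40000 : ℝ) ≤ Real.log n := hn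
    nlinarith
  have e3 : ∀ᶠ n : ℕ in atTop, Real.log n ≤ (1 / 1000000 : ℝ) * n := by
    have h := (Real.isLittleO_log_id_atTop).bound (show (0 : ℝ) < 1 / 1000000 by norm_num)
    have h3 := (tendsto_natCast_atTop_atTop (R := ℝ)).eventually h
    filter_upwards [h3, eventually_ge_atTop 1] with n hn hn1
    have hn1' : (1 : ℝ) ≤ n := by exact_mod_cast hn1
    have : ‖Real.log (n : ℝ)‖ ≤ (1 / 1000000 : ℝ) * ‖(n : ℝ)‖ := hn
    rw [Real.norm_of_nonneg (Real.log_nonneg hn1'), Real.norm_of_nonneg (by positivity)] at this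
    exact this
  filter_upwards [e1, e2, e3, eventually_an, eventually_ge_atTop 100000]
    with n h1 h2 h3 h4 hn g' hg' hg20 b hb
  obtain ⟨_, han, _⟩ := h4
  have hL1 : (0.69 : ℝ) ≤ Real.log 2 := by have := Real.log_two_gt_d9; linarith
  have hL2 : Real.log 2 ≤ 0.7 := by have := Real.log_two_lt_d9; linarith
  have hL := log2_pos
  have hn' : (100000 : ℝ) ≤ n := by exact_mod_cast hn
  have hn0 : (0 : ℝ) < n := by linarith
  have hlog : 0 ≤ Real.log n := Real.log_nonneg (by linarith)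
  have hgn : (20000 : ℝ) * g' ≤ n := by exact_mod_cast hg20
  have hg0 : (0 : ℝ) ≤ g' := by positivity
  have hsq : (g n : ℝ) ^ 2 ≤ (g' : ℝ) ^ 2 :=
    pow_le_pow_left₀ (by positivity) (by exact_mod_cast hg') 2
  have hbig : (40000 : ℝ) ≤ g' := by
    have h5 : (40000 : ℝ) ^ 2 ≤ (g' : ℝ) ^ 2 := by linarith
    exact le_of_sq_le_sq h5 (by positivity)
  have h3n : (0.33 : ℝ) * n ≤ ((n / 3 : ℕ) : ℝ) := by
    have : 33 * n ≤ 100 * (n / 3) := by omega
    have h5 : (33 : ℝ) * n ≤ 100 * ((n / 3 : ℕ) : ℝ) := by exact_mod_cast this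
    linarith
  have h20n : (0.0499 : ℝ) * n ≤ ((n / 20 : ℕ) : ℝ) := by
    have : 499 * n ≤ 10000 * (n / 20) := by omega
    have h5 : (499 : ℝ) * n ≤ 10000 * ((n / 20 : ℕ) : ℝ) := by exact_mod_cast this
    linarith
  have hthresh : 6 * Real.log n + 3 * Real.log 2 * g' ≤ Real.log 2 * n / 5000 := by
    have h5 : 3 * Real.log 2 * g' ≤ Real.log 2 * (3 * n / 20000) := by nlinarith
    nlinarith
  rcases hb with rfl | rfl | rfl | rfl
  · rw [Nat.cast_mul, Nat.cast_mul]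
    have h5 : Real.log 2 / n * (0.33 * n * ((g' : ℝ) * g')) / 384 ≤
        Real.log 2 / n * (((n / 3 : ℕ) : ℝ) * ((g' : ℝ) * g')) / 384 := by
      gcongr
    refine le_trans ?_ h5
    have h6 : Real.log 2 / n * (0.33 * n * ((g' : ℝ) * g')) / 384 =
        Real.log 2 * (g' : ℝ) ^ 2 * (0.33 / 384) := by field_simp
    rw [h6]
    have h7 : 40000 * Real.log n ≤ (g' : ℝ) ^ 2 := h1.trans hsq
    have h8 : 40000 * (g' : ℝ) ≤ (g' : ℝ) ^ 2 := by nlinarith
    have h9 : Real.log 2 * (40000 * (g' : ℝ)) ≤ Real.log 2 * (g' : ℝ) ^ 2 :=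
      mul_le_mul_of_nonneg_left h8 hL.le
    have h10 : 0.69 * (40000 * Real.log n) ≤ Real.log 2 * (g' : ℝ) ^ 2 :=
      mul_le_mul hL1 h7 (by positivity) hL.le
    nlinarith
  · refine hthresh.trans ?_
    have h5 : (n : ℝ) ^ 2 / 20 ≤ ((n / 3).choose 2 : ℝ) := by
      have h6 : ((n / 3) - 1) ^ 2 ≤ 2 * (n / 3).choose 2 := by
        have h7 := Nat.pow_sub_le_descFactorial (n / 3) 2
        rw [Nat.descFactorial_eq_factorial_mul_choose] at h7
        have h8 : (2 : ℕ).factorial = 2 := rfl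
        rw [h8] at h7
        have h9 : n / 3 + 1 - 2 = n / 3 - 1 := by omega
        rwa [h9] at h7
      have h7 : (0.329 : ℝ) * n ≤ ((n / 3 - 1 : ℕ) : ℝ) := by
        have : 329 * n ≤ 1000 * (n / 3 - 1) := by omega
        have h8 : (329 : ℝ) * n ≤ 1000 * ((n / 3 - 1 : ℕ) : ℝ) := by exact_mod_cast this
        linarith
      have h8 : (((n / 3 - 1 : ℕ) : ℝ)) ^ 2 ≤ 2 * ((n / 3).choose 2 : ℝ) := by exact_mod_cast h6
      have h9 : ((0.329 : ℝ) * n) ^ 2 ≤ (((n / 3 - 1 : ℕ) : ℝ)) ^ 2 :=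
        pow_le_pow_left₀ (by positivity) h7 2
      nlinarith [sq_nonneg (n : ℝ)]
    have h6 : Real.log 2 / n * ((n : ℝ) ^ 2 / 20) / 32 ≤
        Real.log 2 / n * ((n / 3).choose 2 : ℝ) / 32 := by gcongr
    refine le_trans ?_ h6
    have h7 : Real.log 2 / n * ((n : ℝ) ^ 2 / 20) / 32 = Real.log 2 * n / 640 := by
      field_simp; ring
    rw [h7]
    have := mul_pos hL hn0
    linarith
  · refine hthresh.trans ?_
    have h5 : (n : ℝ) ^ 2 ≤ ((an n).choose 3 : ℝ) := by exact_mod_cast han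
    have h6 : Real.log 2 / n * ((n : ℝ) ^ 2) / 32 ≤
        Real.log 2 / n * ((an n).choose 3 : ℝ) / 32 := by gcongr
    refine le_trans ?_ h6
    have h7 : Real.log 2 / n * ((n : ℝ) ^ 2) / 32 = Real.log 2 * n / 32 := by
      field_simp
    rw [h7]
    have := mul_pos hL hn0
    linarith
  · refine hthresh.trans ?_
    rw [Nat.cast_mul]
    have h5 : (0.33 * (n : ℝ)) * (0.0499 * n) ≤ ((n / 3 : ℕ) : ℝ) * ((n / 20 : ℕ) : ℝ) :=
      mul_le_mul h3n h20n (by positivity) (by positivity)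
    have h6 : Real.log 2 / n * ((0.33 * (n : ℝ)) * (0.0499 * n)) / 64 ≤
        Real.log 2 / n * (((n / 3 : ℕ) : ℝ) * ((n / 20 : ℕ) : ℝ)) / 64 := by gcongr
    refine le_trans ?_ h6
    have h7 : Real.log 2 / n * ((0.33 * (n : ℝ)) * (0.0499 * n)) / 64 =
        Real.log 2 * n * (0.33 * 0.0499 / 64) := by
      field_simp
    rw [h7]
    have := mul_pos hL hn0
    nlinarith

/-- the final numerical bound for small circuits -/
theorem eventually_numS (g : ℕ → ℕ)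
    (hg : ∀ A : ℝ, ∀ᶠ n : ℕ in atTop, A * Real.log n ≤ (g n : ℝ) ^ 2) :
    ∀ᶠ n : ℕ in atTop, ∀ g' r : ℕ, g n ≤ g' → 20000 * g' ≤ n → r ≤ n →
      4 * n < 9 * min (n - r) r → 2 ^ n ≤ n ^ 3 * n.choose r →
      -(Real.log 2 / n * ((n.choose r / 8 ^ g' : ℕ) : ℝ) / 2) +
      2 * (2 ^ n * (n + 1) *
        (Real.exp (-(Real.log 2 / n * ((n / 3 * (g' * g') : ℕ) : ℝ) / 384)) +
        Real.exp (-(Real.log 2 / n * ((n / 3).choose 2 : ℝ) / 32)) +
        Real.exp (-(Real.log 2 / n * ((an n).choose 3 : ℝ) / 32)) +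
        Real.exp (-(Real.log 2 / n * ((n / 3 * (n / 20) : ℕ) : ℝ) / 64)))) ≤
        -((n : ℝ) ^ 2) := by
  have e3 := eventually_pow_le 6 32 (3 / 2) (by norm_num) (by norm_num)
  have e4 := eventually_pow_le 3 4 (3 / 2) (by norm_num) (by norm_num)
  filter_upwards [eventually_xi g hg, e3, e4, eventually_ge_atTop 1000]
    with n hxi h3 h4 hn g' r hg' hg20 hr hmid hch
  have hL := log2_pos
  have hL1 : (0.69 : ℝ) ≤ Real.log 2 := by have := Real.log_two_gt_d9; linarith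
  have hn' : (1000 : ℝ) ≤ n := by exact_mod_cast hn
  have hn0 : (0 : ℝ) < n := by linarith
  -- eight powers
  have h8 : ((8 : ℝ)) ^ g' ≤ (4 / 3) ^ n := by
    have a1 : ((8 : ℝ)) ^ (20 * g') ≤ 8 ^ n := pow_le_pow_right₀ (by norm_num) (by omega)
    have a2 : ((8 : ℝ)) ^ n ≤ ((4 / 3) ^ n) ^ 20 := by
      rw [← pow_mul, mul_comm n 20, pow_mul]
      exact pow_le_pow_left₀ (by norm_num) (by norm_num) n
    have a3 : ((8 : ℝ) ^ g') ^ 20 ≤ ((4 / 3) ^ n) ^ 20 := by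
      rw [← pow_mul, mul_comm g' 20]; exact a1.trans a2
    exact le_of_pow_le_pow_left₀ (by norm_num) (by positivity) a3
  set N : ℝ := (n.choose r : ℝ) with hN
  set q : ℕ := n.choose r / 8 ^ g' with hq
  have hch' : (2 : ℝ) ^ n ≤ (n : ℝ) ^ 3 * N := by rw [hN]; exact_mod_cast hch
  have hNq : N / 8 ^ g' ≤ q + 1 := by
    have a1 : n.choose r < (q + 1) * 8 ^ g' := by
      have := Nat.lt_mul_div_succ (n.choose r) (b := 8 ^ g') (by positivity)
      rw [hq]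
      calc n.choose r < 8 ^ g' * (n.choose r / 8 ^ g' + 1) := this
        _ = _ := by ring
    rw [div_le_iff₀ (by positivity), hN]
    have a2 : (n.choose r : ℝ) < ((q : ℝ) + 1) * 8 ^ g' := by exact_mod_cast a1
    exact a2.le
  have h9 : (3 / 2 : ℝ) ^ n ≤ (n : ℝ) ^ 3 * (N / 8 ^ g') := by
    have a1 : (2 : ℝ) ^ n = (3 / 2) ^ n * (4 / 3) ^ n := by rw [← mul_pow]; norm_num
    have a2 : (3 / 2 : ℝ) ^ n * 8 ^ g' ≤ (n : ℝ) ^ 3 * N := by
      calc (3 / 2 : ℝ) ^ n * 8 ^ g' ≤ (3 / 2) ^ n * (4 / 3) ^ n :=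
            mul_le_mul_of_nonneg_left h8 (by positivity)
        _ = 2 ^ n := a1.symm
        _ ≤ _ := hch'
    rw [mul_div_assoc', le_div_iff₀ (by positivity)]
    exact a2
  have h10 : (2 : ℝ) ≤ N / 8 ^ g' := by
    have a1 : (n : ℝ) ^ 3 * 4 ≤ (n : ℝ) ^ 3 * (N / 8 ^ g') := by linarith [h4, h9]
    have := le_of_mul_le_mul_left a1 (by positivity)
    linarith
  have h11 : N / 8 ^ g' / 2 ≤ q := by linarith
  have hq3 : 16 * (n : ℝ) ^ 3 ≤ q := by
    have a1 : (3 / 2 : ℝ) ^ n ≤ (n : ℝ) ^ 3 * (2 * q) :=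
      h9.trans (mul_le_mul_of_nonneg_left (by linarith) (by positivity))
    have a2 : 32 * (n : ℝ) ^ 6 ≤ (n : ℝ) ^ 3 * (2 * q) := h3.trans a1
    have b1 : (n : ℝ) ^ 3 * (32 * (n : ℝ) ^ 3) ≤ (n : ℝ) ^ 3 * (2 * q) := by
      calc (n : ℝ) ^ 3 * (32 * (n : ℝ) ^ 3) = 32 * (n : ℝ) ^ 6 := by ring
        _ ≤ _ := a2
    have := le_of_mul_le_mul_left b1 (by positivity)
    linarith
  have hq0 : (0 : ℝ) ≤ q := by positivity
  -- each kind
  have hkind : ∀ b : ℝ, 6 * Real.log n + 3 * Real.log 2 * g' ≤ b →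
      2 * (2 ^ n * (n + 1) * Real.exp (-b)) ≤ Real.log 2 / n * q / 32 := by
    intro b hb
    have h8e : (8 : ℝ) ^ g' = Real.exp (3 * Real.log 2 * g') := by
      have : Real.exp (3 * Real.log 2 * g') = (Real.exp (Real.log 2)) ^ (3 * g') := by
        rw [← Real.exp_nat_mul]; push_cast; ring_nf
      rw [this, Real.exp_log (by norm_num), pow_mul]; norm_num
    have hn6 : (n : ℝ) ^ 6 = Real.exp (6 * Real.log n) := by
      rw [mul_comm, Real.exp_mul, Real.exp_log hn0]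
      norm_cast
    have h13 : (n : ℝ) ^ 6 * (Real.exp (-b) * 8 ^ g') ≤ 1 := by
      rw [h8e, hn6, ← Real.exp_add, ← Real.exp_add, Real.exp_le_one_iff]
      linarith
    have a1 : (2 : ℝ) ^ n ≤ (n : ℝ) ^ 3 * (2 * q * 8 ^ g') := by
      have b1 : N ≤ 2 * q * 8 ^ g' := by
        have := (div_le_iff₀ (by positivity : (0 : ℝ) < 8 ^ g')).mp
          (show N / 8 ^ g' ≤ 2 * q by linarith)
        exact this
      exact hch'.trans (mul_le_mul_of_nonneg_left b1 (by positivity))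
    have a2 : (n : ℝ) + 1 ≤ 2 * n := by linarith
    have a3 : 2 * ((2 : ℝ) ^ n * (n + 1) * Real.exp (-b)) ≤
        8 * q * ((n : ℝ) ^ 4 * (Real.exp (-b) * 8 ^ g')) := by
      calc 2 * ((2 : ℝ) ^ n * (n + 1) * Real.exp (-b)) ≤
            2 * (((n : ℝ) ^ 3 * (2 * q * 8 ^ g')) * (2 * n) * Real.exp (-b)) := by gcongr
        _ = _ := by ring
    have a4 : (n : ℝ) ^ 4 * (Real.exp (-b) * 8 ^ g') ≤ 1 / (n : ℝ) ^ 2 := by
      rw [le_div_iff₀ (by positivity)]
      calc (n : ℝ) ^ 4 * (Real.exp (-b) * 8 ^ g') * (n : ℝ) ^ 2 =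
            (n : ℝ) ^ 6 * (Real.exp (-b) * 8 ^ g') := by ring
        _ ≤ 1 := h13
    calc 2 * ((2 : ℝ) ^ n * (n + 1) * Real.exp (-b)) ≤
          8 * q * ((n : ℝ) ^ 4 * (Real.exp (-b) * 8 ^ g')) := a3
      _ ≤ 8 * q * (1 / (n : ℝ) ^ 2) := mul_le_mul_of_nonneg_left a4 (by positivity)
      _ ≤ Real.log 2 / n * q / 32 := by
          have a5 : 8 * (1 / (n : ℝ) ^ 2) ≤ Real.log 2 / n / 32 := by
            rw [mul_one_div, div_div, div_le_div_iff₀ (by positivity) (by positivity)]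
            nlinarith [mul_pos hn0 hn0]
          calc 8 * (q : ℝ) * (1 / (n : ℝ) ^ 2) = (8 * (1 / (n : ℝ) ^ 2)) * q := by ring
            _ ≤ (Real.log 2 / n / 32) * q := mul_le_mul_of_nonneg_right a5 hq0
            _ = _ := by ring
  have k1 := hkind _ (hxi g' hg' hg20 _ (Or.inl rfl))
  have k2 := hkind _ (hxi g' hg' hg20 _ (Or.inr (Or.inl rfl)))
  have k3 := hkind _ (hxi g' hg' hg20 _ (Or.inr (Or.inr (Or.inl rfl))))
  have k4 := hkind _ (hxi g' hg' hg20 _ (Or.inr (Or.inr (Or.inr rfl))))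
  have h15 : (n : ℝ) ^ 2 ≤ Real.log 2 / n * q * (3 / 8) := by
    have a1 : Real.log 2 / n * (16 * (n : ℝ) ^ 3) ≤ Real.log 2 / n * q :=
      mul_le_mul_of_nonneg_left hq3 (by positivity)
    have a2 : Real.log 2 / n * (16 * (n : ℝ) ^ 3) = 16 * Real.log 2 * (n : ℝ) ^ 2 := by
      field_simp
    rw [a2] at a1
    nlinarith [sq_nonneg (n : ℝ)]
  have hsplit : 2 * (2 ^ n * ((n : ℝ) + 1) *
        (Real.exp (-(Real.log 2 / n * ((n / 3 * (g' * g') : ℕ) : ℝ) / 384)) +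
        Real.exp (-(Real.log 2 / n * ((n / 3).choose 2 : ℝ) / 32)) +
        Real.exp (-(Real.log 2 / n * ((an n).choose 3 : ℝ) / 32)) +
        Real.exp (-(Real.log 2 / n * ((n / 3 * (n / 20) : ℕ) : ℝ) / 64)))) ≤
        Real.log 2 / n * q / 8 := by
    linarith
  linarith

end H83Pav
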