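import Pool.Agent.H83Pav.Iff

/-!
MP_039b14_co: the final statement, given the two remaining modules.
-/

namespace H83Pav

open Finset Filter Topology H38Pav

theorem final_of (hE : ∀ᶠ n : ℕ in atTop, ECount 1001 n) (hL : ∀ᶠ n : ℕ in atTop, LBound n)
    (g : ℕ → ℕ) (hg : ∀ A : ℝ, ∀ᶠ n : ℕ in atTop, A * Real.log n ≤ (g n : ℝ) ^ 2)
    (hg4 : ∀ᶠ n : ℕ in atTop, 4 * g n ≤ n) :
    Tendsto (fun n : ℕ => (Nat.card {c : Cls n // CleanMG (g n) c} : ℝ) / Nat.card (Cls n))
      atTop (𝓝 0) ∧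
    (Tendsto (fun n : ℕ => (Nat.card {c : Cls n // c.HasMG} : ℝ) / Nat.card (Cls n))
      atTop (𝓝 0) ↔
    Tendsto (fun n : ℕ => (Nat.card {c : Cls n // Shallow (g n) c} : ℝ) / Nat.card (Cls n))
      atTop (𝓝 0)) := by
  have e1 : ∀ (P : ∀ n, Cls n → Prop), (fun n : ℕ => (Nat.card {c : Cls n // P n c} : ℝ) /
      Nat.card (Cls n)) = fun n : ℕ => (cntP n (P n) : ℝ) / cntP n (fun _ => True) := by
    intro P
    funext n
    rw [cntP_eq, cntP_true]
  constructor
  · rw [e1 (fun n => CleanMG (g n))]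
    have h := tendsto_mainII hE hL g hg
    refine tendsto_of_tendsto_of_tendsto_of_le_of_le' tendsto_const_nhds h
      (Eventually.of_forall (fun n => by positivity)) (Eventually.of_forall (fun n => ?_))
    refine div_le_div_of_nonneg_right ?_ (by positivity)
    exact_mod_cast cntP_mono (fun c hc => PPd_of_CleanMG hc)
  · rw [e1 (fun n => Cls.HasMG), e1 (fun n => Shallow (g n))]
    exact iff_of_main g hg4 (tendsto_mainII hE hL g hg)

end H83Pav
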