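import Pool.Agent.H83Pav.RegLB

/-!
MP_039b14_co, large circuits: invariance under relabelling.
-/

namespace H83L

open Finset H38Pav H83Pav

variable {n : ℕ}

theorem dual_act (s : Equiv.Perm (Fin n)) (M : Mat n) : dual (act s M) = act s (dual M) := by
  apply Subtype.ext
  show (M.1.mapEquiv s)✶ = (M.1✶).mapEquiv s
  rw [Matroid.mapEquiv_eq_map, Matroid.mapEquiv_eq_map, Matroid.map_dual]

theorem indep_act (s : Equiv.Perm (Fin n)) (M : Mat n) (X : Finset (Fin n)) :
    (act s M).1.Indep ((X.image s : Finset (Fin n)) : Set (Fin n)) ↔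
      M.1.Indep (X : Set (Fin n)) := by
  show (M.1.mapEquiv s).Indep _ ↔ _
  rw [Matroid.mapEquiv_indep_iff, Finset.coe_image, ← Set.image_comp]
  simp

theorem circ_iff {M : Mat n} {C : Finset (Fin n)} : Circ M C ↔
    ¬ M.1.Indep (C : Set (Fin n)) ∧ ∀ e ∈ C, M.1.Indep ((C.erase e : Finset (Fin n)) :
      Set (Fin n)) := by
  unfold Circ
  rw [Matroid.isCircuit_iff_dep_forall_sdiff_singleton_indep]
  refine and_congr ?_ ?_
  · rw [← Matroid.not_indep_iff (by rw [M.2]; exact Set.subset_univ _)]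
  · refine forall_congr' (fun e => ?_)
    rw [Finset.mem_coe, Finset.coe_erase]

theorem image_erase' (s : Equiv.Perm (Fin n)) (C : Finset (Fin n)) (e : Fin n) :
    (C.image s).erase (s e) = (C.erase e).image s :=
  (Finset.image_erase s.injective C e).symm

theorem Circ_act (s : Equiv.Perm (Fin n)) (M : Mat n) (C : Finset (Fin n)) :
    Circ (act s M) (C.image s) ↔ Circ M C := by
  rw [circ_iff, circ_iff, indep_act]
  refine and_congr_right (fun _ => ?_)
  constructor
  · intro h e he
    have h1 := h (s e) (Finset.mem_image_of_mem _ he)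
    rwa [image_erase', indep_act] at h1
  · intro h e he
    obtain ⟨x, hx, rfl⟩ := Finset.mem_image.mp he
    rw [image_erase', indep_act]
    exact h x hx

theorem clo_act (s : Equiv.Perm (Fin n)) (M : Mat n) (C : Finset (Fin n)) :
    clo (act s M) (C.image s) = (clo M C).image s := by
  apply Finset.coe_injective
  simp only [coe_clo, Finset.coe_image]
  show (M.1.mapEquiv s).closure _ = _
  rw [Matroid.mapEquiv_eq_map, Matroid.map_closure_eq, Set.preimage_image_eq _ s.injective]

theorem card_img (s : Equiv.Perm (Fin n)) (C : Finset (Fin n)) : (C.image s).card = C.card :=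
  Finset.card_image_of_injective _ s.injective

theorem img_subset (s : Equiv.Perm (Fin n)) {C X : Finset (Fin n)} :
    C.image s ⊆ X.image s ↔ C ⊆ X :=
  Finset.image_subset_image_iff s.injective

theorem compl_img (s : Equiv.Perm (Fin n)) (X : Finset (Fin n)) :
    (X.image s)ᶜ = (Xᶜ).image s := by
  ext z
  obtain ⟨y, rfl⟩ := s.surjective z
  rw [Finset.mem_compl, Finset.mem_image, Finset.mem_image]
  constructor
  · intro h
    exact ⟨y, Finset.mem_compl.mpr (fun hy => h ⟨y, hy, rfl⟩), rfl⟩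
  · rintro ⟨x, hx, hxy⟩ ⟨x', hx', hxy'⟩
    have h1 := s.injective hxy
    have h2 := s.injective hxy'
    subst h1; subst h2
    exact Finset.mem_compl.mp hx hx'

theorem Low_act {d : ℕ} (s : Equiv.Perm (Fin n)) (M : Mat n) (X : Finset (Fin n)) :
    X.image s ∈ Low d (act s M) ↔ X ∈ Low d M := by
  rw [mem_Low, mem_Low, rk_act, card_img]
  refine and_congr_right (fun _ => ?_)
  constructor
  · rintro ⟨C', h1, h2, h3⟩
    obtain ⟨C, rfl⟩ := exists_image s C'
    exact ⟨C, (img_subset s).mp h1, (Circ_act s M C).mp h2, by rwa [card_img] at h3⟩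
  · rintro ⟨C, h1, h2, h3⟩
    exact ⟨C.image s, (img_subset s).mpr h1, (Circ_act s M C).mpr h2, by rwa [card_img]⟩

theorem mem_KK_act {d : ℕ} (s : Equiv.Perm (Fin n)) (M : Mat n) (X : Finset (Fin n)) :
    X.image s ∈ KK d (act s M) ↔ X ∈ KK d M := by
  rw [mem_KK, mem_KK, Low_act, compl_img, dual_act, Low_act]

theorem KK_act {d : ℕ} (s : Equiv.Perm (Fin n)) (M : Mat n) :
    KK d (act s M) = sh s (KK d M) := by
  ext Y
  obtain ⟨X, rfl⟩ := exists_image s Y
  rw [mem_sh, mem_KK_act]

theorem KK_act_nonempty {d : ℕ} (s : Equiv.Perm (Fin n)) (M : Mat n) :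
    (KK d (act s M)).Nonempty ↔ (KK d M).Nonempty := by
  rw [← Finset.card_pos, ← Finset.card_pos, KK_act, card_sh]

theorem NoShallow_act {d : ℕ} (s : Equiv.Perm (Fin n)) {M : Mat n} (h : NoShallow d M) :
    NoShallow d (act s M) := by
  intro Y hY
  obtain ⟨X, rfl⟩ := exists_image s Y
  rw [NB_act, mem_sh] at hY
  rw [mem_KK_act, Circ_act, compl_img, dual_act, Circ_act]
  exact h X hY

theorem Wide_act {g : ℕ} (s : Equiv.Perm (Fin n)) {M : Mat n} (h : Wide g M) :
    Wide g (act s M) := by
  intro Y hY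
  obtain ⟨X, rfl⟩ := exists_image s Y
  rw [dual_act, Circ_act, Circ_act] at hY
  rw [card_img]
  exact h X hY

theorem RegHyp_act (s : Equiv.Perm (Fin n)) {M : Mat n} (h : RegHyp M) : RegHyp (act s M) :=
  ⟨by rw [rk_act]; exact h.mid, Wide_act s h.wide, h.big⟩

theorem mem_small_act {d : ℕ} (s : Equiv.Perm (Fin n)) (M : Mat n) (C : Finset (Fin n)) :
    C.image s ∈ small d (act s M) ↔ C ∈ small d M := by
  rw [mem_small, mem_small, Circ_act, card_img, rk_act]

theorem FF_act (d : ℕ) (s : Equiv.Perm (Fin n)) (M : Mat n) :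
    FF d (act s M) = (FF d M).image (fun p => (p.1.image s, p.2)) := by
  ext ⟨Y, k⟩
  rw [mem_FF, Finset.mem_image]
  constructor
  · rintro ⟨C', h1, h2⟩
    obtain ⟨C, rfl⟩ := exists_image s C'
    rw [mem_small_act] at h1
    rw [clo_act, card_img] at h2
    exact ⟨(clo M C, C.card), mem_FF.mpr ⟨C, h1, rfl⟩, h2⟩
  · rintro ⟨p, hp, h2⟩
    obtain ⟨C, hC, rfl⟩ := mem_FF.mp hp
    refine ⟨C.image s, (mem_small_act s M C).mpr hC, ?_⟩
    rw [clo_act, card_img]
    exact h2

theorem card_FF_act (d : ℕ) (s : Equiv.Perm (Fin n)) (M : Mat n) :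
    (FF d (act s M)).card = (FF d M).card := by
  rw [FF_act, Finset.card_image_of_injective]
  intro p q h
  have h1 := congrArg Prod.fst h
  have h2 := congrArg Prod.snd h
  exact Prod.ext (image_perm_injective s h1) h2

theorem mem_midc_act (s : Equiv.Perm (Fin n)) (M : Mat n) (C : Finset (Fin n)) :
    C.image s ∈ midc (act s M) ↔ C ∈ midc M := by
  rw [mem_midc, mem_midc, Circ_act, card_img, rk_act]

theorem hX_act (s : Equiv.Perm (Fin n)) (M : Mat n) (C : Finset (Fin n)) :
    hX (act s M) (C.image s) = sh s (hX M C) := by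
  ext Y
  obtain ⟨X, rfl⟩ := exists_image s Y
  rw [mem_sh, mem_hX, mem_hX, card_img, rk_act, img_subset, clo_act, card_img]
  refine and_congr_right (fun _ => and_congr_right (fun _ => and_congr_left (fun _ => ?_)))
  constructor
  · intro h C' h1 h2
    have h3 := h (C'.image s) ((img_subset s).mpr h1) ((Circ_act s M C').mpr h2)
    exact image_perm_injective s h3
  · intro h C'' h1 h2
    obtain ⟨C', rfl⟩ := exists_image s C''
    rw [h C' ((img_subset s).mp h1) ((Circ_act s M C').mp h2)]

theorem mem_HH_act (s : Equiv.Perm (Fin n)) (M : Mat n) (C : Finset (Fin n)) :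
    C.image s ∈ HH (act s M) ↔ C ∈ HH M := by
  rw [mem_HH, mem_HH, mem_midc_act, hX_act, card_sh]

theorem HH_act (s : Equiv.Perm (Fin n)) (M : Mat n) : HH (act s M) = sh s (HH M) := by
  ext Y
  obtain ⟨X, rfl⟩ := exists_image s Y
  rw [mem_sh, mem_HH_act]

theorem card_HH_act (s : Equiv.Perm (Fin n)) (M : Mat n) :
    (HH (act s M)).card = (HH M).card := by
  rw [HH_act, card_sh]

theorem card_FF_dual_act (d : ℕ) (s : Equiv.Perm (Fin n)) (M : Mat n) :
    (FF d (dual (act s M))).card = (FF d (dual M)).card := by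
  rw [dual_act, card_FF_act]

theorem card_HH_dual_act (s : Equiv.Perm (Fin n)) (M : Mat n) :
    (HH (dual (act s M))).card = (HH (dual M)).card := by
  rw [dual_act, card_HH_act]

end H83L
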