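import Pool.Agent.H83Pav.RegLEnd
import Pool.Agent.H83Pav.RegLI

/-!
MP_039b14_co: the large-circuit regime.
-/

namespace H83L

open Finset Filter Topology H38Pav H83Pav

/-- the matroids of the large-circuit regime -/
def PL (n r : ℕ) (M : Mat n) : Prop :=
  rk M = r ∧ NoShallow 2 M ∧ Wide (n / 20000) M ∧ (KK 2 M).Nonempty

theorem regData : ∀ᶠ n : ℕ in atTop, ∀ r ≤ n, 4 * n < 9 * min (n - r) r →
    2 ^ n ≤ n ^ 3 * n.choose r → RegData n r Q0 (PL n r) (fun M => HH M) := by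
  filter_upwards [eventually_ge_atTop (4 * Q0)] with n hn r hr hmid _
  have hreg : ∀ M, PL n r M → RegHyp M := fun M hM =>
    ⟨by rw [hM.1]; exact hmid, hM.2.2.1, hn⟩
  refine ⟨fun M hM => hM, fun M s hM => ?_, fun M N hM hN => ?_, fun M hM => ?_, fun M hM => ?_⟩
  · exact ⟨by rw [rk_act]; exact hM.1, NoShallow_act s hM.2.1, Wide_act s hM.2.2.1,
      KK_act_nonempty s M |>.mpr hM.2.2.2⟩
  · exact KK_eq_of_regcodes (hreg M hM) (hreg N hN) (hM.1.trans hN.1.symm)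
  · exact KK_empty_of_regcodes (hreg M hM)
  · obtain ⟨W, h1, h2, h3⟩ := exists_WW M
    refine ⟨W, h1, h2, fun X hX S hS hadj => ?_⟩
    refine (Finset.card_le_card (fun Y hY => ?_)).trans (h3 X hX)
    exact Finset.mem_filter.mpr ⟨hS hY, by rw [hM.1]; exact hadj Y hY⟩

/-- **the large-circuit regime** -/
theorem eventually_regL : ∀ᶠ n : ℕ in atTop, ∀ r ≤ n, 4 * n < 9 * min (n - r) r →
    2 ^ n ≤ n ^ 3 * n.choose r →
    (cntP n (fun c => c.rk = r ∧ ∃ M : Mat n, cls M = c ∧ NoShallow 2 M ∧ Wide (n / 20000) M ∧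
      (KK 2 M).Nonempty) : ℝ) ≤
      cntP n (fun c => c.rk = r) / n + 2 ^ (2 ^ n / n ^ 10) := by
  filter_upwards [eventually_regL_of Q0 (by norm_num [Q0]) (fun n r => PL n r)
    (fun n M => HH M) regData] with n h r hr hmid hch
  refine le_trans ?_ (h r hr hmid hch)
  have h1 : cntP n (fun c => c.rk = r ∧ ∃ M : Mat n, cls M = c ∧ NoShallow 2 M ∧
      Wide (n / 20000) M ∧ (KK 2 M).Nonempty) ≤
      cntP n (fun c => ∃ M : Mat n, cls M = c ∧ PL n r M) := by
    refine cntP_mono ?_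
    rintro c ⟨hc, M, hM, h1, h2, h3⟩
    exact ⟨M, hM, by rw [← rk_cls, hM]; exact hc, h1, h2, h3⟩
  exact_mod_cast h1

end H83L
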