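import Pool.Agent.H83Pav.Sum

/-!
MP_039b14_co, large circuits: the circuits of size `r - 2` and the decoding of the nonbases.
-/

namespace H83L

open Finset H38Pav H83Pav

variable {n : ℕ}

/-- the constant of the heavy circuits -/
def Q0 : ℕ := 10 ^ 11

open Classical in
/-- the circuits of size `r(M) - 2` -/
noncomputable def midc (M : Mat n) : Finset (Finset (Fin n)) :=
  univ.filter (fun C => Circ M C ∧ C.card + 2 = rk M)

open Classical in
/-- the `r`-sets above `C` which contain no other circuit and have a small closure -/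
noncomputable def hX (M : Mat n) (C : Finset (Fin n)) : Finset (Finset (Fin n)) :=
  univ.filter (fun X => X.card = rk M ∧ C ⊆ X ∧ (∀ C' ⊆ X, Circ M C' → C' = C) ∧
    (clo M X).card ≤ rk M + 2)

open Classical in
/-- the heavy circuits of size `r(M) - 2` -/
noncomputable def HH (M : Mat n) : Finset (Finset (Fin n)) :=
  (midc M).filter (fun C => n * n ≤ Q0 * (hX M C).card)

open Classical in
/-- the explained nonbases -/
noncomputable def Expl (M : Mat n) : Finset (Finset (Fin n)) :=
  univ.filter (fun X => X.card = rk M ∧ (X ∈ Low 3 M ∨ Xᶜ ∈ Low 3 (dual M) ∨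
    (∃ C ∈ HH M, C ⊆ X) ∨ (∃ C ∈ HH (dual M), C ⊆ Xᶜ)))

open Classical in
/-- the sets above `C` which are not explained -/
noncomputable def unex (M : Mat n) (C : Finset (Fin n)) : Finset (Finset (Fin n)) :=
  univ.filter (fun X => X.card = rk M ∧ C ⊆ X ∧ X ∉ Expl M)

/-- the hypotheses of the regime of large circuits -/
structure RegHyp (M : Mat n) : Prop where
  mid : 4 * n < 9 * min (n - rk M) (rk M)
  wide : Wide (n / 20000) M
  big : 4 * Q0 ≤ n

theorem mem_midc {M : Mat n} {C : Finset (Fin n)} :
    C ∈ midc M ↔ Circ M C ∧ C.card + 2 = rk M := by simp [midc]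

theorem mem_hX {M : Mat n} {C X : Finset (Fin n)} :
    X ∈ hX M C ↔ X.card = rk M ∧ C ⊆ X ∧ (∀ C' ⊆ X, Circ M C' → C' = C) ∧
      (clo M X).card ≤ rk M + 2 := by simp [hX]

theorem mem_HH {M : Mat n} {C : Finset (Fin n)} :
    C ∈ HH M ↔ C ∈ midc M ∧ n * n ≤ Q0 * (hX M C).card := by simp [HH]

theorem mem_Expl {M : Mat n} {X : Finset (Fin n)} :
    X ∈ Expl M ↔ X.card = rk M ∧ (X ∈ Low 3 M ∨ Xᶜ ∈ Low 3 (dual M) ∨
      (∃ C ∈ HH M, C ⊆ X) ∨ (∃ C ∈ HH (dual M), C ⊆ Xᶜ)) := by simp [Expl]

theorem mem_unex {M : Mat n} {C X : Finset (Fin n)} :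
    X ∈ unex M C ↔ X.card = rk M ∧ C ⊆ X ∧ X ∉ Expl M := by simp [unex]

theorem RegHyp.dual {M : Mat n} (h : RegHyp M) : RegHyp (dual M) := by
  have hr := rk_add_rk_dual M
  refine ⟨?_, ?_, h.big⟩
  · have := h.mid
    rw [rk_dual]
    have h1 : n - (n - rk M) = rk M := by have := rk_le M; omega
    rw [h1, min_comm]
    exact this
  · intro C hC
    rw [dual_dual] at hC
    exact h.wide C hC.symm

/-! ### closures -/

theorem clo_subset_clo {M : Mat n} {Z Z' : Finset (Fin n)} (h : Z ⊆ clo M Z') :
    clo M Z ⊆ clo M Z' := by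
  intro x hx
  rw [mem_clo] at hx ⊢
  have h1 : (Z : Set (Fin n)) ⊆ M.1.closure (Z' : Set (Fin n)) := by
    rw [← coe_clo, Finset.coe_subset]; exact h
  exact Matroid.closure_subset_closure_of_subset_closure h1 hx

theorem clo_mono {M : Mat n} {Z Z' : Finset (Fin n)} (h : Z ⊆ Z') : clo M Z ⊆ clo M Z' :=
  clo_subset_clo (h.trans (subset_clo M Z'))

theorem circ_compl_closure {M : Mat n} {Z : Finset (Fin n)} (hZ : Z.card < rk M) :
    ∃ D, Circ (dual M) D ∧ D ⊆ (clo M Z)ᶜ := by
  obtain ⟨J, hJ⟩ := M.1.exists_isBasis (Z : Set (Fin n)) (subE M _)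
  obtain ⟨B, hB, hJB⟩ := hJ.indep.exists_isBase_superset
  have hne : J ≠ B := by
    rintro rfl
    have h1 := ncard_base hB
    have h2 := Set.ncard_le_ncard hJ.subset (Set.toFinite _)
    rw [Set.ncard_coe_finset] at h2
    omega
  obtain ⟨e, heB, heJ⟩ := Set.exists_of_ssubset (hJB.ssubset_of_ne hne)
  have hcc := hB.compl_closure_sdiff_singleton_isCocircuit heB
  have hfin : ((Set.toFinite (M.1.E \ M.1.closure (B \ {e}))).toFinset : Set (Fin n)) =
      M.1.E \ M.1.closure (B \ {e}) := Set.Finite.coe_toFinset _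
  refine ⟨(Set.toFinite (M.1.E \ M.1.closure (B \ {e}))).toFinset, ?_, ?_⟩
  · show (M.1✶).IsCircuit _
    rw [hfin]; exact hcc
  · intro z hz
    rw [Finset.mem_compl, mem_clo]
    intro h2
    have h3 : z ∈ M.1.E \ M.1.closure (B \ {e}) := by rw [← hfin]; exact_mod_cast hz
    apply h3.2
    rw [← hJ.closure_eq_closure] at h2
    exact M.1.closure_subset_closure (Set.subset_sdiff_singleton hJB heJ) h2

theorem circ_card_pos' {M : Mat n} {D : Finset (Fin n)} (h : Circ M D) : D.Nonempty :=
  Finset.card_pos.mp (circ_card_pos h)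

/-- a set of less than `r` elements does not span -/
theorem exists_notMem_clo {M : Mat n} {Z : Finset (Fin n)} (hZ : Z.card < rk M) :
    ∃ z, z ∉ clo M Z := by
  obtain ⟨D, hD, hDZ⟩ := circ_compl_closure hZ
  obtain ⟨z, hz⟩ := circ_card_pos' hD
  exact ⟨z, Finset.mem_compl.mp (hDZ hz)⟩

theorem indep_insert {M : Mat n} {I : Finset (Fin n)} (hI : M.1.Indep (I : Set (Fin n)))
    {x : Fin n} (hx : x ∉ clo M I) : M.1.Indep ((insert x I : Finset (Fin n)) : Set (Fin n)) := by
  rw [mem_clo, hI.notMem_closure_iff (by rw [M.2]; exact Set.mem_univ _)] at hx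
  rw [Finset.coe_insert]
  exact hx.1

theorem circ_erase_indep {M : Mat n} {C : Finset (Fin n)} (hC : Circ M C) {c : Fin n}
    (hc : c ∈ C) : M.1.Indep ((C.erase c : Finset (Fin n)) : Set (Fin n)) := by
  rw [Finset.coe_erase]
  exact hC.sdiff_singleton_indep (by exact_mod_cast hc)

theorem circ_clo_erase {M : Mat n} {C : Finset (Fin n)} (hC : Circ M C) (c : Fin n) :
    clo M (C.erase c) = clo M C := by
  ext x
  rw [mem_clo, mem_clo, Finset.coe_erase, Matroid.IsCircuit.closure_sdiff_singleton_eq hC]

/-- the closure of a nonspanning set containing a set which is not explained is small -/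
theorem clo_card_le {M : Mat n} {X Z : Finset (Fin n)} (hX : X ∉ Expl M) (hXc : X.card = rk M)
    (hZ : Z.card < rk M) (hXZ : X ⊆ clo M Z) : (clo M Z).card ≤ rk M + 2 := by
  obtain ⟨D, hD, hDZ⟩ := circ_compl_closure hZ
  have hr := rk_add_rk_dual M
  have h1 : D ⊆ Xᶜ := hDZ.trans (Finset.compl_subset_compl.mpr hXZ)
  have h2 : rk (dual M) < D.card + 3 := by
    by_contra hcon
    push Not at hcon
    refine hX (mem_Expl.mpr ⟨hXc, Or.inr (Or.inl (mem_Low.mpr ⟨?_, D, h1, hD, hcon⟩))⟩)
    rw [Finset.card_compl, Fintype.card_fin]; omega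
  have h3 := Finset.card_le_card hDZ
  rw [Finset.card_compl, Fintype.card_fin] at h3
  have h4 : (clo M Z).card ≤ n := by simpa using Finset.card_le_univ (clo M Z)
  omega

/-- two circuits in a set of the form `C + x + y` -/
theorem mem_clo_of_two {M : Mat n} {C C' : Finset (Fin n)} (hC : Circ M C) (hC' : Circ M C')
    (hne : C' ≠ C) {x y : Fin n} (hsub : C' ⊆ insert y (insert x C)) (hx : x ∉ clo M C) :
    y ∈ clo M (insert x C) := by
  by_contra hy
  obtain ⟨c, hc⟩ := circ_card_pos' hC
  have hI := circ_erase_indep hC hc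
  have h1 : M.1.Indep ((insert x (C.erase c) : Finset (Fin n)) : Set (Fin n)) := by
    apply indep_insert hI
    rw [circ_clo_erase hC]; exact hx
  have h2 : M.1.Indep ((insert y (insert x (C.erase c)) : Finset (Fin n)) : Set (Fin n)) := by
    apply indep_insert h1
    intro h3
    exact hy (clo_mono (Finset.insert_subset_insert _ (Finset.erase_subset _ _)) h3)
  have h3 : (C' : Set (Fin n)) ⊆
      insert c ((insert y (insert x (C.erase c)) : Finset (Fin n)) : Set (Fin n)) := by
    rw [← Finset.coe_insert, Finset.coe_subset]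
    intro z hz
    have := hsub hz
    simp only [Finset.mem_insert, Finset.mem_erase] at this ⊢
    tauto
  have h4 : (C : Set (Fin n)) ⊆
      insert c ((insert y (insert x (C.erase c)) : Finset (Fin n)) : Set (Fin n)) := by
    rw [← Finset.coe_insert, Finset.coe_subset]
    intro z hz
    simp only [Finset.mem_insert, Finset.mem_erase]
    tauto
  have h5 := Matroid.IsCircuit.eq_fundCircuit_of_subset hC' h2 h3
  have h6 := Matroid.IsCircuit.eq_fundCircuit_of_subset hC h2 h4
  apply hne
  have h7 : (C' : Set (Fin n)) = C := by rw [h5, h6]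
  exact_mod_cast h7


/-! ### L1: decoding -/

theorem sdiff_pair {C X : Finset (Fin n)} {r : ℕ} (hC : C.card + 2 = r) (hX : X.card = r)
    (h : C ⊆ X) : ∃ x y, x ≠ y ∧ x ∉ C ∧ y ∉ C ∧ X = insert y (insert x C) := by
  have h1 : (X \ C).card = 2 := by
    rw [Finset.card_sdiff_of_subset h]; omega
  obtain ⟨x, y, hxy, h2⟩ := Finset.card_eq_two.mp h1
  have hx : x ∈ X \ C := by rw [h2]; simp
  have hy : y ∈ X \ C := by rw [h2]; simp
  refine ⟨x, y, hxy, (Finset.mem_sdiff.mp hx).2, (Finset.mem_sdiff.mp hy).2, ?_⟩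
  have h3 : X = (X \ C) ∪ C := (Finset.sdiff_union_of_subset h).symm
  rw [h3, h2]
  ext z
  simp only [Finset.mem_union, Finset.mem_insert, Finset.mem_singleton]
  tauto

/-- the sets above a light circuit which are not explained have a small closure -/
theorem clo_le_of_unex {M : Mat n} {C X : Finset (Fin n)} (hC : Circ M C)
    (hc : C.card + 2 = rk M) (hX : X ∈ unex M C) : (clo M X).card ≤ rk M + 2 := by
  obtain ⟨h1, h2, h3⟩ := mem_unex.mp hX
  obtain ⟨x, y, hxy, hx, hy, rfl⟩ := sdiff_pair hc h1 h2
  obtain ⟨c, hcC⟩ := circ_card_pos' hC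
  have h4 : insert y (insert x C) ⊆ clo M (insert y (insert x (C.erase c))) := by
    have h5 : C ⊆ clo M (insert y (insert x (C.erase c))) := by
      refine (subset_clo M C).trans ?_
      rw [← circ_clo_erase hC c]
      exact clo_mono ((Finset.subset_insert _ _).trans (Finset.subset_insert _ _))
    refine Finset.insert_subset ?_ (Finset.insert_subset ?_ h5)
    · exact subset_clo M _ (by simp)
    · exact subset_clo M _ (by simp)
  have h6 : (insert y (insert x (C.erase c))).card < rk M := by
    have e1 := Finset.card_insert_le y (insert x (C.erase c))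
    have e2 := Finset.card_insert_le x (C.erase c)
    have e3 := Finset.card_erase_of_mem hcC
    have e4 := circ_card_pos hC
    omega
  exact (Finset.card_le_card (clo_subset_clo h4)).trans (clo_card_le h3 h1 h6 h4)

open Classical in
/-- the exceptional sets above a light circuit -/
noncomputable def exc (M : Mat n) (C : Finset (Fin n)) : Finset (Finset (Fin n)) :=
  insert (clo M C) (univ.biUnion (fun x =>
    (if x ∉ C ∧ (clo M (insert x C)).card ≤ rk M + 1 then clo M (insert x C) \ insert x C
      else ∅).image (fun y => insert y (insert x C))))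

theorem card_exc_le {M : Mat n} {C : Finset (Fin n)} (hc : C.card + 2 = rk M) :
    (exc M C).card ≤ 2 * n + 1 := by
  classical
  unfold exc
  refine (Finset.card_insert_le _ _).trans (Nat.add_le_add_right ?_ 1)
  refine Finset.card_biUnion_le.trans ?_
  have h1 : ∀ x ∈ (univ : Finset (Fin n)),
      ((if x ∉ C ∧ (clo M (insert x C)).card ≤ rk M + 1 then clo M (insert x C) \ insert x C
      else ∅).image (fun y => insert y (insert x C))).card ≤ 2 := by
    intro x _
    refine Finset.card_image_le.trans ?_
    split_ifs with h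
    · rw [Finset.card_sdiff_of_subset (subset_clo M _), Finset.card_insert_of_notMem h.1]
      omega
    · simp
  refine (Finset.sum_le_sum h1).trans ?_
  rw [Finset.sum_const, Finset.card_univ, Fintype.card_fin, smul_eq_mul, mul_comm]

/-- the closure bound for flats of rank `r - 2` -/
theorem clo_insert_le {M : Mat n} {C X : Finset (Fin n)} (hC : Circ M C)
    (hc : C.card + 2 = rk M) (hX : X ∉ Expl M) (hXc : X.card = rk M) {x : Fin n}
    (hXx : X ⊆ clo M (insert x C)) : (clo M (insert x C)).card ≤ rk M + 1 := by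
  obtain ⟨c, hcC⟩ := circ_card_pos' hC
  have e3 := Finset.card_erase_of_mem hcC
  have e4 := circ_card_pos hC
  have hcl : clo M (insert x C) = clo M (insert x (C.erase c)) := by
    apply Finset.Subset.antisymm
    · apply clo_subset_clo
      refine Finset.insert_subset (subset_clo M _ (by simp)) ?_
      refine (subset_clo M C).trans ?_
      rw [← circ_clo_erase hC c]
      exact clo_mono (Finset.subset_insert _ _)
    · exact clo_mono (Finset.insert_subset_insert _ (Finset.erase_subset _ _))
  have e5 : (insert x (C.erase c)).card + 2 ≤ rk M := by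
    have := Finset.card_insert_le x (C.erase c)
    omega
  obtain ⟨z, hz⟩ := exists_notMem_clo (M := M) (Z := insert x (C.erase c)) (by omega)
  have h6 : (insert z (insert x (C.erase c))).card < rk M := by
    have := Finset.card_insert_le z (insert x (C.erase c))
    omega
  have h7 : insert z (clo M (insert x (C.erase c))) ⊆
      clo M (insert z (insert x (C.erase c))) :=
    Finset.insert_subset (subset_clo M _ (by simp)) (clo_mono (Finset.subset_insert _ _))
  have h8 : X ⊆ clo M (insert z (insert x (C.erase c))) := by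
    rw [hcl] at hXx
    exact hXx.trans ((Finset.subset_insert _ _).trans h7)
  have h9 := clo_card_le hX hXc h6 h8
  have h10 := Finset.card_le_card h7
  rw [Finset.card_insert_of_notMem hz] at h10
  rw [hcl]
  omega

/-- the closure bound for flats of rank `r - 3` -/
theorem clo_le {M : Mat n} {C X : Finset (Fin n)} (hC : Circ M C)
    (hc : C.card + 2 = rk M) (hX : X ∉ Expl M) (hXc : X.card = rk M)
    (hXx : X ⊆ clo M C) : (clo M C).card ≤ rk M := by
  obtain ⟨c, hcC⟩ := circ_card_pos' hC
  have e3 := Finset.card_erase_of_mem hcC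
  have e4 := circ_card_pos hC
  obtain ⟨x, hx⟩ := exists_notMem_clo (M := M) (Z := C) (by omega)
  have h1 := clo_insert_le hC hc hX hXc (x := x) (hXx.trans (clo_mono (Finset.subset_insert _ _)))
  have h2 : insert x (clo M C) ⊆ clo M (insert x C) :=
    Finset.insert_subset (subset_clo M _ (by simp)) (clo_mono (Finset.subset_insert _ _))
  have h3 := Finset.card_le_card h2
  rw [Finset.card_insert_of_notMem hx] at h3
  omega

theorem unex_subset {M : Mat n} {C : Finset (Fin n)} (hC : Circ M C)
    (hc : C.card + 2 = rk M) : unex M C ⊆ hX M C ∪ exc M C := by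
  classical
  intro X hX
  have hcl := clo_le_of_unex hC hc hX
  obtain ⟨h1, h2, h3⟩ := mem_unex.mp hX
  by_cases hu : ∀ C' ⊆ X, Circ M C' → C' = C
  · exact Finset.mem_union_left _ (mem_hX.mpr ⟨h1, h2, hu, hcl⟩)
  · push Not at hu
    obtain ⟨C', hC'X, hC', hne⟩ := hu
    refine Finset.mem_union_right _ ?_
    obtain ⟨x, y, hxy, hx, hy, rfl⟩ := sdiff_pair hc h1 h2
    unfold exc
    by_cases hxC : x ∈ clo M C
    · by_cases hyC : y ∈ clo M C
      · have h4 : insert y (insert x C) ⊆ clo M C :=
          Finset.insert_subset hyC (Finset.insert_subset hxC (subset_clo M C))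
        have h5 := clo_le hC hc h3 h1 h4
        have h6 : insert y (insert x C) = clo M C :=
          Finset.eq_of_subset_of_card_le h4 (by omega)
        rw [h6]
        exact Finset.mem_insert_self _ _
      · have hsw : insert y (insert x C) = insert x (insert y C) := Finset.insert_comm _ _ _
        rw [hsw] at hC'X h1 h2 h3 ⊢
        have h4 := mem_clo_of_two hC hC' hne hC'X hyC
        have h5 : insert x (insert y C) ⊆ clo M (insert y C) :=
          Finset.insert_subset h4 (subset_clo M _)
        have h6 := clo_insert_le hC hc h3 h1 h5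
        refine Finset.mem_insert_of_mem (Finset.mem_biUnion.mpr ⟨y, Finset.mem_univ _, ?_⟩)
        rw [if_pos ⟨hy, h6⟩]
        refine Finset.mem_image.mpr ⟨x, Finset.mem_sdiff.mpr ⟨h4, ?_⟩, rfl⟩
        rw [Finset.mem_insert]
        tauto
    · have h4 := mem_clo_of_two hC hC' hne hC'X hxC
      have h5 : insert y (insert x C) ⊆ clo M (insert x C) :=
        Finset.insert_subset h4 (subset_clo M _)
      have h6 := clo_insert_le hC hc h3 h1 h5
      refine Finset.mem_insert_of_mem (Finset.mem_biUnion.mpr ⟨x, Finset.mem_univ _, ?_⟩)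
      rw [if_pos ⟨hx, h6⟩]
      refine Finset.mem_image.mpr ⟨y, Finset.mem_sdiff.mpr ⟨h4, ?_⟩, rfl⟩
      rw [Finset.mem_insert]
      have := hxy.symm
      tauto

theorem Expl_subset_NB (M : Mat n) : Expl M ⊆ NB M := by
  intro X hX
  obtain ⟨h1, h2⟩ := mem_Expl.mp hX
  rcases h2 with h | h | ⟨C, hC, hCX⟩ | ⟨C, hC, hCX⟩
  · exact low_subset 3 M h
  · exact mem_NB_dual.mp (low_subset 3 _ h)
  · obtain ⟨hC1, _⟩ := mem_HH.mp hC
    exact mem_NB_of_not_indep (not_indep_of_circ (mem_midc.mp hC1).1 hCX) h1
  · obtain ⟨hC1, _⟩ := mem_HH.mp hC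
    apply mem_NB_dual.mp
    refine mem_NB_of_not_indep (not_indep_of_circ (mem_midc.mp hC1).1 hCX) ?_
    have hr := rk_add_rk_dual M
    rw [Finset.card_compl, Fintype.card_fin]; omega

/-- above an independent set there are many bases -/
theorem card_unex_ge {M : Mat n} {g : ℕ} (hg : ∀ D, Circ (dual M) D → g ≤ D.card)
    {C : Finset (Fin n)} (hC : M.1.Indep (C : Set (Fin n))) (hc : C.card + 2 = rk M) :
    g * g ≤ 2 * (unex M C).card := by
  classical
  set P : Finset (Σ _ : Fin n, Fin n) := ((clo M C)ᶜ).sigma (fun x => (clo M (insert x C))ᶜ)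
    with hP
  have hcard : g * g ≤ P.card := by
    rw [hP, Finset.card_sigma]
    calc g * g ≤ ((clo M C)ᶜ).card * g :=
          Nat.mul_le_mul_right _ (card_compl_clo hg (by omega))
      _ = ∑ x ∈ (clo M C)ᶜ, g := by rw [Finset.sum_const, smul_eq_mul]
      _ ≤ _ := Finset.sum_le_sum (fun x _ => card_compl_clo hg (by
          have := Finset.card_insert_le x C
          omega))
  refine hcard.trans ?_
  have hmem : ∀ p ∈ P, p.1 ∉ clo M C ∧ p.2 ∉ clo M (insert p.1 C) := by
    intro p hp
    rw [hP, Finset.mem_sigma, Finset.mem_compl, Finset.mem_compl] at hp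
    exact hp
  refine Finset.card_le_mul_card_image_of_maps_to (f := fun p : Σ _ : Fin n, Fin n =>
    insert p.2 (insert p.1 C)) ?_ 2 ?_
  · intro p hp
    obtain ⟨h1, h2⟩ := hmem p hp
    have h3 := indep_insert hC h1
    have h4 := indep_insert h3 h2
    have h5 : p.1 ∉ C := fun h => h1 (subset_clo M C h)
    have h6 : p.2 ∉ insert p.1 C := fun h => h2 (subset_clo M _ h)
    have h7 : (insert p.2 (insert p.1 C)).card = rk M := by
      rw [Finset.card_insert_of_notMem h6, Finset.card_insert_of_notMem h5]; omega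
    refine mem_unex.mpr ⟨h7, (Finset.subset_insert _ _).trans (Finset.subset_insert _ _), ?_⟩
    intro h8
    exact (mem_NB.mp (Expl_subset_NB M h8)).2 (indep_isBase h4 h7)
  · intro X hX
    obtain ⟨hX1, hX2, _⟩ := mem_unex.mp hX
    have h1 : (X \ C).card = 2 := by
      rw [Finset.card_sdiff_of_subset hX2]; omega
    calc (P.filter (fun p => insert p.2 (insert p.1 C) = X)).card
        ≤ ((X \ C).offDiag).card := by
          refine Finset.card_le_card_of_injOn (fun p => (p.1, p.2)) ?_ ?_
          · intro p hp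
            obtain ⟨hp1, hp2⟩ := Finset.mem_filter.mp (Finset.mem_coe.mp hp)
            obtain ⟨h2, h3⟩ := hmem p hp1
            have h5 : p.1 ∉ C := fun h => h2 (subset_clo M C h)
            have h6 : p.2 ∉ insert p.1 C := fun h => h3 (subset_clo M _ h)
            rw [Finset.mem_insert] at h6
            push Not at h6
            refine Finset.mem_coe.mpr (Finset.mem_offDiag.mpr ⟨?_, ?_, fun h => h6.1 h.symm⟩)
            · exact Finset.mem_sdiff.mpr ⟨by rw [← hp2]; simp, h5⟩
            · exact Finset.mem_sdiff.mpr ⟨by rw [← hp2]; simp, h6.2⟩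
          · intro p _ q _ h
            have h2 := congrArg Prod.fst h
            have h3 := congrArg Prod.snd h
            exact Sigma.ext h2 (heq_of_eq h3)
      _ ≤ 2 := by
          rw [Finset.offDiag_card, h1]

/-- **decoding**: dependence of an `(r-2)`-set in terms of the explained sets -/
theorem dep_iff {M : Mat n} (hM : RegHyp M) {C : Finset (Fin n)} (hc : C.card + 2 = rk M) :
    ¬ M.1.Indep (C : Set (Fin n)) ↔ Q0 * (unex M C).card < 2 * (n * n) := by
  classical
  have hbig := hM.big
  have hn : 4 * 10 ^ 11 ≤ n := hbig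
  constructor
  · intro hdep
    obtain ⟨C', hC'C, hC'⟩ := exists_circ hdep
    have hpos : 0 < 2 * (n * n) := by positivity
    by_cases hs : C'.card + 3 ≤ rk M
    · have h1 : unex M C = ∅ := by
        apply Finset.eq_empty_of_forall_notMem
        intro X hX
        obtain ⟨h1, h2, h3⟩ := mem_unex.mp hX
        exact h3 (mem_Expl.mpr ⟨h1, Or.inl (mem_Low.mpr ⟨h1, C', hC'C.trans h2, hC', hs⟩)⟩)
      rw [h1, Finset.card_empty, mul_zero]
      exact hpos
    · have h1 : C' = C := Finset.eq_of_subset_of_card_le hC'C (by omega)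
      subst h1
      by_cases hh : C' ∈ HH M
      · have h1 : unex M C' = ∅ := by
          apply Finset.eq_empty_of_forall_notMem
          intro X hX
          obtain ⟨h1, h2, h3⟩ := mem_unex.mp hX
          exact h3 (mem_Expl.mpr ⟨h1, Or.inr (Or.inr (Or.inl ⟨C', hh, h2⟩))⟩)
        rw [h1, Finset.card_empty, mul_zero]
        exact hpos
      · have h2 : Q0 * (hX M C').card < n * n := by
          by_contra hcon
          push Not at hcon
          exact hh (mem_HH.mpr ⟨mem_midc.mpr ⟨hC', hc⟩, hcon⟩)
        have h3 := (Finset.card_le_card (unex_subset hC' hc)).trans (Finset.card_union_le _ _)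
        have h4 := card_exc_le (M := M) hc
        have h5 : Q0 * (unex M C').card ≤ Q0 * (hX M C').card + Q0 * (2 * n + 1) := by
          rw [← mul_add]
          exact Nat.mul_le_mul_left _ (h3.trans (Nat.add_le_add_left h4 _))
        have h6 : Q0 * (2 * n + 1) ≤ n * n := by
          have h7 : Q0 * (2 * n + 1) ≤ Q0 * (4 * n) := Nat.mul_le_mul_left _ (by omega)
          have h8 : Q0 * (4 * n) ≤ n * n := by
            calc Q0 * (4 * n) = 4 * Q0 * n := by ring
              _ ≤ n * n := Nat.mul_le_mul_right _ hbig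
          exact h7.trans h8
        omega
  · intro h hi
    have h1 := card_unex_ge (M := M) (g := n / 20000) (fun D hD => hM.wide D (Or.inr hD)) hi hc
    set g := n / 20000 with hg
    have h2 : n ≤ 40000 * g := by omega
    have h3 : n * n ≤ 40000 * g * (40000 * g) := Nat.mul_le_mul h2 h2
    have h4 : Q0 * (g * g) ≤ Q0 * (2 * (unex M C).card) := Nat.mul_le_mul_left _ h1
    have h5 : Q0 = 10 ^ 11 := rfl
    rw [h5] at h h4
    nlinarith

end H83L
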