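import Pool.Agent.H83Pav.RegLA

/-!
MP_039b14_co, large circuits: the deep nonbases are determined by the codes; the private family of
the heavy circuits.
-/

namespace H83L

open Finset H38Pav H83Pav

variable {n : ℕ}

theorem mem_Low2 {M : Mat n} {X : Finset (Fin n)} : X ∈ Low 2 M ↔
    X.card = rk M ∧ ∃ C ⊆ X, C.card + 2 = rk M ∧ ¬ M.1.Indep (C : Set (Fin n)) := by
  rw [mem_Low]
  refine and_congr_right (fun hX => ?_)
  constructor
  · rintro ⟨C, hCX, hC, hc⟩
    obtain ⟨D, hCD, hDX, hD⟩ := Finset.exists_subsuperset_card_eq hCX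
      (show C.card ≤ rk M - 2 by omega) (show rk M - 2 ≤ X.card by omega)
    exact ⟨D, hDX, by omega, not_indep_of_circ hC hCD⟩
  · rintro ⟨D, hDX, hD, hdep⟩
    obtain ⟨C, hCD, hC⟩ := exists_circ hdep
    have := Finset.card_le_card hCD
    exact ⟨C, hCD.trans hDX, hC, by omega⟩

theorem Expl_eq {M N : Mat n} (h : rk M = rk N) (h1 : FF 3 M = FF 3 N)
    (h2 : FF 3 (dual M) = FF 3 (dual N)) (h3 : HH M = HH N) (h4 : HH (dual M) = HH (dual N)) :
    Expl M = Expl N := by
  have h5 : rk (dual M) = rk (dual N) := by rw [rk_dual, rk_dual, h]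
  ext X
  rw [mem_Expl, mem_Expl, low_eq, low_eq, low_eq, low_eq, h, h1, h2, h3, h4, h5]

theorem Low2_eq {M N : Mat n} (hM : RegHyp M) (hN : RegHyp N) (h : rk M = rk N)
    (h1 : FF 3 M = FF 3 N) (h2 : FF 3 (dual M) = FF 3 (dual N)) (h3 : HH M = HH N)
    (h4 : HH (dual M) = HH (dual N)) : Low 2 M = Low 2 N := by
  have hE := Expl_eq h h1 h2 h3 h4
  have hU : ∀ C, unex M C = unex N C := by
    intro C
    ext X
    rw [mem_unex, mem_unex, h, hE]
  have hD : ∀ C : Finset (Fin n), C.card + 2 = rk N →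
      (¬ M.1.Indep (C : Set (Fin n)) ↔ ¬ N.1.Indep (C : Set (Fin n))) := by
    intro C hc
    rw [dep_iff hM (by rw [h]; exact hc), dep_iff hN hc, hU]
  ext X
  rw [mem_Low2, mem_Low2, h]
  refine and_congr_right (fun _ => exists_congr (fun C => and_congr_right (fun _ =>
    and_congr_right (fun hc => hD C hc))))

/-- **the deep nonbases are determined by the codes** -/
theorem KK_eq_of_regcodes {M N : Mat n} (hM : RegHyp M) (hN : RegHyp N) (h : rk M = rk N)
    (h1 : FF 3 M = FF 3 N) (h2 : FF 3 (dual M) = FF 3 (dual N)) (h3 : HH M = HH N)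
    (h4 : HH (dual M) = HH (dual N)) : KK 2 M = KK 2 N := by
  have h5 : rk (dual M) = rk (dual N) := by rw [rk_dual, rk_dual, h]
  have e1 := Low2_eq hM hN h h1 h2 h3 h4
  have e2 := Low2_eq hM.dual hN.dual h5 h2 (by rw [dual_dual, dual_dual]; exact h1) h4
    (by rw [dual_dual, dual_dual]; exact h3)
  ext X
  rw [mem_KK, mem_KK, e1, e2]

theorem Expl_empty {M : Mat n} (h1 : FF 3 M = ∅) (h2 : FF 3 (dual M) = ∅) (h3 : HH M = ∅)
    (h4 : HH (dual M) = ∅) : Expl M = ∅ := by
  apply Finset.eq_empty_of_forall_notMem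
  intro X hX
  obtain ⟨_, h⟩ := mem_Expl.mp hX
  rw [low_eq, low_eq, h1, h2, h3, h4] at h
  rcases h with h | h | ⟨C, hC, _⟩ | ⟨C, hC, _⟩
  · obtain ⟨_, p, hp, _⟩ := mem_bunch.mp h
    simp at hp
  · obtain ⟨_, p, hp, _⟩ := mem_bunch.mp h
    simp at hp
  · simp at hC
  · simp at hC

theorem card_above {C : Finset (Fin n)} {r : ℕ} (hc : C.card + 2 = r) (hr : r ≤ n) :
    (n - r) * (n - r) ≤ 2 * ((univ : Finset (Finset (Fin n))).filter
      (fun X => X.card = r ∧ C ⊆ X)).card := by
  classical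
  have h1 : ((powersetCard 2 (Cᶜ)).image (fun Y => C ∪ Y)).card = (n - C.card).choose 2 := by
    rw [Finset.card_image_of_injOn, Finset.card_powersetCard, Finset.card_compl, Fintype.card_fin]
    intro Y hY Z hZ h
    have hY' := (Finset.mem_powersetCard.mp (Finset.mem_coe.mp hY)).1
    have hZ' := (Finset.mem_powersetCard.mp (Finset.mem_coe.mp hZ)).1
    have h' : C ∪ Y = C ∪ Z := h
    ext z
    constructor
    · intro hz
      have : z ∈ C ∪ Z := by rw [← h']; exact Finset.mem_union_right _ hz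
      rcases Finset.mem_union.mp this with h2 | h2
      · exact absurd h2 (Finset.mem_compl.mp (hY' hz))
      · exact h2
    · intro hz
      have : z ∈ C ∪ Y := by rw [h']; exact Finset.mem_union_right _ hz
      rcases Finset.mem_union.mp this with h2 | h2
      · exact absurd h2 (Finset.mem_compl.mp (hZ' hz))
      · exact h2
  have h2 : (n - C.card).choose 2 ≤ ((univ : Finset (Finset (Fin n))).filter
      (fun X => X.card = r ∧ C ⊆ X)).card := by
    rw [← h1]
    refine Finset.card_le_card (fun X hX => ?_)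
    obtain ⟨Y, hY, rfl⟩ := Finset.mem_image.mp hX
    obtain ⟨hY1, hY2⟩ := Finset.mem_powersetCard.mp hY
    refine Finset.mem_filter.mpr ⟨Finset.mem_univ _, ?_, Finset.subset_union_left⟩
    rw [Finset.card_union_of_disjoint, hY2, hc]
    rw [Finset.disjoint_left]
    intro z hz hz'
    exact Finset.mem_compl.mp (hY1 hz') hz
  refine le_trans ?_ (Nat.mul_le_mul_left 2 h2)
  have h3 : n - C.card = (n - r) + 2 := by omega
  rw [h3]
  generalize n - r = m
  have h4 := Nat.choose_two_right (m + 2)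
  have h5 : (m + 2) * (m + 2 - 1) / 2 * 2 = (m + 2) * (m + 2 - 1) := by
    apply Nat.div_mul_cancel
    have : (m + 2) * (m + 2 - 1) = (m + 2) * (m + 1) := rfl
    rw [this]
    rcases Nat.even_or_odd m with ⟨k, hk⟩ | ⟨k, hk⟩
    · exact Dvd.dvd.mul_right ⟨k + 1, by omega⟩ _
    · exact Dvd.dvd.mul_left ⟨k + 1, by omega⟩ _
  rw [h4, mul_comm 2, h5]
  show m * m ≤ (m + 2) * (m + 1)
  nlinarith

theorem Low2_empty {M : Mat n} (hM : RegHyp M) (h1 : FF 3 M = ∅) (h2 : FF 3 (dual M) = ∅)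
    (h3 : HH M = ∅) (h4 : HH (dual M) = ∅) : Low 2 M = ∅ := by
  classical
  apply Finset.eq_empty_of_forall_notMem
  intro X hX
  obtain ⟨_, C, _, hc, hdep⟩ := mem_Low2.mp hX
  rw [dep_iff hM hc] at hdep
  have h5 : unex M C = (univ : Finset (Finset (Fin n))).filter
      (fun X => X.card = rk M ∧ C ⊆ X) := by
    ext Y
    rw [mem_unex, Expl_empty h1 h2 h3 h4]
    simp
  have h6 := card_above hc (rk_le M)
  rw [← h5] at h6
  have hmid := hM.mid
  have hbig := hM.big
  have h7 : n ≤ 3 * (n - rk M) := by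
    have := min_le_left (n - rk M) (rk M)
    omega
  have h8 : n * n ≤ 3 * (n - rk M) * (3 * (n - rk M)) := Nat.mul_le_mul h7 h7
  have h9 : Q0 = 10 ^ 11 := rfl
  rw [h9] at hdep hbig
  set m := n - rk M
  nlinarith

theorem KK_empty_of_regcodes {M : Mat n} (hM : RegHyp M) (h1 : FF 3 M = ∅)
    (h2 : FF 3 (dual M) = ∅) (h3 : HH M = ∅) (h4 : HH (dual M) = ∅) : KK 2 M = ∅ := by
  have e1 := Low2_empty hM h1 h2 h3 h4
  have e2 := Low2_empty hM.dual h2 (by rw [dual_dual]; exact h1) h4 (by rw [dual_dual]; exact h3)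
  apply Finset.eq_empty_of_forall_notMem
  intro X hX
  rw [mem_KK, e1, e2] at hX
  simp at hX

theorem KK_mono {M : Mat n} : KK 3 M ⊆ KK 2 M := by
  have h : ∀ N : Mat n, Low 3 N ⊆ Low 2 N := by
    intro N X hX
    obtain ⟨h1, C, h2, h3, h4⟩ := mem_Low.mp hX
    exact mem_Low.mpr ⟨h1, C, h2, h3, by omega⟩
  intro X hX
  rcases mem_KK.mp hX with h' | h'
  · exact mem_KK.mpr (Or.inl (h M h'))
  · exact mem_KK.mpr (Or.inr (h _ h'))

/-! ### L2: the private family -/

/-- the private family of the heavy circuits -/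
noncomputable def WW (M : Mat n) : Finset (Finset (Fin n)) := (HH M).biUnion (hX M)

theorem mem_WW {M : Mat n} {X : Finset (Fin n)} : X ∈ WW M ↔ ∃ C ∈ HH M, X ∈ hX M C := by
  simp [WW]

theorem WW_subset (M : Mat n) : WW M ⊆ Low 2 M := by
  intro X hX
  obtain ⟨C, hC, hXC⟩ := mem_WW.mp hX
  obtain ⟨hC1, _⟩ := mem_HH.mp hC
  obtain ⟨hC2, hC3⟩ := mem_midc.mp hC1
  obtain ⟨h1, h2, _⟩ := mem_hX.mp hXC
  exact mem_Low.mpr ⟨h1, C, h2, hC2, hC3.le⟩

theorem card_WW (M : Mat n) : (HH M).card * (n * n) ≤ Q0 * (WW M).card := by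
  classical
  unfold WW
  rw [Finset.card_biUnion, Finset.mul_sum]
  · calc (HH M).card * (n * n) = ∑ C ∈ HH M, n * n := by rw [Finset.sum_const, smul_eq_mul]
      _ ≤ _ := Finset.sum_le_sum (fun C hC => (mem_HH.mp hC).2)
  · intro C hC C' _ hne
    show Disjoint (hX M C) (hX M C')
    rw [Finset.disjoint_left]
    intro X h1 h2
    obtain ⟨_, hCX, _, _⟩ := mem_hX.mp h1
    obtain ⟨_, _, h3, _⟩ := mem_hX.mp h2
    exact hne (h3 C hCX (mem_midc.mp (mem_HH.mp hC).1).1)

/-- the Johnson degrees in the private family -/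
theorem deg_WW {M : Mat n} {X : Finset (Fin n)} (hX : X ∈ WW M) :
    ((WW M).filter (fun Y => (X ∩ Y).card + 1 = rk M)).card ≤ 2 * n := by
  classical
  obtain ⟨C, hC, hXC⟩ := mem_WW.mp hX
  obtain ⟨hC1, _⟩ := mem_HH.mp hC
  obtain ⟨hC2, hC3⟩ := mem_midc.mp hC1
  obtain ⟨hXc, hCX, hun, hclX⟩ := mem_hX.mp hXC
  have hsub : (WW M).filter (fun Y => (X ∩ Y).card + 1 = rk M) ⊆
      ((X \ C) ×ˢ Xᶜ ∪ C ×ˢ (clo M X \ X)).image (fun p => insert p.2 (X.erase p.1)) := by
    intro Y hY
    obtain ⟨hYW, hadj⟩ := Finset.mem_filter.mp hY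
    obtain ⟨C', hC', hYC'⟩ := mem_WW.mp hYW
    obtain ⟨hYc, hC'Y, hun', _⟩ := mem_hX.mp hYC'
    obtain ⟨a, b, ha, hb, hab, e1, e2, _⟩ := adj_cases hXc hYc hadj
    have haX : a ∈ X := by rw [← e1]; simp
    have hbY : b ∈ Y := by rw [← e2]; simp
    have hbX : b ∉ X := fun h => hb (Finset.mem_inter.mpr ⟨h, hbY⟩)
    have hXa : X.erase a = X ∩ Y := by
      conv_lhs => rw [← e1]
      rw [Finset.erase_insert ha]
    have hYe : insert b (X.erase a) = Y := by rw [hXa]; exact e2
    refine Finset.mem_image.mpr ⟨(a, b), ?_, hYe⟩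
    by_cases haC : a ∈ C
    · refine Finset.mem_union_right _ (Finset.mem_product.mpr ⟨haC, Finset.mem_sdiff.mpr ⟨?_, hbX⟩⟩)
      -- X - a is independent
      have hi : M.1.Indep ((X.erase a : Finset (Fin n)) : Set (Fin n)) := by
        by_contra hdep
        obtain ⟨C'', h1, h2⟩ := exists_circ hdep
        have h3 := hun C'' (h1.trans (Finset.erase_subset _ _)) h2
        rw [h3] at h1
        exact (Finset.notMem_erase a X) (h1 haC)
      by_contra hbcl
      have h1 : b ∉ clo M (X.erase a) := fun h => hbcl (clo_mono (Finset.erase_subset _ _) h)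
      have h2 := indep_insert hi h1
      rw [hYe] at h2
      have hC'1 := (mem_midc.mp (mem_HH.mp hC').1).1
      exact not_indep_of_circ hC'1 hC'Y h2
    · refine Finset.mem_union_left _ (Finset.mem_product.mpr ⟨Finset.mem_sdiff.mpr ⟨haX, haC⟩, ?_⟩)
      exact Finset.mem_compl.mpr hbX
  refine (Finset.card_le_card hsub).trans (Finset.card_image_le.trans
    ((Finset.card_union_le _ _).trans ?_))
  rw [Finset.card_product, Finset.card_product, Finset.card_sdiff_of_subset hCX,
    Finset.card_sdiff_of_subset (subset_clo M X), Finset.card_compl, Fintype.card_fin]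
  have h1 : X.card - C.card = 2 := by omega
  have h2 : (clo M X).card - X.card ≤ 2 := by omega
  have h3 := rk_le M
  have h4 : C.card * ((clo M X).card - X.card) ≤ C.card * 2 := Nat.mul_le_mul_left _ h2
  rw [h1]
  omega

theorem card_inter_compl {r : ℕ} {X Y : Finset (Fin n)} (hX : X.card = r) (hY : Y.card = r) :
    (Xᶜ ∩ Yᶜ).card + 1 = n - r ↔ (X ∩ Y).card + 1 = r := by
  classical
  rw [← Finset.compl_union, Finset.card_compl, Fintype.card_fin]
  have h1 := Finset.card_union_add_card_inter X Y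
  have h2 : (X ∪ Y).card ≤ n := by simpa using Finset.card_le_univ (X ∪ Y)
  have h3 : r ≤ n := by
    have : X.card ≤ n := by simpa using Finset.card_le_univ X
    omega
  have h4 := Finset.card_le_card (Finset.inter_subset_left : X ∩ Y ⊆ X)
  omega

/-- **the private family** -/
theorem exists_WW (M : Mat n) : ∃ W ⊆ KK 2 M,
    max (HH M).card (HH (dual M)).card * (n * n) ≤ Q0 * W.card ∧
    ∀ X ∈ W, (W.filter (fun Y => (X ∩ Y).card + 1 = rk M)).card ≤ 2 * n := by
  classical
  rcases le_total (HH (dual M)).card (HH M).card with h | h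
  · rw [max_eq_left h]
    exact ⟨WW M, (WW_subset M).trans (low_subset_KK 2 M), card_WW M, fun X hX => deg_WW hX⟩
  · rw [max_eq_right h]
    have hr := rk_add_rk_dual M
    refine ⟨(WW (dual M)).image (fun X => Xᶜ), ?_, ?_, ?_⟩
    · intro X hX
      obtain ⟨Y, hY, rfl⟩ := Finset.mem_image.mp hX
      refine mem_KK.mpr (Or.inr ?_)
      rw [compl_compl]
      exact WW_subset _ hY
    · rw [Finset.card_image_of_injective _ compl_injective]
      exact card_WW _
    · intro X hX
      obtain ⟨Y, hY, rfl⟩ := Finset.mem_image.mp hX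
      have hYc := (mem_Low.mp (WW_subset _ hY)).1
      refine le_trans ?_ (deg_WW hY)
      have hsub : ((WW (dual M)).image (fun X => Xᶜ)).filter
          (fun Z => (Yᶜ ∩ Z).card + 1 = rk M) ⊆
          ((WW (dual M)).filter (fun Z => (Y ∩ Z).card + 1 = rk (dual M))).image
            (fun X => Xᶜ) := by
        intro Z hZ
        obtain ⟨hZ1, hZ2⟩ := Finset.mem_filter.mp hZ
        obtain ⟨Z', hZ', rfl⟩ := Finset.mem_image.mp hZ1
        refine Finset.mem_image.mpr ⟨Z', Finset.mem_filter.mpr ⟨hZ', ?_⟩, rfl⟩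
        have hZc := (mem_Low.mp (WW_subset _ hZ')).1
        have h1 := card_inter_compl hYc hZc
        rw [← h1]
        rw [hZ2]
        omega
      exact (Finset.card_le_card hsub).trans Finset.card_image_le

end H83L
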