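import Pool.Agent.H83Pav.RegLSum
import Pool.Agent.H83Pav.Final
import Pool.Agent.H83Pav.Aut

/-!
MP_039b14_co: from labelled to unlabelled matroids, large circuits.
-/

namespace H83L

open Finset H38Pav H83Pav

variable {n : ℕ}

theorem card_small_sets (T0 N : ℕ) {α : Type*} [Fintype α] [DecidableEq α]
    (hN : Fintype.card α ≤ N) (hN1 : 1 ≤ N) :
    ((univ : Finset (Finset α)).filter (fun S => S.card < T0)).card ≤ T0 * N ^ T0 := by
  classical
  rw [Finset.card_eq_sum_card_fiberwise (f := fun S : Finset α => S.card) (t := Finset.range T0)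
    (fun S hS => by
      have := (Finset.mem_filter.mp (Finset.mem_coe.mp hS)).2
      exact Finset.mem_coe.mpr (Finset.mem_range.mpr this))]
  calc ∑ b ∈ range T0, (((univ : Finset (Finset α)).filter (fun S => S.card < T0)).filter
        (fun S => S.card = b)).card ≤ ∑ _b ∈ range T0, N ^ T0 := by
        refine Finset.sum_le_sum (fun b hb => ?_)
        have h1 : ((univ : Finset (Finset α)).filter (fun S => S.card < T0)).filter
            (fun S => S.card = b) ⊆ (univ : Finset α).powersetCard b := by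
          intro S hS
          exact Finset.mem_powersetCard.mpr ⟨Finset.subset_univ _, (Finset.mem_filter.mp hS).2⟩
        refine (Finset.card_le_card h1).trans ?_
        rw [Finset.card_powersetCard, Finset.card_univ]
        calc (Fintype.card α).choose b ≤ (Fintype.card α) ^ b := Nat.choose_le_pow _ _
          _ ≤ N ^ b := Nat.pow_le_pow_left hN b
          _ ≤ N ^ T0 := Nat.pow_le_pow_right hN1 (Finset.mem_range.mp hb).le
    _ = T0 * N ^ T0 := by rw [Finset.sum_const, Finset.card_range, smul_eq_mul]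

/-- the number of classes of the large-circuit regime -/
theorem cntP_regL_le {r q G m T0 L : ℕ} (hn : 0 < n) (P : Mat n → Prop)
    (HH : Mat n → Finset (Finset (Fin n)))
    (hP : ∀ M, P M → rk M = r ∧ NoShallow 2 M ∧ (KK 2 M).Nonempty)
    (hPact : ∀ M s, P M → P (act s M))
    (hG : ∀ M, P M → codeT M * G ≤ 24 * (KK 2 M).card)
    (hdec : ∀ M N, P M → P N → FF 3 M = FF 3 N → FF 3 (dual M) = FF 3 (dual N) →
      HH M = HH N → HH (dual M) = HH (dual N) → KK 2 M = KK 2 N)
    (hemp : ∀ M, P M → FF 3 M = ∅ → FF 3 (dual M) = ∅ → HH M = ∅ → HH (dual M) = ∅ →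
      KK 2 M = ∅)
    (hW1 : ∀ M, P M → GoodW n r q HH M)
    (hW2 : ∀ M, P M → GoodW n r q (fun M => HH (dual M)) M)
    (w y : ℝ) (hw0 : 0 < w) (hw1 : w ≤ 1) (hw : w ^ (96 * n) = 1 / 2) (hy0 : 0 < y)
    (hy1 : y ≤ 1) (hy : 1 ≤ (2 * (n : ℝ) + 1) ^ q * y ^ 8) :
    (cntP n (fun c => ∃ M : Mat n, cls M = c ∧ P M) : ℝ) ≤
      cntP n (fun c => c.rk = r) * (((1 + w ^ G) ^ (2 * (2 ^ n * (n + 1))) *
        (1 + y) ^ (2 * 2 ^ n)) * ((n.factorial : ℝ) * (w ^ G + y ^ T0) + (n : ℝ) ^ m * y) +
        (n.factorial : ℝ) * ((n.factorial : ℝ) * ((T0 : ℝ) * (2 ^ n) ^ T0) ^ 2) / 2 ^ L) +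
      (n.factorial : ℝ) * ((T0 : ℝ) * (2 ^ n) ^ T0) ^ 2 *
        (2 ^ (2 ^ (n - m / 3)) * (2 ^ (n + 1)) ^ (3 * L)) := by
  classical
  set Z : ℝ := (1 + w ^ G) ^ (2 * (2 ^ n * (n + 1))) * (1 + y) ^ (2 * 2 ^ n) with hZ
  have hZ0 : 0 ≤ Z := by positivity
  set TP : Finset (Mat n) := univ.filter (fun M => P M) with hTP
  have hmemTP : ∀ M, M ∈ TP ↔ P M := fun M => by rw [hTP]; simp
  let hh : Mat n → ℕ := fun M => (HH M).card + (HH (dual M)).card
  set T1 : Finset (Mat n) := TP.filter (fun M => 1 ≤ codeT M) with hT1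
  set T1' : Finset (Mat n) := TP.filter (fun M => T0 ≤ hh M) with hT1'
  set T2 : Finset (Mat n) := TP.filter (fun M => ∀ N, P N → cls N = cls M →
    (codeT N = 0 ∧ hh N < T0)) with hT2
  set T2a : Finset (Mat n) := T2.filter (fun M => ∀ N, P N → cls N = cls M →
    (autF N).card ≤ n ^ m) with hT2a
  set T2b : Finset (Mat n) := T2.filter (fun M => n ^ m < (autF M).card) with hT2b
  set mr : ℝ := ((matR n r).card : ℝ) with hmr
  set cr : ℝ := (cntP n (fun c => c.rk = r) : ℝ) with hcr
  have hcr0 : 0 ≤ cr := by rw [hcr]; positivity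
  have hmr0 : 0 ≤ mr := by rw [hmr]; positivity
  have hmc : mr ≤ (n.factorial : ℝ) * cr := by
    have h7 := card_matR_le (n := n) r
    rw [← cntP_eq] at h7
    rw [hmr, hcr]
    exact_mod_cast h7
  -- general bound
  have hgen : ∀ T ⊆ TP, ∀ z : ℝ, 0 ≤ z →
      (∀ M ∈ T, (w ^ G) ^ (codeT M) * y ^ (hh M) ≤ z) → (T.card : ℝ) ≤ mr * (z * Z) := by
    intro T hT z hz0 hz
    have hTP' : ∀ M ∈ T, P M := fun M hM => (hmemTP M).mp (hT hM)
    exact card_regL_le (r := r) (q := q) (G := G) hn T HH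
      (fun M hM => ⟨(hP M (hTP' M hM)).1, (hP M (hTP' M hM)).2.1⟩)
      (fun M hM => hG M (hTP' M hM))
      (fun M hM N hN => hdec M N (hTP' M hM) (hTP' N hN))
      (fun M hM => hW1 M (hTP' M hM)) (fun M hM => hW2 M (hTP' M hM))
      w y z hw0 hw1 hw hy0 hy hz0 hz
  have hx0 : 0 ≤ w ^ G := by positivity
  have hx1 : w ^ G ≤ 1 := pow_le_one₀ hw0.le hw1
  have b1 : (T1.card : ℝ) ≤ mr * (w ^ G * Z) := by
    refine hgen T1 (Finset.filter_subset _ _) _ hx0 (fun M hM => ?_)
    have h1 := (Finset.mem_filter.mp hM).2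
    calc (w ^ G) ^ (codeT M) * y ^ (hh M) ≤ (w ^ G) ^ 1 * 1 :=
          mul_le_mul (pow_le_pow_of_le_one hx0 hx1 h1) (pow_le_one₀ hy0.le hy1)
            (by positivity) (by positivity)
      _ = w ^ G := by ring
  have b2 : (T1'.card : ℝ) ≤ mr * (y ^ T0 * Z) := by
    refine hgen T1' (Finset.filter_subset _ _) _ (by positivity) (fun M hM => ?_)
    have h1 := (Finset.mem_filter.mp hM).2
    calc (w ^ G) ^ (codeT M) * y ^ (hh M) ≤ 1 * y ^ T0 :=
          mul_le_mul (pow_le_one₀ hx0 hx1) (pow_le_pow_of_le_one hy0.le hy1 h1)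
            (by positivity) (by positivity)
      _ = y ^ T0 := by ring
  have b3 : (T2a.card : ℝ) ≤ mr * (y * Z) := by
    refine hgen T2a ((Finset.filter_subset _ _).trans (Finset.filter_subset _ _)) _
      (by positivity) (fun M hM => ?_)
    obtain ⟨h1, h2⟩ := Finset.mem_filter.mp hM
    obtain ⟨h3, h4⟩ := Finset.mem_filter.mp h1
    have hPM := (hmemTP M).mp h3
    obtain ⟨h5, h6⟩ := h4 M hPM rfl
    have h7 : 1 ≤ hh M := by
      by_contra hcon
      have h8 : hh M = 0 := by omega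
      have h9 : (HH M).card + (HH (dual M)).card = 0 := h8
      have h10 : (FF 3 M).card + (FF 3 (dual M)).card = 0 := h5
      have h11 := hemp M hPM (Finset.card_eq_zero.mp (by omega))
        (Finset.card_eq_zero.mp (by omega)) (Finset.card_eq_zero.mp (by omega))
        (Finset.card_eq_zero.mp (by omega))
      have h12 := (hP M hPM).2.2
      rw [h11] at h12
      exact Finset.not_nonempty_empty h12
    calc (w ^ G) ^ (codeT M) * y ^ (hh M) ≤ 1 * y ^ 1 :=
          mul_le_mul (pow_le_one₀ hx0 hx1) (pow_le_pow_of_le_one hy0.le hy1 h7)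
            (by positivity) (by positivity)
      _ = y := by ring
  -- large automorphism groups
  have b4 : (T2b.card : ℝ) ≤ ((n.factorial : ℝ) * ((T0 : ℝ) * (2 ^ n) ^ T0) ^ 2) *
      (mr / 2 ^ L + 2 ^ (2 ^ (n - m / 3)) * (2 ^ (n + 1)) ^ (3 * L)) := by
    set KS : Finset (Finset (Finset (Fin n))) := T2b.image (KK 2) with hKS
    have hKSc : KS.card ≤ (T0 * (2 ^ n) ^ T0) ^ 2 := by
      have hch : ∀ K : Finset (Finset (Fin n)), ∃ M : Mat n, K ∈ KS → M ∈ T2b ∧ KK 2 M = K := by
        intro K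
        by_cases hK : K ∈ KS
        · obtain ⟨M, hM, hMK⟩ := Finset.mem_image.mp hK
          exact ⟨M, fun _ => ⟨hM, hMK⟩⟩
        · obtain ⟨M⟩ : Nonempty (Mat n) := ⟨⟨Matroid.loopyOn Set.univ, rfl⟩⟩
          exact ⟨M, fun h => absurd h hK⟩
      choose k hk using hch
      have hsm := card_small_sets T0 (2 ^ n) (α := Finset (Fin n)) (by
        rw [Fintype.card_finset, Fintype.card_fin]) Nat.one_le_two_pow
      set SM : Finset (Finset (Finset (Fin n))) := univ.filter (fun S => S.card < T0) with hSM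
      have h1 : KS.card ≤ (SM ×ˢ SM).card := by
        refine Finset.card_le_card_of_injOn (fun K => (HH (k K), HH (dual (k K)))) ?_ ?_
        · intro K hK
          obtain ⟨h1, h2⟩ := hk K (Finset.mem_coe.mp hK)
          obtain ⟨h3, _⟩ := Finset.mem_filter.mp h1
          obtain ⟨h5, h6⟩ := Finset.mem_filter.mp h3
          have h7 := (h6 (k K) ((hmemTP _).mp h5) rfl).2
          have h8 : (HH (k K)).card + (HH (dual (k K))).card < T0 := h7
          exact Finset.mem_coe.mpr (Finset.mem_product.mpr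
            ⟨Finset.mem_filter.mpr ⟨Finset.mem_univ _, by show (HH (k K)).card < T0; omega⟩,
             Finset.mem_filter.mpr ⟨Finset.mem_univ _, by
              show (HH (dual (k K))).card < T0; omega⟩⟩)
        · intro K hK K' hK' hKK
          obtain ⟨h1, h2⟩ := hk K (Finset.mem_coe.mp hK)
          obtain ⟨h1', h2'⟩ := hk K' (Finset.mem_coe.mp hK')
          obtain ⟨h3, _⟩ := Finset.mem_filter.mp h1
          obtain ⟨h3', _⟩ := Finset.mem_filter.mp h1'
          obtain ⟨h5, h6⟩ := Finset.mem_filter.mp h3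
          obtain ⟨h5', h6'⟩ := Finset.mem_filter.mp h3'
          have hp := (hmemTP _).mp h5
          have hp' := (hmemTP _).mp h5'
          have h7 : (FF 3 (k K)).card + (FF 3 (dual (k K))).card = 0 := (h6 _ hp rfl).1
          have h7' : (FF 3 (k K')).card + (FF 3 (dual (k K'))).card = 0 := (h6' _ hp' rfl).1
          have e1 : FF 3 (k K) = ∅ := Finset.card_eq_zero.mp (by omega)
          have e2 : FF 3 (dual (k K)) = ∅ := Finset.card_eq_zero.mp (by omega)
          have e1' : FF 3 (k K') = ∅ := Finset.card_eq_zero.mp (by omega)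
          have e2' : FF 3 (dual (k K')) = ∅ := Finset.card_eq_zero.mp (by omega)
          have e3 : HH (k K) = HH (k K') := congrArg Prod.fst hKK
          have e4 : HH (dual (k K)) = HH (dual (k K')) := congrArg Prod.snd hKK
          rw [← h2, ← h2']
          exact hdec _ _ hp hp' (e1.trans e1'.symm) (e2.trans e2'.symm) e3 e4
      refine h1.trans ?_
      rw [Finset.card_product, ← pow_two]
      exact Nat.pow_le_pow_left hsm 2
    -- covering by fibres
    let FS : Finset (Finset (Fin n)) → Equiv.Perm (Fin n) → Finset (Mat n) := fun K s =>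
      T2b.filter (fun M => KK 2 M = K ∧ act s M = M ∧ m ≤ s.support.card)
    have hcov : T2b ⊆ (KS ×ˢ (univ : Finset (Equiv.Perm (Fin n)))).biUnion
        (fun p => FS p.1 p.2) := by
      intro M hM
      obtain ⟨s, hs, hs2⟩ := exists_large_support hn (Finset.mem_filter.mp hM).2
      have hs1 : act s M = M := by
        have : s ∈ univ.filter (fun s => act s M = M) := hs
        exact (Finset.mem_filter.mp this).2
      refine Finset.mem_biUnion.mpr ⟨(KK 2 M, s), Finset.mem_product.mpr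
        ⟨Finset.mem_image_of_mem _ hM, Finset.mem_univ _⟩,
        Finset.mem_filter.mpr ⟨hM, rfl, hs1, hs2.le⟩⟩
    have hFS : ∀ K s, ((FS K s).card : ℝ) ≤
        mr / 2 ^ L + 2 ^ (2 ^ (n - m / 3)) * (2 ^ (n + 1)) ^ (3 * L) := by
      intro K s
      rcases (FS K s).eq_empty_or_nonempty with h0 | ⟨M0, hM0⟩
      · rw [h0, Finset.card_empty]; push_cast; positivity
      · have hsup := (Finset.mem_filter.mp hM0).2.2.2
        have h1 := card_invariant_le (d := 2) (r := r) (m := m) (L := L) K s hsup (FS K s)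
          (fun M hM => by
            obtain ⟨h1, h2, h3, _⟩ := Finset.mem_filter.mp hM
            have hPM : P M := (hmemTP M).mp
              (Finset.mem_filter.mp (Finset.mem_filter.mp h1).1).1
            exact ⟨(hP M hPM).1, (hP M hPM).2.1, h2, h3⟩)
        have h2 : ((FS K s).card : ℝ) * 2 ^ L ≤ mr +
            2 ^ L * (2 ^ (2 ^ (n - m / 3)) * (2 ^ (n + 1)) ^ (3 * L)) := by
          rw [hmr]; exact_mod_cast h1
        have h3 : (0 : ℝ) < 2 ^ L := by positivity
        calc ((FS K s).card : ℝ) = ((FS K s).card : ℝ) * 2 ^ L / 2 ^ L := by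
              field_simp
          _ ≤ (mr + 2 ^ L * (2 ^ (2 ^ (n - m / 3)) * (2 ^ (n + 1)) ^ (3 * L))) / 2 ^ L :=
              div_le_div_of_nonneg_right h2 h3.le
          _ = _ := by field_simp
    have h1 : (T2b.card : ℝ) ≤ ∑ p ∈ KS ×ˢ (univ : Finset (Equiv.Perm (Fin n))),
        ((FS p.1 p.2).card : ℝ) := by
      have h2 := (Finset.card_le_card hcov).trans Finset.card_biUnion_le
      exact_mod_cast h2
    refine h1.trans ((Finset.sum_le_sum (fun p _ => hFS p.1 p.2)).trans ?_)
    rw [Finset.sum_const, nsmul_eq_mul, Finset.card_product, Finset.card_univ, Fintype.card_perm,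
      Fintype.card_fin]
    refine mul_le_mul_of_nonneg_right ?_ (by positivity)
    push_cast
    rw [mul_comm]
    refine mul_le_mul_of_nonneg_left ?_ (by positivity)
    exact_mod_cast hKSc
  -- classes
  have hcover : (univ.filter (fun c : Cls n => ∃ M : Mat n, cls M = c ∧ P M)) ⊆
      ((T1.image cls ∪ T1'.image cls) ∪ T2a.image cls) ∪ T2b.image cls := by
    intro c hc
    obtain ⟨M, hMc, hPM⟩ := (Finset.mem_filter.mp hc).2
    by_cases h1 : ∃ N, P N ∧ cls N = c ∧ 1 ≤ codeT N
    · obtain ⟨N, hN1, hN2, hN3⟩ := h1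
      refine Finset.mem_union_left _ (Finset.mem_union_left _ (Finset.mem_union_left _
        (Finset.mem_image.mpr ⟨N, Finset.mem_filter.mpr ⟨(hmemTP N).mpr hN1, hN3⟩, hN2⟩)))
    by_cases h2 : ∃ N, P N ∧ cls N = c ∧ T0 ≤ hh N
    · obtain ⟨N, hN1, hN2, hN3⟩ := h2
      refine Finset.mem_union_left _ (Finset.mem_union_left _ (Finset.mem_union_right _
        (Finset.mem_image.mpr ⟨N, Finset.mem_filter.mpr ⟨(hmemTP N).mpr hN1, hN3⟩, hN2⟩)))
    push Not at h1 h2
    have hall : ∀ M', P M' → cls M' = c → M' ∈ T2 := by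
      intro M' hM' hM'c
      refine Finset.mem_filter.mpr ⟨(hmemTP _).mpr hM', fun N hN hNM => ?_⟩
      have h3 := h1 N hN (hNM.trans hM'c)
      have h4 := h2 N hN (hNM.trans hM'c)
      exact ⟨by omega, h4⟩
    by_cases h3 : ∃ N, P N ∧ cls N = c ∧ n ^ m < (autF N).card
    · obtain ⟨N, hN1, hN2, hN3⟩ := h3
      exact Finset.mem_union_right _ (Finset.mem_image.mpr ⟨N, Finset.mem_filter.mpr
        ⟨hall N hN1 hN2, hN3⟩, hN2⟩)
    · push Not at h3
      refine Finset.mem_union_left _ (Finset.mem_union_right _ (Finset.mem_image.mpr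
        ⟨M, Finset.mem_filter.mpr ⟨hall M hPM hMc, fun N hN hNM => h3 N hN (hNM.trans hMc)⟩,
          hMc⟩))
  have hT2aact : ∀ M ∈ T2a, ∀ s, act s M ∈ T2a := by
    intro M hM s
    obtain ⟨h1, h2⟩ := Finset.mem_filter.mp hM
    obtain ⟨h3, h4⟩ := Finset.mem_filter.mp h1
    refine Finset.mem_filter.mpr ⟨Finset.mem_filter.mpr ⟨(hmemTP _).mpr
      (hPact M s ((hmemTP M).mp h3)), fun N hN hNM => ?_⟩, fun N hN hNM => ?_⟩
    · exact h4 N hN (hNM.trans (cls_act s M))
    · exact h2 N hN (hNM.trans (cls_act s M))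
  have b5 : ((T2a.image cls).card : ℝ) ≤ cr * ((n : ℝ) ^ m * y * Z) := by
    have h1 := factorial_mul_image_le T2a hT2aact
    have h2 : ∑ M ∈ T2a, (autF M).card ≤ T2a.card * n ^ m := by
      rw [← smul_eq_mul]
      refine Finset.sum_le_card_nsmul _ _ _ (fun M hM => ?_)
      obtain ⟨h3, h4⟩ := Finset.mem_filter.mp hM
      exact h4 M ((hmemTP M).mp (Finset.mem_filter.mp h3).1) rfl
    have h3 : (n.factorial : ℝ) * (T2a.image cls).card ≤ T2a.card * (n : ℝ) ^ m := by
      exact_mod_cast h1.trans h2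
    have h4 : (n.factorial : ℝ) * (T2a.image cls).card ≤
        (n.factorial : ℝ) * (cr * ((n : ℝ) ^ m * y * Z)) := by
      calc (n.factorial : ℝ) * (T2a.image cls).card ≤ T2a.card * (n : ℝ) ^ m := h3
        _ ≤ (mr * (y * Z)) * (n : ℝ) ^ m := mul_le_mul_of_nonneg_right b3 (by positivity)
        _ ≤ (((n.factorial : ℝ) * cr) * (y * Z)) * (n : ℝ) ^ m := by
            refine mul_le_mul_of_nonneg_right ?_ (by positivity)
            exact mul_le_mul_of_nonneg_right hmc (by positivity)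
        _ = _ := by ring
    exact le_of_mul_le_mul_left h4 (by positivity)
  -- the sum
  have hmain : (cntP n (fun c => ∃ M : Mat n, cls M = c ∧ P M) : ℝ) ≤
      T1.card + T1'.card + (T2a.image cls).card + T2b.card := by
    rw [cntP_eq']
    have h1 := Finset.card_le_card hcover
    have h2 := Finset.card_union_le ((T1.image cls ∪ T1'.image cls) ∪ T2a.image cls)
      (T2b.image cls)
    have h3 := Finset.card_union_le (T1.image cls ∪ T1'.image cls) (T2a.image cls)
    have h4 := Finset.card_union_le (T1.image cls) (T1'.image cls)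
    have h5 : (T1.image cls).card ≤ T1.card := Finset.card_image_le
    have h6 : (T1'.image cls).card ≤ T1'.card := Finset.card_image_le
    have h7 : (T2b.image cls).card ≤ T2b.card := Finset.card_image_le
    have h8 : (univ.filter (fun c : Cls n => ∃ M : Mat n, cls M = c ∧ P M)).card ≤
        T1.card + T1'.card + (T2a.image cls).card + T2b.card := by omega
    exact_mod_cast h8
  have hF0 : (0 : ℝ) ≤ n.factorial := by positivity
  have c1 : (T1.card : ℝ) ≤ ((n.factorial : ℝ) * cr) * (w ^ G * Z) :=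
    b1.trans (mul_le_mul_of_nonneg_right hmc (by positivity))
  have c2 : (T1'.card : ℝ) ≤ ((n.factorial : ℝ) * cr) * (y ^ T0 * Z) :=
    b2.trans (mul_le_mul_of_nonneg_right hmc (by positivity))
  have c4 : (T2b.card : ℝ) ≤ ((n.factorial : ℝ) * ((T0 : ℝ) * (2 ^ n) ^ T0) ^ 2) *
      (((n.factorial : ℝ) * cr) / 2 ^ L + 2 ^ (2 ^ (n - m / 3)) * (2 ^ (n + 1)) ^ (3 * L)) := by
    refine b4.trans (mul_le_mul_of_nonneg_left ?_ (by positivity))
    have : mr / 2 ^ L ≤ ((n.factorial : ℝ) * cr) / 2 ^ L :=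
      div_le_div_of_nonneg_right hmc (by positivity)
    linarith
  calc (cntP n (fun c => ∃ M : Mat n, cls M = c ∧ P M) : ℝ)
      ≤ T1.card + T1'.card + (T2a.image cls).card + T2b.card := hmain
    _ ≤ ((n.factorial : ℝ) * cr) * (w ^ G * Z) + ((n.factorial : ℝ) * cr) * (y ^ T0 * Z) +
        cr * ((n : ℝ) ^ m * y * Z) +
        ((n.factorial : ℝ) * ((T0 : ℝ) * (2 ^ n) ^ T0) ^ 2) *
      (((n.factorial : ℝ) * cr) / 2 ^ L + 2 ^ (2 ^ (n - m / 3)) * (2 ^ (n + 1)) ^ (3 * L)) := by
        linarith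
    _ = _ := by ring

end H83L
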