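import Pool.Agent.H83Pav.Numeric

/-!
MP_039b14_co: numerical estimates for the large-circuit regime.
-/

namespace H83L

open Finset Filter Topology H38Pav H83Pav

/-- the base `2 ^ (-1 / (96 n))` -/
noncomputable def ww (n : ℕ) : ℝ := Real.exp (-(Real.log 2 / (96 * n)))

/-- the weight of a mid circuit -/
noncomputable def yy (Q n : ℕ) : ℝ :=
  Real.exp (-((n / (5 * Q) : ℕ) * Real.log (2 * n + 1) / 8))

/-- the size parameter -/
def GG (n r : ℕ) : ℕ := (min r (n - r) - 1) * (n / 20000 * (n / 20000))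

theorem ww_pos (n : ℕ) : 0 < ww n := Real.exp_pos _

theorem ww_le_one (n : ℕ) : ww n ≤ 1 := by
  unfold ww
  rw [Real.exp_le_one_iff]
  have := log2_pos
  have h : 0 ≤ Real.log 2 / (96 * n) := by positivity
  linarith

theorem ww_pow (n m : ℕ) : ww n ^ m = Real.exp (-(Real.log 2 * m / (96 * n))) := by
  unfold ww
  rw [← Real.exp_nat_mul]
  congr 1
  ring

theorem ww_pow_n (n : ℕ) (hn : 0 < n) : ww n ^ (96 * n) = 1 / 2 := by
  rw [ww_pow]
  have hn' : (n : ℝ) ≠ 0 := by positivity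
  have : -(Real.log 2 * ((96 * n : ℕ) : ℝ) / (96 * n)) = -Real.log 2 := by
    push_cast
    field_simp
  rw [this, Real.exp_neg, Real.exp_log (by norm_num)]
  norm_num

theorem yy_pos (Q n : ℕ) : 0 < yy Q n := Real.exp_pos _

theorem yy_le_one (Q n : ℕ) : yy Q n ≤ 1 := by
  unfold yy
  rw [Real.exp_le_one_iff]
  have h1 : 0 ≤ Real.log (2 * (n : ℝ) + 1) := by
    apply Real.log_nonneg
    have : (0 : ℝ) ≤ n := by positivity
    linarith
  have h : 0 ≤ ((n / (5 * Q) : ℕ) : ℝ) * Real.log (2 * n + 1) / 8 := by positivity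
  linarith

theorem yy_pow (Q n : ℕ) : 1 ≤ (2 * (n : ℝ) + 1) ^ (n / (5 * Q)) * yy Q n ^ 8 := by
  have h0 : (0 : ℝ) < 2 * (n : ℝ) + 1 := by positivity
  have h1 : (2 * (n : ℝ) + 1) ^ (n / (5 * Q)) =
      Real.exp ((n / (5 * Q) : ℕ) * Real.log (2 * n + 1)) := by
    rw [Real.exp_nat_mul, Real.exp_log h0]
  have h2 : yy Q n ^ 8 = Real.exp (-((n / (5 * Q) : ℕ) * Real.log (2 * n + 1))) := by
    unfold yy
    rw [← Real.exp_nat_mul]
    congr 1
    push_cast
    ring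
  rw [h1, h2, ← Real.exp_add]
  simp

theorem eventually_log_ge (A : ℝ) : ∀ᶠ n : ℕ in atTop, A ≤ Real.log n :=
  (Real.tendsto_log_atTop.comp (tendsto_natCast_atTop_atTop (R := ℝ))).eventually
    (eventually_ge_atTop A)

theorem eventually_mul_log_le (A : ℝ) : ∀ᶠ n : ℕ in atTop, A * Real.log n ≤ n := by
  have h1 : ∀ᶠ x : ℝ in atTop, ‖Real.log x‖ ≤ (1 / (|A| + 1)) * ‖id x‖ :=
    Real.isLittleO_log_id_atTop.def (by positivity)
  have h2 := (tendsto_natCast_atTop_atTop (R := ℝ)).eventually h1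
  filter_upwards [h2, eventually_log_ge 0] with n hn hlog
  simp only [id, Real.norm_eq_abs] at hn
  rw [abs_of_nonneg hlog, abs_of_nonneg (by positivity : (0 : ℝ) ≤ n)] at hn
  have h3 : (0 : ℝ) < |A| + 1 := by positivity
  have h4 : (|A| + 1) * Real.log n ≤ n := by
    calc (|A| + 1) * Real.log n ≤ (|A| + 1) * (1 / (|A| + 1) * n) :=
          mul_le_mul_of_nonneg_left hn h3.le
      _ = n := by field_simp
  have h5 : A * Real.log n ≤ (|A| + 1) * Real.log n :=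
    mul_le_mul_of_nonneg_right (by linarith [le_abs_self A]) hlog
  linarith

theorem eventually_natCast_ge (A : ℝ) : ∀ᶠ n : ℕ in atTop, A ≤ (n : ℝ) :=
  (tendsto_natCast_atTop_atTop (R := ℝ)).eventually (eventually_ge_atTop _)

theorem factorial_le_exp {n : ℕ} (hn : 0 < n) :
    (n.factorial : ℝ) ≤ Real.exp (n * Real.log n) := by
  have h1 : (n.factorial : ℝ) ≤ (n : ℝ) ^ n := by exact_mod_cast Nat.factorial_le_pow n
  have h0 : (0 : ℝ) < n := by exact_mod_cast hn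
  rw [Real.exp_nat_mul, Real.exp_log h0]
  exact h1

/-- the bound for the multiplicative term -/
theorem eventually_regL_num1 (Q : ℕ) (hQ : 0 < Q) : ∀ᶠ n : ℕ in atTop, ∀ r : ℕ,
    4 * n < 9 * min (n - r) r →
    ((1 + ww n ^ GG n r) ^ (2 * (2 ^ n * (n + 1))) * (1 + yy Q n) ^ (2 * 2 ^ n)) *
        ((n.factorial : ℝ) * (ww n ^ GG n r + yy Q n ^ (160 * Q)) +
          (n : ℝ) ^ (n / (160 * Q)) * yy Q n) +
      (n.factorial : ℝ) * ((n.factorial : ℝ) *
        (((160 * Q : ℕ) : ℝ) * (2 ^ n) ^ (160 * Q)) ^ 2) / 2 ^ (n * n) ≤ 1 / n := by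
  have hQ0 : (0 : ℝ) < Q := by exact_mod_cast hQ
  filter_upwards [eventually_log_ge (160 * Q), eventually_mul_log_le (4 * 10 ^ 12),
    eventually_natCast_ge (10 ^ 13), eventually_natCast_ge (2560 * Q),
    eventually_ge_atTop 1] with n hl1 hl2 hn13 hnQ hn1 r hmid
  set ℓ : ℝ := Real.log n with hℓ
  have hn0 : (0 : ℝ) < n := by linarith
  have hQ1 : (1 : ℝ) ≤ Q := by exact_mod_cast hQ
  have hℓ160 : (160 : ℝ) ≤ ℓ := by
    calc (160 : ℝ) ≤ 160 * Q := by linarith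
      _ ≤ ℓ := hl1
  have hL := log2_pos
  have hL1 : (0.69 : ℝ) ≤ Real.log 2 := by have := Real.log_two_gt_d9; linarith
  have hL2 : Real.log 2 ≤ 0.7 := by have := Real.log_two_lt_d9; linarith
  have hnn : (n : ℝ) * ℓ ≤ (n : ℝ) ^ 2 / (4 * 10 ^ 12) := by
    rw [le_div_iff₀ (by norm_num)]
    nlinarith
  -- the first weight
  set x : ℝ := ww n ^ GG n r with hx
  have hx0 : 0 ≤ x := pow_nonneg (ww_pos n).le _
  have hx1 : x ≤ Real.exp (-((n : ℝ) ^ 2 / 10 ^ 12)) := by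
    rw [hx, ww_pow]
    apply Real.exp_le_exp.mpr
    rw [neg_le_neg_iff]
    have a1 : ((n : ℕ) : ℝ) ≤ ((3 * (min r (n - r) - 1) : ℕ) : ℝ) := by
      exact_mod_cast mid_ge (by
        have : (9 : ℝ) ≤ n := by linarith
        exact_mod_cast this) hmid
    push_cast [-Nat.cast_min, -Nat.cast_sub] at a1
    have a2 : (n : ℝ) / 40000 ≤ ((n / 20000 : ℕ) : ℝ) := by
      have b1 : n < 20000 * (n / 20000 + 1) := Nat.lt_mul_div_succ n (by norm_num)
      have b2 : (n : ℝ) < 20000 * (((n / 20000 : ℕ) : ℝ) + 1) := by exact_mod_cast b1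
      linarith
    have a3 : (n : ℝ) / 3 * ((n : ℝ) / 40000 * (n / 40000)) ≤ (GG n r : ℝ) := by
      unfold GG
      rw [Nat.cast_mul, Nat.cast_mul]
      have b0 : (0 : ℝ) ≤ (n : ℝ) / 40000 := by positivity
      have b1 := mul_le_mul a2 a2 b0 (by positivity)
      exact mul_le_mul (by linarith) b1 (by positivity) (by positivity)
    rw [div_le_div_iff₀ (by norm_num) (by positivity)]
    have a4 : Real.log 2 * ((n : ℝ) / 3 * ((n : ℝ) / 40000 * (n / 40000))) ≤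
        Real.log 2 * (GG n r : ℝ) := mul_le_mul_of_nonneg_left a3 hL.le
    have a5 : (n : ℝ) ^ 2 * (96 * n) ≤
        Real.log 2 * ((n : ℝ) / 3 * ((n : ℝ) / 40000 * (n / 40000))) * 10 ^ 12 := by
      have b1 : 0 < (n : ℝ) ^ 3 := by positivity
      nlinarith
    linarith [mul_le_mul_of_nonneg_right a4 (by norm_num : (0 : ℝ) ≤ 10 ^ 12)]
  -- the second weight
  set y : ℝ := yy Q n with hy
  have hy0 : 0 ≤ y := (yy_pos Q n).le
  have hlog : ℓ ≤ Real.log (2 * n + 1) := Real.log_le_log hn0 (by linarith)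
  have hq : (n : ℝ) / (10 * Q) ≤ ((n / (5 * Q) : ℕ) : ℝ) := by
    have b1 : n < (5 * Q) * (n / (5 * Q) + 1) := Nat.lt_mul_div_succ n (by omega)
    have b2 : (n : ℝ) < (5 * Q) * (((n / (5 * Q) : ℕ) : ℝ) + 1) := by exact_mod_cast b1
    rw [div_le_iff₀ (by positivity)]
    nlinarith
  set c : ℝ := 1 / (160 * Q) with hc
  have hc0 : 0 < c := by positivity
  have hcQ : c * (160 * Q) = 1 := by rw [hc]; field_simp
  have hcℓ : 1 ≤ c * ℓ := by
    calc (1 : ℝ) = c * (160 * Q) := hcQ.symm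
      _ ≤ c * ℓ := mul_le_mul_of_nonneg_left hl1 hc0.le
  have hc1 : c ≤ 1 := by
    rw [hc, div_le_one (by positivity)]; linarith
  have hy1 : y ≤ Real.exp (-(2 * c * (n * ℓ))) := by
    rw [hy]
    unfold yy
    apply Real.exp_le_exp.mpr
    rw [neg_le_neg_iff]
    have a1 : (n : ℝ) / (10 * Q) * ℓ ≤ ((n / (5 * Q) : ℕ) : ℝ) * Real.log (2 * n + 1) :=
      mul_le_mul hq hlog (by linarith) (by positivity)
    have a2 : 2 * c * (n * ℓ) = (n : ℝ) / (10 * Q) * ℓ / 8 := by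
      rw [hc]; field_simp; norm_num
    rw [a2]; linarith
  have hnℓ0 : 0 ≤ (n : ℝ) * ℓ := by
    have : 0 ≤ ℓ := by linarith
    positivity
  -- Z
  have hZ : (1 + x) ^ (2 * (2 ^ n * (n + 1))) * (1 + y) ^ (2 * 2 ^ n) ≤ 3 := by
    have a0 : (2 : ℝ) ^ n ≤ Real.exp n := by
      calc (2 : ℝ) ^ n ≤ (Real.exp 1) ^ n :=
            pow_le_pow_left₀ (by norm_num) (by have := Real.exp_one_gt_d9; linarith) n
        _ = Real.exp n := by rw [← Real.exp_nat_mul]; simp
    have a1 : (n : ℝ) + 1 ≤ Real.exp n := Real.add_one_le_exp _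
    have a2 : (4 : ℝ) ≤ Real.exp n := by linarith
    have e1 : ((2 * (2 ^ n * (n + 1)) : ℕ) : ℝ) * x ≤ 1 / 2 := by
      push_cast
      have b1 : 2 * ((2 : ℝ) ^ n * (n + 1)) * 2 ≤ Real.exp (3 * n) := by
        calc 2 * ((2 : ℝ) ^ n * (n + 1)) * 2 = 4 * (2 ^ n * (n + 1)) := by ring
          _ ≤ Real.exp n * (Real.exp n * Real.exp n) := by gcongr
          _ = Real.exp (3 * n) := by rw [← Real.exp_add, ← Real.exp_add]; ring_nf
      have b2 : 2 * ((2 : ℝ) ^ n * (n + 1)) * 2 * x ≤ 1 := by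
        calc 2 * ((2 : ℝ) ^ n * (n + 1)) * 2 * x ≤
              Real.exp (3 * n) * Real.exp (-((n : ℝ) ^ 2 / 10 ^ 12)) := by gcongr
          _ = Real.exp (3 * n - (n : ℝ) ^ 2 / 10 ^ 12) := by rw [← Real.exp_add]; ring_nf
          _ ≤ 1 := by
              rw [Real.exp_le_one_iff]
              have : 3 * (n : ℝ) ≤ (n : ℝ) ^ 2 / 10 ^ 12 := by
                rw [le_div_iff₀ (by norm_num)]
                nlinarith
              linarith
      linarith
    have e2 : ((2 * 2 ^ n : ℕ) : ℝ) * y ≤ 1 / 2 := by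
      push_cast
      have b1 : 2 * (2 : ℝ) ^ n * 2 ≤ Real.exp (2 * n) := by
        calc 2 * (2 : ℝ) ^ n * 2 = 4 * 2 ^ n := by ring
          _ ≤ Real.exp n * Real.exp n := by gcongr
          _ = Real.exp (2 * n) := by rw [← Real.exp_add]; ring_nf
      have b2 : 2 * (2 : ℝ) ^ n * 2 * y ≤ 1 := by
        calc 2 * (2 : ℝ) ^ n * 2 * y ≤ Real.exp (2 * n) * Real.exp (-(2 * c * (n * ℓ))) := by
              gcongr
          _ = Real.exp (2 * n - 2 * c * (n * ℓ)) := by rw [← Real.exp_add]; ring_nf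
          _ ≤ 1 := by
              rw [Real.exp_le_one_iff]
              nlinarith
      linarith
    calc (1 + x) ^ (2 * (2 ^ n * (n + 1))) * (1 + y) ^ (2 * 2 ^ n) ≤
          Real.exp (((2 * (2 ^ n * (n + 1)) : ℕ) : ℝ) * x) *
            Real.exp (((2 * 2 ^ n : ℕ) : ℝ) * y) :=
          mul_le_mul (one_add_pow_le x _ hx0) (one_add_pow_le y _ hy0) (by positivity)
            (by positivity)
      _ ≤ Real.exp (1 / 2) * Real.exp (1 / 2) := by gcongr
      _ = Real.exp 1 := by rw [← Real.exp_add]; norm_num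
      _ ≤ 3 := by have := Real.exp_one_lt_d9; linarith
  -- the terms
  have hfac := factorial_le_exp (n := n) (by omega)
  rw [← hℓ] at hfac
  set E : ℝ := Real.exp (-(n * ℓ)) with hE
  set F : ℝ := Real.exp (-(c * (n * ℓ))) with hF
  have hEF : E ≤ F := by
    rw [hE, hF]
    apply Real.exp_le_exp.mpr
    nlinarith
  have t1 : (n.factorial : ℝ) * x ≤ E := by
    calc (n.factorial : ℝ) * x ≤ Real.exp (n * ℓ) * Real.exp (-((n : ℝ) ^ 2 / 10 ^ 12)) := by
          gcongr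
      _ = Real.exp (n * ℓ - (n : ℝ) ^ 2 / 10 ^ 12) := by rw [← Real.exp_add]; ring_nf
      _ ≤ E := by
          rw [hE]
          apply Real.exp_le_exp.mpr
          have : (n : ℝ) ^ 2 / 10 ^ 12 = 4 * ((n : ℝ) ^ 2 / (4 * 10 ^ 12)) := by ring
          linarith
  have t2 : (n.factorial : ℝ) * y ^ (160 * Q) ≤ E := by
    have a1 : y ^ (160 * Q) ≤ Real.exp (-(2 * (n * ℓ))) := by
      calc y ^ (160 * Q) ≤ (Real.exp (-(2 * c * (n * ℓ)))) ^ (160 * Q) :=
            pow_le_pow_left₀ hy0 hy1 _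
        _ = Real.exp (-(2 * (n * ℓ))) := by
            rw [← Real.exp_nat_mul]
            congr 1
            push_cast
            calc (160 * (Q : ℝ)) * (-(2 * c * (n * ℓ))) = -(2 * (c * (160 * Q)) * (n * ℓ)) := by ring
              _ = _ := by rw [hcQ]; ring
    calc (n.factorial : ℝ) * y ^ (160 * Q) ≤ Real.exp (n * ℓ) * Real.exp (-(2 * (n * ℓ))) := by
          gcongr
      _ = E := by rw [← Real.exp_add, hE]; ring_nf
  have t3 : (n : ℝ) ^ (n / (160 * Q)) * y ≤ F := by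
    have a1 : (n : ℝ) ^ (n / (160 * Q)) ≤ Real.exp (c * (n * ℓ)) := by
      have b1 : (n : ℝ) ^ (n / (160 * Q)) = Real.exp (((n / (160 * Q) : ℕ) : ℝ) * ℓ) := by
        rw [Real.exp_nat_mul, hℓ, Real.exp_log hn0]
      rw [b1]
      apply Real.exp_le_exp.mpr
      have b2 : ((n / (160 * Q) : ℕ) : ℝ) ≤ c * n := by
        have b3 : ((n / (160 * Q) : ℕ) : ℝ) ≤ (n : ℝ) / ((160 * Q : ℕ) : ℝ) := Nat.cast_div_le
        push_cast at b3
        calc ((n / (160 * Q) : ℕ) : ℝ) ≤ (n : ℝ) / (160 * Q) := b3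
          _ = c * n := by rw [hc]; ring
      calc ((n / (160 * Q) : ℕ) : ℝ) * ℓ ≤ (c * n) * ℓ :=
            mul_le_mul_of_nonneg_right b2 (by linarith)
        _ = _ := by ring
    calc (n : ℝ) ^ (n / (160 * Q)) * y ≤
          Real.exp (c * (n * ℓ)) * Real.exp (-(2 * c * (n * ℓ))) := by gcongr
      _ = F := by rw [← Real.exp_add, hF]; ring_nf
  have t4 : (n.factorial : ℝ) * ((n.factorial : ℝ) *
        (((160 * Q : ℕ) : ℝ) * (2 ^ n) ^ (160 * Q)) ^ 2) / 2 ^ (n * n) ≤ E := by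
    set T : ℝ := ((160 * Q : ℕ) : ℝ) with hT
    have hT1 : T = 160 * Q := by rw [hT]; push_cast; ring
    have hT0 : 0 ≤ T := by rw [hT]; positivity
    have a1 : T ≤ Real.exp T := by linarith [Real.add_one_le_exp T]
    have a2 : ((2 : ℝ) ^ n) ^ (160 * Q) ≤ Real.exp (T * n) := by
      rw [← pow_mul]
      calc (2 : ℝ) ^ (n * (160 * Q)) ≤ (Real.exp 1) ^ (n * (160 * Q)) :=
            pow_le_pow_left₀ (by norm_num) (by have := Real.exp_one_gt_d9; linarith) _
        _ = Real.exp (T * n) := by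
            rw [← Real.exp_nat_mul, hT]; push_cast; ring_nf
    have a3 : (2 : ℝ) ^ (n * n) = Real.exp (Real.log 2 * (n : ℝ) ^ 2) := by
      have : Real.exp (Real.log 2 * (n : ℝ) ^ 2) = (Real.exp (Real.log 2)) ^ (n * n) := by
        rw [← Real.exp_nat_mul]; push_cast; ring_nf
      rw [this, Real.exp_log (by norm_num)]
    rw [div_le_iff₀ (by positivity), a3]
    calc (n.factorial : ℝ) * ((n.factorial : ℝ) * (T * (2 ^ n) ^ (160 * Q)) ^ 2) ≤
          Real.exp (n * ℓ) * (Real.exp (n * ℓ) * (Real.exp T * Real.exp (T * n)) ^ 2) := by gcongr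
      _ = Real.exp (2 * (n * ℓ) + 2 * T + 2 * (T * n)) := by
          rw [pow_two, ← Real.exp_add, ← Real.exp_add, ← Real.exp_add, ← Real.exp_add]
          ring_nf
      _ ≤ Real.exp (-(n * ℓ) + Real.log 2 * (n : ℝ) ^ 2) := by
          apply Real.exp_le_exp.mpr
          have b1 : 2560 * (Q : ℝ) ≤ n := hnQ
          have b2 : 16 * T ≤ n := by rw [hT1]; linarith
          have b3 : 16 * (T * n) ≤ (n : ℝ) ^ 2 := by nlinarith
          have b4 : 2 * T ≤ 2 * (T * n) := by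
            have : (1 : ℝ) ≤ n := by linarith
            nlinarith
          have b5 : (n : ℝ) * ℓ ≤ (n : ℝ) ^ 2 / 100 := by
            have : (n : ℝ) ^ 2 / (4 * 10 ^ 12) ≤ (n : ℝ) ^ 2 / 100 := by
              apply div_le_div_of_nonneg_left (by positivity) (by norm_num) (by norm_num)
            linarith
          have b6 : 0.69 * (n : ℝ) ^ 2 ≤ Real.log 2 * (n : ℝ) ^ 2 :=
            mul_le_mul_of_nonneg_right hL1 (by positivity)
          nlinarith
      _ = E * Real.exp (Real.log 2 * (n : ℝ) ^ 2) := by rw [Real.exp_add, hE]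
  have hF2 : 10 * F ≤ 1 / n := by
    rw [le_div_iff₀ hn0]
    have a1 : F ≤ Real.exp (-n) := by
      rw [hF]
      apply Real.exp_le_exp.mpr
      nlinarith
    have a2 : (n : ℝ) ^ 2 / 4 ≤ Real.exp n := by
      have b1 : (n : ℝ) / 2 ≤ Real.exp (n / 2) := by
        linarith [Real.add_one_le_exp ((n : ℝ) / 2)]
      calc (n : ℝ) ^ 2 / 4 = (n / 2) * (n / 2) := by ring
        _ ≤ Real.exp (n / 2) * Real.exp (n / 2) := by gcongr
        _ = Real.exp n := by rw [← Real.exp_add]; ring_nf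
    have a3 : 10 * (n : ℝ) ≤ Real.exp n := by nlinarith
    calc 10 * F * n ≤ 10 * Real.exp (-n) * n := by gcongr
      _ = (10 * n) * Real.exp (-n) := by ring
      _ ≤ Real.exp n * Real.exp (-n) := by gcongr
      _ = 1 := by rw [← Real.exp_add]; simp
  have hE0 : 0 ≤ E := (Real.exp_pos _).le
  have hF0 : 0 ≤ F := (Real.exp_pos _).le
  have t5 : (n.factorial : ℝ) * (x + y ^ (160 * Q)) + (n : ℝ) ^ (n / (160 * Q)) * y ≤
      2 * E + F := by linarith
  calc ((1 + x) ^ (2 * (2 ^ n * (n + 1))) * (1 + y) ^ (2 * 2 ^ n)) *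
        ((n.factorial : ℝ) * (x + y ^ (160 * Q)) + (n : ℝ) ^ (n / (160 * Q)) * y) +
      (n.factorial : ℝ) * ((n.factorial : ℝ) *
        (((160 * Q : ℕ) : ℝ) * (2 ^ n) ^ (160 * Q)) ^ 2) / 2 ^ (n * n)
      ≤ 3 * (2 * E + F) + E := by
        refine add_le_add ?_ t4
        exact mul_le_mul hZ t5 (by positivity) (by norm_num)
    _ ≤ 10 * F := by linarith
    _ ≤ 1 / n := hF2

/-- the bound for the additive term -/
theorem eventually_regL_num2 (Q : ℕ) (hQ : 0 < Q) : ∀ᶠ n : ℕ in atTop,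
    (n.factorial : ℝ) * (((160 * Q : ℕ) : ℝ) * (2 ^ n) ^ (160 * Q)) ^ 2 *
        (2 ^ (2 ^ (n - n / (160 * Q) / 3)) * (2 ^ (n + 1)) ^ (3 * (n * n))) ≤
      2 ^ (2 ^ n / n ^ 10) := by
  have e1 := eventually_pow_le 14 2 2 (by norm_num) (by norm_num)
  have e2 : ∀ᶠ n : ℕ in atTop, 2 * (((480 * Q : ℕ) : ℝ)) ^ 10 *
      (((n / (480 * Q) : ℕ) : ℝ) + 1) ^ 10 ≤ 2 ^ (n / (480 * Q)) :=
    (Nat.tendsto_div_const_atTop (n := 480 * Q) (by omega)).eventually
      (eventually_poly 10 (2 * (((480 * Q : ℕ) : ℝ)) ^ 10) 2 (by norm_num))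
  filter_upwards [e1, e2, eventually_ge_atTop (320 * Q + 10)] with n h1 h2 hn
  -- exponents
  have h3 : n.factorial ≤ 2 ^ (n * n) := by
    calc n.factorial ≤ n ^ n := Nat.factorial_le_pow n
      _ ≤ (2 ^ n) ^ n := Nat.pow_le_pow_left Nat.lt_two_pow_self.le n
      _ = 2 ^ (n * n) := by rw [← pow_mul]
  have h4 : 160 * Q ≤ 2 ^ (160 * Q) := Nat.lt_two_pow_self.le
  set m : ℕ := n / (160 * Q) / 3 with hm
  have hm2 : m = n / (480 * Q) := by
    rw [hm, Nat.div_div_eq_div_mul]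
    congr 1; ring
  have hmn : m ≤ n := by rw [hm2]; exact Nat.div_le_self _ _
  have h5 : n.factorial * ((160 * Q) * (2 ^ n) ^ (160 * Q)) ^ 2 *
        (2 ^ (2 ^ (n - m)) * (2 ^ (n + 1)) ^ (3 * (n * n))) ≤
      2 ^ (n * n + 2 * (160 * Q + n * (160 * Q)) + 2 ^ (n - m) + (n + 1) * (3 * (n * n))) := by
    have a1 : ((160 * Q) * (2 ^ n) ^ (160 * Q)) ^ 2 ≤ 2 ^ (2 * (160 * Q + n * (160 * Q))) := by
      calc ((160 * Q) * (2 ^ n) ^ (160 * Q)) ^ 2 ≤
            (2 ^ (160 * Q) * (2 ^ n) ^ (160 * Q)) ^ 2 :=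
            Nat.pow_le_pow_left (Nat.mul_le_mul_right _ h4) 2
        _ = _ := by rw [← pow_mul, ← pow_add, ← pow_mul]; congr 1; ring
    calc n.factorial * ((160 * Q) * (2 ^ n) ^ (160 * Q)) ^ 2 *
        (2 ^ (2 ^ (n - m)) * (2 ^ (n + 1)) ^ (3 * (n * n))) ≤
          2 ^ (n * n) * 2 ^ (2 * (160 * Q + n * (160 * Q))) *
        (2 ^ (2 ^ (n - m)) * (2 ^ (n + 1)) ^ (3 * (n * n))) :=
          Nat.mul_le_mul_right _ (Nat.mul_le_mul h3 a1)
      _ = _ := by rw [← pow_mul 2 (n + 1), ← pow_add, ← pow_add, ← pow_add]; congr 1; ring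
  have h6 : n * n + 2 * (160 * Q + n * (160 * Q)) + 2 ^ (n - m) + (n + 1) * (3 * (n * n)) ≤
      2 ^ n / n ^ 10 := by
    have hn0 : 0 < n := by omega
    rw [Nat.le_div_iff_mul_le (by positivity)]
    have a1 : 2 * n ^ 14 ≤ 2 ^ n := by exact_mod_cast h1
    have a2 : n * n + 2 * (160 * Q + n * (160 * Q)) + (n + 1) * (3 * (n * n)) ≤ n ^ 4 := by
      have b1 : 320 * Q ≤ n := by omega
      have b2 : 10 ≤ n := by omega
      have b3 : 2 * (160 * Q + n * (160 * Q)) ≤ n + n * n := by nlinarith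
      have b4 : n * n + (n + n * n) + (n + 1) * (3 * (n * n)) ≤ n ^ 4 := by
        have c1 : n ^ 4 = n * (n * (n * n)) := by ring
        have c2 : 10 * (n * (n * n)) ≤ n * (n * (n * n)) := Nat.mul_le_mul_right _ b2
        have c3 : n * n ≤ n * (n * n) := Nat.le_mul_of_pos_left _ hn0
        have c4 : n ≤ n * n := Nat.le_mul_of_pos_left _ hn0
        rw [c1]
        nlinarith
      omega
    have a3 : 2 ^ (n - m) * (2 * n ^ 10) ≤ 2 ^ n := by
      have b1 : n < (480 * Q) * (n / (480 * Q) + 1) := Nat.lt_mul_div_succ n (by omega)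
      rw [← hm2] at b1 h2
      have b2 : 2 * (480 * Q) ^ 10 * (m + 1) ^ 10 ≤ 2 ^ m := by exact_mod_cast h2
      have b3 : 2 * n ^ 10 ≤ 2 ^ m := by
        calc 2 * n ^ 10 ≤ 2 * ((480 * Q) * (m + 1)) ^ 10 :=
              Nat.mul_le_mul_left _ (Nat.pow_le_pow_left b1.le 10)
          _ = 2 * (480 * Q) ^ 10 * (m + 1) ^ 10 := by rw [mul_pow]; ring
          _ ≤ 2 ^ m := b2
      calc 2 ^ (n - m) * (2 * n ^ 10) ≤ 2 ^ (n - m) * 2 ^ m := Nat.mul_le_mul_left _ b3
        _ = 2 ^ n := by rw [← pow_add]; congr 1; omega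
    have a4 : 2 * ((n * n + 2 * (160 * Q + n * (160 * Q)) + 2 ^ (n - m) +
        (n + 1) * (3 * (n * n))) * n ^ 10) ≤ 2 * 2 ^ n := by
      calc 2 * ((n * n + 2 * (160 * Q + n * (160 * Q)) + 2 ^ (n - m) +
        (n + 1) * (3 * (n * n))) * n ^ 10) =
          2 * ((n * n + 2 * (160 * Q + n * (160 * Q)) + (n + 1) * (3 * (n * n))) * n ^ 10) +
            2 ^ (n - m) * (2 * n ^ 10) := by ring
        _ ≤ 2 * (n ^ 4 * n ^ 10) + 2 ^ n :=
            add_le_add (Nat.mul_le_mul_left _ (Nat.mul_le_mul_right _ a2)) a3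
        _ = 2 * n ^ 14 + 2 ^ n := by rw [← pow_add]
        _ ≤ 2 ^ n + 2 ^ n := Nat.add_le_add_right a1 _
        _ = 2 * 2 ^ n := by ring
    exact Nat.le_of_mul_le_mul_left a4 (by norm_num)
  have h7 := h5.trans (Nat.pow_le_pow_right (by norm_num) h6)
  exact_mod_cast h7

end H83L
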