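import Pool.Agent.H83Pav.RegLCls
import Pool.Agent.H83Pav.RegLNum

/-!
MP_039b14_co: the number of classes of the large-circuit regime, abstract form.
-/

namespace H83L

open Finset Filter Topology H38Pav H83Pav

/-- what the counting needs from the structure theory -/
structure RegData (n r Q : ℕ) (P : Mat n → Prop) (HH : Mat n → Finset (Finset (Fin n))) :
    Prop where
  base : ∀ M, P M → rk M = r ∧ NoShallow 2 M ∧ Wide (n / 20000) M ∧ (KK 2 M).Nonempty
  act : ∀ M s, P M → P (act s M)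
  dec : ∀ M N, P M → P N → FF 3 M = FF 3 N → FF 3 (dual M) = FF 3 (dual N) →
      HH M = HH N → HH (dual M) = HH (dual N) → KK 2 M = KK 2 N
  emp : ∀ M, P M → FF 3 M = ∅ → FF 3 (dual M) = ∅ → HH M = ∅ → HH (dual M) = ∅ → KK 2 M = ∅
  fam : ∀ M, P M → ∃ W ⊆ KK 2 M,
      max (HH M).card (HH (dual M)).card * (n * n) ≤ Q * W.card ∧
      ∀ X ∈ W, ∀ S ⊆ W, (∀ Y ∈ S, (X ∩ Y).card + 1 = r) → S.card ≤ 2 * n

theorem low_mono {n : ℕ} {M : Mat n} : Low 3 M ⊆ Low 2 M := by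
  intro X hX
  obtain ⟨h1, C, h2, h3, h4⟩ := mem_Low.mp hX
  exact mem_Low.mpr ⟨h1, C, h2, h3, by omega⟩

theorem KK_mono32 {n : ℕ} {M : Mat n} : KK 3 M ⊆ KK 2 M := by
  intro X hX
  rcases mem_KK.mp hX with h | h
  · exact mem_KK.mpr (Or.inl (low_mono h))
  · exact mem_KK.mpr (Or.inr (low_mono h))

theorem q_bound {n Q h w : ℕ} (hn : 4 ≤ n) (hQ : 0 < Q) (hw : h * (n * n) ≤ Q * w) :
    2 * (2 * n + 1) * (n / (5 * Q) * h) ≤ w := by
  have h1 : Q * (2 * (2 * n + 1) * (n / (5 * Q))) ≤ n * n := by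
    have h2 : 5 * Q * (n / (5 * Q)) ≤ n := Nat.mul_div_le n (5 * Q)
    have h3 : 5 * (Q * (2 * (2 * n + 1) * (n / (5 * Q)))) ≤ 5 * (n * n) := by
      calc 5 * (Q * (2 * (2 * n + 1) * (n / (5 * Q)))) =
            (4 * n + 2) * (5 * Q * (n / (5 * Q))) := by ring
        _ ≤ (4 * n + 2) * n := Nat.mul_le_mul_left _ h2
        _ ≤ (5 * n) * n := Nat.mul_le_mul_right _ (by omega)
        _ = 5 * (n * n) := by ring
    omega
  have h4 : Q * (2 * (2 * n + 1) * (n / (5 * Q) * h)) ≤ Q * w := by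
    calc Q * (2 * (2 * n + 1) * (n / (5 * Q) * h)) =
          Q * (2 * (2 * n + 1) * (n / (5 * Q))) * h := by ring
      _ ≤ (n * n) * h := Nat.mul_le_mul_right _ h1
      _ = h * (n * n) := by ring
      _ ≤ Q * w := hw
  exact Nat.le_of_mul_le_mul_left h4 hQ

/-- **the counting half of the large-circuit regime** -/
theorem eventually_regL_of (Q : ℕ) (hQ : 0 < Q) (P : ∀ n : ℕ, ℕ → Mat n → Prop)
    (HH : ∀ n : ℕ, Mat n → Finset (Finset (Fin n)))
    (hdata : ∀ᶠ n : ℕ in atTop, ∀ r ≤ n, 4 * n < 9 * min (n - r) r →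
      2 ^ n ≤ n ^ 3 * n.choose r → RegData n r Q (P n r) (HH n)) :
    ∀ᶠ n : ℕ in atTop, ∀ r ≤ n, 4 * n < 9 * min (n - r) r → 2 ^ n ≤ n ^ 3 * n.choose r →
      (cntP n (fun c => ∃ M : Mat n, cls M = c ∧ P n r M) : ℝ) ≤
        cntP n (fun c => c.rk = r) / n + 2 ^ (2 ^ n / n ^ 10) := by
  filter_upwards [hdata, eventually_regL_num1 Q hQ, eventually_regL_num2 Q hQ,
    eventually_ge_atTop 4] with n h1 h2 h3 hn r hr hmid hch
  have hD := h1 r hr hmid hch
  have hn0 : 0 < n := by omega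
  have h4 := cntP_regL_le (r := r) (q := n / (5 * Q)) (G := GG n r) (m := n / (160 * Q))
    (T0 := 160 * Q) (L := n * n) hn0 (P n r) (HH n)
    (fun M hM => ⟨(hD.base M hM).1, (hD.base M hM).2.1, (hD.base M hM).2.2.2⟩)
    hD.act
    (fun M hM => by
      obtain ⟨a1, _, a2, _⟩ := hD.base M hM
      have a3 := codes_le a2
      rw [a1] at a3
      have a4 := Finset.card_le_card (KK_mono32 (M := M))
      show ((FF 3 M).card + (FF 3 (dual M)).card) *
        ((min r (n - r) - 1) * (n / 20000 * (n / 20000))) ≤ 24 * (KK 2 M).card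
      omega)
    hD.dec hD.emp
    (fun M hM => by
      obtain ⟨W, a1, a2, a3⟩ := hD.fam M hM
      refine ⟨W, a1, a3, q_bound hn hQ ?_⟩
      exact (Nat.mul_le_mul_right _ (le_max_left _ _)).trans a2)
    (fun M hM => by
      obtain ⟨W, a1, a2, a3⟩ := hD.fam M hM
      refine ⟨W, a1, a3, q_bound hn hQ ?_⟩
      exact (Nat.mul_le_mul_right _ (le_max_right _ _)).trans a2)
    (ww n) (yy Q n) (ww_pos n) (ww_le_one n) (ww_pow_n n hn0) (yy_pos Q n) (yy_le_one Q n)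
    (yy_pow Q n)
  refine h4.trans ?_
  have h5 := h2 r hmid
  have hc0 : (0 : ℝ) ≤ cntP n (fun c => c.rk = r) := by positivity
  refine add_le_add ?_ h3
  calc _ ≤ (cntP n (fun c => c.rk = r) : ℝ) * (1 / n) := mul_le_mul_of_nonneg_left h5 hc0
    _ = _ := by ring

end H83L
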