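import Pool.Agent.H83Pav.RegL
import Pool.Agent.H83Pav.FinalII

/-!
MP_039b14_co: the bound for large circuits in the form used by the assembly.
-/

namespace H83L

open Finset Filter Topology H38Pav H83Pav

theorem eventually_LBound : ∀ᶠ n : ℕ in atTop, LBound n := by
  filter_upwards [eventually_regL, eventually_ge_atTop 1] with n h hn r hr hmid hch
  have h1 := h r hr hmid hch
  have h2 : cntP n (fun c => c.rk = r) = cntP n (fun c => c.rk = r ∧ True) := by
    congr 1; ext c; simp
  rw [h2] at h1
  refine h1.trans (add_le_add le_rfl ?_)
  refine pow_le_pow_right₀ (by norm_num) ?_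
  exact Nat.div_le_div_left (Nat.pow_le_pow_right hn (by norm_num)) (by positivity)

end H83L
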