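import Pool.Agent.H83Pav.Sum
import Pool.Agent.H83Pav.Greedy

/-!
MP_039b14_co: the sum over all possible families of deep nonbases, large circuits.
-/

namespace H83L

open Finset H38Pav H83Pav

variable {n : ℕ}

/-- a family with small degrees inside `K` gives many stable subsets of `K` -/
theorem card_fiber_W {d r q h : ℕ} (K : Finset (Finset (Fin n))) (T : Finset (Mat n))
    (hT : ∀ M ∈ T, rk M = r ∧ NoShallow d M ∧ KK d M = K)
    (W : Finset (Finset (Fin n))) (hWK : W ⊆ K) (hKr : ∀ X ∈ K, X.card = r)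
    (hdeg : ∀ X ∈ W, ∀ S ⊆ W, (∀ Y ∈ S, (X ∩ Y).card + 1 = r) → S.card ≤ 2 * n)
    (hW : 2 * (2 * n + 1) * (q * h) ≤ W.card) :
    T.card * (2 * n + 1) ^ (q * h) ≤ (matR n r).card := by
  classical
  have h1 := card_stab_ge (fun X Y : Finset (Fin n) => (X ∩ Y).card + 1 = r)
    (fun X Y h => by rw [Finset.inter_comm]; exact h) W
    (fun X hX h => by
      have h2 := hKr X (hWK hX)
      rw [Finset.inter_self] at h
      omega) (2 * n) (q * h) hdeg hW (q * h) le_rfl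
  have h2 := card_fiber_mul_le K T hT (stab (fun X Y : Finset (Fin n) => (X ∩ Y).card + 1 = r) W
    (q * h)) (fun R hR => by
      obtain ⟨⟨h3, _⟩, h4⟩ := mem_stab.mp hR
      exact ⟨h3.trans hWK, h4⟩)
  exact (Nat.mul_le_mul_left _ h1).trans h2

/-- the bound for one fibre -/
theorem card_fiber_real {r q t h1 h2 G : ℕ} (hn : 0 < n) (K : Finset (Finset (Fin n)))
    (T : Finset (Mat n)) (hT : ∀ M ∈ T, rk M = r ∧ NoShallow 2 M ∧ KK 2 M = K)
    (hKr : ∀ X ∈ K, X.card = r)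
    (hG : t * G ≤ 24 * K.card)
    (W1 : Finset (Finset (Fin n))) (hWK1 : W1 ⊆ K)
    (hdeg1 : ∀ X ∈ W1, ∀ S ⊆ W1, (∀ Y ∈ S, (X ∩ Y).card + 1 = r) → S.card ≤ 2 * n)
    (hW1 : 2 * (2 * n + 1) * (q * h1) ≤ W1.card)
    (W2 : Finset (Finset (Fin n))) (hWK2 : W2 ⊆ K)
    (hdeg2 : ∀ X ∈ W2, ∀ S ⊆ W2, (∀ Y ∈ S, (X ∩ Y).card + 1 = r) → S.card ≤ 2 * n)
    (hW2 : 2 * (2 * n + 1) * (q * h2) ≤ W2.card)
    (w y : ℝ) (hw0 : 0 < w) (hw1 : w ≤ 1) (hw : w ^ (96 * n) = 1 / 2) (hy0 : 0 < y)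
    (hy : 1 ≤ (2 * (n : ℝ) + 1) ^ q * y ^ 8) :
    (T.card : ℝ) ≤ (matR n r).card * ((w ^ G) ^ (2 * t) * y ^ (2 * (h1 + h2))) := by
  classical
  obtain ⟨a, ha1, ha2⟩ := card_fiber_le (r := r) hn K T hT
  have b1 := card_fiber_W (q := q) (h := h1) K T hT W1 hWK1 hKr hdeg1 hW1
  have b2 := card_fiber_W (q := q) (h := h2) K T hT W2 hWK2 hKr hdeg2 hW2
  set m : ℝ := ((matR n r).card : ℝ) with hm
  set c : ℝ := (T.card : ℝ) with hc
  set b : ℝ := 2 * (n : ℝ) + 1 with hb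
  have hb0 : 0 < b := by positivity
  have hm0 : 0 ≤ m := by positivity
  have hc0 : 0 ≤ c := by positivity
  have c1 : c * 2 ^ a ≤ m := by rw [hc, hm]; exact_mod_cast ha2
  have c2 : c * b ^ (q * h1) ≤ m := by rw [hc, hm, hb]; exact_mod_cast b1
  have c3 : c * b ^ (q * h2) ≤ m := by rw [hc, hm, hb]; exact_mod_cast b2
  -- the three bounds solved for c
  have d1 : c ≤ m * (1 / 2) ^ a := by
    calc c = (c * 2 ^ a) * (1 / 2) ^ a := by rw [mul_assoc, ← mul_pow]; norm_num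
      _ ≤ m * (1 / 2) ^ a := mul_le_mul_of_nonneg_right c1 (by positivity)
  have d2 : ∀ h : ℕ, c * b ^ (q * h) ≤ m → c ≤ m * (y ^ 8) ^ h := by
    intro h hh
    have e1 : 1 ≤ b ^ (q * h) * (y ^ 8) ^ h := by
      rw [pow_mul, ← mul_pow]
      exact one_le_pow₀ hy
    calc c = c * 1 := (mul_one c).symm
      _ ≤ c * (b ^ (q * h) * (y ^ 8) ^ h) := mul_le_mul_of_nonneg_left e1 hc0
      _ = (c * b ^ (q * h)) * (y ^ 8) ^ h := by ring
      _ ≤ m * (y ^ 8) ^ h := mul_le_mul_of_nonneg_right hh (by positivity)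
  have d3 := d2 h1 c2
  have d4 := d2 h2 c3
  have d5 : ((1 : ℝ) / 2) ^ a * (1 / 2) ^ a ≤ ((w ^ G) ^ (2 * t)) ^ 4 := by
    rw [← pow_add, ← hw, ← pow_mul, ← pow_mul, ← pow_mul]
    refine pow_le_pow_of_le_one hw0.le hw1 ?_
    calc G * (2 * t * 4) = 8 * (t * G) := by ring
      _ ≤ 8 * (24 * K.card) := Nat.mul_le_mul_left _ hG
      _ ≤ 8 * (24 * (n * a)) := Nat.mul_le_mul_left _ (Nat.mul_le_mul_left _ ha1)
      _ = 96 * n * (a + a) := by ring
  have d6 : c ^ 4 ≤ (m * ((w ^ G) ^ (2 * t) * y ^ (2 * (h1 + h2)))) ^ 4 := by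
    calc c ^ 4 = (c * c) * (c * c) := by ring
      _ ≤ ((m * (1 / 2) ^ a) * (m * (1 / 2) ^ a)) * ((m * (y ^ 8) ^ h1) * (m * (y ^ 8) ^ h2)) := by
          have e1 : c * c ≤ (m * (1 / 2) ^ a) * (m * (1 / 2) ^ a) :=
            mul_le_mul d1 d1 hc0 (by positivity)
          have e2 : c * c ≤ (m * (y ^ 8) ^ h1) * (m * (y ^ 8) ^ h2) :=
            mul_le_mul d3 d4 hc0 (by positivity)
          exact mul_le_mul e1 e2 (by positivity) (by positivity)
      _ = m ^ 4 * (((1 / 2) ^ a * (1 / 2) ^ a) * (y ^ (2 * (h1 + h2))) ^ 4) := by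
          rw [← pow_mul, ← pow_mul, ← pow_mul]
          have : y ^ (2 * (h1 + h2) * 4) = y ^ (8 * h1) * y ^ (8 * h2) := by
            rw [← pow_add]; congr 1; ring
          rw [this]; ring
      _ ≤ m ^ 4 * (((w ^ G) ^ (2 * t)) ^ 4 * (y ^ (2 * (h1 + h2))) ^ 4) := by
          refine mul_le_mul_of_nonneg_left ?_ (by positivity)
          exact mul_le_mul_of_nonneg_right d5 (by positivity)
      _ = _ := by ring
  exact le_of_pow_le_pow_left₀ (by norm_num) (by positivity) d6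

/-- the number of codes of a matroid -/
noncomputable def codeT (M : Mat n) : ℕ := (FF 3 M).card + (FF 3 (dual M)).card

/-- the data of the decoding: circuits `HH M`, with large families of small degree inside
the deep nonbases -/
def GoodW (n r q : ℕ) (HH : Mat n → Finset (Finset (Fin n))) (M : Mat n) : Prop :=
  ∃ W ⊆ KK 2 M, (∀ X ∈ W, ∀ S ⊆ W, (∀ Y ∈ S, (X ∩ Y).card + 1 = r) → S.card ≤ 2 * n) ∧
    2 * (2 * n + 1) * (q * (HH M).card) ≤ W.card

/-- **the main counting bound** -/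
theorem card_regL_le {r q G : ℕ} (hn : 0 < n) (T : Finset (Mat n))
    (HH : Mat n → Finset (Finset (Fin n)))
    (hT : ∀ M ∈ T, rk M = r ∧ NoShallow 2 M)
    (hG : ∀ M ∈ T, codeT M * G ≤ 24 * (KK 2 M).card)
    (hdec : ∀ M ∈ T, ∀ N ∈ T, FF 3 M = FF 3 N → FF 3 (dual M) = FF 3 (dual N) →
      HH M = HH N → HH (dual M) = HH (dual N) → KK 2 M = KK 2 N)
    (hW1 : ∀ M ∈ T, GoodW n r q HH M)
    (hW2 : ∀ M ∈ T, GoodW n r q (fun M => HH (dual M)) M)
    (w y z : ℝ) (hw0 : 0 < w) (hw1 : w ≤ 1) (hw : w ^ (96 * n) = 1 / 2) (hy0 : 0 < y)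
    (hy : 1 ≤ (2 * (n : ℝ) + 1) ^ q * y ^ 8) (hz0 : 0 ≤ z)
    (hz : ∀ M ∈ T, (w ^ G) ^ (codeT M) * y ^ ((HH M).card + (HH (dual M)).card) ≤ z) :
    (T.card : ℝ) ≤ (matR n r).card * (z * ((1 + w ^ G) ^ (2 * (2 ^ n * (n + 1))) *
      (1 + y) ^ (2 * 2 ^ n))) := by
  classical
  set x : ℝ := w ^ G with hx
  have hx0 : 0 < x := pow_pos hw0 _
  -- fibres
  have h1 : (T.card : ℝ) = ∑ K ∈ T.image (KK 2), ((T.filter (fun M => KK 2 M = K)).card : ℝ) := by
    rw [← Nat.cast_sum, ← Finset.card_eq_sum_card_image]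
  -- coding
  have hch : ∀ K : Finset (Finset (Fin n)), ∃ M : Mat n, K ∈ T.image (KK 2) → M ∈ T ∧ KK 2 M = K := by
    intro K
    by_cases hK : K ∈ T.image (KK 2)
    · obtain ⟨M, hM, hMK⟩ := Finset.mem_image.mp hK
      exact ⟨M, fun _ => ⟨hM, hMK⟩⟩
    · obtain ⟨M⟩ : Nonempty (Mat n) := ⟨⟨Matroid.loopyOn Set.univ, rfl⟩⟩
      exact ⟨M, fun h => absurd h hK⟩
  choose m hm using hch
  have h2 : ∀ K ∈ T.image (KK 2), ((T.filter (fun M => KK 2 M = K)).card : ℝ) ≤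
      (matR n r).card * (z * (x ^ (codeT (m K)) *
        y ^ ((HH (m K)).card + (HH (dual (m K))).card))) := by
    intro K hK
    obtain ⟨hm1, hm2⟩ := hm K hK
    obtain ⟨W1, hWK1, hdeg1, hc1⟩ := hW1 _ hm1
    obtain ⟨W2, hWK2, hdeg2, hc2⟩ := hW2 _ hm1
    rw [hm2] at hWK1 hWK2
    have h3 := card_fiber_real (r := r) (q := q) (t := codeT (m K)) (h1 := (HH (m K)).card)
      (h2 := (HH (dual (m K))).card) (G := G) hn K (T.filter (fun M => KK 2 M = K))
      (fun M hM => by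
        obtain ⟨h3, h4⟩ := Finset.mem_filter.mp hM
        exact ⟨(hT M h3).1, (hT M h3).2, h4⟩)
      (fun X hX => by
        rw [← hm2] at hX
        rw [(mem_NB.mp (KK_subset 2 _ hX)).1]
        exact (hT _ hm1).1)
      (by have := hG _ hm1; rwa [hm2] at this)
      W1 hWK1 hdeg1 hc1 W2 hWK2 hdeg2 hc2 w y hw0 hw1 hw hy0 hy
    refine h3.trans (mul_le_mul_of_nonneg_left ?_ (by positivity))
    have h4 := hz _ hm1
    rw [two_mul, two_mul, pow_add, pow_add]
    calc x ^ codeT (m K) * x ^ codeT (m K) *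
          (y ^ ((HH (m K)).card + (HH (dual (m K))).card) *
            y ^ ((HH (m K)).card + (HH (dual (m K))).card))
        = (x ^ codeT (m K) * y ^ ((HH (m K)).card + (HH (dual (m K))).card)) *
          (x ^ codeT (m K) * y ^ ((HH (m K)).card + (HH (dual (m K))).card)) := by ring
      _ ≤ z * (x ^ codeT (m K) * y ^ ((HH (m K)).card + (HH (dual (m K))).card)) :=
        mul_le_mul_of_nonneg_right h4 (by positivity)
  rw [h1]
  refine (Finset.sum_le_sum h2).trans ?_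
  rw [← Finset.mul_sum, ← Finset.mul_sum]
  refine mul_le_mul_of_nonneg_left ?_ (by positivity)
  refine mul_le_mul_of_nonneg_left ?_ hz0
  have h3 : ∑ K ∈ T.image (KK 2), x ^ (codeT (m K)) *
        y ^ ((HH (m K)).card + (HH (dual (m K))).card) ≤
      ∑ q ∈ ((univP n).powerset ×ˢ (univP n).powerset) ×ˢ
        ((univ : Finset (Finset (Fin n))).powerset ×ˢ (univ : Finset (Finset (Fin n))).powerset),
        (x ^ q.1.1.card * x ^ q.1.2.card) * (y ^ q.2.1.card * y ^ q.2.2.card) := by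
    refine sum_le_sum_inj _ _ _ (fun q : (Finset (Finset (Fin n) × ℕ) ×
      Finset (Finset (Fin n) × ℕ)) × (Finset (Finset (Fin n)) × Finset (Finset (Fin n))) =>
        (x ^ q.1.1.card * x ^ q.1.2.card) * (y ^ q.2.1.card * y ^ q.2.2.card))
      (fun K => ((FF 3 (m K), FF 3 (dual (m K))), (HH (m K), HH (dual (m K))))) ?_ ?_ ?_ ?_
    · intro K _
      exact Finset.mem_product.mpr ⟨Finset.mem_product.mpr
        ⟨Finset.mem_powerset.mpr (FF_subset _ _), Finset.mem_powerset.mpr (FF_subset _ _)⟩,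
        Finset.mem_product.mpr ⟨Finset.mem_powerset.mpr (Finset.subset_univ _),
          Finset.mem_powerset.mpr (Finset.subset_univ _)⟩⟩
    · intro K hK L hL hKL
      obtain ⟨a1, a2⟩ := hm K (Finset.mem_coe.mp hK)
      obtain ⟨b1, b2⟩ := hm L (Finset.mem_coe.mp hL)
      have c1 : FF 3 (m K) = FF 3 (m L) := congrArg (fun p => p.1.1) hKL
      have c2 : FF 3 (dual (m K)) = FF 3 (dual (m L)) := congrArg (fun p => p.1.2) hKL
      have c3 : HH (m K) = HH (m L) := congrArg (fun p => p.2.1) hKL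
      have c4 : HH (dual (m K)) = HH (dual (m L)) := congrArg (fun p => p.2.2) hKL
      rw [← a2, ← b2]
      exact hdec _ a1 _ b1 c1 c2 c3 c4
    · intro q _; positivity
    · intro K hK
      show x ^ codeT (m K) * y ^ ((HH (m K)).card + (HH (dual (m K))).card) ≤
        (x ^ (FF 3 (m K)).card * x ^ (FF 3 (dual (m K))).card) *
          (y ^ (HH (m K)).card * y ^ (HH (dual (m K))).card)
      rw [← pow_add, ← pow_add]
      exact le_rfl
  refine h3.trans (le_of_eq ?_)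
  have h4 : ∑ S ∈ (univP n).powerset, x ^ S.card = (1 + x) ^ (2 ^ n * (n + 1)) := by
    have h5 := Finset.sum_pow_mul_eq_add_pow x 1 (univP n)
    simp only [one_pow, mul_one] at h5
    rw [card_univP] at h5
    rw [add_comm 1, ← h5]
  have h5 : ∑ S ∈ (univ : Finset (Finset (Fin n))).powerset, y ^ S.card = (1 + y) ^ (2 ^ n) := by
    have h5 := Finset.sum_pow_mul_eq_add_pow y 1 (univ : Finset (Finset (Fin n)))
    simp only [one_pow, mul_one] at h5
    rw [Finset.card_univ, Fintype.card_finset, Fintype.card_fin] at h5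
    rw [add_comm 1, ← h5]
  rw [Finset.sum_product]
  simp only
  rw [← Finset.sum_mul_sum, Finset.sum_product, Finset.sum_product]
  simp only
  rw [← Finset.sum_mul_sum, ← Finset.sum_mul_sum, h4, h5, ← pow_add, ← pow_add, two_mul, two_mul]

end H83L
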