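import Pool.Agent.H83Pav.SumS

/-!
MP_039b14_co: labelled matroids with a small circuit or cocircuit.
-/

namespace H83Pav

open Finset H38Pav H83E

variable {n : ℕ}

/-- the counting lemma for lean families, at `n` -/
def ECount (C1 : ℝ) (n : ℕ) : Prop :=
  ∀ (r g s L : ℕ) (TT : Finset (Finset (Fin n))) (EE : Finset (Finset (Finset (Fin n)))),
    4 * n < 9 * min (n - r) r → r ≤ n → 10 ^ 5 ≤ g → (s : ℝ) ≤ C1 * Real.log n →
    (∀ T ∈ TT, g ≤ T.card ∧ T.card ≤ s) → (L : ℝ) ≤ Real.exp ((n : ℝ) ^ (4 / 5 : ℝ)) →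
    (∀ E ∈ EE, E ⊆ leanU (r - 2) TT) →
    (∀ v, ((EE.filter (fun E => v ∈ E)).image (nbr v)).card ≤ L) →
    (EE.card : ℝ) ≤ Real.exp ((KT r TT).card / (1000 * n))

theorem EEf_le {C1 : ℝ} {a s g ρ : ℕ} (hE : ECount C1 n) (hmid : 4 * n < 9 * min (n - ρ) ρ)
    (hρ : ρ ≤ n) (hg : 10 ^ 5 ≤ g) (hs : (s : ℝ) ≤ C1 * Real.log n)
    (ha : (((n + 1) ^ a : ℕ) : ℝ) ≤ Real.exp ((n : ℝ) ^ (4 / 5 : ℝ)))
    (hgood : Good n a s ρ) (T : Finset (Mat n)) (hT : ∀ M ∈ T, rk M = ρ ∧ Wide g M)
    (T3 : Finset (Finset (Fin n) × ℕ)) (GG : Finset (Finset (Fin n))) :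
    ((EEf a s (n / 20) T T3 GG).card : ℝ) ≤
      Real.exp ((KT ρ (TG (sup s GG))).card / (1000 * n)) := by
  classical
  rcases (T.filter (fun M => FF 3 M = T3 ∧ Gi (n / 20) M = GG)).eq_empty_or_nonempty with h0 | h0
  · unfold EEf
    rw [h0, Finset.image_empty, Finset.card_empty]
    push_cast
    exact (Real.exp_pos _).le
  · obtain ⟨M0, hM0⟩ := h0
    obtain ⟨hM0T, hM03, hM0G⟩ := Finset.mem_filter.mp hM0
    have hsup : ∀ M ∈ T.filter (fun M => FF 3 M = T3 ∧ Gi (n / 20) M = GG),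
        sup s GG = Gi s M := by
      intro M hM
      obtain ⟨_, _, h⟩ := Finset.mem_filter.mp hM
      rw [← h]
      exact (Gi_eq_filter hgood.h8 M).symm
    refine hE ρ g s ((n + 1) ^ a) (TG (sup s GG)) _ hmid hρ hg hs ?_ ha ?_ ?_
    · intro S hS
      rw [hsup M0 hM0] at hS
      exact card_TG (fun D hD => (hT M0 hM0T).2 D (Or.inr hD)) hS
    · intro E hE'
      obtain ⟨M, hM, rfl⟩ := Finset.mem_image.mp hE'
      obtain ⟨hMT, _, _⟩ := Finset.mem_filter.mp hM
      have h1 := IG_subset_leanU (a := a) (s := s) (M := M) (by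
        rw [(hT M hMT).1]; exact hgood.h7)
      rw [(hT M hMT).1, ← hsup M hM] at h1
      exact h1
    · intro v
      exact card_types T3 _ (fun M hM => (Finset.mem_filter.mp hM).2.1) v

theorem NoShallow_dual {d : ℕ} {M : Mat n} (h : NoShallow d M) : NoShallow d (dual M) := by
  intro X hX
  have h1 : Xᶜ ∈ NB M := by
    have := mem_NB_dual (M := M) (X := Xᶜ)
    rw [compl_compl] at this
    exact this.mp hX
  rcases h Xᶜ h1 with h2 | ⟨h2, h3⟩
  · left
    have := KK_dual (d := d) (M := M) (X := Xᶜ)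
    rw [compl_compl] at this
    exact this.mpr h2
  · right
    rw [compl_compl] at h3
    exact ⟨h3, by rw [dual_dual]; exact h2⟩

theorem Wide_dual {g : ℕ} {M : Mat n} (h : Wide g M) : Wide g (dual M) := by
  intro C hC
  refine h C ?_
  rw [dual_dual] at hC
  exact hC.symm

/-- **the labelled bound** -/
theorem card_badS_le {a s g r G : ℕ} {β : ℝ} (hn : 0 < n) (hβ : β = Real.log 2 / n)
    (T : Finset (Mat n))
    (hT : ∀ M ∈ T, rk M = r ∧ NoShallow 2 M ∧ Wide g M ∧ G ≤ (KK 2 M).card)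
    (hr : r ≤ n) (hgood : Good n a s r) (hgood' : Good n a s (n - r))
    (h1 : Real.exp (-(β * ((n / 3 * s : ℕ) : ℝ) / 64)) ≤ β / 128)
    (h2 : ∀ T3 GG, ((EEf a s (n / 20) T T3 GG).card : ℝ) ≤
      Real.exp (β / 32 * (KT r (TG (sup s GG))).card))
    (h3 : ∀ T3 GG, ((EEf a s (n / 20) (T.image dual) T3 GG).card : ℝ) ≤
      Real.exp (β / 32 * (KT (n - r) (TG (sup s GG))).card)) :
    (T.card : ℝ) ≤ (matR n r).card * Real.exp (-(β * G / 2) +
      2 * (2 ^ n * (n + 1) * (Real.exp (-(β * ((n / 3 * (g * g) : ℕ) : ℝ) / 384)) +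
        Real.exp (-(β * ((n / 3).choose 2 : ℝ) / 32)) +
        Real.exp (-(β * (a.choose 3 : ℝ) / 32)) +
        Real.exp (-(β * ((n / 3 * (n / 20) : ℕ) : ℝ) / 64))))) := by
  classical
  have hL := Real.log_pos (show (1 : ℝ) < 2 by norm_num)
  have hn0 : (0 : ℝ) < n := by exact_mod_cast hn
  have hβ0 : 0 ≤ β := by rw [hβ]; positivity
  -- fibres
  have e1 : (T.card : ℝ) = ∑ K ∈ T.image (KK 2), ((T.filter (fun M => KK 2 M = K)).card : ℝ) := by
    rw [← Nat.cast_sum, ← Finset.card_eq_sum_card_image]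
  have e2 : ∀ K ∈ T.image (KK 2), ((T.filter (fun M => KK 2 M = K)).card : ℝ) ≤
      (matR n r).card * Real.exp (-(β * K.card)) := by
    intro K _
    obtain ⟨b, hb1, hb2⟩ := card_fiber_le (r := r) hn K (T.filter (fun M => KK 2 M = K))
      (fun M hM => by
        obtain ⟨h3, h4⟩ := Finset.mem_filter.mp hM
        exact ⟨(hT M h3).1, (hT M h3).2.1, h4⟩)
    have e3 : ((T.filter (fun M => KK 2 M = K)).card : ℝ) * 2 ^ b ≤ (matR n r).card := by
      exact_mod_cast hb2
    have e4 : (2 : ℝ) ^ b = Real.exp (Real.log 2 * b) := by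
      rw [Real.exp_mul, Real.exp_log (by norm_num)]; norm_cast
    have e5 : Real.exp (β * K.card) ≤ 2 ^ b := by
      rw [e4]
      apply Real.exp_le_exp.mpr
      rw [hβ, div_mul_eq_mul_div, div_le_iff₀ hn0]
      have e6 : (K.card : ℝ) ≤ n * b := by exact_mod_cast hb1
      calc Real.log 2 * K.card ≤ Real.log 2 * (n * b) := mul_le_mul_of_nonneg_left e6 hL.le
        _ = _ := by ring
    rw [Real.exp_neg, ← div_eq_mul_inv, le_div_iff₀ (Real.exp_pos _)]
    exact (mul_le_mul_of_nonneg_left e5 (by positivity)).trans e3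
  rw [e1]
  refine (Finset.sum_le_sum e2).trans ?_
  rw [← Finset.mul_sum]
  refine mul_le_mul_of_nonneg_left ?_ (by positivity)
  -- coding
  have hch : ∀ K : Finset (Finset (Fin n)), ∃ M : Mat n, K ∈ T.image (KK 2) → M ∈ T ∧ KK 2 M = K := by
    intro K
    by_cases hK : K ∈ T.image (KK 2)
    · obtain ⟨M, hM, hMK⟩ := Finset.mem_image.mp hK
      exact ⟨M, fun _ => ⟨hM, hMK⟩⟩
    · obtain ⟨M⟩ : Nonempty (Mat n) := ⟨⟨Matroid.loopyOn Set.univ, rfl⟩⟩
      exact ⟨M, fun h => absurd h hK⟩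
  choose m hm using hch
  set B : ℝ := Real.exp (2 ^ n * (n + 1) * (Real.exp (-(β * ((n / 3 * (g * g) : ℕ) : ℝ) / 384)) +
        Real.exp (-(β * ((n / 3).choose 2 : ℝ) / 32)) +
        Real.exp (-(β * (a.choose 3 : ℝ) / 32)) +
        Real.exp (-(β * ((n / 3 * (n / 20) : ℕ) : ℝ) / 64)))) with hB
  have s1 := sum_code_le (a := a) (s := s) (g := g) (ρ := r) hβ0 T (fun M hM => (hT M hM).1) h1 h2
  have s2 := sum_code_le (a := a) (s := s) (g := g) (ρ := n - r) hβ0 (T.image dual)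
    (fun M hM => by
      obtain ⟨N, hN, rfl⟩ := Finset.mem_image.mp hM
      rw [rk_dual, (hT N hN).1]) h1 h3
  have e3 : ∑ K ∈ T.image (KK 2), Real.exp (-(β * K.card)) ≤
      ∑ q ∈ (T.image (code a s (n / 20))) ×ˢ ((T.image dual).image (code a s (n / 20))),
        Real.exp (-(β * G / 2)) * (Real.exp (-(lam n a s g r β q.1)) *
          Real.exp (-(lam n a s g (n - r) β q.2))) := by
    refine sum_le_sum_inj _ _ _ (fun q : Cod n × Cod n =>
      Real.exp (-(β * G / 2)) * (Real.exp (-(lam n a s g r β q.1)) *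
          Real.exp (-(lam n a s g (n - r) β q.2))))
      (fun K => (code a s (n / 20) (m K), code a s (n / 20) (dual (m K)))) ?_ ?_ ?_ ?_
    · intro K hK
      obtain ⟨a1, _⟩ := hm K hK
      exact Finset.mem_product.mpr ⟨Finset.mem_image_of_mem _ a1,
        Finset.mem_image_of_mem _ (Finset.mem_image_of_mem _ a1)⟩
    · intro K hK L hL' hKL
      obtain ⟨a1, a2⟩ := hm K (Finset.mem_coe.mp hK)
      obtain ⟨b1, b2⟩ := hm L (Finset.mem_coe.mp hL')
      have c1 : code a s (n / 20) (m K) = code a s (n / 20) (m L) := congrArg Prod.fst hKL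
      have c2 : code a s (n / 20) (dual (m K)) = code a s (n / 20) (dual (m L)) :=
        congrArg Prod.snd hKL
      rw [← a2, ← b2]
      exact KK_eq_of_code ((hT _ a1).1.trans (hT _ b1).1.symm) c1 c2
    · intro q _; positivity
    · intro K hK
      obtain ⟨a1, a2⟩ := hm K hK
      obtain ⟨b1, b2, b3, b4⟩ := hT _ a1
      have l1 := lam_le (a := a) (s := s) (g := g) hβ0 hgood b1 b2
        (fun D hD => b3 D (Or.inr hD))
      have l2 := lam_le (a := a) (s := s) (g := g) hβ0 hgood' (M := dual (m K))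
        (by rw [rk_dual, b1]) (NoShallow_dual b2) (fun D hD => Wide_dual b3 D (Or.inr hD))
      rw [card_KK_dual] at l2
      rw [a2] at l1 l2 b4
      show Real.exp (-(β * K.card)) ≤ Real.exp (-(β * G / 2)) *
        (Real.exp (-(lam n a s g r β (code a s (n / 20) (m K)))) *
          Real.exp (-(lam n a s g (n - r) β (code a s (n / 20) (dual (m K))))))
      rw [← Real.exp_add, ← Real.exp_add]
      apply Real.exp_le_exp.mpr
      have l3 : (G : ℝ) ≤ K.card := by exact_mod_cast b4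
      have l4 := mul_le_mul_of_nonneg_left l3 hβ0
      have l5 : 0 ≤ β * K.card := by positivity
      linarith
  refine e3.trans ?_
  rw [← Finset.mul_sum, Finset.sum_product]
  have e4 : ∑ x ∈ T.image (code a s (n / 20)), ∑ y ∈ (T.image dual).image (code a s (n / 20)),
      (Real.exp (-(lam n a s g r β x)) * Real.exp (-(lam n a s g (n - r) β y))) =
      (∑ x ∈ T.image (code a s (n / 20)), Real.exp (-(lam n a s g r β x))) *
        ∑ y ∈ (T.image dual).image (code a s (n / 20)), Real.exp (-(lam n a s g (n - r) β y)) := by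
    rw [Finset.sum_mul_sum]
  rw [e4]
  calc Real.exp (-(β * G / 2)) * ((∑ x ∈ T.image (code a s (n / 20)),
        Real.exp (-(lam n a s g r β x))) *
        ∑ y ∈ (T.image dual).image (code a s (n / 20)), Real.exp (-(lam n a s g (n - r) β y)))
      ≤ Real.exp (-(β * G / 2)) * (B * B) := by
        refine mul_le_mul_of_nonneg_left ?_ (Real.exp_pos _).le
        exact mul_le_mul s1 s2 (Finset.sum_nonneg (fun _ _ => (Real.exp_pos _).le))
          (Real.exp_pos _).le
    _ = _ := by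
        rw [hB, ← Real.exp_add, ← Real.exp_add]
        congr 1
        ring

end H83Pav
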