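import Pool.Agent.H83Pav.Defs

/-!
MP_039b14_co: structure of the deep nonbases.
-/

namespace H83Pav

open Finset H38Pav

variable {n : ℕ}

theorem eRk_eq_of_circ {M : Mat n} {C : Finset (Fin n)} (hC : Circ M C) :
    M.1.eRk (C : Set (Fin n)) + 1 = (C.card : ℕ∞) := by
  have := hC.eRk_add_one_eq
  rwa [Set.encard_coe_eq_coe_finsetCard] at this

/-- a set which is not independent contains a circuit -/
theorem exists_circ {M : Mat n} {X : Finset (Fin n)}
    (hX : ¬ M.1.Indep (X : Set (Fin n))) : ∃ C ⊆ X, Circ M C := by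
  have hd : M.1.Dep (X : Set (Fin n)) := ⟨hX, by rw [M.2]; exact Set.subset_univ _⟩
  obtain ⟨C, hCX, hC⟩ := hd.exists_isCircuit_subset
  have hfin : ((Set.toFinite C).toFinset : Set (Fin n)) = C := Set.Finite.coe_toFinset _
  refine ⟨(Set.toFinite C).toFinset, ?_, ?_⟩
  · rw [← Finset.coe_subset, hfin]; exact hCX
  · show M.1.IsCircuit _
    rw [hfin]; exact hC

theorem not_indep_of_circ {M : Mat n} {C X : Finset (Fin n)} (hC : Circ M C) (h : C ⊆ X) :
    ¬ M.1.Indep (X : Set (Fin n)) := fun hi =>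
  hC.dep.not_indep (hi.subset (by rw [Finset.coe_subset]; exact h))

theorem subset_clo (M : Mat n) (C : Finset (Fin n)) : C ⊆ clo M C := by
  intro x hx
  rw [mem_clo]
  exact M.1.mem_closure_of_mem (by exact_mod_cast hx) (by rw [M.2]; exact Set.subset_univ _)

/-- the sets in `Low M` are described by `FF M` -/
theorem low_eq (d : ℕ) (M : Mat n) : Low d M = bunch (rk M) (FF d M) := by
  ext X
  rw [mem_Low, mem_bunch]
  refine and_congr_right (fun _ => ?_)
  constructor
  · rintro ⟨C, hCX, hC, hc⟩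
    refine ⟨(clo M C, C.card), mem_FF.mpr ⟨C, mem_small.mpr ⟨hC, hc⟩, rfl⟩, ?_⟩
    exact Finset.card_le_card (Finset.subset_inter hCX (subset_clo M C))
  · rintro ⟨p, hp, hpX⟩
    obtain ⟨C, hC, rfl⟩ := mem_FF.mp hp
    obtain ⟨hC, hc⟩ := mem_small.mp hC
    obtain ⟨Y, hYX, hY⟩ := Finset.exists_subset_card_eq hpX
    have hYc : Y ⊆ clo M C := hYX.trans Finset.inter_subset_right
    have hnot : ¬ M.1.Indep (Y : Set (Fin n)) := by
      intro hi
      have h1 : (Y : Set (Fin n)).encard ≤ M.1.eRk (M.1.closure (C : Set (Fin n))) := by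
        refine hi.encard_le_eRk_of_subset ?_
        rw [← coe_clo, Finset.coe_subset]; exact hYc
      rw [Matroid.eRk_closure_eq, Set.encard_coe_eq_coe_finsetCard, hY] at h1
      have h2 := eRk_eq_of_circ hC
      have h3 : M.1.eRk (C : Set (Fin n)) ≠ ⊤ := by
        intro h; rw [h] at h2; exact absurd h2.symm (ENat.natCast_ne_top _)
      obtain ⟨m, hm⟩ := ENat.ne_top_iff_exists.mp h3
      rw [← hm] at h1 h2
      have h4 : m + 1 = C.card := by exact_mod_cast h2
      have h5 : C.card ≤ m := by exact_mod_cast h1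
      omega
    obtain ⟨C', hC'Y, hC'⟩ := exists_circ hnot
    refine ⟨C', hC'Y.trans (hYX.trans Finset.inter_subset_left), hC', ?_⟩
    have := Finset.card_le_card hC'Y
    simp only at hY
    omega

theorem low_subset (d : ℕ) (M : Mat n) : Low d M ⊆ NB M := by
  intro X hX
  obtain ⟨h1, C, hCX, hC, _⟩ := mem_Low.mp hX
  exact mem_NB_of_not_indep (not_indep_of_circ hC hCX) h1

theorem mem_NB_dual {M : Mat n} {X : Finset (Fin n)} : Xᶜ ∈ NB (dual M) ↔ X ∈ NB M := by
  rw [mem_NB, mem_NB, rk_dual, Finset.card_compl, Fintype.card_fin]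
  have h1 := rk_le M
  have h2 : X.card ≤ n := by simpa using Finset.card_le_univ X
  have h3 : (dual M).1.IsBase ((Xᶜ : Finset (Fin n)) : Set (Fin n)) ↔
      M.1.IsBase (X : Set (Fin n)) := by
    show (M.1✶).IsBase _ ↔ _
    rw [Finset.coe_compl, Matroid.dual_isBase_iff (by rw [M.2]; exact Set.subset_univ _), M.2,
      ← Set.compl_eq_univ_sdiff, compl_compl]
  rw [h3]
  refine and_congr_left (fun _ => ?_)
  omega

theorem KK_subset (d : ℕ) (M : Mat n) : KK d M ⊆ NB M := by
  intro X hX
  rcases mem_KK.mp hX with h | h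
  · exact low_subset d M h
  · exact mem_NB_dual.mp (low_subset d _ h)

theorem low_subset_KK (d : ℕ) (M : Mat n) : Low d M ⊆ KK d M := fun _ hX => mem_KK.mpr (Or.inl hX)

theorem KK_dual {d : ℕ} {M : Mat n} {X : Finset (Fin n)} :
    Xᶜ ∈ KK d (dual M) ↔ X ∈ KK d M := by
  rw [mem_KK, mem_KK, dual_dual, compl_compl, or_comm]

theorem card_KK_dual (d : ℕ) (M : Mat n) : (KK d (dual M)).card = (KK d M).card := by
  have : KK d (dual M) = (KK d M).image (fun X => Xᶜ) := by
    ext X
    rw [Finset.mem_image]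
    constructor
    · intro h
      refine ⟨Xᶜ, KK_dual.mp ?_, compl_compl X⟩
      rw [compl_compl]; exact h
    · rintro ⟨Y, hY, rfl⟩
      exact KK_dual.mpr hY
  rw [this, Finset.card_image_of_injective _ compl_injective]

/-- the neighbours of a circuit-hyperplane are bases -/
theorem isBase_of_adj {M : Mat n} {X Y : Finset (Fin n)} (hX : Circ M X)
    (hX' : Circ (dual M) Xᶜ) (hXr : X.card = rk M) (hY : Y.card = rk M)
    (h : (X ∩ Y).card + 1 = rk M) : Y ∉ NB M := by
  intro hYN
  obtain ⟨x, y, hx, hy, hxy, e1, e2, _⟩ := adj_cases hXr hY h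
  have hi : ¬ M.1.Indep (Y : Set (Fin n)) := fun hi => (mem_NB.mp hYN).2 (indep_isBase hi hY)
  obtain ⟨C, hCY, hC⟩ := exists_circ hi
  have hyX : y ∉ X := by
    intro h1
    have h2 : y ∈ Y := by rw [← e2]; exact Finset.mem_insert_self _ _
    exact hy (Finset.mem_inter.mpr ⟨h1, h2⟩)
  have hyC : y ∈ C := by
    by_contra hyC
    have h1 : C ⊆ X ∩ Y := by
      intro z hz
      have h2 : z ∈ Y := hCY hz
      rw [← e2] at h2
      rcases Finset.mem_insert.mp h2 with rfl | h2
      · exact absurd hz hyC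
      · exact h2
    have h2 : ¬ M.1.Indep ((X ∩ Y : Finset (Fin n)) : Set (Fin n)) := not_indep_of_circ hC h1
    apply h2
    have h3 : ((X ∩ Y : Finset (Fin n)) : Set (Fin n)) ⊂ (X : Set (Fin n)) := by
      rw [Finset.coe_ssubset]
      refine ⟨Finset.inter_subset_left, fun h4 => ?_⟩
      have := Finset.card_le_card h4
      omega
    exact hX.ssubset_indep h3
  have hK : M.1.IsCocircuit (((Xᶜ : Finset (Fin n))) : Set (Fin n)) := hX'
  refine hC.inter_isCocircuit_ne_singleton (e := y) hK ?_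
  ext z
  simp only [Set.mem_inter_iff, Finset.mem_coe, Finset.mem_compl, Set.mem_singleton_iff]
  constructor
  · rintro ⟨h1, h2⟩
    have h3 : z ∈ Y := hCY h1
    rw [← e2] at h3
    rcases Finset.mem_insert.mp h3 with h3 | h3
    · exact h3
    · exact absurd (Finset.mem_inter.mp h3).1 h2
  · rintro rfl
    exact ⟨hyC, hyX⟩

/-- the sets of size `r(M)` above a small circuit -/
theorem card_low_ge {d : ℕ} {M : Mat n} {C : Finset (Fin n)} (hC : C ∈ small d M) :
    (n - C.card).choose (rk M - C.card) ≤ (Low d M).card := by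
  obtain ⟨hC, hc⟩ := mem_small.mp hC
  have h1 : ((powersetCard (rk M - C.card) (Cᶜ)).image (fun Y => C ∪ Y)).card =
      (n - C.card).choose (rk M - C.card) := by
    rw [Finset.card_image_of_injOn, Finset.card_powersetCard, Finset.card_compl, Fintype.card_fin]
    intro Y hY Z hZ h
    have hY' := (Finset.mem_powersetCard.mp (Finset.mem_coe.mp hY)).1
    have hZ' := (Finset.mem_powersetCard.mp (Finset.mem_coe.mp hZ)).1
    have h' : C ∪ Y = C ∪ Z := h
    ext z
    constructor
    · intro hz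
      have : z ∈ C ∪ Z := by rw [← h']; exact Finset.mem_union_right _ hz
      rcases Finset.mem_union.mp this with h2 | h2
      · exact absurd h2 (Finset.mem_compl.mp (hY' hz))
      · exact h2
    · intro hz
      have : z ∈ C ∪ Y := by rw [h']; exact Finset.mem_union_right _ hz
      rcases Finset.mem_union.mp this with h2 | h2
      · exact absurd h2 (Finset.mem_compl.mp (hZ' hz))
      · exact h2
  rw [← h1]
  refine Finset.card_le_card (fun X hX => ?_)
  obtain ⟨Y, hY, rfl⟩ := Finset.mem_image.mp hX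
  obtain ⟨hY1, hY2⟩ := Finset.mem_powersetCard.mp hY
  refine mem_Low.mpr ⟨?_, C, Finset.subset_union_left, hC, hc⟩
  rw [Finset.card_union_of_disjoint, hY2]
  · omega
  · rw [Finset.disjoint_left]
    intro z hz hz'
    exact Finset.mem_compl.mp (hY1 hz') hz

end H83Pav
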