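import Pool.Agent.H83Pav.Charge
import Pool.Agent.H83Pav.Count

/-!
MP_039b14_co: the sum over all possible families of deep nonbases.
-/

namespace H83Pav

open Finset H38Pav

variable {n : ℕ}

/-- the universe of the codes -/
def univP (n : ℕ) : Finset (Finset (Fin n) × ℕ) := univ ×ˢ range (n + 1)

theorem card_univP (n : ℕ) : (univP n).card = 2 ^ n * (n + 1) := by
  unfold univP
  rw [Finset.card_product, Finset.card_range, Finset.card_univ, Fintype.card_finset,
    Fintype.card_fin]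

theorem FF_subset (d : ℕ) (M : Mat n) : FF d M ⊆ univP n := by
  intro p hp
  obtain ⟨C, _, rfl⟩ := mem_FF.mp hp
  refine Finset.mem_product.mpr ⟨Finset.mem_univ _, Finset.mem_range.mpr ?_⟩
  have : C.card ≤ n := by simpa using Finset.card_le_univ C
  show C.card < n + 1
  omega

/-- the deep nonbases are determined by the two codes -/
theorem KK_eq_of_codes {d : ℕ} {M N : Mat n} (h : rk M = rk N) (h1 : FF d M = FF d N)
    (h2 : FF d (dual M) = FF d (dual N)) : KK d M = KK d N := by
  have h3 : rk (dual M) = rk (dual N) := by rw [rk_dual, rk_dual, h]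
  ext X
  rw [mem_KK, mem_KK, low_eq, low_eq, low_eq, low_eq, h, h1, h2, h3]

/-- the number of codes, in terms of the number of deep nonbases -/
theorem codes_le {M : Mat n} {g : ℕ} (hg : Wide g M) :
    ((FF 3 M).card + (FF 3 (dual M)).card) * ((min (rk M) (n - rk M) - 1) * (g * g)) ≤
      24 * (KK 3 M).card := by
  have h1 := card_FF_le (M := M) (g := g) (fun D hD => hg D (Or.inr hD))
  have h2 := card_FF_le (M := dual M) (g := g) (fun D hD => hg D (Or.inl (by
    rw [dual_dual] at hD; exact hD)))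
  have h3 := Finset.card_le_card (low_subset_KK 3 M)
  have h4 := Finset.card_le_card (low_subset_KK 3 (dual M))
  rw [card_KK_dual] at h4
  have hr := rk_add_rk_dual M
  have h5 : (min (rk M) (n - rk M) - 1) * (g * g) ≤ (n - rk M - 1) * (g * g) :=
    Nat.mul_le_mul_right _ (by omega)
  have h6 : (min (rk M) (n - rk M) - 1) * (g * g) ≤ (n - rk (dual M) - 1) * (g * g) :=
    Nat.mul_le_mul_right _ (by omega)
  calc _ = (FF 3 M).card * ((min (rk M) (n - rk M) - 1) * (g * g)) +
        (FF 3 (dual M)).card * ((min (rk M) (n - rk M) - 1) * (g * g)) := by ring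
    _ ≤ (FF 3 M).card * ((n - rk M - 1) * (g * g)) +
        (FF 3 (dual M)).card * ((n - rk (dual M) - 1) * (g * g)) :=
        add_le_add (Nat.mul_le_mul_left _ h5) (Nat.mul_le_mul_left _ h6)
    _ ≤ 12 * (Low 3 M).card + 12 * (Low 3 (dual M)).card := add_le_add h1 h2
    _ ≤ 24 * (KK 3 M).card := by omega

/-- **the main counting bound** -/
theorem card_bad_le {r g G : ℕ} (hn : 0 < n) (T : Finset (Mat n))
    (hT : ∀ M ∈ T, rk M = r ∧ NoShallow 3 M ∧ Wide g M ∧ G ≤ 24 * (KK 3 M).card)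
    (v : ℝ) (hv0 : 0 < v) (hv1 : v ≤ 1) (hv : v ^ (48 * n) = 1 / 2) :
    (T.card : ℝ) ≤ (matR n r).card *
      (v ^ G * (1 + v ^ ((min r (n - r) - 1) * (g * g))) ^ (2 * (2 ^ n * (n + 1)))) := by
  classical
  set h := (min r (n - r) - 1) * (g * g) with hh
  -- fibres
  have h1 : (T.card : ℝ) = ∑ K ∈ T.image (KK 3), ((T.filter (fun M => KK 3 M = K)).card : ℝ) := by
    rw [← Nat.cast_sum, ← Finset.card_eq_sum_card_image]
  have h2 : ∀ K ∈ T.image (KK 3), ((T.filter (fun M => KK 3 M = K)).card : ℝ) ≤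
      (matR n r).card * v ^ (48 * K.card) := by
    intro K _
    obtain ⟨a, ha1, ha2⟩ := card_fiber_le (r := r) hn K (T.filter (fun M => KK 3 M = K))
      (fun M hM => by
        obtain ⟨h3, h4⟩ := Finset.mem_filter.mp hM
        exact ⟨(hT M h3).1, (hT M h3).2.1, h4⟩)
    have h3 : ((T.filter (fun M => KK 3 M = K)).card : ℝ) * 2 ^ a ≤ (matR n r).card := by
      exact_mod_cast ha2
    have h4 : (v ^ (48 * K.card)) ≥ (1 / 2) ^ a := by
      rw [← hv, ← pow_mul]
      refine pow_le_pow_of_le_one hv0.le hv1 ?_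
      calc 48 * K.card ≤ 48 * (n * a) := Nat.mul_le_mul_left _ ha1
        _ = 48 * n * a := by ring
    calc ((T.filter (fun M => KK 3 M = K)).card : ℝ)
        = (((T.filter (fun M => KK 3 M = K)).card : ℝ) * 2 ^ a) * (1 / 2) ^ a := by
          rw [mul_assoc, ← mul_pow]; norm_num
      _ ≤ (matR n r).card * (1 / 2) ^ a := mul_le_mul_of_nonneg_right h3 (by positivity)
      _ ≤ (matR n r).card * v ^ (48 * K.card) := mul_le_mul_of_nonneg_left h4 (by positivity)
  rw [h1]
  refine (Finset.sum_le_sum h2).trans ?_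
  rw [← Finset.mul_sum]
  refine mul_le_mul_of_nonneg_left ?_ (by positivity)
  -- coding
  have hch : ∀ K : Finset (Finset (Fin n)), ∃ M : Mat n, K ∈ T.image (KK 3) → M ∈ T ∧ KK 3 M = K := by
    intro K
    by_cases hK : K ∈ T.image (KK 3)
    · obtain ⟨M, hM, hMK⟩ := Finset.mem_image.mp hK
      exact ⟨M, fun _ => ⟨hM, hMK⟩⟩
    · obtain ⟨M⟩ : Nonempty (Mat n) := ⟨⟨Matroid.loopyOn Set.univ, rfl⟩⟩
      exact ⟨M, fun h => absurd h hK⟩
  choose m hm using hch
  have h3 : ∑ K ∈ T.image (KK 3), v ^ (48 * K.card) ≤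
      ∑ q ∈ (univP n).powerset ×ˢ (univP n).powerset, v ^ G * (v ^ (h * q.1.card) *
        v ^ (h * q.2.card)) := by
    refine sum_le_sum_inj _ _ _ (fun q : Finset (Finset (Fin n) × ℕ) ×
      Finset (Finset (Fin n) × ℕ) => v ^ G * (v ^ (h * q.1.card) * v ^ (h * q.2.card)))
      (fun K => (FF 3 (m K), FF 3 (dual (m K)))) ?_ ?_ ?_ ?_
    · intro K _
      exact Finset.mem_product.mpr ⟨Finset.mem_powerset.mpr (FF_subset _ _),
        Finset.mem_powerset.mpr (FF_subset _ _)⟩
    · intro K hK L hL hKL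
      obtain ⟨a1, a2⟩ := hm K (Finset.mem_coe.mp hK)
      obtain ⟨b1, b2⟩ := hm L (Finset.mem_coe.mp hL)
      have c1 : FF 3 (m K) = FF 3 (m L) := congrArg Prod.fst hKL
      have c2 : FF 3 (dual (m K)) = FF 3 (dual (m L)) := congrArg Prod.snd hKL
      rw [← a2, ← b2]
      exact KK_eq_of_codes ((hT _ a1).1.trans (hT _ b1).1.symm) c1 c2
    · intro q _; positivity
    · intro K hK
      obtain ⟨a1, a2⟩ := hm K hK
      obtain ⟨b1, _, b3, b4⟩ := hT _ a1
      have c1 := codes_le b3
      rw [b1, a2] at c1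
      rw [a2] at b4
      show v ^ (48 * K.card) ≤ v ^ G * (v ^ (h * (FF 3 (m K)).card) *
        v ^ (h * (FF 3 (dual (m K))).card))
      rw [← pow_add, ← pow_add]
      refine pow_le_pow_of_le_one hv0.le hv1 ?_
      have : h * (FF 3 (m K)).card + h * (FF 3 (dual (m K))).card =
          ((FF 3 (m K)).card + (FF 3 (dual (m K))).card) * h := by ring
      rw [this, hh]
      omega
  refine h3.trans (le_of_eq ?_)
  have h4 : ∑ S ∈ (univP n).powerset, v ^ (h * S.card) = (1 + v ^ h) ^ (2 ^ n * (n + 1)) := by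
    have h5 := Finset.sum_pow_mul_eq_add_pow (v ^ h) 1 (univP n)
    simp only [one_pow, mul_one] at h5
    rw [card_univP] at h5
    rw [add_comm 1, ← h5]
    exact Finset.sum_congr rfl (fun S _ => by rw [pow_mul])
  rw [← Finset.mul_sum, Finset.sum_product]
  have h6 : ∑ x ∈ (univP n).powerset, ∑ y ∈ (univP n).powerset,
      (v ^ (h * x.card) * v ^ (h * y.card)) =
      (∑ S ∈ (univP n).powerset, v ^ (h * S.card)) *
        ∑ S ∈ (univP n).powerset, v ^ (h * S.card) := by
    rw [Finset.sum_mul_sum]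
  rw [h6, h4, ← pow_add, two_mul]

end H83Pav
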