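import Pool.Agent.H83Pav.Sup
import Pool.Agent.H83Pav.Sum

/-!
MP_039b14_co: the sum over the codes when there is a small circuit or cocircuit.
-/

namespace H83Pav

open Finset H38Pav H83E

variable {n : ℕ}

theorem low_mono {d e : ℕ} (h : e ≤ d) (M : Mat n) : Low d M ⊆ Low e M := by
  intro X hX
  obtain ⟨h1, C, h2, h3, h4⟩ := mem_Low.mp hX
  exact mem_Low.mpr ⟨h1, C, h2, h3, by omega⟩

/-- the type of the codes -/
abbrev Cod (n : ℕ) := (Finset (Finset (Fin n) × ℕ)) × (Finset (Finset (Fin n)) ×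
  (Finset (Finset (Fin n)) × (Finset (Finset (Fin n)) ×
    (Finset (Finset (Fin n)) × Finset (Finset (Fin n))))))

noncomputable instance (n : ℕ) : DecidableEq (Cod n) := Classical.decEq _

/-- the code of a matroid -/
noncomputable def code (a s t : ℕ) (M : Mat n) : Cod n :=
  (FF 3 M, Gi t M, Ff a M, NG a t M, Em a s t M, IG a s M)

theorem low_eq_of_code {a s t : ℕ} {M N : Mat n} (h : rk M = rk N)
    (hc : code a s t M = code a s t N) : Low 2 M = Low 2 N := by
  simp only [code, Prod.mk.injEq] at hc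
  obtain ⟨h1, _, h3, h4, h5, h6⟩ := hc
  refine low_two_eq (a := a) h h1 h3 ?_
  rw [thin_eq (a := a) (s := s) (t := t) M, thin_eq (a := a) (s := s) (t := t) N, h4, h5, h6]

theorem KK_eq_of_code {a s t : ℕ} {M N : Mat n} (h : rk M = rk N)
    (hc : code a s t M = code a s t N) (hc' : code a s t (dual M) = code a s t (dual N)) :
    KK 2 M = KK 2 N := by
  have h1 := low_eq_of_code h hc
  have h2 : rk (dual M) = rk (dual N) := by rw [rk_dual, rk_dual, h]
  have h3 := low_eq_of_code h2 hc'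
  ext X
  rw [mem_KK, mem_KK, h1, h3]

/-- the very large flats among the large flats -/
noncomputable def sup (s : ℕ) (GG : Finset (Finset (Fin n))) : Finset (Finset (Fin n)) :=
  GG.filter (fun G => n ≤ G.card + s)

/-- the logarithm of the weight of a code -/
noncomputable def lam (n a s g ρ : ℕ) (β : ℝ) (c : Cod n) : ℝ :=
  β * ((n / 3 * (g * g) : ℕ) : ℝ) / 384 * c.1.card +
  β * ((n / 3).choose 2 : ℝ) / 32 * c.2.1.card +
  β * (a.choose 3 : ℝ) / 32 * c.2.2.1.card +
  β * ((n / 3 * (n / 20) : ℕ) : ℝ) / 64 * c.2.2.2.1.card +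
  β * ((n / 3 * s : ℕ) : ℝ) / 64 * c.2.2.2.2.1.card +
  β / 128 * (UU (ρ - 2) c.2.1).card +
  β / 32 * (KT ρ (TG (sup s c.2.1))).card

/-- the numerical conditions on the rank -/
structure Good (n a s ρ : ℕ) : Prop where
  h2 : 2 ≤ ρ
  h3 : n / 3 ≤ n - ρ - a
  h4 : n / 3 ≤ n - ρ - 1
  h5 : n / 3 ≤ n - n / 20 - (ρ - 2)
  h6 : ρ.choose 2 ≤ 4 * (n - n / 20 - (ρ - 2)).choose 2
  h7 : ρ + a + 2 * s ≤ n + 2
  h8 : s ≤ n / 20
  h9 : 0 < (n - n / 20 - (ρ - 2)).choose 2

theorem lam_le {a s g ρ : ℕ} {β : ℝ} (hβ : 0 ≤ β) (hgood : Good n a s ρ) {M : Mat n}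
    (hrk : rk M = ρ) (hM : NoShallow 2 M) (hg : ∀ D, Circ (dual M) D → g ≤ D.card) :
    lam n a s g ρ β (code a s (n / 20) M) ≤ 7 * β / 32 * (KK 2 M).card := by
  have hlk := Finset.card_le_card (low_subset_KK 2 M)
  have hlk3 := (Finset.card_le_card (low_mono (show 2 ≤ 3 by norm_num) M)).trans hlk
  set K : ℝ := ((KK 2 M).card : ℝ) with hK
  have e1 : ((n / 3 * (g * g) : ℕ) : ℝ) * ((FF 3 M).card : ℝ) ≤ 12 * K := by
    have h1 := card_FF_le (M := M) (g := g) hg
    have h2 : (FF 3 M).card * (n / 3 * (g * g)) ≤ 12 * (KK 2 M).card := by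
      calc _ ≤ (FF 3 M).card * ((n - rk M - 1) * (g * g)) := by
            rw [hrk]
            exact Nat.mul_le_mul_left _ (Nat.mul_le_mul_right _ hgood.h4)
        _ ≤ _ := h1
        _ ≤ _ := Nat.mul_le_mul_left _ hlk3
    rw [mul_comm, hK]; exact_mod_cast h2
  have e2 : ((n / 3).choose 2 : ℝ) * ((Gi (n / 20) M).card : ℝ) ≤ K := by
    have h1 := card_Gi_le (t := n / 20) hM
    have h2 : (Gi (n / 20) M).card * (n / 3).choose 2 ≤ (KK 2 M).card := by
      refine le_trans (Nat.mul_le_mul_left _ (Nat.choose_le_choose 2 ?_)) h1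
      rw [hrk]; exact hgood.h5
    rw [mul_comm, hK]; exact_mod_cast h2
  have e3 : (a.choose 3 : ℝ) * ((Ff a M).card : ℝ) ≤ K := by
    have h1 := (card_Ff_le (a := a) (M := M)).trans hlk
    rw [mul_comm, hK]; exact_mod_cast h1
  have e4 : ((n / 3 * (n / 20) : ℕ) : ℝ) * ((NG a (n / 20) M).card : ℝ) ≤ 2 * K := by
    have h1 := card_NG_le (a := a) (t := n / 20) (M := M)
    have h2 : (NG a (n / 20) M).card * (n / 3 * (n / 20)) ≤ 2 * (KK 2 M).card := by
      calc _ ≤ (NG a (n / 20) M).card * ((n - rk M - a) * (n / 20)) := by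
            rw [hrk]
            exact Nat.mul_le_mul_left _ (Nat.mul_le_mul_right _ hgood.h3)
        _ ≤ _ := h1
        _ ≤ _ := Nat.mul_le_mul_left _ hlk
    rw [mul_comm, hK]; exact_mod_cast h2
  have e5 : ((n / 3 * s : ℕ) : ℝ) * ((Em a s (n / 20) M).card : ℝ) ≤ 2 * K := by
    have h1 := card_Em_le (a := a) (s := s) (t := n / 20) (M := M)
    have h2 : (Em a s (n / 20) M).card * (n / 3 * s) ≤ 2 * (KK 2 M).card := by
      calc _ ≤ (Em a s (n / 20) M).card * ((n - rk M - a) * s) := by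
            rw [hrk]
            exact Nat.mul_le_mul_left _ (Nat.mul_le_mul_right _ hgood.h3)
        _ ≤ _ := h1
        _ ≤ _ := Nat.mul_le_mul_left _ hlk
    rw [mul_comm, hK]; exact_mod_cast h2
  have e6 : ((UU (ρ - 2) (Gi (n / 20) M)).card : ℝ) ≤ 4 * K := by
    have h1 := card_UU_le (t := n / 20) hM (by rw [hrk]; exact hgood.h2)
    rw [hrk] at h1
    have h2 : (UU (ρ - 2) (Gi (n / 20) M)).card * (n - n / 20 - (ρ - 2)).choose 2 ≤
        (4 * (KK 2 M).card) * (n - n / 20 - (ρ - 2)).choose 2 := by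
      refine h1.trans ?_
      calc ρ.choose 2 * (KK 2 M).card ≤
            (4 * (n - n / 20 - (ρ - 2)).choose 2) * (KK 2 M).card :=
            Nat.mul_le_mul_right _ hgood.h6
        _ = _ := by ring
    have h3 := Nat.le_of_mul_le_mul_right h2 hgood.h9
    rw [hK]; exact_mod_cast h3
  have e7 : ((KT ρ (TG (sup s (Gi (n / 20) M)))).card : ℝ) ≤ K := by
    have h1 : sup s (Gi (n / 20) M) = Gi s M := (Gi_eq_filter hgood.h8 M).symm
    rw [h1]
    have h2 := Finset.card_le_card (KT_subset (s := s) hM)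
    rw [hrk] at h2
    rw [hK]; exact_mod_cast h2
  unfold lam code
  simp only
  have f1 := mul_le_mul_of_nonneg_left e1 hβ
  have f2 := mul_le_mul_of_nonneg_left e2 hβ
  have f3 := mul_le_mul_of_nonneg_left e3 hβ
  have f4 := mul_le_mul_of_nonneg_left e4 hβ
  have f5 := mul_le_mul_of_nonneg_left e5 hβ
  have f6 := mul_le_mul_of_nonneg_left e6 hβ
  have f7 := mul_le_mul_of_nonneg_left e7 hβ
  nlinarith [f1, f2, f3, f4, f5, f6, f7]

theorem sum_powerset_exp {α : Type*} [DecidableEq α] (U : Finset α) (b : ℝ) :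
    ∑ S ∈ U.powerset, Real.exp (-(b * S.card)) = (1 + Real.exp (-b)) ^ U.card := by
  have h := Finset.sum_pow_mul_eq_add_pow (Real.exp (-b)) 1 U
  simp only [one_pow, mul_one] at h
  rw [add_comm 1, ← h]
  refine Finset.sum_congr rfl (fun S _ => ?_)
  rw [← Real.exp_nat_mul]; ring_nf

/-- the possible families of thin circuits in very large flats -/
noncomputable def EEf (a s t : ℕ) (T : Finset (Mat n)) (T3 : Finset (Finset (Fin n) × ℕ))
    (GG : Finset (Finset (Fin n))) : Finset (Finset (Finset (Fin n))) :=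
  (T.filter (fun M => FF 3 M = T3 ∧ Gi t M = GG)).image (IG a s)

/-- the sum over all codes -/
theorem sum_code_le {a s g ρ : ℕ} {β : ℝ} (hβ : 0 ≤ β) (T : Finset (Mat n))
    (hrk : ∀ M ∈ T, rk M = ρ)
    (h1 : Real.exp (-(β * ((n / 3 * s : ℕ) : ℝ) / 64)) ≤ β / 128)
    (h2 : ∀ T3 GG, ((EEf a s (n / 20) T T3 GG).card : ℝ) ≤
      Real.exp (β / 32 * (KT ρ (TG (sup s GG))).card)) :
    ∑ c ∈ T.image (code a s (n / 20)), Real.exp (-(lam n a s g ρ β c)) ≤
      Real.exp (2 ^ n * (n + 1) * (Real.exp (-(β * ((n / 3 * (g * g) : ℕ) : ℝ) / 384)) +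
        Real.exp (-(β * ((n / 3).choose 2 : ℝ) / 32)) +
        Real.exp (-(β * (a.choose 3 : ℝ) / 32)) +
        Real.exp (-(β * ((n / 3 * (n / 20) : ℕ) : ℝ) / 64)))) := by
  classical
  set b1 : ℝ := β * ((n / 3 * (g * g) : ℕ) : ℝ) / 384 with hb1
  set b2 : ℝ := β * ((n / 3).choose 2 : ℝ) / 32 with hb2
  set b3 : ℝ := β * (a.choose 3 : ℝ) / 32 with hb3
  set b4 : ℝ := β * ((n / 3 * (n / 20) : ℕ) : ℝ) / 64 with hb4
  set b5 : ℝ := β * ((n / 3 * s : ℕ) : ℝ) / 64 with hb5
  set u : ℝ := β / 128 with hu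
  set w : ℝ := β / 32 with hw
  let A : Finset ((Finset (Finset (Fin n) × ℕ)) × (Finset (Finset (Fin n)) ×
      (Finset (Finset (Fin n)) × Finset (Finset (Fin n))))) :=
    (univP n).powerset ×ˢ ((univ : Finset (Finset (Fin n))).powerset ×ˢ
      ((univ : Finset (Finset (Fin n))).powerset ×ˢ (univ : Finset (Finset (Fin n))).powerset))
  let B : ((Finset (Finset (Fin n) × ℕ)) × (Finset (Finset (Fin n)) ×
      (Finset (Finset (Fin n)) × Finset (Finset (Fin n))))) →
      Finset (Finset (Finset (Fin n)) × Finset (Finset (Fin n))) := fun q =>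
    (UU (ρ - 2) q.2.1).powerset ×ˢ (EEf a s (n / 20) T q.1 q.2.1)
  let F : (Σ _ : ((Finset (Finset (Fin n) × ℕ)) × (Finset (Finset (Fin n)) ×
      (Finset (Finset (Fin n)) × Finset (Finset (Fin n))))),
      (Finset (Finset (Fin n)) × Finset (Finset (Fin n)))) → ℝ := fun z =>
    Real.exp (-(b1 * z.1.1.card)) * (Real.exp (-(b2 * z.1.2.1.card)) *
      (Real.exp (-(b3 * z.1.2.2.1.card)) * Real.exp (-(b4 * z.1.2.2.2.card)))) *
      ((Real.exp (-(b5 * z.2.1.card)) * Real.exp (-(u * (UU (ρ - 2) z.1.2.1).card))) *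
        Real.exp (-(w * (KT ρ (TG (sup s z.1.2.1))).card)))
  have hstep1 : ∑ c ∈ T.image (code a s (n / 20)), Real.exp (-(lam n a s g ρ β c)) ≤
      ∑ z ∈ A.sigma B, F z := by
    refine sum_le_sum_inj _ _ _ F (fun c : Cod n =>
      ⟨(c.1, c.2.1, c.2.2.1, c.2.2.2.1), (c.2.2.2.2.1, c.2.2.2.2.2)⟩) ?_ ?_ ?_ ?_
    · intro c hc
      obtain ⟨M, hM, rfl⟩ := Finset.mem_image.mp hc
      refine Finset.mem_sigma.mpr ⟨?_, ?_⟩
      · refine Finset.mem_product.mpr ⟨Finset.mem_powerset.mpr (FF_subset 3 M),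
          Finset.mem_product.mpr ⟨Finset.mem_powerset.mpr (Finset.subset_univ _),
            Finset.mem_product.mpr ⟨Finset.mem_powerset.mpr (Finset.subset_univ _),
              Finset.mem_powerset.mpr (Finset.subset_univ _)⟩⟩⟩
      · refine Finset.mem_product.mpr ⟨Finset.mem_powerset.mpr ?_, ?_⟩
        · have := Em_subset (a := a) (s := s) (t := n / 20) M
          rw [hrk M hM] at this
          exact this
        · exact Finset.mem_image.mpr ⟨M, Finset.mem_filter.mpr ⟨hM, rfl, rfl⟩, rfl⟩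
    · rintro ⟨c1, c2, c3, c4, c5, c6⟩ _ ⟨d1, d2, d3, d4, d5, d6⟩ _ h
      simp only [Sigma.mk.injEq, Prod.mk.injEq, heq_eq_eq] at h
      obtain ⟨⟨e1, e2, e3, e4⟩, e5, e6⟩ := h
      rw [e1, e2, e3, e4, e5, e6]
    · intro z _; positivity
    · intro c _
      apply le_of_eq
      simp only [F, lam]
      rw [← Real.exp_add, ← Real.exp_add, ← Real.exp_add, ← Real.exp_add, ← Real.exp_add,
        ← Real.exp_add]
      congr 1
      ring
  refine hstep1.trans ?_
  rw [Finset.sum_sigma]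
  have hinner : ∀ q ∈ A, ∑ b ∈ B q, F ⟨q, b⟩ ≤
      Real.exp (-(b1 * q.1.card)) * (Real.exp (-(b2 * q.2.1.card)) *
      (Real.exp (-(b3 * q.2.2.1.card)) * Real.exp (-(b4 * q.2.2.2.card)))) := by
    intro q _
    have e1 : ∑ b ∈ B q, F ⟨q, b⟩ = (Real.exp (-(b1 * q.1.card)) * (Real.exp (-(b2 * q.2.1.card)) *
      (Real.exp (-(b3 * q.2.2.1.card)) * Real.exp (-(b4 * q.2.2.2.card))))) *
      (((∑ E ∈ (UU (ρ - 2) q.2.1).powerset, Real.exp (-(b5 * E.card))) *
        Real.exp (-(u * (UU (ρ - 2) q.2.1).card))) *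
        ((EEf a s (n / 20) T q.1 q.2.1).card *
          Real.exp (-(w * (KT ρ (TG (sup s q.2.1))).card)))) := by
      simp only [F, B]
      rw [← Finset.mul_sum]
      congr 1
      rw [Finset.sum_product, Finset.sum_mul, Finset.sum_mul]
      refine Finset.sum_congr rfl (fun E _ => ?_)
      simp only
      rw [Finset.sum_const, nsmul_eq_mul]
      ring
    rw [e1, sum_powerset_exp]
    have e2 : (1 + Real.exp (-b5)) ^ (UU (ρ - 2) q.2.1).card *
        Real.exp (-(u * (UU (ρ - 2) q.2.1).card)) ≤ 1 := by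
      have e3 : Real.exp (-(u * (UU (ρ - 2) q.2.1).card)) =
          (Real.exp (-u)) ^ (UU (ρ - 2) q.2.1).card := by
        rw [← Real.exp_nat_mul]; ring_nf
      rw [e3, ← mul_pow]
      refine pow_le_one₀ (by positivity) ?_
      have e4 : 1 + Real.exp (-b5) ≤ Real.exp u := by
        have := Real.add_one_le_exp u
        linarith
      calc (1 + Real.exp (-b5)) * Real.exp (-u) ≤ Real.exp u * Real.exp (-u) :=
            mul_le_mul_of_nonneg_right e4 (Real.exp_pos _).le
        _ = 1 := by rw [← Real.exp_add, add_neg_cancel, Real.exp_zero]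
    have e5 : ((EEf a s (n / 20) T q.1 q.2.1).card : ℝ) *
          Real.exp (-(w * (KT ρ (TG (sup s q.2.1))).card)) ≤ 1 := by
      calc _ ≤ Real.exp (w * (KT ρ (TG (sup s q.2.1))).card) *
            Real.exp (-(w * (KT ρ (TG (sup s q.2.1))).card)) :=
            mul_le_mul_of_nonneg_right (h2 q.1 q.2.1) (Real.exp_pos _).le
        _ = 1 := by rw [← Real.exp_add, add_neg_cancel, Real.exp_zero]
    have e6 : ((1 + Real.exp (-b5)) ^ (UU (ρ - 2) q.2.1).card *
        Real.exp (-(u * (UU (ρ - 2) q.2.1).card))) *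
        ((EEf a s (n / 20) T q.1 q.2.1).card *
          Real.exp (-(w * (KT ρ (TG (sup s q.2.1))).card))) ≤ 1 :=
      mul_le_one₀ e2 (by positivity) e5
    exact mul_le_of_le_one_right (by positivity) e6
  refine (Finset.sum_le_sum hinner).trans ?_
  -- the product of the four sums
  have hprod : ∑ q ∈ A, Real.exp (-(b1 * q.1.card)) * (Real.exp (-(b2 * q.2.1.card)) *
      (Real.exp (-(b3 * q.2.2.1.card)) * Real.exp (-(b4 * q.2.2.2.card)))) =
      (1 + Real.exp (-b1)) ^ (univP n).card * ((1 + Real.exp (-b2)) ^ (2 ^ n) *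
        ((1 + Real.exp (-b3)) ^ (2 ^ n) * (1 + Real.exp (-b4)) ^ (2 ^ n))) := by
    have hcu : (univ : Finset (Finset (Fin n))).card = 2 ^ n := by
      rw [Finset.card_univ, Fintype.card_finset, Fintype.card_fin]
    rw [Finset.sum_product]
    have e1 : ∀ S : Finset (Finset (Fin n) × ℕ), ∑ y ∈ (univ : Finset (Finset (Fin n))).powerset ×ˢ
      ((univ : Finset (Finset (Fin n))).powerset ×ˢ (univ : Finset (Finset (Fin n))).powerset),
      Real.exp (-(b1 * S.card)) * (Real.exp (-(b2 * y.1.card)) *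
      (Real.exp (-(b3 * y.2.1.card)) * Real.exp (-(b4 * y.2.2.card)))) =
      Real.exp (-(b1 * S.card)) * ((1 + Real.exp (-b2)) ^ (2 ^ n) *
        ((1 + Real.exp (-b3)) ^ (2 ^ n) * (1 + Real.exp (-b4)) ^ (2 ^ n))) := by
      intro S
      rw [← Finset.mul_sum]
      congr 1
      rw [Finset.sum_product]
      have e2 : ∀ S : Finset (Finset (Fin n)), ∑ y ∈
        ((univ : Finset (Finset (Fin n))).powerset ×ˢ (univ : Finset (Finset (Fin n))).powerset),
        Real.exp (-(b2 * S.card)) *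
        (Real.exp (-(b3 * y.1.card)) * Real.exp (-(b4 * y.2.card))) =
        Real.exp (-(b2 * S.card)) *
          ((1 + Real.exp (-b3)) ^ (2 ^ n) * (1 + Real.exp (-b4)) ^ (2 ^ n)) := by
        intro S
        rw [← Finset.mul_sum]
        congr 1
        rw [Finset.sum_product]
        have e3 : ∀ S : Finset (Finset (Fin n)), ∑ y ∈ (univ : Finset (Finset (Fin n))).powerset,
          Real.exp (-(b3 * S.card)) * Real.exp (-(b4 * y.card)) =
          Real.exp (-(b3 * S.card)) * (1 + Real.exp (-b4)) ^ (2 ^ n) := by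
          intro S
          rw [← Finset.mul_sum, sum_powerset_exp, hcu]
        simp only [e3]
        rw [← Finset.sum_mul, sum_powerset_exp, hcu]
      simp only [e2]
      rw [← Finset.sum_mul, sum_powerset_exp, hcu]
    simp only [e1]
    rw [← Finset.sum_mul, sum_powerset_exp]
  rw [hprod]
  have hle : ∀ (b : ℝ) (m : ℕ), (1 + Real.exp (-b)) ^ m ≤ Real.exp (m * Real.exp (-b)) := by
    intro b m
    calc (1 + Real.exp (-b)) ^ m ≤ (Real.exp (Real.exp (-b))) ^ m :=
          pow_le_pow_left₀ (by positivity) (by linarith [Real.add_one_le_exp (Real.exp (-b))]) m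
      _ = _ := by rw [← Real.exp_nat_mul]
  calc _ ≤ Real.exp ((univP n).card * Real.exp (-b1)) * (Real.exp ((2 ^ n : ℕ) * Real.exp (-b2)) *
        (Real.exp ((2 ^ n : ℕ) * Real.exp (-b3)) * Real.exp ((2 ^ n : ℕ) * Real.exp (-b4)))) := by
        have k1 := hle b1 (univP n).card
        have k2 := hle b2 (2 ^ n)
        have k3 := hle b3 (2 ^ n)
        have k4 := hle b4 (2 ^ n)
        gcongr
    _ ≤ _ := by
        rw [← Real.exp_add, ← Real.exp_add, ← Real.exp_add, card_univP]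
        apply Real.exp_le_exp.mpr
        push_cast
        have p2 : (0 : ℝ) < Real.exp (-b2) := Real.exp_pos _
        have p3 : (0 : ℝ) < Real.exp (-b3) := Real.exp_pos _
        have p4 : (0 : ℝ) < Real.exp (-b4) := Real.exp_pos _
        have hn0 : (0 : ℝ) ≤ n := by positivity
        have q2 : (2 : ℝ) ^ n * Real.exp (-b2) ≤ 2 ^ n * (n + 1) * Real.exp (-b2) := by
          refine mul_le_mul_of_nonneg_right ?_ p2.le
          exact le_mul_of_one_le_right (by positivity) (by linarith)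
        have q3 : (2 : ℝ) ^ n * Real.exp (-b3) ≤ 2 ^ n * (n + 1) * Real.exp (-b3) := by
          refine mul_le_mul_of_nonneg_right ?_ p3.le
          exact le_mul_of_one_le_right (by positivity) (by linarith)
        have q4 : (2 : ℝ) ^ n * Real.exp (-b4) ≤ 2 ^ n * (n + 1) * Real.exp (-b4) := by
          refine mul_le_mul_of_nonneg_right ?_ p4.le
          exact le_mul_of_one_le_right (by positivity) (by linarith)
        linarith

end H83Pav
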