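import Pool.Agent.H83Pav.Mid

/-!
MP_039b14_co: thin circuits of size `r(M) - 2` inside very large flats.
-/

namespace H83Pav

open Finset H38Pav H83E

variable {n : ℕ}

/-- the complements of the members of a family -/
noncomputable def TG (GG : Finset (Finset (Fin n))) : Finset (Finset (Fin n)) :=
  GG.image (fun G => Gᶜ)

theorem mem_TG {GG : Finset (Finset (Fin n))} {T : Finset (Fin n)} :
    T ∈ TG GG ↔ ∃ G ∈ GG, Gᶜ = T := by
  rw [TG, Finset.mem_image]

theorem card_TG {s g : ℕ} {M : Mat n} (hg : ∀ D, Circ (dual M) D → g ≤ D.card)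
    {T : Finset (Fin n)} (hT : T ∈ TG (Gi s M)) : g ≤ T.card ∧ T.card ≤ s := by
  obtain ⟨G, hG, rfl⟩ := mem_TG.mp hT
  obtain ⟨⟨Z, _, hZc, hZG⟩, hGc⟩ := mem_Gi.mp hG
  constructor
  · rw [← hZG]
    exact card_compl_clo hg (by omega)
  · rw [Finset.card_compl, Fintype.card_fin]; omega

theorem KT_subset {s : ℕ} {M : Mat n} (hM : NoShallow 2 M) :
    KT (rk M) (TG (Gi s M)) ⊆ KK 2 M := by
  intro X hX
  obtain ⟨hXc, T, hT, hXT⟩ := mem_KT.mp hX
  obtain ⟨G, hG, rfl⟩ := mem_TG.mp hT
  obtain ⟨⟨Z, _, hZc, hZG⟩, _⟩ := mem_Gi.mp hG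
  have h1 : (X ∩ G).card + (X ∩ Gᶜ).card = X.card := by
    have := Finset.card_inter_add_card_sdiff X G
    rwa [Finset.sdiff_eq_inter_compl] at this
  obtain ⟨Y, hYX, hY⟩ := Finset.exists_subset_card_eq (s := X ∩ G) (n := Z.card + 1) (by omega)
  refine mem_KK_of_dep hM hXc (hYX.trans Finset.inter_subset_left) (by omega) (fun hi => ?_)
  have h2 : Y ⊆ clo M Z := by rw [hZG]; exact hYX.trans Finset.inter_subset_right
  have := card_le_of_subset_clo h2 hi
  omega

theorem IG_subset_leanU {a s : ℕ} {M : Mat n} (hn : rk M + a + 2 * s ≤ n + 2) :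
    IG a s M ⊆ leanU (rk M - 2) (TG (Gi s M)) := by
  intro C hC
  obtain ⟨hthin, G, hG, hCG⟩ := mem_IG.mp hC
  obtain ⟨⟨hC1, hC2⟩, hth⟩ := mem_thin.mp hthin
  obtain ⟨⟨Z, hZ, hZc, hZG⟩, hGc⟩ := mem_Gi.mp hG
  refine mem_leanU.mpr ⟨by omega, Gᶜ, mem_TG.mpr ⟨G, hG, rfl⟩, ?_, ?_⟩
  · rw [Finset.disjoint_left]
    intro z hz hz'
    exact Finset.mem_compl.mp hz' (hCG hz)
  · intro T' hT' hne
    obtain ⟨G', hG', rfl⟩ := mem_TG.mp hT'
    obtain ⟨⟨Z', hZ', hZc', hZG'⟩, hGc'⟩ := mem_Gi.mp hG'
    have hGG : G' ≠ G := fun h => hne (by rw [h])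
    by_contra hcon
    rcases Nat.lt_or_ge 0 (C ∩ G'ᶜ).card with h0 | h0
    · -- exactly one element
      obtain ⟨e, he⟩ := Finset.card_eq_one.mp (show (C ∩ G'ᶜ).card = 1 by omega)
      have he1 : e ∈ C ∩ G'ᶜ := by rw [he]; exact Finset.mem_singleton_self _
      obtain ⟨heC, heG⟩ := Finset.mem_inter.mp he1
      apply Finset.mem_compl.mp heG
      rw [← hZG']
      refine mem_clo_of_circ hC1 heC ?_
      intro w hw
      obtain ⟨hwe, hwC⟩ := Finset.mem_erase.mp hw
      rw [hZG']
      by_contra hwG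
      have : w ∈ C ∩ G'ᶜ := Finset.mem_inter.mpr ⟨hwC, Finset.mem_compl.mpr hwG⟩
      rw [he] at this
      exact hwe (Finset.mem_singleton.mp this)
    · have hCG' : C ⊆ G' := by
        intro w hw
        by_contra hwG
        have : w ∈ C ∩ G'ᶜ := Finset.mem_inter.mpr ⟨hw, Finset.mem_compl.mpr hwG⟩
        have h1 := Finset.card_pos.mpr ⟨w, this⟩
        omega
      obtain ⟨c, hc⟩ := Finset.card_pos.mp (circ_card_pos hC1)
      have hpos := circ_card_pos hC1
      have hsub : G ∩ G' ⊆ clo M C := by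
        intro w hw
        obtain ⟨hwG, hwG'⟩ := Finset.mem_inter.mp hw
        by_contra hwC
        have hwC' : w ∉ clo M (C.erase c) := by rw [clo_erase hC1 hc]; exact hwC
        have h1 := indep_insert (indep_erase hC1 hc) hwC'
        have h2 : (insert w (C.erase c)).card + 2 = rk M := by
          rw [Finset.card_insert_of_notMem (fun h => hwC' (subset_clo M _ h)),
            Finset.card_erase_of_mem hc]
          omega
        have h3 : clo M (insert w (C.erase c)) = G := by
          rw [← hZG]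
          refine clo_eq_of_indep ?_ h1 (by omega)
          rw [hZG]
          exact Finset.insert_subset_iff.mpr ⟨hwG, (Finset.erase_subset _ _).trans hCG⟩
        have h4 : clo M (insert w (C.erase c)) = G' := by
          rw [← hZG']
          refine clo_eq_of_indep ?_ h1 (by omega)
          rw [hZG']
          exact Finset.insert_subset_iff.mpr ⟨hwG', (Finset.erase_subset _ _).trans hCG'⟩
        exact hGG (by rw [← h4, h3])
      have h1 := Finset.card_le_card hsub
      have h2 := Finset.card_union_add_card_inter G G'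
      have h3 : (G ∪ G').card ≤ n := by simpa using Finset.card_le_univ (G ∪ G')
      omega

theorem mem_nbr_IG {a s : ℕ} {M : Mat n} {v C' : Finset (Fin n)} (hv : v ∈ IG a s M) :
    C' ∈ nbr v (IG a s M) ↔ C'.card = v.card ∧ (C' ∩ v).card + 1 = v.card ∧
      C' ⊆ clo M v ∧ ¬ ∃ p ∈ FF 3 M, p.2 ≤ (C' ∩ p.1).card := by
  classical
  obtain ⟨hthin, G, hG, hvG⟩ := mem_IG.mp hv
  obtain ⟨⟨hv1, hv2⟩, hvth⟩ := mem_thin.mp hthin
  rw [mem_nbr]
  constructor
  · rintro ⟨hC', hadj⟩
    obtain ⟨hthin', _⟩ := mem_IG.mp hC'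
    obtain ⟨⟨hC1, hC2⟩, _⟩ := mem_thin.mp hthin'
    have hcard : C'.card = v.card := by omega
    refine ⟨hcard, hadj, ?_, ?_⟩
    · intro w hw
      by_cases hwv : w ∈ v
      · exact subset_clo M v hwv
      · have h1 : C' ∩ v ⊆ C'.erase w := by
          intro u hu
          obtain ⟨hu1, hu2⟩ := Finset.mem_inter.mp hu
          refine Finset.mem_erase.mpr ⟨?_, hu1⟩
          rintro rfl
          exact hwv hu2
        have h2 : C'.erase w = C' ∩ v := by
          symm
          refine Finset.eq_of_subset_of_card_le h1 ?_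
          rw [Finset.card_erase_of_mem hw]; omega
        refine mem_clo_of_circ hC1 hw ?_
        rw [h2]
        exact Finset.inter_subset_right.trans (subset_clo M v)
    · rintro ⟨p, hp, hpC⟩
      obtain ⟨D, hD, rfl⟩ := mem_FF.mp hp
      obtain ⟨hD1, hD2⟩ := mem_small.mp hD
      obtain ⟨Y, hYX, hY⟩ := Finset.exists_subset_card_eq hpC
      have hnot : ¬ M.1.Indep (Y : Set (Fin n)) := by
        intro hi
        have h1 := card_circ_of_clo hD1 (hYX.trans Finset.inter_subset_right) hi
        simp only at hY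
        omega
      obtain ⟨D', hD'Y, hD'⟩ := exists_circ hnot
      have h1 := circ_eq hC1 hD' (hD'Y.trans (hYX.trans Finset.inter_subset_left))
      have h2 := Finset.card_le_card hD'Y
      simp only at hY
      rw [h1] at h2
      omega
  · rintro ⟨hcard, hadj, hsub, hno⟩
    refine ⟨?_, hadj⟩
    have hnot : ¬ M.1.Indep (C' : Set (Fin n)) := by
      intro hi
      have h1 := card_circ_of_clo hv1 hsub hi
      omega
    obtain ⟨D, hDC, hD⟩ := exists_circ hnot
    have hDcard : C'.card ≤ D.card := by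
      by_contra hlt
      apply hno
      refine ⟨(clo M D, D.card), mem_FF.mpr ⟨D, mem_small.mpr ⟨hD, by omega⟩, rfl⟩, ?_⟩
      exact Finset.card_le_card (Finset.subset_inter hDC (subset_clo M D))
    have hDe : D = C' := Finset.eq_of_subset_of_card_le hDC hDcard
    rw [hDe] at hD
    obtain ⟨c, hc⟩ := Finset.card_pos.mp (circ_card_pos hD)
    obtain ⟨d, hd⟩ := Finset.card_pos.mp (circ_card_pos hv1)
    have hclo : clo M C' = clo M v := by
      rw [← clo_erase hD hc, ← clo_erase hv1 hd]
      refine clo_eq_of_indep ?_ (indep_erase hD hc) ?_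
      · rw [clo_erase hv1 hd]
        exact (Finset.erase_subset _ _).trans hsub
      · rw [Finset.card_erase_of_mem hc, Finset.card_erase_of_mem hd, hcard]
    refine mem_IG.mpr ⟨mem_thin.mpr ⟨⟨hD, by omega⟩, ?_⟩, G, hG, ?_⟩
    · rw [hclo, hcard]; exact hvth
    · obtain ⟨⟨Z, _, _, hZG⟩, _⟩ := mem_Gi.mp hG
      refine hsub.trans ?_
      rw [← hZG]
      refine clo_subset_clo ?_
      rw [hZG]; exact hvG

theorem card_small_sets (a : ℕ) :
    ((univ : Finset (Finset (Fin n))).filter (fun S => S.card < a)).card ≤ (n + 1) ^ a := by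
  classical
  have h1 : (univ : Finset (Finset (Fin n))).filter (fun S => S.card < a) ⊆
      (Finset.range a).biUnion (fun j => powersetCard j univ) := by
    intro S hS
    have h2 := (Finset.mem_filter.mp hS).2
    exact Finset.mem_biUnion.mpr ⟨S.card, Finset.mem_range.mpr h2,
      Finset.mem_powersetCard.mpr ⟨Finset.subset_univ _, rfl⟩⟩
  calc _ ≤ ((Finset.range a).biUnion (fun j => powersetCard j (univ : Finset (Fin n)))).card :=
        Finset.card_le_card h1
    _ ≤ ∑ j ∈ Finset.range a, (powersetCard j (univ : Finset (Fin n))).card :=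
        Finset.card_biUnion_le
    _ ≤ ∑ j ∈ Finset.range (a + 1), n ^ j * 1 ^ (a - j) * a.choose j := by
        refine (Finset.sum_le_sum (g := fun j => n ^ j * 1 ^ (a - j) * a.choose j)
          (fun j hj => ?_)).trans (Finset.sum_le_sum_of_subset (by
            intro j hj
            rw [Finset.mem_range] at hj ⊢
            omega))
        rw [Finset.card_powersetCard, Finset.card_univ, Fintype.card_fin, one_pow, mul_one]
        have h2 : 0 < a.choose j := Nat.choose_pos (Finset.mem_range.mp hj).le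
        calc n.choose j ≤ n ^ j := Nat.choose_le_pow n j
          _ ≤ n ^ j * a.choose j := Nat.le_mul_of_pos_right _ h2
    _ = (n + 1) ^ a := (add_pow n 1 a).symm

/-- the number of types -/
theorem card_types {a s : ℕ} (T3 : Finset (Finset (Fin n) × ℕ)) (T : Finset (Mat n))
    (hT : ∀ M ∈ T, FF 3 M = T3) (v : Finset (Fin n)) :
    (((T.image (IG a s)).filter (fun E => v ∈ E)).image (nbr v)).card ≤ (n + 1) ^ a := by
  classical
  let φ : Finset (Fin n) → Finset (Finset (Fin n)) := fun S => univ.filter (fun C' =>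
    C'.card = v.card ∧ (C' ∩ v).card + 1 = v.card ∧ C' ⊆ v ∪ S ∧
      ¬ ∃ p ∈ T3, p.2 ≤ (C' ∩ p.1).card)
  have h1 : ((T.image (IG a s)).filter (fun E => v ∈ E)).image (nbr v) ⊆
      ((univ : Finset (Finset (Fin n))).filter (fun S => S.card < a)).image φ := by
    intro N hN
    obtain ⟨E, hE, rfl⟩ := Finset.mem_image.mp hN
    obtain ⟨hE1, hvE⟩ := Finset.mem_filter.mp hE
    obtain ⟨M, hM, rfl⟩ := Finset.mem_image.mp hE1
    have hsub := subset_clo M v
    have hv := hvE
    obtain ⟨hthin, _⟩ := mem_IG.mp hv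
    obtain ⟨_, hvth⟩ := mem_thin.mp hthin
    refine Finset.mem_image.mpr ⟨clo M v \ v, Finset.mem_filter.mpr ⟨Finset.mem_univ _, ?_⟩, ?_⟩
    · rw [Finset.card_sdiff_of_subset hsub]
      have := Finset.card_le_card hsub
      omega
    · ext C'
      rw [mem_nbr_IG hvE, hT M hM, Finset.mem_filter, Finset.union_sdiff_of_subset hsub]
      simp only [Finset.mem_univ, true_and]
  exact (Finset.card_le_card h1).trans (Finset.card_image_le.trans (card_small_sets a))

end H83Pav
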